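import Mathlib

/-! Group theory: self-centralising elements of prime order and coprime normalised subgroups. -/

namespace Pool.Agent.Lib.MP_eb4ae8_co

private theorem asg_sylow {B : Type*} [Group B] [Finite B] (r : ℕ) [Fact r.Prime]
    (h1 : ∀ c : B, orderOf c = r → ∀ g : B, g * c = c * g → g ∈ Subgroup.zpowers c)
    (hdvd : r ∣ Nat.card B) (R : Sylow r B) : Nat.card (R : Subgroup B) = r := by
  have hne : (R : Subgroup B) ≠ ⊥ := R.ne_bot_of_dvd_card hdvd
  haveI : Nontrivial (R : Subgroup B) := (Subgroup.nontrivial_iff_ne_bot _).mpr hne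
  haveI : Nontrivial (Subgroup.center (R : Subgroup B)) := R.isPGroup'.center_nontrivial
  have hZ : IsPGroup r (Subgroup.center (R : Subgroup B)) := R.isPGroup'.to_subgroup _
  obtain ⟨n, hn0, hn⟩ := (IsPGroup.nontrivial_iff_card hZ).mp inferInstance
  have hd : r ∣ Nat.card (Subgroup.center (R : Subgroup B)) := by
    rw [hn]; exact dvd_pow_self r hn0.ne'
  obtain ⟨z, hz⟩ := exists_prime_orderOf_dvd_card' r hd
  have hc : orderOf (((z : (R : Subgroup B)) : B)) = r := by
    rw [Subgroup.orderOf_coe, Subgroup.orderOf_coe]; exact hz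
  have hle : (R : Subgroup B) ≤ Subgroup.zpowers (((z : (R : Subgroup B)) : B)) := by
    intro g hg
    apply h1 _ hc g
    have := Subgroup.mem_center_iff.mp z.2 ⟨g, hg⟩
    exact congrArg Subtype.val this
  have h2 : (R : Subgroup B) = Subgroup.zpowers (((z : (R : Subgroup B)) : B)) := by
    apply le_antisymm hle
    rw [Subgroup.zpowers_le]
    exact (z : (R : Subgroup B)).2
  rw [h2, Nat.card_zpowers, hc]

private theorem asg_conj {B : Type*} [Group B] [Finite B] (r : ℕ) [Fact r.Prime]
    (h1 : ∀ c : B, orderOf c = r → ∀ g : B, g * c = c * g → g ∈ Subgroup.zpowers c)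
    (c d : B) (hc : orderOf c = r) (hd : orderOf d = r) :
    ∃ g : B, ∃ x ∈ Subgroup.zpowers c, d = g * x * g⁻¹ := by
  have hdvd : r ∣ Nat.card B := by rw [← hc]; exact orderOf_dvd_natCard c
  have key : ∀ e : B, orderOf e = r → ∃ R : Sylow r B, (R : Subgroup B) = Subgroup.zpowers e := by
    intro e he
    have hp : IsPGroup r (Subgroup.zpowers e) := by
      apply IsPGroup.of_card (n := 1)
      rw [Nat.card_zpowers, he, pow_one]
    obtain ⟨R, hR⟩ := hp.exists_le_sylow
    refine ⟨R, ?_⟩
    symm
    apply Subgroup.eq_of_le_of_card_ge hR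
    rw [asg_sylow r h1 hdvd R, Nat.card_zpowers, he]
  obtain ⟨R1, e1⟩ := key c hc
  obtain ⟨R2, e2⟩ := key d hd
  obtain ⟨g, hg⟩ := MulAction.exists_smul_eq B R1 R2
  have hdR : d ∈ (R2 : Subgroup B) := by rw [e2]; exact Subgroup.mem_zpowers d
  rw [← hg, Sylow.coe_subgroup_smul] at hdR
  obtain ⟨x, hx, hxd⟩ := (Subgroup.mem_smul_pointwise_iff_exists _ _ _).mp hdR
  refine ⟨g, x, ?_, ?_⟩
  · rw [← e1]; exact hx
  · rw [← hxd]; simp [MulAut.smul_def, MulAut.conj_apply]

/-- First, Sylow `r`-subgroups of `A` have order `r`: let `R` be one and `c` of order `r` in its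
centre; `R` centralises `c`, so `R ≤ ⟨c⟩` by `h1`. Let `N` be a minimal normal subgroup of `A`; by
`h2` (any `c` of order `r` normalises `N`) `r ∣ |N|`. Let `L ≠ ⊥` be a normal subgroup of `N`. If
`r ∤ |L|`, then an element of order `r` of `N` normalises `L` and `h2` gives `L = ⊥`. So
`r ∣ |L|`, and then `L` contains all Sylow `r`-subgroups of `N` (order `r`, conjugate in `N`), so it
contains the subgroup generated by the elements of order `r` of `N`, which is normal in `A`, so equal
to `N`. Hence `N` is simple. If `N` is commutative it has prime order, so order `r`; it is its own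
centraliser by `h1`, and `A` acts on it with kernel `N`: `|A| ≤ r (r-1)`. Otherwise let `c ∈ N` have
order `r`: the centraliser of `N` is in `⟨c⟩`; if it is not trivial it is `⟨c⟩`, so `c` is central in
`N` and `N ≤ ⟨c⟩` by `h1`, commutative, a contradiction. -/
theorem dichotomy {A : Type*} [Group A] [Finite A] (r : ℕ) (hr : r.Prime)
    (hdvd : r ∣ Nat.card A)
    (h1 : ∀ c : A, orderOf c = r → ∀ g : A, g * c = c * g → g ∈ Subgroup.zpowers c)
    (h2 : ∀ (K : Subgroup A) (c : A), orderOf c = r → (∀ k ∈ K, c * k * c⁻¹ ∈ K) →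
      ¬ r ∣ Nat.card K → K = ⊥) :
    (∃ P : Subgroup A, P.Normal ∧ Nat.card P = r ∧ Subgroup.centralizer (P : Set A) = P ∧
      Nat.card A ≤ r * (r - 1)) ∨
    (∃ T : Subgroup A, T.Normal ∧ IsSimpleGroup T ∧ (¬ ∀ a b : T, a * b = b * a) ∧
      Subgroup.centralizer (T : Set A) = ⊥) := by
  classical
  haveI : Fact r.Prime := ⟨hr⟩
  haveI : Fintype A := Fintype.ofFinite A
  -- a minimal normal subgroup
  have hcA := exists_prime_orderOf_dvd_card' (G := A) r hdvd
  obtain ⟨c, hc⟩ := hcA
  have hc1 : c ≠ 1 := by
    rintro rfl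
    rw [orderOf_one] at hc
    exact hr.one_lt.ne hc
  have htop : (⊤ : Subgroup A) ∈ {N : Subgroup A | N.Normal ∧ N ≠ ⊥} := by
    refine ⟨inferInstance, fun h => hc1 ?_⟩
    have : c ∈ (⊤ : Subgroup A) := Subgroup.mem_top c
    rw [h] at this
    exact Subgroup.mem_bot.mp this
  obtain ⟨N, ⟨hNn, hNb⟩, hmin⟩ := (wellFounded_lt (α := Subgroup A)).has_min
    {N : Subgroup A | N.Normal ∧ N ≠ ⊥} ⟨⊤, htop⟩
  haveI := hNn
  have hmin' : ∀ M : Subgroup A, M.Normal → M ≠ ⊥ → M ≤ N → M = N := by
    intro M hM hMb hle
    by_contra hne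
    exact hmin M ⟨hM, hMb⟩ (lt_of_le_of_ne hle hne)
  have hrN : r ∣ Nat.card N := by
    by_contra hn
    exact hNb (h2 N c hc (fun k hk => hNn.conj_mem k hk c) hn)
  obtain ⟨c', hc'⟩ := exists_prime_orderOf_dvd_card' (G := N) r hrN
  have h1N : ∀ c : N, orderOf c = r → ∀ g : N, g * c = c * g → g ∈ Subgroup.zpowers c := by
    intro e he g hg
    have he' : orderOf (e : A) = r := by rw [Subgroup.orderOf_coe]; exact he
    have := h1 (e : A) he' (g : A) (congrArg Subtype.val hg)
    obtain ⟨k, hk⟩ := Subgroup.mem_zpowers_iff.mp this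
    exact Subgroup.mem_zpowers_iff.mpr ⟨k, Subtype.ext (by simpa using hk)⟩
  -- nontrivial subgroups normalised by N are N
  have hbig : ∀ L : Subgroup A, L ≤ N → (∀ n ∈ N, ∀ l ∈ L, n * l * n⁻¹ ∈ L) → L ≠ ⊥ → L = N := by
    intro L hLN hL hLb
    have hrL : r ∣ Nat.card L := by
      by_contra hn
      exact hLb (h2 L (c' : A) (by rw [Subgroup.orderOf_coe]; exact hc')
        (fun k hk => hL _ c'.2 k hk) hn)
    obtain ⟨l, hl⟩ := exists_prime_orderOf_dvd_card' (G := L) r hrL
    have hl' : orderOf (l : A) = r := by rw [Subgroup.orderOf_coe]; exact hl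
    have hall : ∀ d : A, d ∈ N → orderOf d = r → d ∈ L := by
      intro d hd hdo
      have hd1 : orderOf (⟨d, hd⟩ : N) = r := by
        rw [← Subgroup.orderOf_coe]; exact hdo
      have hl1 : orderOf (⟨(l : A), hLN l.2⟩ : N) = r := by
        rw [← Subgroup.orderOf_coe]; exact hl'
      obtain ⟨g, x, hx, hgx⟩ := asg_conj r h1N _ _ hl1 hd1
      obtain ⟨k, hk⟩ := Subgroup.mem_zpowers_iff.mp hx
      have hxL : (x : A) ∈ L := by
        have : (x : A) = (l : A) ^ k := by
          rw [← hk]; simp
        rw [this]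
        exact L.zpow_mem l.2 k
      have : d = (g : A) * (x : A) * (g : A)⁻¹ := congrArg Subtype.val hgx
      rw [this]
      exact hL _ g.2 _ hxL
    set M : Subgroup A := Subgroup.closure {x : A | x ∈ N ∧ orderOf x = r} with hM
    have hMn : M.Normal := by
      apply Subgroup.Normal.mk
      intro m hm g
      rw [hM] at hm ⊢
      induction hm using Subgroup.closure_induction with
      | mem x hx =>
        apply Subgroup.subset_closure
        refine ⟨hNn.conj_mem x hx.1 g, ?_⟩
        rw [← hx.2]
        have := orderOf_injective (MulAut.conj g).toMonoidHom (MulAut.conj g).injective x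
        simpa [MulAut.conj_apply] using this
      | one => simp
      | mul x y _ _ hx hy =>
        have : g * (x * y) * g⁻¹ = (g * x * g⁻¹) * (g * y * g⁻¹) := by group
        rw [this]; exact Subgroup.mul_mem _ hx hy
      | inv x _ hx =>
        have : g * x⁻¹ * g⁻¹ = (g * x * g⁻¹)⁻¹ := by group
        rw [this]; exact Subgroup.inv_mem _ hx
    have hMb : M ≠ ⊥ := by
      intro h
      have : (c' : A) ∈ M := Subgroup.subset_closure ⟨c'.2, by rw [Subgroup.orderOf_coe]; exact hc'⟩
      rw [h] at this
      have h0 := Subgroup.mem_bot.mp this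
      have h3 : c' = 1 := Subtype.ext h0
      rw [h3, orderOf_one] at hc'
      exact hr.one_lt.ne hc'
    have hMN : M ≤ N := by
      rw [hM, Subgroup.closure_le]
      exact fun x hx => hx.1
    have hMeq := hmin' M hMn hMb hMN
    have hML : M ≤ L := by
      rw [hM, Subgroup.closure_le]
      exact fun x hx => hall x hx.1 hx.2
    exact le_antisymm hLN (hMeq ▸ hML)
  have hcN : orderOf (c' : A) = r := by rw [Subgroup.orderOf_coe]; exact hc'
  have hzN : Subgroup.zpowers (c' : A) ≤ N := by
    rw [Subgroup.zpowers_le]; exact c'.2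
  by_cases hcomm : ∀ a b : N, a * b = b * a
  · -- commutative case
    left
    have hz1 : Subgroup.zpowers (c' : A) = N := by
      apply hbig _ hzN
      · intro n hn l hl
        have hlN : l ∈ N := hzN hl
        have : n * l = l * n := congrArg Subtype.val (hcomm ⟨n, hn⟩ ⟨l, hlN⟩)
        rw [this, mul_inv_cancel_right]
        exact hl
      · intro h
        have : (c' : A) ∈ Subgroup.zpowers (c' : A) := Subgroup.mem_zpowers _
        rw [h] at this
        have h0 := Subgroup.mem_bot.mp this
        rw [h0, orderOf_one] at hcN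
        exact hr.one_lt.ne hcN
    have hcard : Nat.card N = r := by
      rw [← hz1, Nat.card_zpowers, hcN]
    refine ⟨N, hNn, hcard, ?_, ?_⟩
    · apply le_antisymm
      · intro g hg
        rw [Subgroup.mem_centralizer_iff] at hg
        rw [← hz1]
        exact h1 _ hcN g (hg _ c'.2).symm
      · intro g hg
        rw [Subgroup.mem_centralizer_iff]
        intro h hh
        exact congrArg Subtype.val (hcomm ⟨h, hh⟩ ⟨g, hg⟩)
    · -- counting
      have hcount := Finset.card_le_mul_card_image (f := fun g : A => g * (c' : A) * g⁻¹)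
        (Finset.univ : Finset A) r (by
          intro a ha
          obtain ⟨g0, -, hg0⟩ := Finset.mem_image.mp ha
          have hzc : (Finset.univ.filter (fun x : A => x ∈ Subgroup.zpowers (c' : A))).card = r := by
            rw [← hcN, ← Nat.card_zpowers, Nat.card_eq_fintype_card, Fintype.card_subtype]
          rw [← hzc]
          apply Finset.card_le_card_of_injOn (fun g => g0⁻¹ * g)
          · intro g hg
            have hg' : g * (c' : A) * g⁻¹ = a := (Finset.mem_filter.mp hg).2
            simp only [Finset.coe_filter, Finset.mem_univ, true_and, Set.mem_ofPred_eq]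
            apply h1 _ hcN
            have h5 : g * (c' : A) * g⁻¹ = g0 * (c' : A) * g0⁻¹ := by rw [hg', ← hg0]
            have h6 : g * (c' : A) = g0 * (c' : A) * g0⁻¹ * g := by
              rw [← h5]; group
            calc g0⁻¹ * g * (c' : A) = g0⁻¹ * (g * (c' : A)) := by group
              _ = g0⁻¹ * (g0 * (c' : A) * g0⁻¹ * g) := by rw [h6]
              _ = (c' : A) * (g0⁻¹ * g) := by group
          · intro g _ h _ hgh
            exact mul_left_cancel hgh)
      rw [Nat.card_eq_fintype_card]
      refine le_trans hcount (Nat.mul_le_mul_left _ ?_)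
      have hsub : (Finset.univ : Finset A).image (fun g : A => g * (c' : A) * g⁻¹) ⊆
          (Finset.univ.filter (fun x : A => x ∈ N)).erase 1 := by
        intro a ha
        obtain ⟨g0, -, hg0⟩ := Finset.mem_image.mp ha
        rw [Finset.mem_erase, Finset.mem_filter]
        refine ⟨?_, Finset.mem_univ _, ?_⟩
        · intro h
          rw [h] at hg0
          have h7 : (c' : A) = 1 := by
            have : (c' : A) = g0⁻¹ * (g0 * (c' : A) * g0⁻¹) * g0 := by group
            rw [this]
            have hg1 : g0 * (c' : A) * g0⁻¹ = 1 := hg0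
            rw [hg1]; group
          rw [h7, orderOf_one] at hcN
          exact hr.one_lt.ne hcN
        · rw [← hg0]
          exact hNn.conj_mem _ c'.2 g0
      refine le_trans (Finset.card_le_card hsub) ?_
      rw [Finset.card_erase_of_mem (by simp [N.one_mem])]
      apply Nat.sub_le_sub_right
      rw [← hcard, Nat.card_eq_fintype_card, Fintype.card_subtype]
  · right
    refine ⟨N, hNn, ?_, hcomm, ?_⟩
    · haveI : Nontrivial N := (Subgroup.nontrivial_iff_ne_bot _).mpr hNb
      refine { exists_pair_ne := exists_pair_ne N, eq_bot_or_eq_top_of_normal := ?_ }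
      intro H hH
      by_cases hHb : H = ⊥
      · left; exact hHb
      · right
        have hmap : H.map N.subtype = N := by
          apply hbig
          · exact Subgroup.map_subtype_le H
          · intro n hn l hl
            obtain ⟨x, hx, rfl⟩ := Subgroup.mem_map.mp hl
            exact Subgroup.mem_map.mpr ⟨⟨n, hn⟩ * x * ⟨n, hn⟩⁻¹, hH.conj_mem x hx ⟨n, hn⟩, rfl⟩
          · intro h
            apply hHb
            rw [Subgroup.map_eq_bot_iff_of_injective _ N.subtype_injective] at h
            exact h
        rw [eq_top_iff]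
        intro x _
        have hx : (x : A) ∈ H.map N.subtype := by rw [hmap]; exact x.2
        obtain ⟨y, hy, hyx⟩ := Subgroup.mem_map.mp hx
        have : y = x := Subtype.ext hyx
        rw [← this]; exact hy
    · rw [eq_bot_iff]
      intro g hg
      rw [Subgroup.mem_centralizer_iff] at hg
      by_contra hgb
      have hg1 : g ≠ 1 := fun h => hgb (Subgroup.mem_bot.mpr h)
      have hgz : g ∈ Subgroup.zpowers (c' : A) := h1 _ hcN g (hg _ c'.2).symm
      have hgr : orderOf g = r := by
        apply orderOf_eq_prime _ hg1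
        obtain ⟨k, hk⟩ := Subgroup.mem_zpowers_iff.mp hgz
        rw [← hk, ← zpow_natCast, ← zpow_mul, mul_comm, zpow_mul, zpow_natCast, ← hcN,
          pow_orderOf_eq_one, one_zpow]
      apply hcomm
      have hN : ∀ n : N, (n : A) ∈ Subgroup.zpowers g := fun n => h1 g hgr n (hg n n.2)
      intro a b
      obtain ⟨i, hi⟩ := Subgroup.mem_zpowers_iff.mp (hN a)
      obtain ⟨j, hj⟩ := Subgroup.mem_zpowers_iff.mp (hN b)
      apply Subtype.ext
      rw [Subgroup.coe_mul, Subgroup.coe_mul, ← hi, ← hj, ← zpow_add, ← zpow_add, add_comm]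

end Pool.Agent.Lib.MP_eb4ae8_co
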