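import Mathlib

/-! Group theory: the quotient by a normal subgroup of order divisible by `r` is cyclic. -/

namespace Pool.Agent.Lib.MP_eb4ae8_co

/-- Sylow `r`-subgroups of `A` have order `r` (let `R` be one and `c` of order `r` in its centre; `R`
centralises `c`, so `R ≤ ⟨c⟩` by `h1`); `T` contains one, `P`. Frattini: `A = T N_A(P)`, so `A / T`
is a quotient of `N_A(P) / P`, and `N_A(P)` acts on `P` with kernel the centraliser of `P`, which is
`P` by `h1`; so `N_A(P) / P` embeds in the automorphism group of a group of prime order `r`, which is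
cyclic of order `r - 1`. -/
theorem quotient_cyclic {A : Type*} [Group A] [Finite A] (r : ℕ) (hr : r.Prime)
    (h1 : ∀ c : A, orderOf c = r → ∀ g : A, g * c = c * g → g ∈ Subgroup.zpowers c)
    (T : Subgroup A) [T.Normal] (hT : r ∣ Nat.card T) :
    IsCyclic (A ⧸ T) ∧ Nat.card (A ⧸ T) ∣ r - 1 := by
  classical
  have hF : Fact r.Prime := ⟨hr⟩
  obtain ⟨x, hx⟩ := exists_prime_orderOf_dvd_card' (G := T) r hT
  have hxA : orderOf (x : A) = r := by rw [Subgroup.orderOf_coe, hx]
  obtain ⟨P, hP⟩ : ∃ P : Subgroup A, P = Subgroup.zpowers (x : A) := ⟨_, rfl⟩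
  have hPcard : Nat.card P = r := by rw [hP, Nat.card_zpowers, hxA]
  have hPT : P ≤ T := by rw [hP, Subgroup.zpowers_le]; exact x.2
  have hPG : IsPGroup r P := IsPGroup.of_card (n := 1) (by rw [hPcard, pow_one])
  obtain ⟨Q, hPQ⟩ := hPG.exists_le_sylow
  -- the Sylow subgroup has order `r`
  have hQP : P = (Q : Subgroup A) := by
    have hQ1 : Nontrivial (Q : Subgroup A) := by
      rw [← Finite.one_lt_card_iff_nontrivial]
      have h2 := Subgroup.card_le_of_le hPQ
      rw [hPcard] at h2
      exact lt_of_lt_of_le hr.one_lt h2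
    have hZ : Nontrivial (Subgroup.center (Q : Subgroup A)) := Q.2.center_nontrivial
    have hZp : IsPGroup r (Subgroup.center (Q : Subgroup A)) := Q.2.to_subgroup _
    have hdvd : r ∣ Nat.card (Subgroup.center (Q : Subgroup A)) := by
      rcases hZp.card_eq_or_dvd with h | h
      · exact absurd h (ne_of_gt (Finite.one_lt_card_iff_nontrivial.2 hZ))
      · exact h
    obtain ⟨c, hc⟩ := exists_prime_orderOf_dvd_card' r hdvd
    have hcA : orderOf ((c : (Q : Subgroup A)) : A) = r := by
      rw [Subgroup.orderOf_coe, Subgroup.orderOf_coe, hc]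
    have hle : (Q : Subgroup A) ≤ Subgroup.zpowers ((c : (Q : Subgroup A)) : A) := by
      intro g hg
      refine h1 _ hcA g ?_
      have h3 := Subgroup.mem_center_iff.1 c.2 ⟨g, hg⟩
      exact congrArg Subtype.val h3
    apply Subgroup.eq_of_le_of_card_ge hPQ
    have h4 := Subgroup.card_le_of_le hle
    rw [Nat.card_zpowers, hcA] at h4
    rw [hPcard]
    exact h4
  -- the Frattini argument
  have hfr : Subgroup.normalizer (P : Set A) ⊔ T = ⊤ := by
    have h5 := Q.normalizer_sup_eq_top' (N := T) (by rw [← hQP]; exact hPT)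
    rw [hQP]
    exact h5
  let ψ : Subgroup.normalizer (P : Set A) →* A ⧸ T :=
    (QuotientGroup.mk' T).comp (Subgroup.normalizer (P : Set A)).subtype
  have hψ : Function.Surjective ψ := by
    intro a
    obtain ⟨a, rfl⟩ := QuotientGroup.mk_surjective a
    have ha : a ∈ ((Subgroup.normalizer (P : Set A) ⊔ T : Subgroup A) : Set A) := by
      rw [hfr]; exact Subgroup.mem_top a
    rw [Subgroup.mul_normal] at ha
    obtain ⟨h, hh, t, ht, rfl⟩ := ha
    refine ⟨⟨h, hh⟩, ?_⟩
    change (QuotientGroup.mk h : A ⧸ T) = QuotientGroup.mk (h * t)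
    rw [QuotientGroup.eq]
    simpa using ht
  have hker : P.normalizerMonoidHom.ker ≤ ψ.ker := by
    intro h hh
    rw [Subgroup.normalizerMonoidHom_ker, Subgroup.mem_subgroupOf,
      Subgroup.mem_centralizer_iff] at hh
    rw [MonoidHom.mem_ker]
    change (QuotientGroup.mk (h : A) : A ⧸ T) = 1
    rw [QuotientGroup.eq_one_iff]
    apply hPT
    have hxP : (x : A) ∈ P := by rw [hP]; exact Subgroup.mem_zpowers _
    have h7 : (h : A) ∈ Subgroup.zpowers (x : A) := h1 _ hxA _ (hh x hxP).symm
    exact hP.ge h7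
  have hPc : IsCyclic P := by rw [hP]; infer_instance
  have hMc : IsCyclic (MulAut P) := by
    have h6 : IsCyclic (ZMod (Nat.card P))ˣ := by
      rw [hPcard]; exact ZMod.isCyclic_units_prime hr
    exact (IsCyclic.mulAutMulEquiv P).isCyclic.2 h6
  have hMcard : Nat.card (MulAut P) = r - 1 := by
    rw [IsCyclic.card_mulAut, hPcard, Nat.totient_prime hr]
  let θ : P.normalizerMonoidHom.range →* A ⧸ T :=
    (QuotientGroup.lift P.normalizerMonoidHom.ker ψ hker).comp
      (QuotientGroup.quotientKerEquivRange P.normalizerMonoidHom).symm.toMonoidHom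
  have hθ : Function.Surjective θ := by
    intro a
    obtain ⟨h, rfl⟩ := hψ a
    refine ⟨QuotientGroup.quotientKerEquivRange P.normalizerMonoidHom (QuotientGroup.mk h), ?_⟩
    change QuotientGroup.lift P.normalizerMonoidHom.ker ψ hker
      ((QuotientGroup.quotientKerEquivRange P.normalizerMonoidHom).symm
        (QuotientGroup.quotientKerEquivRange P.normalizerMonoidHom (QuotientGroup.mk h))) = ψ h
    rw [MulEquiv.symm_apply_apply]
    rfl
  refine ⟨isCyclic_of_surjective θ hθ, ?_⟩
  rw [← hMcard]
  exact (Subgroup.card_dvd_of_surjective θ hθ).trans (Subgroup.card_subgroup_dvd_card _)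

end Pool.Agent.Lib.MP_eb4ae8_co
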