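import Pool.Agent.Lib.MP_eb4ae8_co.CopC
import Pool.Agent.Lib.MP_eb4ae8_co.ASg
import Pool.Agent.Lib.MP_eb4ae8_co.ASh

/-! Groups of automorphisms of order divisible by the prime `r = q^2 - q + 1`. -/

namespace Pool.Agent.Lib.MP_eb4ae8_co

private theorem vt_dvd' {V : Type*} [Finite V] {Γ : SimpleGraph V} {q : ℕ} (hq : 3 ≤ q)
    (hA : HasArray Γ q) (G : Subgroup (Γ ≃g Γ)) (hG : VertexTransitive G) :
    q ^ 2 * (q ^ 2 - q + 1) ∣ Nat.card G := by
  classical
  obtain ⟨x⟩ : Nonempty V := hA.conn.nonempty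
  letI : MulAction G V :=
    { smul := fun g y => (g : Γ ≃g Γ) y
      one_smul := fun _ => rfl
      mul_smul := fun _ _ _ => rfl }
  have h1 : (MulAction.stabilizer G x).index = (MulAction.orbit G x).ncard :=
    MulAction.index_stabilizer G x
  have h2 : MulAction.orbit G x = Set.univ := by
    rw [Set.eq_univ_iff_forall]
    intro y
    obtain ⟨g, hg, hgx⟩ := hG x y
    exact ⟨⟨g, hg⟩, hgx⟩
  rw [h2, Set.ncard_univ, card_nat hq hA] at h1
  rw [← h1]
  exact Subgroup.index_dvd_card _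

/-- If `G` is vertex-transitive, `n = q^2 r` divides `|G|` (orbit-stabiliser, `card_nat`), so
`r ∣ |G|` and `|G| ≥ q^2 r > r (r-1)`. Apply `dichotomy` to the group `G`; `h1` from
`self_centralizing`, `h2` from `coprime_trivial`. In the first case take `T = P` (prime order,
simple; `G` is not vertex-transitive by the order). In the second case `r ∣ |T|` by `h2` (as `T`
is normal and not trivial). Then `quotient_cyclic` (`r - 1 = q^2 - q`). -/
theorem simple_normal {V : Type*} [Finite V] {Γ : SimpleGraph V} {q : ℕ} (hq : 6 ≤ q)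
    (hA : HasArray Γ q) (hpp : ¬ IsPrimePow q) (hr : (q ^ 2 - q + 1).Prime)
    (G : Subgroup (Γ ≃g Γ)) (hG : VertexTransitive G ∨ (q ^ 2 - q + 1) ∣ Nat.card G) :
    ∃ (T : Subgroup G) (_ : T.Normal), IsSimpleGroup T ∧ (q ^ 2 - q + 1) ∣ Nat.card T ∧
      Subgroup.centralizer (T : Set G) ≤ T ∧ IsCyclic (G ⧸ T) ∧
      Nat.card (G ⧸ T) ∣ q ^ 2 - q ∧ (VertexTransitive G → ¬ ∀ a b : T, a * b = b * a) := by
  classical
  haveI : Finite (Γ ≃g Γ) :=
    Finite.of_injective (fun g : Γ ≃g Γ => (g : V → V)) DFunLike.coe_injective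
  have hdvd : (q ^ 2 - q + 1) ∣ Nat.card G := by
    rcases hG with h | h
    · exact (Dvd.intro_left _ rfl).trans (vt_dvd' (by omega) hA G h)
    · exact h
  have h1 : ∀ c : G, orderOf c = q ^ 2 - q + 1 → ∀ g : G, g * c = c * g →
      g ∈ Subgroup.zpowers c := by
    intro c hc g hg
    have hc' : orderOf (c : Γ ≃g Γ) = q ^ 2 - q + 1 := by
      rw [Subgroup.orderOf_coe]; exact hc
    have hg' : (g : Γ ≃g Γ) * c = c * g := by
      have := congrArg (fun a : G => (a : Γ ≃g Γ)) hg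
      simpa using this
    have h := self_centralizing (by omega) hA hr (c : Γ ≃g Γ) hc' (g : Γ ≃g Γ) hg'
    obtain ⟨k, hk⟩ := Subgroup.mem_zpowers_iff.1 h
    refine Subgroup.mem_zpowers_iff.2 ⟨k, ?_⟩
    apply Subtype.ext
    simpa using hk
  have h2 : ∀ (K : Subgroup G) (c : G), orderOf c = q ^ 2 - q + 1 →
      (∀ k ∈ K, c * k * c⁻¹ ∈ K) → ¬ (q ^ 2 - q + 1) ∣ Nat.card K → K = ⊥ := by
    intro K c hc hK hrK
    have hc' : orderOf (c : Γ ≃g Γ) = q ^ 2 - q + 1 := by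
      rw [Subgroup.orderOf_coe]; exact hc
    have hcard : Nat.card (K.map G.subtype) = Nat.card K :=
      Nat.card_congr (K.equivMapOfInjective G.subtype G.subtype_injective).toEquiv.symm
    have h := coprime_trivial hA hq hpp hr (c : Γ ≃g Γ) hc' (K.map G.subtype) ?_ ?_
    · exact (Subgroup.map_eq_bot_iff_of_injective K G.subtype_injective).1 h
    · rintro _ ⟨k, hk, rfl⟩
      exact ⟨c * k * c⁻¹, hK k hk, by simp⟩
    · rw [hcard]; exact hrK
  have hqc : ∀ (T : Subgroup G) [T.Normal], (q ^ 2 - q + 1) ∣ Nat.card T →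
      IsCyclic (G ⧸ T) ∧ Nat.card (G ⧸ T) ∣ q ^ 2 - q := by
    intro T _ hT
    have h := quotient_cyclic (q ^ 2 - q + 1) hr h1 T hT
    rwa [Nat.add_sub_cancel] at h
  rcases dichotomy (q ^ 2 - q + 1) hr hdvd h1 h2 with ⟨P, hPn, hPc, hPz, hle⟩ | ⟨T, hTn, hTs, hTc, hTz⟩
  · have hPd : (q ^ 2 - q + 1) ∣ Nat.card P := by rw [hPc]
    have hsimple : IsSimpleGroup P := by
      haveI : Fact (q ^ 2 - q + 1).Prime := ⟨hr⟩
      exact isSimpleGroup_of_prime_card hPc
    refine ⟨P, hPn, hsimple, hPd, hPz.le, (hqc P hPd).1, (hqc P hPd).2, ?_⟩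
    intro hVT
    exfalso
    have h3 := Nat.le_of_dvd Nat.card_pos (vt_dvd' (by omega) hA G hVT)
    have h4 : q ^ 2 - q + 1 - 1 < q ^ 2 := by
      have : q ≤ q ^ 2 := by nlinarith
      omega
    have h5 : (q ^ 2 - q + 1) * (q ^ 2 - q + 1 - 1) < q ^ 2 * (q ^ 2 - q + 1) := by
      rw [mul_comm (q ^ 2)]
      exact Nat.mul_lt_mul_of_pos_left h4 (by omega)
    omega
  · have hTd : (q ^ 2 - q + 1) ∣ Nat.card T := by
      by_contra hnd
      haveI : Fact (q ^ 2 - q + 1).Prime := ⟨hr⟩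
      obtain ⟨c, hc⟩ := exists_prime_orderOf_dvd_card' (G := G) (q ^ 2 - q + 1) hdvd
      have hbot := h2 T c hc (fun k hk => hTn.conj_mem k hk c) hnd
      have := hTs.exists_pair_ne
      obtain ⟨a, b, hab⟩ := this
      apply hab
      have ha : (a : G) ∈ (⊥ : Subgroup G) := hbot ▸ a.2
      have hb : (b : G) ∈ (⊥ : Subgroup G) := hbot ▸ b.2
      rw [Subgroup.mem_bot] at ha hb
      exact Subtype.ext (ha.trans hb.symm)
    refine ⟨T, hTn, hTs, hTd, ?_, (hqc T hTd).1, (hqc T hTd).2, fun _ => hTc⟩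
    rw [hTz]
    exact bot_le

end Pool.Agent.Lib.MP_eb4ae8_co
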