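import Mathlib

/-! Arithmetic, case `p ∣ q`. -/

namespace Pool.Agent.Lib.MP_eb4ae8_co

/-- Multiply the congruence by `m`: `(q-2) h + (m-1)(q+1) = D (q^2-1)` with `D ≥ 1`. -/
theorem ar_start (q m O h k : ℕ) (hq : 3 ≤ q) (hm : 2 ≤ m)
    (hO : O * m = q ^ 2 * (q ^ 2 - q + 1)) (hh : h < m)
    (hk : O * (q + 1 + h) = q ^ 2 * (q + 1) + (q ^ 2 - 1) * k) :
    ∃ D : ℕ, 1 ≤ D ∧ (q - 2) * h + (m - 1) * (q + 1) = D * (q ^ 2 - 1) := by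
  obtain ⟨r, rfl⟩ : ∃ r, q = r + 3 := ⟨q - 3, by omega⟩
  obtain ⟨n, rfl⟩ : ∃ n, m = n + 2 := ⟨m - 2, by omega⟩
  have e1 : (r + 3) ^ 2 - (r + 3) + 1 = r ^ 2 + 5 * r + 7 := by
    have : (r + 3) ^ 2 = (r ^ 2 + 5 * r + 6) + (r + 3) := by ring
    omega
  have e2 : (r + 3) ^ 2 - 1 = r ^ 2 + 6 * r + 8 := by
    have : (r + 3) ^ 2 = (r ^ 2 + 6 * r + 8) + 1 := by ring
    omega
  have e3 : r + 3 - 2 = r + 1 := by omega
  have e4 : n + 2 - 1 = n + 1 := by omega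
  rw [e1] at hO
  rw [e2] at hk ⊢
  rw [e3, e4]
  have hOz : (O : ℤ) * (n + 2) = (r + 3) ^ 2 * (r ^ 2 + 5 * r + 7) := by exact_mod_cast hO
  have hkz : (O : ℤ) * (r + 3 + 1 + h) = (r + 3) ^ 2 * (r + 3 + 1) + (r ^ 2 + 6 * r + 8) * k := by
    exact_mod_cast hk
  have hdvd : ((r ^ 2 + 6 * r + 8 : ℕ) : ℤ) ∣ (((r + 1) * h + (n + 1) * (r + 3 + 1) : ℕ) : ℤ) := by
    refine ⟨(r ^ 2 + 5 * r + 7) * (r + 3 + 1 + h) + (r + 3 + 1 + h) - (n + 2) * (r + 3 + 1) -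
      k * (n + 2) - 1, ?_⟩
    push_cast
    linear_combination (r + 3 + 1 + (h : ℤ)) * hOz - (n + 2 : ℤ) * hkz
  obtain ⟨D, hD⟩ := Int.natCast_dvd_natCast.1 hdvd
  refine ⟨D, ?_, ?_⟩
  · rcases Nat.eq_zero_or_pos D with h0 | h0
    · rw [h0, mul_zero] at hD
      have : 0 < (n + 1) * (r + 3 + 1) := by positivity
      omega
    · exact h0
  · rw [hD]; ring

/-- From `(q-2) h + (m-1)(q+1) = D (q^2-1)`: `(q+1) ∣ 3 h`; with `3 h = (q+1) g` one gets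
`(q-2) g + 3 (m-1) = 3 D (q-1)`; put `e = 3 D - g`: `3 (m-1) = e (q-1) + g`, and `h ≤ m - 1` gives
`q g ≤ (q-1) e`. -/
theorem ar_eg (q m h D : ℕ) (hq : 3 ≤ q) (hm : 2 ≤ m) (hh : h < m) (hD : 1 ≤ D)
    (h1 : (q - 2) * h + (m - 1) * (q + 1) = D * (q ^ 2 - 1)) :
    ∃ g e : ℕ, 3 * h = (q + 1) * g ∧ e + g = 3 * D ∧ 1 ≤ e ∧ 3 * (m - 1) = e * (q - 1) + g ∧
      q * g ≤ (q - 1) * e := by
  obtain ⟨r, rfl⟩ : ∃ r, q = r + 3 := ⟨q - 3, by omega⟩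
  obtain ⟨n, rfl⟩ : ∃ n, m = n + 2 := ⟨m - 2, by omega⟩
  have e2 : (r + 3) ^ 2 - 1 = (r + 4) * (r + 2) := by
    have : (r + 3) ^ 2 = (r + 4) * (r + 2) + 1 := by ring
    omega
  have e3 : r + 3 - 2 = r + 1 := by omega
  have e4 : n + 2 - 1 = n + 1 := by omega
  have e5 : r + 3 - 1 = r + 2 := by omega
  rw [e2, e3, e4] at h1
  rw [e4, e5]
  have hz : ((r : ℤ) + 1) * h + (n + 1) * (r + 3 + 1) = D * ((r + 4) * (r + 2)) := by
    exact_mod_cast h1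
  have hdvd : ((r + 3 + 1 : ℕ) : ℤ) ∣ ((3 * h : ℕ) : ℤ) := by
    refine ⟨h + (n + 1) - D * (r + 2), ?_⟩
    push_cast
    linear_combination (-1 : ℤ) * hz
  obtain ⟨g, hg⟩ := Int.natCast_dvd_natCast.1 hdvd
  have hgz : 3 * (h : ℤ) = (r + 3 + 1) * g := by exact_mod_cast hg
  have h5 : ((r : ℤ) + 1) * g + 3 * (n + 1) = 3 * D * (r + 2) := by
    have hne : ((r : ℤ) + 4) ≠ 0 := by positivity
    apply mul_left_cancel₀ hne
    linear_combination 3 * hz - ((r : ℤ) + 1) * hgz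
  have hhz : (h : ℤ) ≤ n + 1 := by
    have : h ≤ n + 1 := by omega
    exact_mod_cast this
  have h6 : ((r : ℤ) + 3) * g ≤ (r + 2) * (3 * D - g) := by nlinarith
  have hg0 : (0 : ℤ) ≤ g := Int.natCast_nonneg g
  have hr0 : (0 : ℤ) ≤ r := Int.natCast_nonneg r
  have hDz : (1 : ℤ) ≤ D := by exact_mod_cast hD
  have h7 : 1 ≤ 3 * (D : ℤ) - g := by
    by_contra hlt
    push Not at hlt
    have h8 : 3 * (D : ℤ) - g ≤ 0 := by omega
    have h9 : ((r : ℤ) + 2) * (3 * D - g) ≤ 0 := mul_nonpos_of_nonneg_of_nonpos (by positivity) h8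
    have h10 : ((r : ℤ) + 3) * g ≤ 0 := h6.trans h9
    have h11 : (g : ℤ) ≤ 0 := by
      by_contra hgp
      push Not at hgp
      have : 0 < ((r : ℤ) + 3) * g := by positivity
      omega
    omega
  have h12 : g < 3 * D := by omega
  obtain ⟨e, he⟩ : ∃ e, 3 * D = e + g := ⟨3 * D - g, by omega⟩
  have hez : 3 * (D : ℤ) = e + g := by exact_mod_cast he
  refine ⟨g, e, hg, he.symm, by omega, ?_, ?_⟩
  · have : (3 : ℤ) * (n + 1) = e * (r + 2) + g := by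
      linear_combination h5 + ((r : ℤ) + 2) * hez
    exact_mod_cast this
  · have : ((r : ℤ) + 3) * g ≤ (r + 2) * e := by
      have h13 : 3 * (D : ℤ) - g = e := by linarith
      rw [h13] at h6
      exact h6
    exact_mod_cast this

end Pool.Agent.Lib.MP_eb4ae8_co
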