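import Mathlib

/-! Arithmetic, case `p ∣ q`. -/

namespace Pool.Agent.Lib.MP_eb4ae8_co

/-- Case `p ∣ q`, `q` not a prime power, `m = p ^ w` odd dividing `q ^ 2` (so `p` odd).
Write `q = p ^ v * r`, `p ∤ r`, `r ≥ 2`, `P = p ^ v`, `1 ≤ w ≤ 2 v`, and `s = e - g`, so that
`3 m + s = e q + 3`, `1 ≤ s ≤ e`, `e (q-1) ≤ 3 (m-1)`.
* `w < v`: `m ≤ P / 3`, so `3 (m-1) < q - 1`, contradiction.
* `w ≥ v`: `P ∣ s - 3` (as integers). `s = 3`: `3 m = e q`, so `r ∣ 3`, `r = 3`, `p ≠ 3`,
  `e = p ^ (w-v)`, and `e + g = 2 e - 3` divisible by `3` gives `3 ∣ e`, contradiction. `s < 3`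
  needs `P ∣ 3 - s ∈ {1, 2}`, impossible for `P ≥ 3`. `s ≥ P + 3`: `(P+3)(P r-1) ≤ e (q-1) ≤
  3 (m-1) ≤ 3 (P^2-1)`, so `r = 2`, `q = 2 P`; then `s = P + 3` (`s ≥ 2 P + 3` is too large),
  `3 m + P = 2 P e`, and `e ≥ P + 3` forces `m = P ^ 2`, `e = (3 P + 1)/2`, `g = (P - 5)/2`. -/
theorem ar_pq (q m g e D p v r w : ℕ) (hq : 3 ≤ q) (hp : p.Prime) (hp2 : p ≠ 2) (hv : 1 ≤ v)
    (hqv : q = p ^ v * r) (hr : 2 ≤ r) (hpr : ¬ p ∣ r) (hmw : m = p ^ w) (hw : 1 ≤ w)
    (hw2 : w ≤ 2 * v) (he : 1 ≤ e) (heg : e + g = 3 * D)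
    (h1 : 3 * (m - 1) = e * (q - 1) + g) (h2 : q * g ≤ (q - 1) * e) :
    q = 2 * p ^ v ∧ m = p ^ (2 * v) ∧ 2 * g + 5 = p ^ v := by
  have hp3 : 3 ≤ p := by
    have := hp.two_le
    omega
  have hP3 : 3 ≤ p ^ v := by
    calc 3 ≤ p := hp3
      _ = p ^ 1 := (pow_one p).symm
      _ ≤ p ^ v := Nat.pow_le_pow_right (by omega) hv
  have hm1 : 1 ≤ m := by rw [hmw]; exact Nat.one_le_pow _ _ (by omega)
  have hge : g < e := by
    have h3 : (q - 1) * e + e = q * e := by
      obtain ⟨q', rfl⟩ : ∃ q', q = q' + 1 := ⟨q - 1, by omega⟩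
      simp only [Nat.add_sub_cancel]
      ring
    have h4 : q * g < q * e := by omega
    exact lt_of_mul_lt_mul_left h4 (Nat.zero_le _)
  obtain ⟨s, hs⟩ : ∃ s, e = g + s := ⟨e - g, by omega⟩
  have hs1 : 1 ≤ s := by omega
  -- the equation in the integers
  have hE : (3 : ℤ) * (m - 1) = e * (q - 1) + g := by
    have : ((3 * (m - 1) : ℕ) : ℤ) = ((e * (q - 1) + g : ℕ) : ℤ) := by rw [h1]
    push_cast [Nat.cast_sub hm1, Nat.cast_sub (show 1 ≤ q by omega)] at this
    exact this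
  have hsz : (e : ℤ) = g + s := by exact_mod_cast hs
  have hmP : m ≤ p ^ v * p ^ v := by
    rw [hmw, ← pow_add]
    exact Nat.pow_le_pow_right (by omega) (by omega)
  set P : ℕ := p ^ v with hP
  have hqz : (q : ℤ) = P * r := by exact_mod_cast hqv
  have hP3z : (3 : ℤ) ≤ P := by exact_mod_cast hP3
  have hrz : (2 : ℤ) ≤ r := by exact_mod_cast hr
  have hez : (1 : ℤ) ≤ e := by exact_mod_cast he
  have hs1z : (1 : ℤ) ≤ s := by exact_mod_cast hs1
  have hg0 : (0 : ℤ) ≤ g := Int.natCast_nonneg _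
  have hmPz : (m : ℤ) ≤ P * P := by exact_mod_cast hmP
  have hPr : (P : ℤ) * 2 ≤ P * r := mul_le_mul_of_nonneg_left hrz (by linarith)
  -- the case `w < v`
  rcases Nat.lt_or_ge w v with hwv | hwv
  · exfalso
    have h3 : 3 * m ≤ P := by
      rw [hmw, hP]
      obtain ⟨d, rfl⟩ : ∃ d, v = w + 1 + d := ⟨v - w - 1, by omega⟩
      calc 3 * p ^ w ≤ p * p ^ w := Nat.mul_le_mul_right _ hp3
        _ = p ^ (w + 1) := by rw [pow_succ, mul_comm]
        _ ≤ p ^ (w + 1 + d) := Nat.pow_le_pow_right (by omega) (by omega)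
    have h3z : (3 : ℤ) * m ≤ P := by exact_mod_cast h3
    have h4 : (q : ℤ) - 1 ≤ e * (q - 1) := by
      have : (0 : ℤ) ≤ q - 1 := by rw [hqz]; linarith
      exact le_mul_of_one_le_left this hez
    rw [hqz] at h4 hE
    linarith
  · -- `m = P k`
    obtain ⟨d, hd⟩ : ∃ d, w = v + d := ⟨w - v, by omega⟩
    have hmk : m = P * p ^ d := by rw [hmw, hd, pow_add]
    have hmkz : (m : ℤ) = P * (p : ℤ) ^ d := by exact_mod_cast hmk
    have hS : (3 : ℤ) * m + s = e * q + 3 := by rw [hsz] at hE ⊢; linarith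
    have hdv : (P : ℤ) ∣ (s : ℤ) - 3 := ⟨e * r - 3 * (p : ℤ) ^ d, by
      rw [hmkz, hqz] at hS; linear_combination hS⟩
    obtain ⟨c, hc⟩ := hdv
    have hbound : (e : ℤ) * (P * r - 1) ≤ 3 * (P * P - 1) := by
      rw [hqz] at hE
      linarith
    rcases lt_trichotomy c 0 with hc0 | hc0 | hc0
    · exfalso
      have : (P : ℤ) * c ≤ P * (-1) := mul_le_mul_of_nonneg_left (by omega) (by linarith)
      linarith
    · exfalso
      have hs3 : (s : ℤ) = 3 := by rw [hc0] at hc; linarith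
      have h3 : (3 : ℤ) * (p : ℤ) ^ d = e * r := by
        have h4 : (P : ℤ) * (3 * (p : ℤ) ^ d) = P * (e * r) := by
          rw [hs3, hmkz, hqz] at hS; linarith
        exact mul_left_cancel₀ (by linarith : (P : ℤ) ≠ 0) h4
      have h3n : 3 * p ^ d = e * r := by exact_mod_cast h3
      have hcop : Nat.Coprime r (p ^ d) :=
        ((Nat.Prime.coprime_iff_not_dvd hp).2 hpr).symm.pow_right d
      have hr3 : r ∣ 3 := by
        have : r ∣ 3 * p ^ d := ⟨e, by rw [h3n, mul_comm]⟩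
        exact hcop.dvd_of_dvd_mul_right this
      have hreq : r = 3 := by
        rcases (Nat.dvd_prime Nat.prime_three).1 hr3 with h | h
        · omega
        · exact h
      subst hreq
      have he' : e = p ^ d := by omega
      have h5 : 3 ∣ e := by
        have h6 : s = 3 := by exact_mod_cast hs3
        omega
      rw [he'] at h5
      have h6 : 3 ∣ p := Nat.prime_three.dvd_of_dvd_pow h5
      exact hpr (((Nat.prime_dvd_prime_iff_eq Nat.prime_three hp).1 h6) ▸ dvd_rfl)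
    · -- `s ≥ P + 3`
      have hPc : (P : ℤ) * 1 ≤ P * c := mul_le_mul_of_nonneg_left (by omega) (by linarith)
      have heP : (P : ℤ) + 3 ≤ e := by linarith
      have hr2 : r = 2 := by
        by_contra hcon
        have hr3 : (3 : ℤ) ≤ r := by
          have : 3 ≤ r := by omega
          exact_mod_cast this
        have h3 : (P : ℤ) * 3 ≤ P * r := mul_le_mul_of_nonneg_left hr3 (by linarith)
        have h4 : ((P : ℤ) + 3) * (P * 3 - 1) ≤ e * (P * r - 1) := by
          apply mul_le_mul heP (by linarith) (by linarith) (by linarith)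
        have h5 : ((P : ℤ) + 3) * (P * 3 - 1) = 3 * (P * P) + 8 * P - 3 := by ring
        linarith
      subst hr2
      have hc1 : c = 1 := by
        by_contra hcon
        have h3 : (P : ℤ) * 2 ≤ P * c := mul_le_mul_of_nonneg_left (by omega) (by linarith)
        have h4 : (2 * (P : ℤ) + 3) * (P * 2 - 1) ≤ e * (P * (2 : ℕ) - 1) := by
          push_cast
          apply mul_le_mul (by linarith) le_rfl (by linarith) (by linarith)
        push_cast at h4 hbound
        have h5 : (2 * (P : ℤ) + 3) * (P * 2 - 1) = 4 * (P * P) + 4 * P - 3 := by ring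
        have h6 : (0 : ℤ) ≤ P * P := by positivity
        linarith
      have hs4 : (s : ℤ) = P + 3 := by rw [hc1] at hc; linarith
      have h3 : (3 : ℤ) * (p : ℤ) ^ d = 2 * e - 1 := by
        have h4 : (P : ℤ) * (3 * (p : ℤ) ^ d) = P * (2 * e - 1) := by
          rw [hs4, hmkz, hqz] at hS
          push_cast at hS
          linarith
        exact mul_left_cancel₀ (by linarith : (P : ℤ) ≠ 0) h4
      have hdv : d = v := by
        by_contra hcon
        have hdlt : d < v := by omega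
        have h4 : 3 * p ^ d ≤ P := by
          rw [hP]
          obtain ⟨f, rfl⟩ : ∃ f, v = d + 1 + f := ⟨v - d - 1, by omega⟩
          calc 3 * p ^ d ≤ p * p ^ d := Nat.mul_le_mul_right _ hp3
            _ = p ^ (d + 1) := by rw [pow_succ, mul_comm]
            _ ≤ p ^ (d + 1 + f) := Nat.pow_le_pow_right (by omega) (by omega)
        have h4z : (3 : ℤ) * (p : ℤ) ^ d ≤ P := by exact_mod_cast h4
        linarith
      have hPp : (p : ℤ) ^ d = P := by rw [hdv, hP]; push_cast; rfl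
      rw [hPp] at h3
      refine ⟨by rw [hqv, mul_comm], ?_, ?_⟩
      · rw [hmw, hd, hdv]; congr 1; ring
      · have : (2 : ℤ) * g + 5 = P := by linarith
        exact_mod_cast this

end Pool.Agent.Lib.MP_eb4ae8_co
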