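import Mathlib

/-! Arithmetic, case `m ∣ q^2 - q + 1`. -/

namespace Pool.Agent.Lib.MP_eb4ae8_co

/-- Case `m * r = q^2 - q + 1`. From `3 (m-1) = e (q-1) + g`, `q g ≤ (q-1) e`, `3 ∣ e + g`.
Here `e (q-1) ≤ 3 (m-1)`.
First `q ≢ 2 (mod 3)`: then `3 ∤ q + 1`, so `3 ∣ g` (from `3 h = (q+1) g`), `3 ∣ e`: `e = 3 i`,
`g = 3 j`, `m - 1 = i (q-1) + j`, `q j ≤ (q-1) i`. Put `δ = q - r i`; then
`r (i - j - 1) = (1 - δ) q - 1` in `ℤ`, and `δ ≥ 0`, `δ = 0` iff `r = 1`. If `δ ≥ 1`, then
`i - j - 1 ≥ 0` (as `j < i`) contradicts `(1-δ) q - 1 < 0`. So `r = 1`, `m = q^2-q+1`, `i = q`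
and `j = 0`.
Next `q ≡ 2 (mod 3)`: `q^2 - q + 1` is divisible by `3` but not by `9`. As `m` is a power of a
prime `p`: if `p = 3` then `m = 3` and `6 = e (q-1) + g ≥ q - 1`, `q ≤ 7`, impossible as
`q ≥ 6` is `2` mod `3`. So `r = 3 r'`. Put `δ = q - r' e` (in `ℤ`); then
`r' (s - 3) = (1 - δ) q - 1` with `s = e - g`, `1 ≤ s`, and `δ ≥ 1`. `δ = 1`: `r' (s-3) = -1`, so `r' = 1`, `s = 2`,
`e = q - 1`, `g = q - 3`. `δ ≥ 2`: `s = 2` gives `r' = (δ-1) q + 1 > q - δ = r' e`,
impossible; `s = 1` gives `2 r' = (δ-1) q + 1` and `e ((δ-1) q + 1) = 2 (q - δ)`, impossible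
for `q ≥ 6`. -/
theorem ar_mr (q m h g e D p w r : ℕ) (hq : 6 ≤ q) (hp : p.Prime) (hmw : m = p ^ w) (hw : 1 ≤ w)
    (hm : 2 ≤ m) (hmr : m * r = q ^ 2 - q + 1) (hh : 3 * h = (q + 1) * g) (he : 1 ≤ e)
    (heg : e + g = 3 * D) (h1 : 3 * (m - 1) = e * (q - 1) + g) (h2 : q * g ≤ (q - 1) * e) :
    (m = q ^ 2 - q + 1 ∧ h = 0) ∨
      (3 * m = q ^ 2 - q + 1 ∧ 3 * h = (q + 1) * (q - 3)) := by
  have hq2 : q ≤ q ^ 2 := by nlinarith
  have hmr' : (m : ℤ) * r = (q : ℤ) ^ 2 - q + 1 := by
    have h := congrArg (Nat.cast : ℕ → ℤ) hmr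
    push_cast [Nat.cast_sub hq2] at h
    exact h
  have h1' : 3 * ((m : ℤ) - 1) = e * ((q : ℤ) - 1) + g := by
    have h := congrArg (Nat.cast : ℕ → ℤ) h1
    push_cast [Nat.cast_sub (show 1 ≤ m by omega), Nat.cast_sub (show 1 ≤ q by omega)] at h
    exact h
  have h2' : (q : ℤ) * g ≤ ((q : ℤ) - 1) * e := by
    have h : ((q * g : ℕ) : ℤ) ≤ (((q - 1) * e : ℕ) : ℤ) := by exact_mod_cast h2
    push_cast [Nat.cast_sub (show 1 ≤ q by omega)] at h
    exact h
  have hqz : (6 : ℤ) ≤ q := by exact_mod_cast hq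
  have hez : (1 : ℤ) ≤ e := by exact_mod_cast he
  have hgz : (0 : ℤ) ≤ g := Int.natCast_nonneg g
  have hge : (g : ℤ) < e := by
    by_contra hcon
    push Not at hcon
    have h := mul_le_mul_of_nonneg_left hcon (show (0 : ℤ) ≤ q - 1 by omega)
    linarith
  have hr : 1 ≤ r := by
    rcases Nat.eq_zero_or_pos r with h0 | h0
    · rw [h0] at hmr
      omega
    · exact h0
  by_cases hq3 : q % 3 = 2
  · right
    obtain ⟨t, ht⟩ : ∃ t, q = 3 * t + 2 := ⟨q / 3, by omega⟩
    have hfac : q ^ 2 - q + 1 = 3 * (3 * (t ^ 2 + t) + 1) := by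
      have h : q ^ 2 = q + (9 * t ^ 2 + 9 * t + 2) := by rw [ht]; ring
      rw [h]
      have h' : q + (9 * t ^ 2 + 9 * t + 2) - q = 9 * t ^ 2 + 9 * t + 2 := by omega
      rw [h']
      ring
    by_cases hp3 : p = 3
    · exfalso
      have hm3 : m = 3 := by
        rcases Nat.lt_or_ge w 2 with hw2 | hw2
        · have hw1 : w = 1 := by omega
          rw [hmw, hw1, hp3, pow_one]
        · exfalso
          have h9 : 9 ∣ m := by
            rw [hmw, hp3]
            exact (pow_dvd_pow 3 hw2 : (3 : ℕ) ^ 2 ∣ 3 ^ w)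
          have h9' : 9 ∣ 3 * (3 * (t ^ 2 + t) + 1) := by
            rw [← hfac, ← hmr]
            exact h9.mul_right r
          omega
      rw [hm3] at h1'
      push_cast at h1'
      have hq7 : (q : ℤ) ≤ 7 := by
        have h := mul_le_mul_of_nonneg_right hez (show (0 : ℤ) ≤ q - 1 by omega)
        linarith
      have hq7' : q ≤ 7 := by exact_mod_cast hq7
      omega
    · have hco : Nat.Coprime 3 m := by
        rw [hmw]
        exact ((Nat.coprime_primes Nat.prime_three hp).2 (Ne.symm hp3)).pow_right w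
      have h3 : 3 ∣ m * r := by
        rw [hmr, hfac]
        exact dvd_mul_right _ _
      obtain ⟨c, hc⟩ := hco.dvd_of_dvd_mul_left h3
      have hc1 : 1 ≤ c := by omega
      have hcz : (1 : ℤ) ≤ c := by exact_mod_cast hc1
      have hm3 : 3 * (m : ℤ) * c = (q : ℤ) ^ 2 - q + 1 := by
        rw [← hmr', hc]
        push_cast
        ring
      have hd : (c : ℤ) * (g + 3) = 1 + (q - c * e) * (q - 1) := by
        linear_combination hm3 - (c : ℤ) * h1'
      obtain ⟨δ, hδ⟩ : ∃ δ : ℤ, δ = q - c * e := ⟨_, rfl⟩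
      obtain ⟨s, hs⟩ : ∃ s : ℤ, s = e - g := ⟨_, rfl⟩
      rw [← hδ] at hd
      have hs1 : 1 ≤ s := by omega
      have hks : (c : ℤ) * (3 - s) = (δ - 1) * q + 1 := by
        have h : (c : ℤ) * e = q - δ := by rw [hδ]; ring
        have h' : (c : ℤ) * (3 - s) = c * (g + 3) - c * e := by rw [hs]; ring
        rw [h', hd, h]
        ring
      have hce : (c : ℤ) * e = q - δ := by rw [hδ]; ring
      have hδ1 : 1 ≤ δ := by
        by_contra hcon
        have hcon' : δ ≤ 0 := by omega
        have h := mul_nonpos_of_nonpos_of_nonneg hcon' (show (0 : ℤ) ≤ q - 1 by omega)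
        have h' := mul_nonneg (show (0 : ℤ) ≤ c by omega) hgz
        linarith
      rcases eq_or_lt_of_le hδ1 with hδe | hδ2
      · rw [← hδe] at hks hce
        have hk1 : (c : ℤ) * (3 - s) = 1 := by rw [hks]; ring
        have hpos : 0 < 3 - s := by
          by_contra hcon
          push Not at hcon
          have h := mul_nonpos_of_nonneg_of_nonpos (show (0 : ℤ) ≤ c by omega) hcon
          omega
        have hc' : (c : ℤ) = 1 := by
          have h := le_mul_of_one_le_right (show (0 : ℤ) ≤ c by omega) (show (1 : ℤ) ≤ 3 - s by omega)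
          omega
        have hs2 : s = 2 := by
          rw [hc', one_mul] at hk1
          omega
        rw [hc', one_mul] at hce
        have hc2 : c = 1 := by exact_mod_cast hc'
        have hg : g = q - 3 := by omega
        refine ⟨?_, ?_⟩
        · rw [← hmr, hc, hc2]
          ring
        · rw [hh, hg]
      · exfalso
        have hδ2' : 2 ≤ δ := by omega
        have hpos : 0 < 3 - s := by
          by_contra hcon
          push Not at hcon
          have h1 : (c : ℤ) * (3 - s) ≤ 0 := mul_nonpos_of_nonneg_of_nonpos (by omega) hcon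
          have h2 := mul_nonneg (show (0 : ℤ) ≤ δ - 1 by omega) (show (0 : ℤ) ≤ q by omega)
          linarith
        rcases (show s = 1 ∨ s = 2 by omega) with hs' | hs'
        · rw [hs'] at hks
          have hce2 : ((δ - 1) * q + 1) * (e : ℤ) = 2 * (q - δ) := by
            rw [← hks, ← hce]
            ring
          have hge1 : ((δ - 1) * q + 1) ≤ ((δ - 1) * q + 1) * (e : ℤ) := by
            have h0 := mul_nonneg (show (0 : ℤ) ≤ δ - 1 by omega) (show (0 : ℤ) ≤ q by omega)
            exact le_mul_of_one_le_right (by linarith) hez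
          have hδle : δ ≤ 2 := by
            by_contra hcon
            have h3' : 3 ≤ δ := by omega
            have h := mul_le_mul_of_nonneg_right (show (2 : ℤ) ≤ δ - 1 by omega)
              (show (0 : ℤ) ≤ q by omega)
            linarith
          have hδeq : δ = 2 := by omega
          rw [hδeq] at hce2
          rcases eq_or_lt_of_le hez with he1 | he2
          · rw [← he1] at hce2
            omega
          · have he2' : (2 : ℤ) ≤ e := by omega
            have h := mul_le_mul_of_nonneg_left he2' (show (0 : ℤ) ≤ (2 - 1) * q + 1 by omega)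
            linarith
        · rw [hs'] at hks
          have hcc : (c : ℤ) ≤ c * e := le_mul_of_one_le_right (by omega) hez
          have h := mul_le_mul_of_nonneg_right (show (1 : ℤ) ≤ δ - 1 by omega)
            (show (0 : ℤ) ≤ q by omega)
          linarith
  · left
    have h3g : 3 ∣ g := by
      have h : 3 ∣ (q + 1) * g := by
        rw [← hh]
        exact dvd_mul_right _ _
      rcases (Nat.Prime.dvd_mul Nat.prime_three).1 h with h' | h'
      · exfalso
        omega
      · exact h'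
    obtain ⟨j, hj⟩ := h3g
    obtain ⟨i, hi⟩ : ∃ i, e = 3 * i := ⟨D - j, by omega⟩
    have hi1 : 1 ≤ i := by omega
    have hmi : (m : ℤ) - 1 = i * ((q : ℤ) - 1) + j := by
      rw [hi, hj] at h1'
      push_cast at h1'
      linarith
    have hji : j < i := by
      rw [hi, hj] at hge
      push_cast at hge
      omega
    have hrz : (1 : ℤ) ≤ r := by exact_mod_cast hr
    have hjz : (0 : ℤ) ≤ j := Int.natCast_nonneg j
    have hd : (r : ℤ) * (j + 1) = 1 + (q - r * i) * (q - 1) := by
      linear_combination hmr' - (r : ℤ) * hmi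
    obtain ⟨δ, hδ⟩ : ∃ δ : ℤ, δ = q - r * i := ⟨_, rfl⟩
    rw [← hδ] at hd
    have hδ0 : 0 ≤ δ := by
      by_contra hcon
      have hcon' : δ ≤ -1 := by omega
      have h := mul_le_mul_of_nonneg_right hcon' (show (0 : ℤ) ≤ q - 1 by omega)
      have h' := mul_nonneg (show (0 : ℤ) ≤ r by omega) hjz
      linarith
    rcases eq_or_lt_of_le hδ0 with hδe | hδ1
    · rw [← hδe] at hd
      have h1 : (r : ℤ) * (j + 1) = 1 := by rw [hd]; ring
      have hr1 : (r : ℤ) = 1 := by
        have h := le_mul_of_one_le_right (show (0 : ℤ) ≤ r by omega) (show (1 : ℤ) ≤ j + 1 by omega)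
        omega
      have hj0 : (j : ℤ) = 0 := by
        rw [hr1, one_mul] at h1
        omega
      have hr1' : r = 1 := by exact_mod_cast hr1
      have hj0' : j = 0 := by exact_mod_cast hj0
      refine ⟨?_, ?_⟩
      · rw [← hmr, hr1', mul_one]
      · rw [hj, hj0'] at hh
        omega
    · exfalso
      have h1 : (r : ℤ) * (i - j - 1) = (1 - δ) * q - 1 := by
        have h : (r : ℤ) * i = q - δ := by rw [hδ]; ring
        have h' : (r : ℤ) * (i - j - 1) = r * i - r * (j + 1) := by ring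
        rw [h', hd, h]
        ring
      have h2 : (0 : ℤ) ≤ i - j - 1 := by omega
      have h3 : 0 ≤ (r : ℤ) * (i - j - 1) := mul_nonneg (by omega) h2
      have h4 := mul_nonpos_of_nonpos_of_nonneg (show 1 - δ ≤ 0 by omega) (show (0 : ℤ) ≤ q by omega)
      linarith

end Pool.Agent.Lib.MP_eb4ae8_co
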