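import Mathlib

/-! Arithmetic: the exceptional solutions are impossible. -/

namespace Pool.Agent.Lib.MP_eb4ae8_co

/-- The case `q = 2 P`, `m = P ^ 2`, `P` odd, `2 g + 5 = P`, `3 h = (q+1) g`: here
`O = 4 (q^2-q+1)`, and the equation for `k` modulo `P` gives `k ≡ -4 (1+h)`, `O ≡ 4`,
so the last equation modulo `P` gives `4 e ≡ 4 (1 + h)`, i.e. `e ≡ 1 + h` (`P` odd), and
`6 h = (2 P + 1)(P - 5) ≡ -5`, so `P ∣ 6 e - 1` with `e ≤ 2`: `P ∣ 1`, `P ∣ 5` or `P ∣ 11`.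
`P = 5`: `q = 10`, `O = 364`, `h = 0`, and `364 * 11 = 1100 + 99 k` is impossible. `P = 11`:
`q = 22`, `O = 1852`, `h = 23`, `1852 * 46 = 484 * 23 + 483 k` is impossible. -/
theorem ar_twoP (q m O h k P g e : ℕ) (z : ℤ) (hP : Odd P) (hP3 : 3 ≤ P) (hq : q = 2 * P)
    (hm : m = P ^ 2) (hO : O * m = q ^ 2 * (q ^ 2 - q + 1)) (hg : 2 * g + 5 = P)
    (hh : 3 * h = (q + 1) * g) (he : e ≤ 2)
    (hk : O * (q + 1 + h) = q ^ 2 * (q + 1) + (q ^ 2 - 1) * k)
    (hz : (O : ℤ) * e = (q : ℤ) ^ 2 - q - k + q * z) : False := by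
  subst hq hm
  have hP0 : 0 < P := by omega
  -- the value of `O`
  have hOz : (O : ℤ) = 4 * ((2 * P : ℤ) ^ 2 - 2 * P + 1) := by
    have h1 : (2 * P) ≤ (2 * P) ^ 2 := Nat.le_self_pow (by norm_num) _
    have h2 : (O : ℤ) * (P : ℤ) ^ 2 = (2 * P : ℤ) ^ 2 * ((2 * P : ℤ) ^ 2 - 2 * P + 1) := by
      have h3 : ((O * P ^ 2 : ℕ) : ℤ) = (((2 * P) ^ 2 * ((2 * P) ^ 2 - 2 * P + 1) : ℕ) : ℤ) := by
        rw [hO]
      push_cast [h1] at h3
      exact h3
    have h4 : ((P : ℤ) ^ 2) ≠ 0 := by positivity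
    have h5 : ((O : ℤ) - 4 * ((2 * P : ℤ) ^ 2 - 2 * P + 1)) * (P : ℤ) ^ 2 = 0 := by
      linear_combination h2
    rcases mul_eq_zero.1 h5 with h6 | h6
    · linarith
    · exact absurd h6 h4
  have hkz : (O : ℤ) * (2 * P + 1 + h) = (2 * P : ℤ) ^ 2 * (2 * P + 1) + ((2 * P : ℤ) ^ 2 - 1) * k := by
    have h1 : 1 ≤ (2 * P) ^ 2 := Nat.one_le_pow _ _ (by omega)
    have h3 : ((O * (2 * P + 1 + h) : ℕ) : ℤ) =
        (((2 * P) ^ 2 * (2 * P + 1) + ((2 * P) ^ 2 - 1) * k : ℕ) : ℤ) := by rw [hk]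
    push_cast [h1] at h3
    exact h3
  have hhz : (3 : ℤ) * h = (2 * P + 1) * g := by exact_mod_cast hh
  have hgz : (2 : ℤ) * g + 5 = P := by exact_mod_cast hg
  push_cast at hz
  -- the divisibility
  have h7 : (P : ℤ) ∣ 4 * (6 * e - 1) := by
    have h8 : (O : ℤ) = 4 + P * (16 * P - 8) := by rw [hOz]; ring
    have h9 : (h : ℤ) * 6 = (2 * P + 1) * (P - 5) := by linear_combination 2 * hhz + (2 * P + 1) * hgz
    refine ⟨48 - 6 * (16 * P - 8) * e + 6 * (16 * P - 8) * (2 * P + 1 + h) +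
      6 * (4 * P - 2 + 2 * z - 4 * P * (2 * P + 1) - 4 * P * k) + 4 * (2 * P - 9), ?_⟩
    rw [h8] at hz hkz
    linear_combination 6 * hz - 6 * hkz + 4 * h9
  have hcop : IsCoprime (P : ℤ) 4 := by
    have h1 : IsCoprime (P : ℤ) 2 := by
      rw [Int.isCoprime_iff_gcd_eq_one]
      have h2 : Nat.Coprime P 2 := Nat.coprime_two_right.2 hP
      have h3 : Int.gcd (P : ℤ) 2 = Nat.gcd P 2 := rfl
      rw [h3]
      exact h2
    have h4 : (4 : ℤ) = 2 ^ 2 := by norm_num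
    rw [h4]
    exact h1.pow_right
  have h10 : (P : ℤ) ∣ 6 * e - 1 := hcop.dvd_of_dvd_mul_left h7
  have he' : e = 0 ∨ e = 1 ∨ e = 2 := by omega
  rcases he' with rfl | rfl | rfl
  · have h11 : (P : ℤ) ∣ 1 := by
      have := (dvd_neg (α := ℤ)).2 h10
      simpa using this
    have h12 := Int.le_of_dvd (by norm_num) h11
    omega
  · have h11 : P ∣ 5 := by
      have : (P : ℤ) ∣ ((5 : ℕ) : ℤ) := by
        simpa using h10
      exact Int.natCast_dvd_natCast.1 this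
    have h12 : P = 5 := by
      rcases (Nat.dvd_prime (by norm_num)).1 h11 with h | h
      · omega
      · exact h
    subst h12
    have hg0 : g = 0 := by omega
    subst hg0
    have hh0 : h = 0 := by omega
    subst hh0
    norm_num at hOz hk
    have hO' : O = 364 := by omega
    omega
  · have h11 : P ∣ 11 := by
      have : (P : ℤ) ∣ ((11 : ℕ) : ℤ) := by
        simpa using h10
      exact Int.natCast_dvd_natCast.1 this
    have h12 : P = 11 := by
      rcases (Nat.dvd_prime (by norm_num)).1 h11 with h | h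
      · omega
      · exact h
    subst h12
    have hg0 : g = 3 := by omega
    subst hg0
    have hh0 : h = 23 := by omega
    subst hh0
    norm_num at hOz hk
    have hO' : O = 1852 := by omega
    omega

end Pool.Agent.Lib.MP_eb4ae8_co
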