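import Mathlib

/-! Arithmetic: the cases `h = 0` and `3 m = q^2-q+1` are impossible. -/

namespace Pool.Agent.Lib.MP_eb4ae8_co

/-- The case `h = 0`: `(q^2-1) ∣ q^2 (q+1)` gives `(q-1) ∣ q^2`, so `(q-1) ∣ 1`. -/
theorem ar_full (q : ℕ) (hq : 3 ≤ q) (h : ((q : ℤ) ^ 2 - 1) ∣ 0 - (q : ℤ) ^ 2 * (q + 1)) :
    False := by
  obtain ⟨k, hk⟩ := h
  have hq' : (3 : ℤ) ≤ q := by exact_mod_cast hq
  have h1 : ((q : ℤ) + 1) * ((q : ℤ) ^ 2 + ((q : ℤ) - 1) * k) = 0 := by linarith [hk]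
  have h2 : (q : ℤ) ^ 2 + ((q : ℤ) - 1) * k = 0 := by
    rcases mul_eq_zero.mp h1 with h | h
    · omega
    · exact h
  have h3 : ((q : ℤ) - 1) ∣ 1 := ⟨-k - (q + 1), by linarith [h2]⟩
  have h4 := Int.le_of_dvd one_pos h3
  omega

/-- The case `3 m = q^2-q+1`, `3 h = (q+1)(q-3)`: `O = 3 q^2`. As `m * 3 (q+1) = q^3 + 1 =
q^2 (q+1) - (q^2-1)`, `(q^2-1) ∣ m (t - 3 (q+1))`; `m` is coprime to `q^2-1` (`gcd (q^2-q+1)
(q^2-1)` divides `3`, and `9 ∤ q^2-q+1`), so `(q^2-1) ∣ t - 3 (q+1)`, and `t ≤ 3 q^2` gives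
`t ≤ 3 (q+1) + 2 (q^2-1) = (q+1)(2 q+1)`. Then `3 q^2 m h ≤ (m-1) m t` gives
`3 q^2 (q-3) ≤ (q^2-q-2)(2 q+1)`, i.e. `q^3 + 5 q + 2 ≤ 8 q^2`, impossible for `q ≥ 8`; `q = 6`
and `q = 7` are impossible as `3 ∤ 31`, `3 ∤ 43`. -/
theorem ar_third (q m O h t : ℕ) (hq : 6 ≤ q) (hO : O * m = q ^ 2 * (q ^ 2 - q + 1))
    (hm : 3 * m = q ^ 2 - q + 1) (hh : 3 * h = (q + 1) * (q - 3)) (ht : t ≤ O)
    (hdvd : ((q : ℤ) ^ 2 - 1) ∣ (m : ℤ) * t - (q : ℤ) ^ 2 * (q + 1))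
    (hle : O * m * h ≤ (m - 1) * (m * t)) : False := by
  have hqq : q ≤ q ^ 2 := by nlinarith
  have hmZ : 3 * (m : ℤ) = (q : ℤ) ^ 2 - q + 1 := by
    have := congrArg (fun x : ℕ => (x : ℤ)) hm
    simpa [Nat.cast_sub hqq] using this
  -- `q = 3 s - 1`
  have hmod : q % 3 = 2 := by
    have h3 : ((q : ℤ) ^ 2 - q + 1) % 3 = 0 := by omega
    have hq3 : (q : ℤ) % 3 = 0 ∨ (q : ℤ) % 3 = 1 ∨ (q : ℤ) % 3 = 2 := by omega
    rcases hq3 with h0 | h0 | h0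
    · exfalso
      have : ((q : ℤ) ^ 2 - q + 1) % 3 = 1 := by
        rw [pow_two, Int.add_emod, Int.sub_emod, Int.mul_emod, h0]; norm_num
      omega
    · exfalso
      have : ((q : ℤ) ^ 2 - q + 1) % 3 = 1 := by
        rw [pow_two, Int.add_emod, Int.sub_emod, Int.mul_emod, h0]; norm_num
      omega
    · omega
  obtain ⟨s, hs⟩ : ∃ s : ℕ, q = 3 * s - 1 ∧ 3 ≤ s := ⟨(q + 1) / 3, by omega, by omega⟩
  obtain ⟨hs, hs3⟩ := hs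
  have hqZ : (q : ℤ) = 3 * s - 1 := by omega
  have hsZ : (3 : ℤ) ≤ s := by exact_mod_cast hs3
  have hmS : (m : ℤ) = 3 * (s : ℤ) ^ 2 - 3 * s + 1 := by
    rw [hqZ] at hmZ; nlinarith
  have hhS : (h : ℤ) = (s : ℤ) * (3 * s - 4) := by
    have h1 := congrArg (fun x : ℕ => (x : ℤ)) hh
    have h2 : ((q - 3 : ℕ) : ℤ) = (q : ℤ) - 3 := by
      rw [Nat.cast_sub (by omega)]; norm_num
    simp only [Nat.cast_mul, Nat.cast_add, Nat.cast_one, Nat.cast_ofNat, h2] at h1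
    rw [hqZ] at h1
    nlinarith
  have hmpos : 0 < m := by
    have : (0 : ℤ) < m := by rw [hmS]; nlinarith
    exact_mod_cast this
  have hO' : O = 3 * q ^ 2 := by
    have : O * m = (3 * q ^ 2) * m := by rw [hO, ← hm]; ring
    exact Nat.eq_of_mul_eq_mul_right hmpos this
  -- the divisibility
  have hd : ((q : ℤ) ^ 2 - 1) ∣ (t : ℤ) - 9 * s := by
    obtain ⟨k, hk⟩ := hdvd
    have hb : (m : ℤ) * (q + 2) = 1 + ((q : ℤ) ^ 2 - 1) * s := by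
      rw [hmS, hqZ]; ring
    have h2 : (m : ℤ) * ((t : ℤ) - 9 * s) = ((q : ℤ) ^ 2 - 1) * (k + 1) := by
      have h3 : (m : ℤ) * (9 * s) = (q : ℤ) ^ 2 * (q + 1) - ((q : ℤ) ^ 2 - 1) := by
        rw [hmS, hqZ]; ring
      rw [mul_sub, h3]; linarith [hk]
    refine ⟨(k + 1) * (q + 2) - s * ((t : ℤ) - 9 * s), ?_⟩
    have h4 : (t : ℤ) - 9 * s = (m : ℤ) * (q + 2) * ((t : ℤ) - 9 * s)
        - ((q : ℤ) ^ 2 - 1) * s * ((t : ℤ) - 9 * s) := by rw [hb]; ring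
    calc (t : ℤ) - 9 * s = (m : ℤ) * (q + 2) * ((t : ℤ) - 9 * s)
        - ((q : ℤ) ^ 2 - 1) * s * ((t : ℤ) - 9 * s) := h4
      _ = (q + 2) * ((m : ℤ) * ((t : ℤ) - 9 * s))
        - ((q : ℤ) ^ 2 - 1) * s * ((t : ℤ) - 9 * s) := by ring
      _ = _ := by rw [h2]; ring
  obtain ⟨k, hk⟩ := hd
  have hq2 : (q : ℤ) ^ 2 - 1 = 3 * s * (3 * s - 2) := by rw [hqZ]; ring
  have hq2' : (q : ℤ) ^ 2 = 9 * (s : ℤ) ^ 2 - 6 * s + 1 := by rw [hqZ]; ring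
  have htZ : (t : ℤ) ≤ 3 * (q : ℤ) ^ 2 := by
    have : (t : ℤ) ≤ O := by exact_mod_cast ht
    rw [hO'] at this
    exact_mod_cast this
  have hk2 : k ≤ 2 := by
    by_contra hcon
    have hk3 : 3 ≤ k := by omega
    rw [hq2] at hk
    rw [hq2'] at htZ
    have : 3 * (s : ℤ) * (3 * s - 2) * 3 ≤ 3 * s * (3 * s - 2) * k := by
      apply mul_le_mul_of_nonneg_left hk3
      nlinarith
    nlinarith
  have htle : (t : ℤ) ≤ 3 * s * (6 * s - 1) := by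
    rw [hq2] at hk
    have : 3 * (s : ℤ) * (3 * s - 2) * k ≤ 3 * s * (3 * s - 2) * 2 := by
      apply mul_le_mul_of_nonneg_left hk2
      nlinarith
    nlinarith
  -- the inequality
  have hle1 : O * h ≤ (m - 1) * t := by
    have : m * (O * h) ≤ m * ((m - 1) * t) := by
      calc m * (O * h) = O * m * h := by ring
        _ ≤ (m - 1) * (m * t) := hle
        _ = m * ((m - 1) * t) := by ring
    exact Nat.le_of_mul_le_mul_left this hmpos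
  have hle2 : (3 * (q : ℤ) ^ 2) * ((s : ℤ) * (3 * s - 4)) ≤ (3 * (s : ℤ) ^ 2 - 3 * s) * t := by
    have h1 : ((O * h : ℕ) : ℤ) ≤ (((m - 1) * t : ℕ) : ℤ) := by exact_mod_cast hle1
    rw [Nat.cast_mul, Nat.cast_mul, Nat.cast_sub hmpos, hO', hhS, hmS] at h1
    push_cast at h1
    linarith
  have hle3 : (3 * (s : ℤ) ^ 2 - 3 * s) * t ≤ (3 * (s : ℤ) ^ 2 - 3 * s) * (3 * s * (6 * s - 1)) := by
    apply mul_le_mul_of_nonneg_left htle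
    nlinarith
  rw [hq2'] at hle2
  have hfin : (3 * s : ℤ) * (9 * (s : ℤ) ^ 3 - 33 * s ^ 2 + 24 * s - 4) ≤ 0 := by
    nlinarith [hle2, hle3]
  have hpos : 0 < 9 * (s : ℤ) ^ 3 - 33 * s ^ 2 + 24 * s - 4 := by
    obtain ⟨u, hu⟩ : ∃ u : ℤ, (s : ℤ) = 3 + u := ⟨(s : ℤ) - 3, by ring⟩
    have hu0 : 0 ≤ u := by omega
    rw [hu]
    have h2 : 0 ≤ u ^ 2 := sq_nonneg u
    have h3 : 0 ≤ u ^ 3 := by positivity
    nlinarith
  have : 0 < (3 * s : ℤ) * (9 * (s : ℤ) ^ 3 - 33 * s ^ 2 + 24 * s - 4) := by positivity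
  omega

end Pool.Agent.Lib.MP_eb4ae8_co
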