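import Pool.Agent.Lib.MP_eb4ae8_co.Mat

/-! Permutation matrices of automorphisms. -/

namespace Pool.Agent.Lib.MP_eb4ae8_co

variable {V : Type*} [Fintype V] [DecidableEq V] {Γ : SimpleGraph V} {q : ℕ}

omit [Fintype V] [DecidableEq V] in
private theorem dist_map_le (g : Γ ≃g Γ) (x y : V) (h : Γ.Reachable x y) :
    Γ.dist (g x) (g y) ≤ Γ.dist x y := by
  obtain ⟨p, hp⟩ := h.exists_walk_length_eq_dist
  have h1 := SimpleGraph.dist_le (p.map g.toHom)
  rw [SimpleGraph.Walk.length_map, hp] at h1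
  exact h1

/-- automorphisms preserve distances. -/
theorem dist_map (g : Γ ≃g Γ) (x y : V) : Γ.dist (g x) (g y) = Γ.dist x y := by
  by_cases h : Γ.Reachable x y
  · refine le_antisymm (dist_map_le g x y h) ?_
    have h2 : Γ.Reachable (g x) (g y) := h.map g.toHom
    have h3 := dist_map_le g.symm (g x) (g y) h2
    simpa using h3
  · have h2 : ¬ Γ.Reachable (g x) (g y) := by
      intro h3
      apply h
      have h4 := h3.map g.symm.toHom
      simpa using h4
    rw [SimpleGraph.dist_eq_zero_of_not_reachable h,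
      SimpleGraph.dist_eq_zero_of_not_reachable h2]

private theorem RM_mul_apply (g : Γ ≃g Γ) (M : Matrix V V ℚ) (x y : V) :
    (RM g * M) (g x) y = M x y := by
  rw [Matrix.mul_apply, Finset.sum_eq_single x]
  · simp [RM]
  · intro z _ hz
    have : ¬ g z = g x := fun h => hz (g.injective h)
    simp [RM, this]
  · intro h
    exact absurd (Finset.mem_univ _) h

private theorem mul_RM_apply (g : Γ ≃g Γ) (M : Matrix V V ℚ) (x y : V) :
    (M * RM g) x y = M x (g y) := by
  rw [Matrix.mul_apply, Finset.sum_eq_single (g y)]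
  · simp [RM]
  · intro z _ hz
    have : ¬ g y = z := fun h => hz h.symm
    simp [RM, this]
  · intro h
    exact absurd (Finset.mem_univ _) h

private theorem comm_of_inv (g : Γ ≃g Γ) (M : Matrix V V ℚ)
    (h : ∀ x y, M (g x) (g y) = M x y) : RM g * M = M * RM g := by
  ext x y
  obtain ⟨x', rfl⟩ := g.surjective x
  rw [RM_mul_apply, mul_RM_apply, h]

theorem RM_one : RM (1 : Γ ≃g Γ) = 1 := by
  classical
  ext x y
  rw [Matrix.one_apply]
  have h : (1 : Γ ≃g Γ) y = y := rfl
  by_cases hxy : x = y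
  · subst hxy
    simp [RM, h]
  · have h2 : ¬ y = x := fun h' => hxy h'.symm
    simp [RM, h, hxy, h2]

theorem RM_mul (g h : Γ ≃g Γ) : RM (g * h) = RM g * RM h := by
  classical
  ext x y
  rw [mul_RM_apply]
  have h1 : (g * h) y = g (h y) := rfl
  simp [RM, h1]

theorem RM_pow (g : Γ ≃g Γ) (n : ℕ) : RM (g ^ n) = RM g ^ n := by
  induction n with
  | zero => rw [pow_zero, pow_zero, RM_one]
  | succ n ih => rw [pow_succ, pow_succ, RM_mul, ih]

theorem RM_AM (g : Γ ≃g Γ) : RM g * AM Γ = AM Γ * RM g := by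
  classical
  refine comm_of_inv g _ fun x y => ?_
  simp only [AM, Matrix.of_apply]
  have h : Γ.Adj (g x) (g y) ↔ Γ.Adj x y := g.map_adj_iff
  by_cases hxy : Γ.Adj x y
  · rw [if_pos hxy, if_pos (h.2 hxy)]
  · rw [if_neg hxy, if_neg (fun h' => hxy (h.1 h'))]

theorem RM_NM (g : Γ ≃g Γ) : RM g * NM Γ q = NM Γ q * RM g := by
  classical
  refine comm_of_inv g _ fun x y => ?_
  simp only [NM, Matrix.of_apply, dist_map]
  by_cases hxy : x = y
  · subst hxy
    simp
  · have h2 : ¬ g x = g y := fun h => hxy (g.injective h)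
    rw [if_neg hxy, if_neg h2]

theorem RM_JM (g : Γ ≃g Γ) : RM g * JM V = JM V := by
  ext x y
  obtain ⟨x', rfl⟩ := g.surjective x
  rw [RM_mul_apply]
  simp [JM]

theorem JM_RM (g : Γ ≃g Γ) : JM V * RM g = JM V := by
  ext x y
  rw [mul_RM_apply]
  simp [JM]

theorem RM_EM (g : Γ ≃g Γ) : RM g * EM Γ q = EM Γ q * RM g := by
  rw [EM, Matrix.mul_smul, Matrix.smul_mul, Matrix.mul_sub, Matrix.sub_mul, Matrix.mul_smul,
    Matrix.smul_mul, RM_NM, RM_JM, JM_RM]

end Pool.Agent.Lib.MP_eb4ae8_co
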