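import Pool.Agent.Lib.MP_eb4ae8_co.Mat

/-! Traces of products with permutation matrices of automorphisms. -/

namespace Pool.Agent.Lib.MP_eb4ae8_co

variable {V : Type*} [Fintype V] [DecidableEq V] {Γ : SimpleGraph V} {q : ℕ}

omit [DecidableEq V] in
open Classical in
private theorem moved_sum (g : Γ ≃g Γ) (i : ℕ) :
    (moved Γ g i : ℚ) = ∑ x : V, if Γ.dist x (g x) = i then (1 : ℚ) else 0 := by
  rw [Finset.sum_boole, moved, Nat.card_eq_fintype_card, Fintype.card_subtype]

omit [DecidableEq V] in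
private theorem trace_mul_RM (M : Matrix V V ℚ) (g : Γ ≃g Γ) :
    (M * RM g).trace = ∑ x : V, M x (g x) := by
  classical
  unfold Matrix.trace
  refine Finset.sum_congr rfl fun x _ => ?_
  rw [Matrix.diag_apply, Matrix.mul_apply, Finset.sum_eq_single (g x)]
  · simp [RM]
  · intro y _ hy
    have : ¬ g x = y := fun h => hy h.symm
    simp [RM, this]
  · intro h
    exact absurd (Finset.mem_univ _) h

theorem trace_RM (g : Γ ≃g Γ) (hc : Γ.Connected) : (RM g).trace = (moved Γ g 0 : ℚ) := by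
  classical
  rw [moved_sum]
  unfold Matrix.trace
  refine Finset.sum_congr rfl fun x _ => ?_
  rw [Matrix.diag_apply]
  have h : Γ.dist x (g x) = 0 ↔ g x = x := by
    rw [hc.dist_eq_zero_iff]
    exact eq_comm
  by_cases hx : g x = x
  · simp [RM, hx]
  · have h2 : ¬ Γ.dist x (g x) = 0 := fun h' => hx (h.1 h')
    rw [if_neg h2]
    simp [RM, hx]

theorem trace_AM_RM (g : Γ ≃g Γ) : (AM Γ * RM g).trace = (moved Γ g 1 : ℚ) := by
  classical
  rw [moved_sum, trace_mul_RM]
  refine Finset.sum_congr rfl fun x _ => ?_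
  have h : Γ.dist x (g x) = 1 ↔ Γ.Adj x (g x) := SimpleGraph.dist_eq_one_iff_adj
  by_cases hx : Γ.Adj x (g x)
  · rw [if_pos (h.2 hx)]
    simp [AM, hx]
  · rw [if_neg (fun h' => hx (h.1 h'))]
    simp [AM, hx]

theorem trace_NM_RM (g : Γ ≃g Γ) (hc : Γ.Connected) :
    (NM Γ q * RM g).trace = ((q : ℚ) + 1) * (moved Γ g 0 : ℚ) + (moved Γ g 3 : ℚ) := by
  classical
  rw [moved_sum, moved_sum, trace_mul_RM, Finset.mul_sum, ← Finset.sum_add_distrib]
  refine Finset.sum_congr rfl fun x _ => ?_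
  have h : Γ.dist x (g x) = 0 ↔ x = g x := hc.dist_eq_zero_iff
  by_cases hx : x = g x
  · have h0 := h.2 hx
    have h3 : ¬ Γ.dist x (g x) = 3 := by omega
    rw [if_pos h0, if_neg h3]
    simp only [NM, Matrix.of_apply]
    rw [if_pos hx]
    ring
  · have h0 : ¬ Γ.dist x (g x) = 0 := fun h' => hx (h.1 h')
    rw [if_neg h0]
    simp only [NM, Matrix.of_apply]
    rw [if_neg hx]
    ring

theorem trace_JM_RM (g : Γ ≃g Γ) : (JM V * RM g).trace = (Fintype.card V : ℚ) := by
  rw [trace_mul_RM]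
  simp [JM]

end Pool.Agent.Lib.MP_eb4ae8_co
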