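import Mathlib

/-! Traces of idempotent matrices. -/

namespace Pool.Agent.Lib.MP_eb4ae8_co

/-- The trace of an idempotent matrix over a field of characteristic zero is a natural number. -/
theorem trace_nat {K n : Type*} [Field K] [CharZero K] [Fintype n] [DecidableEq n]
    (B : Matrix n n K) (h : B * B = B) : ∃ k : ℕ, B.trace = (k : K) := by
  have h1 : IsIdempotentElem (Matrix.toLin' B) := by
    unfold IsIdempotentElem
    rw [Module.End.mul_eq_comp, ← Matrix.toLin'_mul, h]
  have h2 := (LinearMap.IsIdempotentElem.isProj_range (Matrix.toLin' B) h1)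
  refine ⟨Module.finrank K (LinearMap.range (Matrix.toLin' B)), ?_⟩
  rw [← Matrix.trace_toLin'_eq]
  exact h2.trace

end Pool.Agent.Lib.MP_eb4ae8_co
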