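import Pool.Agent.Lib.MP_eb4ae8_co.MatC
import Pool.Agent.Lib.MP_eb4ae8_co.Perm
import Pool.Agent.Lib.MP_eb4ae8_co.PermT
import Pool.Agent.Lib.MP_eb4ae8_co.TrNat

/-! Averages over a finite group of automorphisms. -/

namespace Pool.Agent.Lib.MP_eb4ae8_co

private theorem avg_idem_mul {V : Type*} [Fintype V] {P B : Matrix V V ℚ} (hP : P * P = P)
    (hB : B * B = B) (hc : B * P = P * B) : (P * B) * (P * B) = P * B := by
  calc (P * B) * (P * B) = P * (B * P) * B := by simp only [mul_assoc]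
    _ = P * (P * B) * B := by rw [hc]
    _ = (P * P) * (B * B) := by simp only [mul_assoc]
    _ = P * B := by rw [hP, hB]

private theorem avg_idem_half {V : Type*} [Fintype V] {Q A : Matrix V V ℚ} (e : ℚ) (he : e ≠ 0)
    (hQ : Q * Q = Q) (hQA : Q * A = A * Q) (hAA : A * A * Q = e ^ 2 • Q) :
    ((1 / 2 : ℚ) • (Q + e⁻¹ • (A * Q))) * ((1 / 2 : ℚ) • (Q + e⁻¹ • (A * Q))) =
      (1 / 2 : ℚ) • (Q + e⁻¹ • (A * Q)) := by
  have h1 : Q * (A * Q) = A * Q := by rw [← mul_assoc, hQA, mul_assoc, hQ]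
  have h2 : (A * Q) * Q = A * Q := by rw [mul_assoc, hQ]
  have h3 : (A * Q) * (A * Q) = e ^ 2 • Q := by
    calc (A * Q) * (A * Q) = A * (Q * (A * Q)) := by simp only [mul_assoc]
      _ = A * (A * Q) := by rw [h1]
      _ = A * A * Q := by rw [mul_assoc]
      _ = e ^ 2 • Q := hAA
  rw [smul_mul_smul_comm, add_mul, mul_add, mul_add, hQ, mul_smul_comm, h1, smul_mul_assoc, h2,
    smul_mul_smul_comm, h3, smul_smul]
  have e1 : e⁻¹ * e⁻¹ * e ^ 2 = 1 := by field_simp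
  rw [e1, one_smul]
  have e2 : Q + e⁻¹ • (A * Q) + (e⁻¹ • (A * Q) + Q) = (2 : ℚ) • (Q + e⁻¹ • (A * Q)) := by
    rw [two_smul]
    abel
  rw [e2, smul_smul]
  norm_num

/-- Let `Avg = (1/m) ∑_{c ∈ M} R_c`, an idempotent which commutes with `E`, `Q` and `A`. Then
`E Avg`, `(1/2) (Q + (1/q) A Q) Avg` and `(1/2) (Q - (1/q) A Q) Avg` are idempotents
(`A A Q = q^2 Q`), so their traces `k`, `u`, `v` are natural numbers. By `trace_NM_RM` and
`trace_JM_RM`,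
`m (q^2-1) k = ∑_c ((q+1) moved c 0 + moved c 3) - m q^2 (q+1)`, and
`m q (u - v) = trace (A Q ∑ R_c) = ∑_c moved c 1 - m (q^2-q) + m k` (`A E = -E`,
`A J = (q^2-q) J`). -/
theorem average {V : Type*} [Finite V] {Γ : SimpleGraph V} {q : ℕ} (hq : 3 ≤ q)
    (hA : HasArray Γ q) (M : Subgroup (Γ ≃g Γ)) [Fintype M] :
    ∃ (k : ℕ) (z : ℤ),
      (∑ c : M, (((q : ℤ) + 1) * (moved Γ (c : Γ ≃g Γ) 0 : ℤ) + (moved Γ (c : Γ ≃g Γ) 3 : ℤ))
        = (Nat.card M : ℤ) * ((q : ℤ) ^ 2 * (q + 1) + ((q : ℤ) ^ 2 - 1) * k)) ∧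
      (∑ c : M, (moved Γ (c : Γ ≃g Γ) 1 : ℤ)
        = (Nat.card M : ℤ) * ((q : ℤ) ^ 2 - q - k + q * z)) := by
  classical
  have := Fintype.ofFinite V
  have hq3 : (3 : ℚ) ≤ q := by exact_mod_cast hq
  have hq0 : (q : ℚ) ≠ 0 := by positivity
  have hq1 : (q : ℚ) ^ 2 - 1 ≠ 0 := by nlinarith
  have hq2 : (q : ℚ) ^ 2 - q + 1 ≠ 0 := by nlinarith
  have hcard := card_rat hq hA
  obtain ⟨m, hm⟩ : ∃ m : ℚ, m = (Nat.card M : ℚ) := ⟨_, rfl⟩
  have hmF : m = (Fintype.card M : ℚ) := by rw [hm, Nat.card_eq_fintype_card]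
  have hm0 : m ≠ 0 := by
    rw [hmF]
    exact_mod_cast Fintype.card_ne_zero
  obtain ⟨S, hS⟩ : ∃ S : Matrix V V ℚ, S = ∑ c : M, RM (c : Γ ≃g Γ) := ⟨_, rfl⟩
  have hcomm : ∀ P : Matrix V V ℚ, (∀ g : Γ ≃g Γ, RM g * P = P * RM g) → S * P = P * S := by
    intro P hP
    rw [hS, Finset.sum_mul, Finset.mul_sum]
    exact Finset.sum_congr rfl fun c _ => hP _
  have hSS : S * S = m • S := by
    have h1 : ∀ c : M, RM (c : Γ ≃g Γ) * S = S := by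
      intro c
      have h2 : ∑ d : M, RM ((c * d : M) : Γ ≃g Γ) = S := by
        rw [hS]
        exact Fintype.sum_equiv (Equiv.mulLeft c) _ _ fun d => rfl
      conv_lhs => rw [hS, Finset.mul_sum]
      rw [← h2]
      refine Finset.sum_congr rfl fun d _ => ?_
      rw [← RM_mul]
      rfl
    have h3 : S * S = ∑ c : M, RM (c : Γ ≃g Γ) * S := by
      have h4 : S * S = (∑ c : M, RM (c : Γ ≃g Γ)) * S := by rw [← hS]
      rw [h4, Finset.sum_mul]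
    rw [h3, Finset.sum_congr rfl fun c _ => h1 c, Finset.sum_const, Finset.card_univ, hmF,
      ← Nat.cast_smul_eq_nsmul ℚ]
  have hSA : S * AM Γ = AM Γ * S := hcomm _ RM_AM
  have hSE : S * EM Γ q = EM Γ q * S := hcomm _ RM_EM
  have hSJ : S * JM V = JM V * S := hcomm _ fun g => by rw [RM_JM, JM_RM]
  have hSQ : S * QM Γ q = QM Γ q * S := by
    unfold QM
    rw [mul_sub, mul_sub, sub_mul, sub_mul, mul_one, one_mul, mul_smul_comm, smul_mul_assoc, hSJ,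
      hSE]
  obtain ⟨B, hB⟩ : ∃ B : Matrix V V ℚ, B = m⁻¹ • S := ⟨_, rfl⟩
  have hBB : B * B = B := by
    rw [hB, smul_mul_smul_comm, hSS, smul_smul]
    congr 1
    field_simp
  have hBcomm : ∀ P : Matrix V V ℚ, S * P = P * S → B * P = P * B := by
    intro P hP
    rw [hB, smul_mul_assoc, mul_smul_comm, hP]
  -- traces against the average
  have htr : ∀ P : Matrix V V ℚ, m * (P * B).trace = ∑ c : M, (P * RM (c : Γ ≃g Γ)).trace := by
    intro P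
    rw [hB, mul_smul_comm, Matrix.trace_smul, smul_eq_mul, ← mul_assoc, mul_inv_cancel₀ hm0, one_mul,
      hS, Finset.mul_sum, Matrix.trace_sum]
  -- the first trace
  obtain ⟨k, hk⟩ := trace_nat (EM Γ q * B) (avg_idem_mul (EM_idem hq hA) hBB (hBcomm _ hSE))
  have hE : ∀ g : Γ ≃g Γ, ((q : ℚ) ^ 2 - 1) * (EM Γ q * RM g).trace =
      (((q : ℚ) + 1) * (moved Γ g 0 : ℚ) + (moved Γ g 3 : ℚ)) - (q : ℚ) ^ 2 * (q + 1) := by
    intro g
    have e0 : (EM Γ q * RM g).trace = ((q : ℚ) ^ 2 - 1)⁻¹ *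
        ((((q : ℚ) + 1) * (moved Γ g 0 : ℚ) + (moved Γ g 3 : ℚ)) -
          (((q : ℚ) + 1) / ((q : ℚ) ^ 2 - q + 1)) * ((q : ℚ) ^ 2 * ((q : ℚ) ^ 2 - q + 1))) := by
      unfold EM
      rw [smul_mul_assoc, sub_mul, smul_mul_assoc, Matrix.trace_smul, Matrix.trace_sub,
        Matrix.trace_smul, trace_NM_RM g hA.conn, trace_JM_RM g, hcard, smul_eq_mul, smul_eq_mul]
    have gen : ∀ a b d : ℚ, d ≠ 0 → a / d * (b * d) = b * a := by
      intro a b d hd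
      field_simp
    have e1 : (((q : ℚ) + 1) / ((q : ℚ) ^ 2 - q + 1)) * ((q : ℚ) ^ 2 * ((q : ℚ) ^ 2 - q + 1)) =
        (q : ℚ) ^ 2 * (q + 1) := gen _ _ _ hq2
    rw [e0, e1, ← mul_assoc, mul_inv_cancel₀ hq1, one_mul]
  have h1 : ∑ c : M, (((q : ℚ) + 1) * (moved Γ (c : Γ ≃g Γ) 0 : ℚ) +
      (moved Γ (c : Γ ≃g Γ) 3 : ℚ)) =
      m * ((q : ℚ) ^ 2 * (q + 1) + ((q : ℚ) ^ 2 - 1) * k) := by
    have h2 := htr (EM Γ q)
    rw [hk] at h2
    have h3 : ((q : ℚ) ^ 2 - 1) * (m * k) = ∑ c : M,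
        ((((q : ℚ) + 1) * (moved Γ (c : Γ ≃g Γ) 0 : ℚ) + (moved Γ (c : Γ ≃g Γ) 3 : ℚ)) -
          (q : ℚ) ^ 2 * (q + 1)) := by
      rw [h2, Finset.mul_sum]
      exact Finset.sum_congr rfl fun c _ => hE _
    rw [Finset.sum_sub_distrib, Finset.sum_const, Finset.card_univ, nsmul_eq_mul, ← hmF] at h3
    linarith
  -- the other two idempotents
  have hhalf : ∀ e : ℚ, e ≠ 0 → e ^ 2 = (q : ℚ) ^ 2 → ∃ u : ℕ,
      (((1 / 2 : ℚ) • (QM Γ q + e⁻¹ • (AM Γ * QM Γ q))) * B).trace = (u : ℚ) := by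
    intro e he he2
    refine trace_nat _ (avg_idem_mul (avg_idem_half e he (QM_idem hq hA) (QM_AM hq hA) ?_) hBB ?_)
    · rw [he2]
      exact AM_AM_QM hq hA
    · refine hBcomm _ ?_
      rw [mul_smul_comm, smul_mul_assoc, mul_add, add_mul, mul_smul_comm, smul_mul_assoc, hSQ,
        ← mul_assoc, hSA, mul_assoc, hSQ, ← mul_assoc]
  obtain ⟨u, hu⟩ := hhalf (q : ℚ) hq0 rfl
  obtain ⟨v, hv⟩ := hhalf (-(q : ℚ)) (neg_ne_zero.2 hq0) (by ring)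
  have huv : (q : ℚ) * ((u : ℚ) - v) = ((AM Γ * QM Γ q) * B).trace := by
    rw [← hu, ← hv, smul_mul_assoc, smul_mul_assoc, add_mul, add_mul, smul_mul_assoc,
      smul_mul_assoc, Matrix.trace_smul, Matrix.trace_smul, Matrix.trace_add, Matrix.trace_add,
      Matrix.trace_smul, Matrix.trace_smul]
    simp only [smul_eq_mul]
    field_simp
    ring
  have hAQ : AM Γ * QM Γ q = AM Γ - (((q : ℚ) ^ 2 - q) * ((q : ℚ) ^ 2 * ((q : ℚ) ^ 2 - q + 1))⁻¹) •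
      JM V + EM Γ q := by
    unfold QM
    rw [mul_sub, mul_sub, mul_one, mul_smul_comm, AM_JM hq hA, AM_EM hq hA, smul_smul,
      sub_neg_eq_add, mul_comm ((q : ℚ) ^ 2 - q)]
  have hAQ2 : ∀ g : Γ ≃g Γ, ((AM Γ * QM Γ q) * RM g).trace =
      (moved Γ g 1 : ℚ) - ((q : ℚ) ^ 2 - q) + (EM Γ q * RM g).trace := by
    intro g
    have e1 : ((q : ℚ) ^ 2 - q) * ((q : ℚ) ^ 2 * ((q : ℚ) ^ 2 - q + 1))⁻¹ *
        ((q : ℚ) ^ 2 * ((q : ℚ) ^ 2 - q + 1)) = (q : ℚ) ^ 2 - q := by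
      rw [mul_assoc, inv_mul_cancel₀ (mul_ne_zero (pow_ne_zero 2 hq0) hq2), mul_one]
    rw [hAQ, add_mul, sub_mul, smul_mul_assoc, Matrix.trace_add, Matrix.trace_sub,
      Matrix.trace_smul, trace_AM_RM g, trace_JM_RM g, hcard, smul_eq_mul, e1]
  have h4 : ∑ c : M, (moved Γ (c : Γ ≃g Γ) 1 : ℚ) =
      m * ((q : ℚ) ^ 2 - q - k + q * ((u : ℚ) - v)) := by
    have h5 := htr (AM Γ * QM Γ q)
    rw [Finset.sum_congr rfl fun (c : M) _ => hAQ2 (c : Γ ≃g Γ), Finset.sum_add_distrib,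
      Finset.sum_sub_distrib, ← htr, hk, Finset.sum_const, Finset.card_univ, nsmul_eq_mul, ← hmF,
      ← huv] at h5
    linarith
  refine ⟨k, (u : ℤ) - v, ?_, ?_⟩
  · rw [hm] at h1
    exact_mod_cast h1
  · rw [hm] at h4
    exact_mod_cast h4

end Pool.Agent.Lib.MP_eb4ae8_co
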