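import Pool.Agent.Lib.MP_eb4ae8_co.Defs

/-! Counting consequences of the intersection array. -/

namespace Pool.Agent.Lib.MP_eb4ae8_co

variable {V : Type*} {Γ : SimpleGraph V} {q : ℕ}

/-- neighbours of `y` have distance from `x` within one of the distance of `y`. -/
theorem nb_zero_of_far [Finite V] (hA : HasArray Γ q) {x y : V} {j : ℕ}
    (h : Γ.dist x y + 1 < j ∨ j + 1 < Γ.dist x y) : nb Γ x y j = 0 := by
  unfold nb
  rw [Nat.card_eq_zero]
  left
  refine ⟨fun z => ?_⟩
  obtain ⟨z, hz, hd⟩ := z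
  have h1 : Γ.dist x z ≤ Γ.dist x y + Γ.dist y z := hA.conn.dist_triangle
  have h2 : Γ.dist x y ≤ Γ.dist x z + Γ.dist z y := hA.conn.dist_triangle
  have h3 : Γ.dist y z = 1 := SimpleGraph.dist_eq_one_iff_adj.mpr hz
  have h4 : Γ.dist z y = 1 := SimpleGraph.dist_eq_one_iff_adj.mpr hz.symm
  omega

theorem card_nbr_aux (hA : HasArray Γ q) (x : V) :
    Nat.card {z : V // Γ.Adj x z} = q * (q - 1) := by
  rw [← hA.b0 x]
  unfold nb
  apply Nat.card_congr
  exact Equiv.subtypeEquivRight (fun z =>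
    ⟨fun h => ⟨h, SimpleGraph.dist_eq_one_iff_adj.mpr h⟩, fun h => h.1⟩)

/-- the valency is `q(q-1)`, split by the distance from `x`. -/
theorem nb_sum [Finite V] (hA : HasArray Γ q) (x y : V) :
    nb Γ x y 0 + nb Γ x y 1 + nb Γ x y 2 + nb Γ x y 3 = q * (q - 1) := by
  classical
  haveI := Fintype.ofFinite V
  rw [← card_nbr_aux hA y]
  have key : ∀ j, nb Γ x y j
      = ((Finset.univ.filter (fun z => Γ.Adj y z)).filter (fun z => Γ.dist x z = j)).card := by
    intro j
    unfold nb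
    rw [Finset.filter_filter, Nat.card_eq_fintype_card, Fintype.card_subtype]
  have h0 : Nat.card {z : V // Γ.Adj y z} = (Finset.univ.filter (fun z => Γ.Adj y z)).card := by
    rw [Nat.card_eq_fintype_card, Fintype.card_subtype]
  have hf := Finset.card_eq_sum_card_fiberwise (f := fun z => Γ.dist x z)
    (s := Finset.univ.filter (fun z => Γ.Adj y z)) (t := Finset.range 4) (by
      intro z _
      have := hA.diam_le x z
      simp only [Finset.coe_range, Set.mem_Iio]
      omega)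
  rw [h0, hf]
  simp only [Finset.sum_range_succ, Finset.sum_range_zero, zero_add, key]

/-- every vertex has `q(q-1)` neighbours. -/
theorem card_nbr [Finite V] (hA : HasArray Γ q) (x : V) :
    Nat.card {z : V // Γ.Adj x z} = q * (q - 1) := by
  exact card_nbr_aux hA x

/-- adjacent vertices have exactly one common neighbour (`a_1 = 1`). -/
theorem nb_one_one [Finite V] (hq : 3 ≤ q) (hA : HasArray Γ q) {x y : V} (h : Γ.dist x y = 1) :
    nb Γ x y 1 = 1 := by
  have h1 := nb_sum hA x y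
  have h2 := hA.b1 x y h
  have h3 := hA.c1 x y h
  have h4 : nb Γ x y 3 = 0 := nb_zero_of_far hA (Or.inl (by omega))
  rw [h2, h3, h4] at h1
  obtain ⟨t, rfl⟩ : ∃ t, q = t + 2 := ⟨q - 2, by omega⟩
  have e1 : t + 2 - 1 = t + 1 := by omega
  have e2 : t + 2 - 2 = t := by omega
  rw [e1, e2] at h1
  nlinarith

/-- `a_3 = q`. -/
theorem nb_three_three [Finite V] (hq : 3 ≤ q) (hA : HasArray Γ q) {x y : V}
    (h : Γ.dist x y = 3) : nb Γ x y 3 = q := by
  have h1 := nb_sum hA x y
  have h2 := hA.c3 x y h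
  have h3 : nb Γ x y 0 = 0 := nb_zero_of_far hA (Or.inr (by omega))
  have h4 : nb Γ x y 1 = 0 := nb_zero_of_far hA (Or.inr (by omega))
  rw [h2, h3, h4] at h1
  obtain ⟨t, rfl⟩ : ∃ t, q = t + 2 := ⟨q - 2, by omega⟩
  have e1 : t + 2 - 1 = t + 1 := by omega
  have e2 : t + 2 - 2 = t := by omega
  rw [e1, e2] at h1
  nlinarith

/-- two different vertices have at most one common neighbour. -/
theorem common_unique [Finite V] (hq : 3 ≤ q) (hA : HasArray Γ q) {x y z w : V} (hne : x ≠ y)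
    (hxz : Γ.Adj x z) (hyz : Γ.Adj y z) (hxw : Γ.Adj x w) (hyw : Γ.Adj y w) : z = w := by
  have hxz1 : Γ.dist x z = 1 := SimpleGraph.dist_eq_one_iff_adj.mpr hxz
  have hxw1 : Γ.dist x w = 1 := SimpleGraph.dist_eq_one_iff_adj.mpr hxw
  have hzy1 : Γ.dist z y = 1 := SimpleGraph.dist_eq_one_iff_adj.mpr hyz.symm
  have h0 : Γ.dist x y ≠ 0 := fun h0 => hne (hA.conn.dist_eq_zero_iff.mp h0)
  have htri : Γ.dist x y ≤ Γ.dist x z + Γ.dist z y := hA.conn.dist_triangle
  have hone : nb Γ x y 1 = 1 := by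
    have hcase : Γ.dist x y = 1 ∨ Γ.dist x y = 2 := by omega
    rcases hcase with h1 | h2
    · exact nb_one_one hq hA h1
    · exact hA.c2 x y h2
  unfold nb at hone
  rw [Nat.card_eq_one_iff_unique] at hone
  obtain ⟨hsub, _⟩ := hone
  have := hsub.elim ⟨z, hyz, hxz1⟩ ⟨w, hyw, hxw1⟩
  exact congrArg Subtype.val this

/-- vertices at distance one or two have a common neighbour. -/
theorem common_exists [Finite V] (hq : 3 ≤ q) (hA : HasArray Γ q) {x y : V}
    (h : Γ.dist x y = 1 ∨ Γ.dist x y = 2) : ∃ z, Γ.Adj x z ∧ Γ.Adj y z := by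
  have hone : nb Γ x y 1 = 1 := by
    rcases h with h1 | h2
    · exact nb_one_one hq hA h1
    · exact hA.c2 x y h2
  unfold nb at hone
  rw [Nat.card_eq_one_iff_unique] at hone
  obtain ⟨_, hne⟩ := hone
  obtain ⟨z, hz, hd⟩ := hne
  exact ⟨z, SimpleGraph.dist_eq_one_iff_adj.mp hd, hz⟩

end Pool.Agent.Lib.MP_eb4ae8_co
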