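import Pool.Agent.Lib.MP_eb4ae8_co.Inv

/-! The centraliser of a vertex-transitive group is trivial. -/

namespace Pool.Agent.Lib.MP_eb4ae8_co

/-- If `c` centralises `G`, then `dist x (c x)` does not depend on `x`. If `c ≠ 1` this constant is
not `0`. If it is `1` or `2`, `higman` gives `(q^2-1) ∣ q^2 (q+1)`; if it is `3`, it gives
`(q^2-1) ∣ n - q^2 (q+1) = q^3 (q-2)`. Both are impossible. -/
theorem centralizer_trivial {V : Type*} [Finite V] {Γ : SimpleGraph V} {q : ℕ} (hq : 3 ≤ q)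
    (hA : HasArray Γ q) (G : Subgroup (Γ ≃g Γ)) (hG : VertexTransitive G) :
    Subgroup.centralizer (G : Set (Γ ≃g Γ)) = ⊥ := by
  rw [eq_bot_iff]
  intro c hc
  rw [Subgroup.mem_bot]
  rw [Subgroup.mem_centralizer_iff] at hc
  obtain ⟨x0⟩ := hA.conn.nonempty
  -- the distance is constant
  have hconst : ∀ y, Γ.dist y (c y) = Γ.dist x0 (c x0) := by
    intro y
    obtain ⟨g, hg, rfl⟩ := hG x0 y
    have h1 : c (g x0) = g (c x0) := by
      have h2 : (g * c) x0 = (c * g) x0 := by rw [hc g hg]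
      exact h2.symm
    rw [h1]
    classical
    have := Fintype.ofFinite V
    exact dist_map g x0 (c x0)
  have hmne : ∀ i, Γ.dist x0 (c x0) ≠ i → moved Γ c i = 0 := by
    intro i hi
    unfold moved
    have : IsEmpty {x : V // Γ.dist x (c x) = i} := ⟨fun x => hi (by rw [← hconst x.1]; exact x.2)⟩
    exact Nat.card_of_isEmpty
  have hmeq : moved Γ c (Γ.dist x0 (c x0)) = Nat.card V := by
    unfold moved
    exact Nat.card_congr (Equiv.subtypeUnivEquiv hconst)
  have hd := higman hq hA c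
  have hq3 : (3 : ℤ) ≤ q := by exact_mod_cast hq
  by_cases h0 : Γ.dist x0 (c x0) = 0
  · ext x
    have h1 := hconst x
    rw [h0] at h1
    exact (hA.conn.dist_eq_zero_iff.mp h1).symm
  · exfalso
    rw [hmne 0 h0] at hd
    by_cases h3 : Γ.dist x0 (c x0) = 3
    · rw [h3] at hmeq
      rw [hmeq, card_nat hq hA] at hd
      have h1 : q ≤ q ^ 2 := by nlinarith
      push_cast [Nat.cast_sub h1] at hd
      have hd2 : ((q : ℤ) ^ 2 - 1) ∣ (2 * (q : ℤ) - 1) := by
        have e : (2 * (q : ℤ) - 1) = ((q : ℤ) ^ 2 - 1) * ((q : ℤ) * (q - 2) + 1) -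
            (((q : ℤ) + 1) * 0 + (q : ℤ) ^ 2 * ((q : ℤ) ^ 2 - q + 1) -
              (q : ℤ) ^ 2 * (q + 1)) := by
          ring
        rw [e]
        exact dvd_sub (dvd_mul_right _ _) hd
      have hle := Int.le_of_dvd (by linarith) hd2
      nlinarith
    · rw [hmne 3 h3] at hd
      push_cast at hd
      have hd2 : ((q : ℤ) ^ 2 - 1) ∣ ((q : ℤ) + 1) := by
        have e : ((q : ℤ) + 1) = -(((q : ℤ) ^ 2 - 1) * ((q : ℤ) + 1)) -
            (((q : ℤ) + 1) * 0 + 0 - (q : ℤ) ^ 2 * (q + 1)) := by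
          ring
        rw [e]
        exact dvd_sub ((dvd_neg).mpr (dvd_mul_right _ _)) hd
      have hle := Int.le_of_dvd (by linarith) hd2
      nlinarith

end Pool.Agent.Lib.MP_eb4ae8_co
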