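import Pool.Agent.Lib.MP_eb4ae8_co.Basic

/-! Stabilisers in two commuting groups normalised by a vertex-transitive group. -/

namespace Pool.Agent.Lib.MP_eb4ae8_co

variable {V : Type*} {Γ : SimpleGraph V} {q : ℕ}

/-- the stabiliser of `x` in `N`, as a set. -/
def st (N : Subgroup (Γ ≃g Γ)) (x : V) : Set (Γ ≃g Γ) := {c | c ∈ N ∧ c x = x}

private theorem fin_iso (Γ : SimpleGraph V) [Finite V] : Finite (Γ ≃g Γ) :=
  Finite.of_injective (fun e : Γ ≃g Γ => (e : V → V)) DFunLike.coe_injective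

private theorem st_image (G : Subgroup (Γ ≃g Γ)) (N : Subgroup (Γ ≃g Γ))
    (hN : ∀ g ∈ G, ∀ c ∈ N, g * c * g⁻¹ ∈ N) (g : Γ ≃g Γ) (hg : g ∈ G) (x : V) :
    st N (g x) = (fun c : Γ ≃g Γ => g * c * g⁻¹) '' st N x := by
  ext c
  constructor
  · rintro ⟨h1, h2⟩
    refine ⟨g⁻¹ * c * g, ⟨?_, ?_⟩, ?_⟩
    · have := hN g⁻¹ (inv_mem hg) c h1
      rwa [inv_inv] at this
    · show g⁻¹ (c (g x)) = x
      rw [h2]
      exact RelIso.symm_apply_apply g x
    · show g * (g⁻¹ * c * g) * g⁻¹ = c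
      group
  · rintro ⟨d, ⟨h1, h2⟩, rfl⟩
    refine ⟨hN g hg d h1, ?_⟩
    show g (d (g⁻¹ (g x))) = g x
    have : g⁻¹ (g x) = x := RelIso.symm_apply_apply g x
    rw [this, h2]

private theorem conj_inj (g : Γ ≃g Γ) : Function.Injective (fun c : Γ ≃g Γ => g * c * g⁻¹) := by
  intro a b h
  simpa using h

/-- if `g x = w` with `g ∈ G`, conjugation by `g` maps the stabiliser of `x` onto that of `w`. -/
theorem st_ncard [Finite V] (G : Subgroup (Γ ≃g Γ)) (hG : VertexTransitive G)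
    (N : Subgroup (Γ ≃g Γ)) (hN : ∀ g ∈ G, ∀ c ∈ N, g * c * g⁻¹ ∈ N) (x w : V) :
    (st N x).ncard = (st N w).ncard := by
  obtain ⟨g, hg, rfl⟩ := hG x w
  rw [st_image G N hN g hg x, Set.ncard_image_of_injective _ (conj_inj g)]

/-- Suppose `c ∈ C` fixes `w` but not `x`. Then `w` is a common neighbour of `x` and `c x ≠ x`; every
`κ ∈ N` fixing `x` fixes `c x`, so it fixes `w` (`common_unique`): `st N x ⊆ st N w`, and equality
by `st_ncard`. Otherwise `st C w ⊆ st C x` and equality by `st_ncard`. -/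
theorem edge_dichotomy [Finite V] (hq : 3 ≤ q) (hA : HasArray Γ q)
    (G : Subgroup (Γ ≃g Γ)) (hG : VertexTransitive G)
    (N C : Subgroup (Γ ≃g Γ)) (hN : ∀ g ∈ G, ∀ c ∈ N, g * c * g⁻¹ ∈ N)
    (hC : ∀ g ∈ G, ∀ c ∈ C, g * c * g⁻¹ ∈ C) (hcomm : ∀ a ∈ N, ∀ b ∈ C, a * b = b * a)
    (x w : V) (h : Γ.Adj x w) : st N w = st N x ∨ st C w = st C x := by
  have := fin_iso Γ
  by_cases hsub : st C w ⊆ st C x
  · right
    exact Set.eq_of_subset_of_ncard_le hsub (st_ncard G hG C hC x w).le (Set.toFinite _)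
  · left
    rw [Set.not_subset] at hsub
    obtain ⟨c, ⟨hc1, hc2⟩, hc3⟩ := hsub
    have hcx : c x ≠ x := fun h0 => hc3 ⟨hc1, h0⟩
    have hadj : Γ.Adj (c x) w := by
      have := (c.map_adj_iff (v := x) (w := w)).mpr h
      rwa [hc2] at this
    have hs : st N x ⊆ st N w := by
      rintro k ⟨hk1, hk2⟩
      refine ⟨hk1, ?_⟩
      have h1 : k (c x) = c x := by
        have h2 : (k * c) x = (c * k) x := by rw [hcomm k hk1 c hc1]
        have h3 : k (c x) = c (k x) := h2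
        rw [h3, hk2]
      have h4 : Γ.Adj x (k w) := by
        have := (k.map_adj_iff (v := x) (w := w)).mpr h
        rwa [hk2] at this
      have h5 : Γ.Adj (c x) (k w) := by
        have := (k.map_adj_iff (v := c x) (w := w)).mpr hadj
        rwa [h1] at this
      exact common_unique hq hA (Ne.symm hcx) h4 h5 h hadj
    exact (Set.eq_of_subset_of_ncard_le hs (st_ncard G hG N hN x w).ge (Set.toFinite _)).symm

/-- the number of neighbours with the same stabiliser in `N` does not depend on the vertex. -/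
theorem same_const [Finite V] (G : Subgroup (Γ ≃g Γ)) (hG : VertexTransitive G)
    (N : Subgroup (Γ ≃g Γ)) (hN : ∀ g ∈ G, ∀ c ∈ N, g * c * g⁻¹ ∈ N) (x y : V) :
    Nat.card {w : V // Γ.Adj x w ∧ st N w = st N x} =
      Nat.card {w : V // Γ.Adj y w ∧ st N w = st N y} := by
  obtain ⟨g, hg, rfl⟩ := hG x y
  refine Nat.card_congr (g.toEquiv.subtypeEquiv fun w => ?_)
  have h1 : Γ.Adj (g x) (g w) ↔ Γ.Adj x w := g.map_adj_iff
  have h2 : st N (g w) = st N (g x) ↔ st N w = st N x := by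
    rw [st_image G N hN g hg w, st_image G N hN g hg x]
    exact ((conj_inj g).image_injective).eq_iff
  show Γ.Adj x w ∧ st N w = st N x ↔ Γ.Adj (g x) (g w) ∧ st N (g w) = st N (g x)
  rw [h1, h2]

end Pool.Agent.Lib.MP_eb4ae8_co
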