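import Pool.Agent.Lib.MP_eb4ae8_co.Hig

/-! Involutions fix a vertex. -/

namespace Pool.Agent.Lib.MP_eb4ae8_co

/-- `n = q^2 (q^2 - q + 1)`. -/
theorem card_nat {V : Type*} [Finite V] {Γ : SimpleGraph V} {q : ℕ} (hq : 3 ≤ q)
    (hA : HasArray Γ q) : Nat.card V = q ^ 2 * (q ^ 2 - q + 1) := by
  classical
  haveI := Fintype.ofFinite V
  rw [Nat.card_eq_fintype_card]
  have h := card_rat hq hA
  have h1 : q ≤ q ^ 2 := by nlinarith
  have h2 : ((q ^ 2 * (q ^ 2 - q + 1) : ℕ) : ℚ) = (q : ℚ) ^ 2 * ((q : ℚ) ^ 2 - q + 1) := by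
    push_cast [Nat.cast_sub h1]
    ring
  rw [← h2] at h
  exact_mod_cast h

/-- If `g x ≠ x` for all `x` then `dist x (g x) = 3` for all `x`: at distance one or two, `x` and
`g x` have a unique common neighbour `z` (`common_exists`, `common_unique`), `g` swaps `x` and
`g x`, so `g z = z`. Then `moved g 3 = n`, `moved g 0 = 0` and `higman` gives
`(q^2-1) ∣ q^3 (q-2)`, hence `(q^2-1) ∣ q - 2`, a contradiction. -/
theorem involution_fixes {V : Type*} [Finite V] {Γ : SimpleGraph V} {q : ℕ} (hq : 3 ≤ q)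
    (hA : HasArray Γ q) (g : Γ ≃g Γ) (hg : orderOf g = 2) : ∃ x, g x = x := by
  by_contra hno
  push Not at hno
  have hg2 : g * g = 1 := by
    have h := pow_orderOf_eq_one g
    rw [hg, pow_two] at h
    exact h
  have hgg : ∀ x, g (g x) = x := by
    intro x
    have h : (g * g) x = (1 : Γ ≃g Γ) x := by rw [hg2]
    exact h
  have h3 : ∀ x, Γ.dist x (g x) = 3 := by
    intro x
    have hle := hA.diam_le x (g x)
    have h0 : Γ.dist x (g x) ≠ 0 := by
      intro h
      exact hno x (hA.conn.dist_eq_zero_iff.mp h).symm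
    have h12 : ¬ (Γ.dist x (g x) = 1 ∨ Γ.dist x (g x) = 2) := by
      intro h
      obtain ⟨z, hz1, hz2⟩ := common_exists hq hA h
      have hz3 : Γ.Adj (g x) (g z) := g.map_rel_iff.mpr hz1
      have hz4 : Γ.Adj x (g z) := by
        have h5 : Γ.Adj (g (g x)) (g z) := g.map_rel_iff.mpr hz2
        rwa [hgg x] at h5
      exact hno z (common_unique hq hA (hno x).symm hz1 hz2 hz4 hz3).symm
    omega
  have hm3 : moved Γ g 3 = Nat.card V := by
    unfold moved
    exact Nat.card_congr (Equiv.subtypeUnivEquiv h3)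
  have hm0 : moved Γ g 0 = 0 := by
    unfold moved
    haveI : IsEmpty {x : V // Γ.dist x (g x) = 0} := ⟨fun x => by
      have h1 := h3 x.1
      have h2 := x.2
      omega⟩
    exact Nat.card_of_isEmpty
  have hd := higman hq hA g
  rw [hm0, hm3, card_nat hq hA] at hd
  have h1 : q ≤ q ^ 2 := by nlinarith
  have hq3 : (3 : ℤ) ≤ q := by exact_mod_cast hq
  push_cast [Nat.cast_sub h1] at hd
  have hd2 : ((q : ℤ) ^ 2 - 1) ∣ (2 * (q : ℤ) - 1) := by
    have e : (2 * (q : ℤ) - 1) = ((q : ℤ) ^ 2 - 1) * ((q : ℤ) * (q - 2) + 1) -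
        (((q : ℤ) + 1) * 0 + (q : ℤ) ^ 2 * ((q : ℤ) ^ 2 - q + 1) - (q : ℤ) ^ 2 * (q + 1)) := by
      ring
    rw [e]
    exact dvd_sub (dvd_mul_right _ _) hd
  have hle := Int.le_of_dvd (by linarith) hd2
  nlinarith

/-- By Cauchy, a semiregular group of even order would contain an involution. -/
theorem semiregular_odd {V : Type*} [Finite V] {Γ : SimpleGraph V} {q : ℕ} (hq : 3 ≤ q)
    (hA : HasArray Γ q) (R : Subgroup (Γ ≃g Γ)) (hR : Semiregular R) : Odd (Nat.card R) := by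
  by_contra hodd
  rw [Nat.not_odd_iff_even, even_iff_two_dvd] at hodd
  haveI : Finite (Γ ≃g Γ) :=
    Finite.of_injective (fun g : Γ ≃g Γ => (g : V → V)) DFunLike.coe_injective
  haveI : Fact (Nat.Prime 2) := ⟨Nat.prime_two⟩
  obtain ⟨g, hg⟩ := exists_prime_orderOf_dvd_card' 2 hodd
  have hg' : orderOf (g : Γ ≃g Γ) = 2 := by rw [Subgroup.orderOf_coe, hg]
  obtain ⟨x, hx⟩ := involution_fixes hq hA (g : Γ ≃g Γ) hg'
  have h1 := hR g g.2 x hx
  rw [h1, orderOf_one] at hg'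
  omega

end Pool.Agent.Lib.MP_eb4ae8_co
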