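import Pool.Agent.Lib.MP_eb4ae8_co.RatG
import Pool.Agent.Lib.MP_eb4ae8_co.Inv

/-! A nontrivial automorphism fixes few vertices. -/

namespace Pool.Agent.Lib.MP_eb4ae8_co

/-- a proper set of vertices containing every vertex with two different neighbours in it is
small. -/
theorem closed_small {V : Type*} [Fintype V] [DecidableEq V] {Γ : SimpleGraph V} {q : ℕ}
    (hq : 3 ≤ q) (hA : HasArray Γ q) (F : Finset V) (hF : F ≠ Finset.univ)
    (hcl : ∀ z y y', Γ.Adj z y → Γ.Adj z y' → y ∈ F → y' ∈ F → y ≠ y' → z ∈ F) :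
    (q - 2) * F.card ≤ q * (q ^ 2 - q + 1) := by
  classical
  set n : ℚ := (q : ℚ) ^ 2 * ((q : ℚ) ^ 2 - q + 1) with hn
  set ν : ℚ := (F.card : ℚ) with hν
  have hq0 : (3 : ℚ) ≤ q := by exact_mod_cast hq
  have hcard : (Fintype.card V : ℚ) = n := card_rat hq hA
  set S : ℚ := ∑ y ∈ F, ∑ z ∈ F, AM Γ y z with hS
  have hrow : ∀ y, ∑ z, AM Γ y z = (q : ℚ) ^ 2 - q := by
    intro y
    have h := congrFun (congrFun (AM_JM hq hA) y) y
    simpa [Matrix.mul_apply, JM] using h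
  have hsplit : ∀ y, ∑ z ∈ F, AM Γ y z + ∑ z ∈ Fᶜ, AM Γ y z = (q : ℚ) ^ 2 - q := by
    intro y
    rw [Finset.sum_add_sum_compl, hrow]
  have h1 : S + ∑ y ∈ F, ∑ z ∈ Fᶜ, AM Γ y z = ((q : ℚ) ^ 2 - q) * ν := by
    rw [hS, ← Finset.sum_add_distrib, Finset.sum_congr rfl (fun y _ => hsplit y),
      Finset.sum_const, nsmul_eq_mul, mul_comm]
  have hone : ∀ z ∈ Fᶜ, ∑ y ∈ F, AM Γ y z ≤ 1 := by
    intro z hz
    have hz' : z ∉ F := by simpa using hz
    by_cases hex : ∃ y ∈ F, Γ.Adj z y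
    · obtain ⟨y, hy, hzy⟩ := hex
      rw [Finset.sum_eq_single_of_mem y hy]
      · simp only [AM, Matrix.of_apply]
        split_ifs <;> norm_num
      · intro y' hy' hne
        simp only [AM, Matrix.of_apply]
        rw [if_neg]
        intro hadj
        exact hz' (hcl z y y' hzy hadj.symm hy hy' (Ne.symm hne))
    · rw [Finset.sum_eq_zero]
      · norm_num
      · intro y hy
        simp only [AM, Matrix.of_apply]
        rw [if_neg]
        intro hadj
        exact hex ⟨y, hy, hadj.symm⟩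
  have h2 : ∑ y ∈ F, ∑ z ∈ Fᶜ, AM Γ y z ≤ n - ν := by
    rw [Finset.sum_comm]
    calc ∑ z ∈ Fᶜ, ∑ y ∈ F, AM Γ y z ≤ ∑ _z ∈ Fᶜ, (1 : ℚ) := Finset.sum_le_sum hone
      _ = (Fᶜ.card : ℚ) := by simp
      _ = n - ν := by
        rw [Finset.card_compl, Nat.cast_sub (Finset.card_le_univ F), hcard]
  have h3 := ratio_general hq hA F
  rw [← hn, ← hS, ← hν] at h3
  have hlt : ν < n := by
    rw [← hcard, hν]
    have : F.card < Fintype.card V := by
      rw [Finset.card_lt_iff_ne_univ]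
      exact hF
    exact_mod_cast this
  have hpos : 0 < n - ν := by linarith
  have h4 : ((q : ℚ) ^ 2 - 2 * q) * ν * (n - ν) ≤ n * (n - ν) := by
    have hn0 : 0 < n := by
      have : (0 : ℚ) ≤ ν := by rw [hν]; positivity
      linarith
    have h5 : ((q : ℚ) ^ 2 - q) * ν - (n - ν) ≤ S := by linarith
    have h6 := mul_le_mul_of_nonneg_right h5 hn0.le
    nlinarith
  have h7 : ((q : ℚ) ^ 2 - 2 * q) * ν ≤ n := le_of_mul_le_mul_right h4 hpos
  have h8 : (q : ℚ) * (((q : ℚ) - 2) * ν) ≤ (q : ℚ) * ((q : ℚ) * ((q : ℚ) ^ 2 - q + 1)) := by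
    rw [hn] at h7
    linarith
  have h9 : ((q : ℚ) - 2) * ν ≤ (q : ℚ) * ((q : ℚ) ^ 2 - q + 1) :=
    le_of_mul_le_mul_left h8 (by linarith)
  have hq2 : 2 ≤ q := by omega
  have hqq : q ≤ q ^ 2 := by nlinarith
  have h10 : (((q - 2) * F.card : ℕ) : ℚ) ≤ ((q * (q ^ 2 - q + 1) : ℕ) : ℚ) := by
    push_cast [Nat.cast_sub hq2, Nat.cast_sub hqq]
    exact h9
  exact_mod_cast h10

/-- A nontrivial automorphism fixes at most `q (q^2-q+1)/(q-2)` vertices. -/
theorem few_fixed {V : Type*} [Finite V] {Γ : SimpleGraph V} {q : ℕ} (hq : 3 ≤ q)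
    (hA : HasArray Γ q) (g : Γ ≃g Γ) (hg : g ≠ 1) :
    (q - 2) * Nat.card {x : V // g x = x} ≤ q * (q ^ 2 - q + 1) := by
  classical
  have := Fintype.ofFinite V
  set F : Finset V := Finset.univ.filter fun x => g x = x with hF
  have hc : Nat.card {x : V // g x = x} = F.card := by
    rw [Nat.card_eq_fintype_card, Fintype.card_subtype]
  rw [hc]
  refine closed_small hq hA F ?_ ?_
  · intro h
    refine hg (RelIso.ext fun x => ?_)
    have : x ∈ F := by rw [h]; exact Finset.mem_univ x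
    simpa [hF] using this
  · intro z y y' hy hy' hyF hyF' hne
    simp only [hF, Finset.mem_filter, Finset.mem_univ, true_and] at hyF hyF' ⊢
    have e1 : Γ.Adj y (g z) := by
      have : Γ.Adj (g y) (g z) := g.map_rel_iff.2 hy.symm
      rwa [hyF] at this
    have e2 : Γ.Adj y' (g z) := by
      have : Γ.Adj (g y') (g z) := g.map_rel_iff.2 hy'.symm
      rwa [hyF'] at this
    exact common_unique hq hA hne e1 e2 hy.symm hy'.symm

end Pool.Agent.Lib.MP_eb4ae8_co
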