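import Pool.Agent.Lib.MP_eb4ae8_co.ComA
import Pool.Agent.Lib.MP_eb4ae8_co.Few

/-! Commuting groups normalised by a vertex-transitive group. -/

namespace Pool.Agent.Lib.MP_eb4ae8_co

/-- If `N`, normalised by a vertex-transitive group, is not semiregular, then a vertex has at most
`q + 1` neighbours with the same stabiliser in `N`. -/
theorem same_le {V : Type*} [Finite V] {Γ : SimpleGraph V} {q : ℕ} (hq : 3 ≤ q)
    (hA : HasArray Γ q) (G : Subgroup (Γ ≃g Γ)) (hG : VertexTransitive G)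
    (N : Subgroup (Γ ≃g Γ)) (hN : ∀ g ∈ G, ∀ c ∈ N, g * c * g⁻¹ ∈ N) (hns : ¬ Semiregular N)
    (x₀ : V) : Nat.card {w : V // Γ.Adj x₀ w ∧ st N w = st N x₀} ≤ q + 1 := by
  classical
  have := Fintype.ofFinite V
  have hfin : Finite (Γ ≃g Γ) :=
    Finite.of_injective (fun e : Γ ≃g Γ => (e : V → V)) DFunLike.coe_injective
  set f := Nat.card {w : V // Γ.Adj x₀ w ∧ st N w = st N x₀} with hf
  set F : Finset V := Finset.univ.filter fun y => st N y = st N x₀ with hF
  have hx₀ : x₀ ∈ F := by simp [hF]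
  have hFne : F ≠ Finset.univ := by
    intro h
    apply hns
    intro c hc x hcx
    have hall : ∀ y, st N y = st N x₀ := by
      intro y
      have : y ∈ F := by rw [h]; exact Finset.mem_univ y
      simpa [hF] using this
    refine RelIso.ext fun y => ?_
    have h1 : c ∈ st N x := ⟨hc, hcx⟩
    rw [hall x, ← hall y] at h1
    exact h1.2
  have hcl : ∀ z y y', Γ.Adj z y → Γ.Adj z y' → y ∈ F → y' ∈ F → y ≠ y' → z ∈ F := by
    intro z y y' hy hy' hyF hyF' hne
    simp only [hF, Finset.mem_filter, Finset.mem_univ, true_and] at hyF hyF' ⊢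
    have hs : st N x₀ ⊆ st N z := by
      rintro k hk
      have hk1 : k y = y := by rw [← hyF] at hk; exact hk.2
      have hk2 : k y' = y' := by rw [← hyF'] at hk; exact hk.2
      refine ⟨hk.1, ?_⟩
      have e1 : Γ.Adj y (k z) := by
        have := (k.map_adj_iff (v := y) (w := z)).mpr hy.symm
        rwa [hk1] at this
      have e2 : Γ.Adj y' (k z) := by
        have := (k.map_adj_iff (v := y') (w := z)).mpr hy'.symm
        rwa [hk2] at this
      exact common_unique hq hA hne e1 e2 hy.symm hy'.symm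
    exact (Set.eq_of_subset_of_ncard_le hs (st_ncard G hG N hN x₀ z).ge (Set.toFinite _)).symm
  have hsmall := closed_small hq hA F hFne hcl
  have hreg : ∀ y ∈ F, ∑ z ∈ F, AM Γ y z = (f : ℚ) := by
    intro y hy
    have hy' : st N y = st N x₀ := by simpa [hF] using hy
    rw [hf, ← same_const G hG N hN y x₀, Nat.card_eq_fintype_card, Fintype.card_subtype]
    simp only [AM, Matrix.of_apply]
    rw [Finset.sum_boole]
    congr 2
    ext w
    simp only [hF, Finset.mem_filter, Finset.mem_univ, true_and]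
    rw [hy']
    exact and_comm
  have hr := ratio_general hq hA F
  rw [Finset.sum_congr rfl hreg, Finset.sum_const, nsmul_eq_mul] at hr
  have hq0 : (3 : ℚ) ≤ q := by exact_mod_cast hq
  have hq2 : 2 ≤ q := by omega
  have hqq : q ≤ q ^ 2 := by nlinarith
  have h9 : ((q : ℚ) - 2) * F.card ≤ (q : ℚ) * ((q : ℚ) ^ 2 - q + 1) := by
    have h10 : (((q - 2) * F.card : ℕ) : ℚ) ≤ ((q * (q ^ 2 - q + 1) : ℕ) : ℚ) := by
      exact_mod_cast hsmall
    push_cast [Nat.cast_sub hq2, Nat.cast_sub hqq] at h10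
    exact h10
  have hνpos : (0 : ℚ) < F.card := by
    have : 0 < F.card := Finset.card_pos.2 ⟨x₀, hx₀⟩
    exact_mod_cast this
  set ν : ℚ := (F.card : ℚ)
  set n : ℚ := (q : ℚ) ^ 2 * ((q : ℚ) ^ 2 - q + 1) with hn
  have hnpos : 0 < n := by
    have : (0 : ℚ) < (q : ℚ) ^ 2 - q + 1 := by nlinarith
    positivity
  have h11 : ((q : ℚ) ^ 2 - 2 * q) * ν ≤ n := by
    have := mul_le_mul_of_nonneg_left h9 (show (0 : ℚ) ≤ q by linarith)
    rw [hn]
    linarith
  have h12 : ν * ((f : ℚ) * n) ≤ ν * (((q : ℚ) + 1) * n) := by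
    have h13 := mul_le_mul_of_nonneg_left h11 hνpos.le
    nlinarith
  have h14 : (f : ℚ) * n ≤ ((q : ℚ) + 1) * n := le_of_mul_le_mul_left h12 hνpos
  have h15 : (f : ℚ) ≤ (q : ℚ) + 1 := le_of_mul_le_mul_right h14 hnpos
  exact_mod_cast h15

/-- Of two commuting groups of automorphisms, both normalised by a vertex-transitive group, one is
semiregular (`q ≥ 4`). -/
theorem commuting_normals' {V : Type*} [Finite V] {Γ : SimpleGraph V} {q : ℕ} (hq : 4 ≤ q)
    (hA : HasArray Γ q) (G : Subgroup (Γ ≃g Γ)) (hG : VertexTransitive G)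
    (N C : Subgroup (Γ ≃g Γ)) (hN : ∀ g ∈ G, ∀ c ∈ N, g * c * g⁻¹ ∈ N)
    (hC : ∀ g ∈ G, ∀ c ∈ C, g * c * g⁻¹ ∈ C) (hcomm : ∀ a ∈ N, ∀ b ∈ C, a * b = b * a) :
    Semiregular N ∨ Semiregular C := by
  classical
  by_contra hno
  rw [not_or] at hno
  obtain ⟨hnN, hnC⟩ := hno
  have := Fintype.ofFinite V
  have : Nonempty V := hA.conn.nonempty
  obtain ⟨x₀⟩ := ‹Nonempty V›
  have hq3 : 3 ≤ q := by omega
  have hsum : q * (q - 1) ≤ Nat.card {w : V // Γ.Adj x₀ w ∧ st N w = st N x₀} +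
      Nat.card {w : V // Γ.Adj x₀ w ∧ st C w = st C x₀} := by
    rw [← card_nbr hA x₀]
    have e1 : Nat.card {z : V // Γ.Adj x₀ z} = (Finset.univ.filter fun z => Γ.Adj x₀ z).card := by
      rw [Nat.card_eq_fintype_card, Fintype.card_subtype]
    have e2 : Nat.card {w : V // Γ.Adj x₀ w ∧ st N w = st N x₀} =
        (Finset.univ.filter fun w => Γ.Adj x₀ w ∧ st N w = st N x₀).card := by
      rw [Nat.card_eq_fintype_card, Fintype.card_subtype]
    have e3 : Nat.card {w : V // Γ.Adj x₀ w ∧ st C w = st C x₀} =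
        (Finset.univ.filter fun w => Γ.Adj x₀ w ∧ st C w = st C x₀).card := by
      rw [Nat.card_eq_fintype_card, Fintype.card_subtype]
    rw [e1, e2, e3]
    refine le_trans (Finset.card_le_card ?_) (Finset.card_union_le _ _)
    intro w hw
    simp only [Finset.mem_filter, Finset.mem_univ, true_and, Finset.mem_union] at hw ⊢
    rcases edge_dichotomy hq3 hA G hG N C hN hC hcomm x₀ w hw with h | h
    · exact Or.inl ⟨hw, h⟩
    · exact Or.inr ⟨hw, h⟩
  have h1 := same_le hq3 hA G hG N hN hnN x₀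
  have h2 := same_le hq3 hA G hG C hC hnC x₀
  have h3 : q * (q - 1) ≤ 2 * (q + 1) := by omega
  obtain ⟨t, rfl⟩ : ∃ t, q = t + 4 := ⟨q - 4, by omega⟩
  have h4 : t + 4 - 1 = t + 3 := by omega
  rw [h4] at h3
  nlinarith

end Pool.Agent.Lib.MP_eb4ae8_co
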