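import Pool.Agent.Lib.MP_eb4ae8_co.Basic

/-! A semiregular abelian group moves a vertex to at most two of its neighbours. -/

namespace Pool.Agent.Lib.MP_eb4ae8_co

private theorem eps_inv {V : Type*} [Finite V] {Γ : SimpleGraph V} {q : ℕ} (hq : 3 ≤ q)
    (hA : HasArray Γ q) (M : Subgroup (Γ ≃g Γ)) (hs : Semiregular M)
    (hab : ∀ a ∈ M, ∀ b ∈ M, a * b = b * a) (x : V)
    (a b : Γ ≃g Γ) (ha : a ∈ M) (hb : b ∈ M) (hne : a ≠ b)
    (hxa : Γ.Adj x (a x)) (hxb : Γ.Adj x (b x)) : a * b = 1 := by
  by_contra hne1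
  have hmem : a * b ∈ M := M.mul_mem ha hb
  have hx1 : (a * b) x ≠ x := fun h => hne1 (hs (a * b) hmem x h)
  have h1 : Γ.Adj ((a * b) x) (a x) := by
    have : Γ.Adj (a x) (a (b x)) := a.map_adj_iff.mpr hxb
    exact this.symm
  have h2 : Γ.Adj ((a * b) x) (b x) := by
    rw [hab a ha b hb]
    have : Γ.Adj (b x) (b (a x)) := b.map_adj_iff.mpr hxa
    exact this.symm
  have hax : a x = b x := common_unique hq hA (x := x) (y := (a * b) x) hx1.symm hxa h1 hxb h2
  have hm2 : b⁻¹ * a ∈ M := M.mul_mem (M.inv_mem hb) ha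
  have h3 : (b⁻¹ * a) x = x := by
    show b⁻¹ (a x) = x
    rw [hax]
    show (b⁻¹ * b) x = x
    rw [inv_mul_cancel]
    rfl
  have h4 := hs (b⁻¹ * a) hm2 x h3
  have h5 : a = b := by
    have := congrArg (fun t => b * t) h4
    simpa using this
  exact hne h5

/-- Proof: let `a ≠ b` in `M` with `x ~ a x`, `x ~ b x`. Then `a x` and `b x` are common neighbours
of `x` and `a b x = b a x`. If `a b x ≠ x` then `a x = b x` by `common_unique`, so `a = b` by
semiregularity. So `a b x = x` and `a b = 1`. Hence any two different such elements are inverse to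
each other and there are at most two. -/
theorem eps_le_two {V : Type*} [Finite V] {Γ : SimpleGraph V} {q : ℕ} (hq : 3 ≤ q)
    (hA : HasArray Γ q) (M : Subgroup (Γ ≃g Γ)) (hs : Semiregular M)
    (hab : ∀ a ∈ M, ∀ b ∈ M, a * b = b * a) (x : V) :
    Nat.card {c : M // Γ.dist x ((c : Γ ≃g Γ) x) = 1} ≤ 2 := by
  classical
  have key : ∀ a b : {c : M // Γ.dist x ((c : Γ ≃g Γ) x) = 1}, a ≠ b →
      ((a.1 : Γ ≃g Γ) * (b.1 : Γ ≃g Γ)) = 1 := by
    intro a b hne
    refine eps_inv hq hA M hs hab x a.1 b.1 a.1.2 b.1.2 ?_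
      (SimpleGraph.dist_eq_one_iff_adj.mp a.2) (SimpleGraph.dist_eq_one_iff_adj.mp b.2)
    intro h
    exact hne (Subtype.ext (Subtype.ext h))
  by_cases hE : Nonempty {c : M // Γ.dist x ((c : Γ ≃g Γ) x) = 1}
  · obtain ⟨a0⟩ := hE
    -- every element is a0 or its inverse
    let f : {c : M // Γ.dist x ((c : Γ ≃g Γ) x) = 1} → Bool := fun c => decide (c = a0)
    have hf : Function.Injective f := by
      intro c d hcd
      by_cases hc : c = a0
      · have h1 : f c = true := by simp [f, hc]
        rw [h1] at hcd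
        have : d = a0 := by simpa [f] using hcd.symm
        rw [hc, this]
      · have h1 : f c = false := by simp [f, hc]
        rw [h1] at hcd
        have hd : d ≠ a0 := by simpa [f] using hcd.symm
        have e1 := key a0 c (Ne.symm hc)
        have e2 := key a0 d (Ne.symm hd)
        have : (c.1 : Γ ≃g Γ) = (d.1 : Γ ≃g Γ) := by
          have := e1.trans e2.symm
          exact mul_left_cancel this
        exact Subtype.ext (Subtype.ext this)
    have := Nat.card_le_card_of_injective f hf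
    simpa using this
  · have : IsEmpty {c : M // Γ.dist x ((c : Γ ≃g Γ) x) = 1} := not_nonempty_iff.mp hE
    rw [Nat.card_of_isEmpty]
    exact Nat.zero_le 2

end Pool.Agent.Lib.MP_eb4ae8_co
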