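import Pool.Agent.Lib.MP_eb4ae8_co.Basic

/-! Abelian normal subgroups of vertex-transitive groups act semiregularly. -/

namespace Pool.Agent.Lib.MP_eb4ae8_co

/-- an element of an abelian normal subgroup which fixes a vertex fixes its neighbours -/
private theorem semi_fix_nbr {V : Type*} [Finite V] {Γ : SimpleGraph V} {q : ℕ} (hq : 3 ≤ q)
    (hA : HasArray Γ q) (G : Subgroup (Γ ≃g Γ)) (hG : VertexTransitive G)
    (M : Subgroup (Γ ≃g Γ)) (hMG : ∀ g ∈ G, ∀ c ∈ M, g * c * g⁻¹ ∈ M)
    (hab : ∀ a ∈ M, ∀ b ∈ M, a * b = b * a) {κ : Γ ≃g Γ} (hκ : κ ∈ M) {x w : V}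
    (hxw : Γ.Adj x w) (hx : κ x = x) : κ w = w := by
  by_contra hne
  have : Finite (Γ ≃g Γ) := DFunLike.finite _
  have key : ∀ c ∈ M, Γ.Adj (c x) w → c x = x := by
    intro c hc hcw
    by_contra h1
    have h2 : κ (c x) = c x := by
      have h3 : (κ * c) x = (c * κ) x := by rw [hab κ hκ c hc]
      rw [RelIso.mul_apply, RelIso.mul_apply, hx] at h3
      exact h3
    have h4 : Γ.Adj x (κ w) := by
      have := κ.map_rel_iff.2 hxw
      rwa [hx] at this
    have h5 : Γ.Adj (c x) (κ w) := by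
      have := κ.map_rel_iff.2 hcw
      rwa [h2] at this
    exact hne (common_unique hq hA h1 hcw hxw h5 h4).symm
  let A : V → Set (Γ ≃g Γ) := fun v => {c | c ∈ M ∧ c v = v}
  have hsub : A w ⊆ A x := by
    rintro c ⟨hc, hcw⟩
    refine ⟨hc, key c hc ?_⟩
    have := c.map_rel_iff.2 hxw
    rwa [hcw] at this
  obtain ⟨g, hg, hgx⟩ := hG x w
  have hcard : (A x).ncard ≤ (A w).ncard := by
    refine Set.ncard_le_ncard_of_injOn (fun c => g * c * g⁻¹) ?_ ?_ (Set.toFinite _)
    · rintro c ⟨hc, hcx⟩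
      refine ⟨hMG g hg c hc, ?_⟩
      rw [← hgx]
      rw [RelIso.mul_apply, RelIso.mul_apply, RelIso.inv_apply_self, hcx]
    · intro c _ c' _ h
      have h1 : g * c * g⁻¹ = g * c' * g⁻¹ := h
      exact mul_left_cancel (mul_right_cancel h1)
  have heq : A w = A x := Set.eq_of_subset_of_ncard_le hsub hcard (Set.toFinite _)
  have hmem : κ ∈ A w := by
    rw [heq]
    exact ⟨hκ, hx⟩
  exact hne hmem.2

/-- An abelian normal subgroup of a vertex-transitive group acts semiregularly: the stabiliser of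
a vertex fixes its neighbours, because two vertices have at most one common neighbour, and the
stabilisers of two vertices are conjugate. -/
theorem abelian_semiregular {V : Type*} [Finite V] {Γ : SimpleGraph V} {q : ℕ} (hq : 3 ≤ q)
    (hA : HasArray Γ q) (G : Subgroup (Γ ≃g Γ)) (hG : VertexTransitive G)
    (M : Subgroup (Γ ≃g Γ)) (hMG : ∀ g ∈ G, ∀ c ∈ M, g * c * g⁻¹ ∈ M)
    (hab : ∀ a ∈ M, ∀ b ∈ M, a * b = b * a) : Semiregular M := by
  intro κ hκ x hx
  have hwalk : ∀ {u v : V}, Γ.Walk u v → κ u = u → κ v = v := by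
    intro u v p
    induction p with
    | nil => exact fun h => h
    | cons h _ ih => exact fun hu => ih (semi_fix_nbr hq hA G hG M hMG hab hκ h hu)
  refine RelIso.ext fun v => ?_
  obtain ⟨p⟩ := hA.conn.preconnected x v
  exact hwalk p hx

end Pool.Agent.Lib.MP_eb4ae8_co
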