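import Pool.Agent.Lib.MP_eb4ae8_co.Perm
import Pool.Agent.Lib.MP_eb4ae8_co.Basic

/-! Counting for subgroups normalised by a vertex-transitive group. -/

namespace Pool.Agent.Lib.MP_eb4ae8_co

private theorem tra_dist_le {V : Type*} {Γ : SimpleGraph V} (g : Γ ≃g Γ) (x y : V)
    (h : Γ.Reachable x y) : Γ.dist (g x) (g y) ≤ Γ.dist x y := by
  obtain ⟨p, hp⟩ := h.exists_walk_length_eq_dist
  have h1 := SimpleGraph.dist_le (p.map g.toHom)
  rw [SimpleGraph.Walk.length_map, hp] at h1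
  exact h1

private theorem tra_dist {V : Type*} {Γ : SimpleGraph V} (g : Γ ≃g Γ) (x y : V) :
    Γ.dist (g x) (g y) = Γ.dist x y := by
  by_cases h : Γ.Reachable x y
  · apply le_antisymm (tra_dist_le g x y h)
    have h2 : Γ.Reachable (g x) (g y) := h.map g.toHom
    have h1 := tra_dist_le g.symm (g x) (g y) h2
    simpa using h1
  · have h2 : ¬ Γ.Reachable (g x) (g y) := by
      intro h3
      apply h
      have h4 := h3.map g.symm.toHom
      simpa using h4
    rw [SimpleGraph.dist_eq_zero_of_not_reachable h, SimpleGraph.dist_eq_zero_of_not_reachable h2]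

private theorem tra_free {G X : Type*} [Group G] [Finite G] [Finite X] (act : G → X → X)
    (h1 : ∀ x, act 1 x = x) (hm : ∀ a b x, act (a * b) x = act a (act b x))
    (hf : ∀ a x, act a x = x → a = 1) : Nat.card G ∣ Nat.card X := by
  classical
  let _ : MulAction G X := { smul := act, one_smul := h1, mul_smul := hm }
  have : Fintype (MulAction.orbitRel.Quotient G X) := Fintype.ofFinite _
  rw [Nat.card_congr (MulAction.selfEquivSigmaOrbitsQuotientStabilizer G X), Nat.card_sigma]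
  apply Finset.dvd_sum
  intro ω _
  have hst : MulAction.stabilizer G (ω.out : X) = ⊥ := by
    rw [eq_bot_iff]
    intro a ha
    exact hf a _ ha
  have h2 := Subgroup.card_eq_card_quotient_mul_card_subgroup (MulAction.stabilizer G (ω.out : X))
  rw [hst] at h2 ⊢
  rw [Subgroup.card_bot, mul_one] at h2
  rw [← h2]

private theorem tra_finite {V : Type*} [Finite V] {Γ : SimpleGraph V} : Finite (Γ ≃g Γ) :=
  Finite.of_injective (fun c : Γ ≃g Γ => (c : V → V)) DFunLike.coe_injective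

/-- conjugation by `g` with `g x = y` is a bijection between the two sets. -/
theorem count_const {V : Type*} [Finite V] {Γ : SimpleGraph V}
    (G : Subgroup (Γ ≃g Γ)) (hG : VertexTransitive G)
    (M : Subgroup (Γ ≃g Γ)) (hMG : ∀ g ∈ G, ∀ c ∈ M, g * c * g⁻¹ ∈ M) (i : ℕ) (x y : V) :
    Nat.card {c : M // Γ.dist x ((c : Γ ≃g Γ) x) = i} =
      Nat.card {c : M // Γ.dist y ((c : Γ ≃g Γ) y) = i} := by
  obtain ⟨g, hg, hgx⟩ := hG x y
  have hgi : g⁻¹ ∈ G := G.inv_mem hg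
  have hinv : g⁻¹ y = x := by
    rw [← hgx]
    exact RelIso.inv_apply_self g x
  refine Nat.card_congr ?_
  refine
    { toFun := fun c => ⟨⟨g * (c.1 : Γ ≃g Γ) * g⁻¹, hMG g hg _ c.1.2⟩, ?_⟩
      invFun := fun c => ⟨⟨g⁻¹ * (c.1 : Γ ≃g Γ) * g⁻¹⁻¹, hMG g⁻¹ hgi _ c.1.2⟩, ?_⟩
      left_inv := ?_
      right_inv := ?_ }
  · show Γ.dist y (g ((c.1 : Γ ≃g Γ) (g⁻¹ y))) = i
    rw [hinv]
    nth_rewrite 1 [← hgx]
    rw [tra_dist]
    exact c.2
  · show Γ.dist x (g⁻¹ ((c.1 : Γ ≃g Γ) (g⁻¹⁻¹ x))) = i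
    rw [inv_inv, hgx]
    nth_rewrite 1 [← hinv]
    rw [tra_dist]
    exact c.2
  · intro c
    apply Subtype.ext
    apply Subtype.ext
    show g⁻¹ * (g * (c.1 : Γ ≃g Γ) * g⁻¹) * g⁻¹⁻¹ = (c.1 : Γ ≃g Γ)
    group
  · intro c
    apply Subtype.ext
    apply Subtype.ext
    show g * (g⁻¹ * (c.1 : Γ ≃g Γ) * g⁻¹⁻¹) * g⁻¹ = (c.1 : Γ ≃g Γ)
    group

/-- double counting of the pairs `(c, x)` with `dist x (c x) = i`. -/
theorem sum_moved {V : Type*} [Finite V] {Γ : SimpleGraph V}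
    (G : Subgroup (Γ ≃g Γ)) (hG : VertexTransitive G)
    (M : Subgroup (Γ ≃g Γ)) [Fintype M] (hMG : ∀ g ∈ G, ∀ c ∈ M, g * c * g⁻¹ ∈ M) (i : ℕ)
    (x : V) :
    ∑ c : M, moved Γ (c : Γ ≃g Γ) i =
      Nat.card V * Nat.card {c : M // Γ.dist x ((c : Γ ≃g Γ) x) = i} := by
  classical
  have : Fintype V := Fintype.ofFinite V
  have h1 : ∑ c : M, moved Γ (c : Γ ≃g Γ) i =
      Nat.card (Σ c : M, {z : V // Γ.dist z ((c : Γ ≃g Γ) z) = i}) := by
    rw [Nat.card_sigma]
    rfl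
  have h2 : Nat.card (Σ z : V, {c : M // Γ.dist z ((c : Γ ≃g Γ) z) = i}) =
      Nat.card V * Nat.card {c : M // Γ.dist x ((c : Γ ≃g Γ) x) = i} := by
    rw [Nat.card_sigma, Finset.sum_congr rfl fun z _ => count_const G hG M hMG i z x,
      Finset.sum_const, Finset.card_univ, smul_eq_mul, Nat.card_eq_fintype_card (α := V)]
  rw [h1, ← h2]
  refine Nat.card_congr ?_
  exact
    { toFun := fun p => ⟨p.2.1, ⟨p.1, p.2.2⟩⟩
      invFun := fun p => ⟨p.2.1, ⟨p.1, p.2.2⟩⟩
      left_inv := fun p => rfl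
      right_inv := fun p => rfl }

/-- the order of a semiregular group divides the number of vertices. -/
theorem card_dvd {V : Type*} [Finite V] {Γ : SimpleGraph V} (M : Subgroup (Γ ≃g Γ))
    (hs : Semiregular M) : Nat.card M ∣ Nat.card V := by
  have : Finite (Γ ≃g Γ) := tra_finite
  refine tra_free (fun (c : M) (x : V) => (c : Γ ≃g Γ) x) (fun x => rfl) (fun a b x => rfl) ?_
  intro a x h
  exact Subtype.ext (hs a.1 a.2 x h)

/-- for a semiregular commutative group `M` and `c ∈ M`, the set of vertices moved by `c` to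
distance `i` is a union of regular orbits of `M`. -/
theorem card_dvd_moved {V : Type*} [Finite V] {Γ : SimpleGraph V} (M : Subgroup (Γ ≃g Γ))
    (hs : Semiregular M) (hab : ∀ a ∈ M, ∀ b ∈ M, a * b = b * a) (c : Γ ≃g Γ) (hc : c ∈ M)
    (i : ℕ) : Nat.card M ∣ moved Γ c i := by
  have : Finite (Γ ≃g Γ) := tra_finite
  have key : ∀ (a : M) (x : V), Γ.dist x (c x) = i →
      Γ.dist ((a : Γ ≃g Γ) x) (c ((a : Γ ≃g Γ) x)) = i := by
    intro a x hx
    have h1 : c ((a : Γ ≃g Γ) x) = (a : Γ ≃g Γ) (c x) := by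
      have h2 : (c * (a : Γ ≃g Γ)) x = ((a : Γ ≃g Γ) * c) x := by
        rw [hab c hc a.1 a.2]
      exact h2
    rw [h1, tra_dist]
    exact hx
  unfold moved
  refine tra_free (fun (a : M) (x : {x : V // Γ.dist x (c x) = i}) =>
    (⟨(a : Γ ≃g Γ) x.1, key a x.1 x.2⟩ : {x : V // Γ.dist x (c x) = i}))
    (fun x => rfl) (fun a b x => rfl) ?_
  intro a x h
  exact Subtype.ext (hs a.1 a.2 x.1 (congrArg Subtype.val h))

/-- a nontrivial element of a semiregular group fixes no vertex. -/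
theorem moved_zero {V : Type*} [Finite V] {Γ : SimpleGraph V} (hconn : Γ.Connected)
    (M : Subgroup (Γ ≃g Γ)) (hs : Semiregular M) (c : Γ ≃g Γ) (hc : c ∈ M) (h1 : c ≠ 1) :
    moved Γ c 0 = 0 := by
  unfold moved
  have : IsEmpty {x : V // Γ.dist x (c x) = 0} := by
    refine ⟨fun x => ?_⟩
    have h2 := (hconn.dist_eq_zero_iff).1 x.2
    exact h1 (hs c hc x.1 h2.symm)
  exact Nat.card_of_isEmpty

end Pool.Agent.Lib.MP_eb4ae8_co
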