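import Pool.Agent.Lib.MP_eb4ae8_co.Avg
import Pool.Agent.Lib.MP_eb4ae8_co.Tra
import Pool.Agent.Lib.MP_eb4ae8_co.Semi
import Pool.Agent.Lib.MP_eb4ae8_co.Eps
import Pool.Agent.Lib.MP_eb4ae8_co.Inv

/-! All numerical consequences for an abelian normal subgroup. -/

namespace Pool.Agent.Lib.MP_eb4ae8_co

private theorem moved_one_three {V : Type*} [Finite V] {Γ : SimpleGraph V} :
    moved Γ (1 : Γ ≃g Γ) 3 = 0 := by
  unfold moved
  rw [Nat.card_eq_zero]
  left
  refine ⟨fun x => ?_⟩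
  have := x.2
  simp at this

private theorem moved_le {V : Type*} [Finite V] {Γ : SimpleGraph V} (g : Γ ≃g Γ) (i : ℕ) :
    moved Γ g i ≤ Nat.card V := by
  unfold moved
  exact Nat.card_le_card_of_injective (fun x => x.1) Subtype.val_injective

private theorem card_zero_sub {V : Type*} [Finite V] {Γ : SimpleGraph V} (hconn : Γ.Connected)
    (M : Subgroup (Γ ≃g Γ)) (hs : Semiregular M) (x : V) :
    Nat.card {c : M // Γ.dist x ((c : Γ ≃g Γ) x) = 0} = 1 := by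
  rw [Nat.card_eq_one_iff_unique]
  constructor
  · refine ⟨fun a b => ?_⟩
    have key : ∀ a : {c : M // Γ.dist x ((c : Γ ≃g Γ) x) = 0}, a.1 = 1 := by
      intro a
      have h0 := a.2
      rw [hconn.dist_eq_zero_iff] at h0
      exact Subtype.ext (hs a.1.1 a.1.2 x h0.symm)
    exact Subtype.ext ((key a).trans (key b).symm)
  · exact ⟨⟨1, by simp⟩⟩

/-- The numbers attached to a nontrivial abelian subgroup `M` normalised by a vertex-transitive
group: `m` its order, `O` the number of orbits, `h` and `e` the numbers of elements of `M` moving a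
given vertex to distance three and one. -/
theorem numbers {V : Type*} [Finite V] {Γ : SimpleGraph V} {q : ℕ} (hq : 3 ≤ q)
    (hA : HasArray Γ q) (G : Subgroup (Γ ≃g Γ)) (hG : VertexTransitive G)
    (M : Subgroup (Γ ≃g Γ)) (hMG : ∀ g ∈ G, ∀ c ∈ M, g * c * g⁻¹ ∈ M)
    (hab : ∀ a ∈ M, ∀ b ∈ M, a * b = b * a) (hne : M ≠ ⊥) :
    ∃ (m O h e k : ℕ) (z : ℤ), m = Nat.card M ∧ 2 ≤ m ∧ Odd m ∧
      O * m = q ^ 2 * (q ^ 2 - q + 1) ∧ h < m ∧ e ≤ 2 ∧
      O * (q + 1 + h) = q ^ 2 * (q + 1) + (q ^ 2 - 1) * k ∧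
      (O : ℤ) * e = (q : ℤ) ^ 2 - q - k + q * z ∧
      (∀ c ∈ M, c ≠ 1 → ∃ t : ℕ, moved Γ c 3 = m * t ∧ t ≤ O ∧
        ((q : ℤ) ^ 2 - 1) ∣ (m : ℤ) * t - (q : ℤ) ^ 2 * (q + 1)) ∧
      (∃ c ∈ M, c ≠ 1 ∧ O * m * h ≤ (m - 1) * moved Γ c 3) ∧
      (h = 0 → ∀ c ∈ M, moved Γ c 3 = 0) := by
  classical
  have hfin : Finite (Γ ≃g Γ) := DFunLike.finite _
  let _ : Fintype M := Fintype.ofFinite M
  have hs : Semiregular M := abelian_semiregular hq hA G hG M hMG hab
  have hconn : Γ.Connected := hA.conn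
  obtain ⟨x0⟩ := hconn.nonempty
  have hN : Nat.card V = q ^ 2 * (q ^ 2 - q + 1) := card_nat hq hA
  obtain ⟨O, hO⟩ := card_dvd M hs
  have hmpos : 0 < Nat.card M := Nat.card_pos
  have hm2 : 2 ≤ Nat.card M := by
    have : Nat.card M ≠ 1 := by
      intro h1
      exact hne (Subgroup.card_eq_one.1 h1)
    omega
  have hodd : Odd (Nat.card M) := semiregular_odd hq hA M hs
  have hOm : O * Nat.card M = Nat.card V := by rw [hO, mul_comm]
  set m := Nat.card M with hmdef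
  set h := Nat.card {c : M // Γ.dist x0 ((c : Γ ≃g Γ) x0) = 3} with hhdef
  set e := Nat.card {c : M // Γ.dist x0 ((c : Γ ≃g Γ) x0) = 1} with hedef
  have hlt : h < m := by
    have hle : Nat.card {c : M // Γ.dist x0 ((c : Γ ≃g Γ) x0) = 3} < Nat.card M := by
      rw [Nat.card_eq_fintype_card, Nat.card_eq_fintype_card]
      apply Fintype.card_subtype_lt (x := (1 : M))
      simp
    exact hle
  have he2 : e ≤ 2 := eps_le_two hq hA M hs hab x0
  have h0 : ∑ c : M, moved Γ (c : Γ ≃g Γ) 0 = Nat.card V := by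
    rw [sum_moved G hG M hMG 0 x0, card_zero_sub hconn M hs x0, mul_one]
  have h3 : ∑ c : M, moved Γ (c : Γ ≃g Γ) 3 = Nat.card V * h := sum_moved G hG M hMG 3 x0
  have h1 : ∑ c : M, moved Γ (c : Γ ≃g Γ) 1 = Nat.card V * e := sum_moved G hG M hMG 1 x0
  obtain ⟨k, z, hk, hz⟩ := average hq hA M
  have hmZ : (m : ℤ) ≠ 0 := by exact_mod_cast hmpos.ne'
  have hVZ : (Nat.card V : ℤ) = O * m := by exact_mod_cast hOm.symm
  have hq1 : 1 ≤ q ^ 2 := Nat.one_le_pow _ _ (by omega)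
  refine ⟨m, O, h, e, k, z, rfl, hm2, hodd, by rw [hOm, hN], hlt, he2, ?_, ?_, ?_, ?_, ?_⟩
  · have h0' : ∑ c : M, (moved Γ (c : Γ ≃g Γ) 0 : ℤ) = Nat.card V := by exact_mod_cast h0
    have h3' : ∑ c : M, (moved Γ (c : Γ ≃g Γ) 3 : ℤ) = Nat.card V * h := by exact_mod_cast h3
    rw [Finset.sum_add_distrib, ← Finset.mul_sum, h0', h3', hVZ] at hk
    have hk' : (O : ℤ) * (q + 1 + h) = (q : ℤ) ^ 2 * (q + 1) + ((q : ℤ) ^ 2 - 1) * k := by
      apply mul_left_cancel₀ hmZ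
      rw [← hk]
      ring
    zify [hq1]
    exact hk'
  · have h1' : ∑ c : M, (moved Γ (c : Γ ≃g Γ) 1 : ℤ) = Nat.card V * e := by exact_mod_cast h1
    rw [h1', hVZ] at hz
    apply mul_left_cancel₀ hmZ
    rw [← hz]
    ring
  · intro c hc hc1
    obtain ⟨t, ht⟩ := card_dvd_moved M hs hab c hc 3
    refine ⟨t, ht, ?_, ?_⟩
    · have hle := moved_le (Γ := Γ) c 3
      rw [ht, ← hOm, mul_comm O] at hle
      exact Nat.le_of_mul_le_mul_left hle hmpos
    · have hh := higman hq hA c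
      rw [moved_zero hconn M hs c hc hc1, ht] at hh
      rw [Nat.cast_zero, mul_zero, zero_add, Nat.cast_mul] at hh
      exact hh
  · obtain ⟨c0, hc0⟩ := Subgroup.ne_bot_iff_exists_ne_one.1 hne
    obtain ⟨c, hcS, hmax⟩ := (Finset.univ.erase (1 : M)).exists_max_image
      (fun c : M => moved Γ (c : Γ ≃g Γ) 3) ⟨c0, by simp [hc0]⟩
    refine ⟨c.1, c.2, ?_, ?_⟩
    · intro hh
      exact (Finset.ne_of_mem_erase hcS) (Subtype.ext hh)
    · have hsum : ∑ c ∈ Finset.univ.erase (1 : M), moved Γ (c : Γ ≃g Γ) 3 = Nat.card V * h := by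
        rw [← h3]
        exact Finset.sum_erase (f := fun c : M => moved Γ (c : Γ ≃g Γ) 3) _ moved_one_three
      rw [hOm, ← hsum]
      have hle := Finset.sum_le_card_nsmul (Finset.univ.erase (1 : M))
        (fun c : M => moved Γ (c : Γ ≃g Γ) 3) (moved Γ (c : Γ ≃g Γ) 3) hmax
      rw [Finset.card_erase_of_mem (Finset.mem_univ _), smul_eq_mul, Finset.card_univ,
        ← Nat.card_eq_fintype_card] at hle
      exact hle
  · intro hh0 c hc
    rw [hh0, mul_zero, Finset.sum_eq_zero_iff] at h3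
    exact h3 ⟨c, hc⟩ (Finset.mem_univ _)

end Pool.Agent.Lib.MP_eb4ae8_co
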