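import Mathlib

/-! Group theory: an element of prime order acting on a group of coprime order. -/

namespace Pool.Agent.Lib.MP_eb4ae8_co

open scoped Pointwise

/-- conjugation by `c` as an automorphism of `K`, whose powers form a `p`-group -/
private theorem exists_conj {A : Type*} [Group A] [Finite A] (K : Subgroup A) (c : A)
    (hK : ∀ k ∈ K, c * k * c⁻¹ ∈ K) :
    ∃ g : MulAut K, (∀ k : K, ((g k : K) : A) = c * k * c⁻¹) ∧ g ^ orderOf c = 1 := by
  have hc : c ∈ Subgroup.normalizer (K : Set A) := Subgroup.mem_normalizer_fintype hK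
  refine ⟨K.normalizerMonoidHom ⟨c, hc⟩, fun k => rfl, ?_⟩
  rw [← map_pow]
  have : (⟨c, hc⟩ : Subgroup.normalizer (K : Set A)) ^ orderOf c = 1 := by
    apply Subtype.ext
    simp [pow_orderOf_eq_one]
  rw [this, map_one]

private theorem isPGroup_zpowers {B : Type*} [Group B] (g : B) {p : ℕ} (hg : g ^ p = 1) :
    IsPGroup p (Subgroup.zpowers g) := by
  rintro ⟨x, k, rfl⟩
  refine ⟨1, Subtype.ext ?_⟩
  simp only [pow_one, Subgroup.coe_pow, Subgroup.coe_one]
  rw [← zpow_natCast, ← zpow_mul, mul_comm, zpow_mul, zpow_natCast, hg, one_zpow]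

/-- `⟨c⟩` acts by conjugation on the set of Sylow `s`-subgroups of `K`, whose number divides
`|K|` and so is not divisible by the prime `orderOf c`; there is a fixed one. -/
theorem exists_invariant_sylow {A : Type*} [Group A] [Finite A] (K : Subgroup A) (c : A)
    (hc : (orderOf c).Prime) (hK : ∀ k ∈ K, c * k * c⁻¹ ∈ K) (hr : ¬ orderOf c ∣ Nat.card K)
    {s : ℕ} (hs : s.Prime) (hsK : s ∣ Nat.card K) :
    ∃ (S : Subgroup A) (u : ℕ), S ≤ K ∧ 1 ≤ u ∧ Nat.card S = s ^ u ∧
      ∀ k ∈ S, c * k * c⁻¹ ∈ S := by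
  obtain ⟨g, hg, hg1⟩ := exists_conj K c hK
  have : Fact (orderOf c).Prime := ⟨hc⟩
  have : Fact s.Prime := ⟨hs⟩
  have hp := isPGroup_zpowers g hg1
  have hnd : ¬ orderOf c ∣ Nat.card (Sylow s K) := by
    intro h
    have P : Sylow s K := default
    exact hr (h.trans (P.card_dvd_index.trans P.index_dvd_card))
  obtain ⟨P, hP⟩ := hp.nonempty_fixed_point_of_prime_not_dvd_card (Sylow s K) hnd
  have hPg : g • P = P := hP ⟨g, Subgroup.mem_zpowers g⟩
  refine ⟨P.toSubgroup.map K.subtype, (Nat.card K).factorization s, Subgroup.map_subtype_le _,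
    ?_, ?_, ?_⟩
  · exact (hs.dvd_iff_one_le_factorization Nat.card_pos.ne').mp hsK
  · rw [Subgroup.card_map_of_injective K.subtype_injective]
    exact P.card_eq_multiplicity
  · rintro k ⟨x, hx, rfl⟩
    refine ⟨g x, ?_, hg x⟩
    have h1 : g • x ∈ g • (P : Subgroup K) := Subgroup.smul_mem_pointwise_smul x g _ hx
    have h2 : g • (P : Subgroup K) = (P : Subgroup K) := congrArg Sylow.toSubgroup hPg
    rw [h2] at h1
    exact h1

/-- conjugation by `c` permutes the elements `≠ 1` of `S` without fixed points, in orbits of size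
`orderOf c`. -/
theorem card_mod_one {A : Type*} [Group A] [Finite A] (S : Subgroup A) (c : A)
    (hc : (orderOf c).Prime) (hS : ∀ k ∈ S, c * k * c⁻¹ ∈ S)
    (hfix : ∀ k ∈ S, c * k = k * c → k = 1) : Nat.card S % orderOf c = 1 := by
  obtain ⟨g, hg, hg1⟩ := exists_conj S c hS
  have : Fact (orderOf c).Prime := ⟨hc⟩
  have hp := isPGroup_zpowers g hg1
  have h1 := hp.card_modEq_card_fixedPoints S
  have h2 : Nat.card (MulAction.fixedPoints (Subgroup.zpowers g) S) = 1 := by
    rw [Nat.card_eq_one_iff_exists]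
    refine ⟨⟨1, fun x => smul_one x⟩, ?_⟩
    rintro ⟨x, hx⟩
    apply Subtype.ext
    apply Subtype.ext
    have h3 : g • x = x := hx ⟨g, Subgroup.mem_zpowers g⟩
    have h4 : c * x * c⁻¹ = (x : A) := by
      rw [← hg x]
      exact congrArg Subtype.val h3
    exact hfix x x.2 (mul_inv_eq_iff_eq_mul.mp h4)
  rw [h2] at h1
  have h3 : Nat.card S % orderOf c = 1 % orderOf c := h1
  rw [h3, Nat.mod_eq_of_lt hc.one_lt]

end Pool.Agent.Lib.MP_eb4ae8_co
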