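import Pool.Agent.Lib.MP_eb4ae8_co.SCa
import Pool.Agent.Lib.MP_eb4ae8_co.Few

/-! Orbits of an `s`-group normalised by an automorphism of order `r = q^2 - q + 1`. -/

namespace Pool.Agent.Lib.MP_eb4ae8_co

section abs

variable {G X : Type*} [Group G] [MulAction G X]

private theorem cop_conj {S : Subgroup G} {c : G} (hnorm : ∀ k ∈ S, c * k * c⁻¹ ∈ S) (j : ℕ) :
    ∀ k ∈ S, c ^ j * k * (c ^ j)⁻¹ ∈ S := by
  induction j with
  | zero =>
    intro k hk
    simpa using hk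
  | succ j ih =>
    intro k hk
    have h := hnorm _ (ih k hk)
    have h2 : c ^ (j + 1) * k * (c ^ (j + 1))⁻¹ = c * (c ^ j * k * (c ^ j)⁻¹) * c⁻¹ := by
      rw [pow_succ' c j, mul_inv_rev]
      simp only [mul_assoc]
    rw [h2]
    exact h

private theorem cop_inv {c : G} (hc : 0 < orderOf c) (j : ℕ) :
    c ^ (j * (orderOf c - 1)) = (c ^ j)⁻¹ := by
  rw [eq_inv_iff_mul_eq_one, ← pow_add]
  have h : j * (orderOf c - 1) + j = orderOf c * j := by
    obtain ⟨t, ht⟩ : ∃ t, orderOf c = t + 1 := ⟨orderOf c - 1, by omega⟩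
    rw [ht, Nat.add_sub_cancel]
    ring
  rw [h, pow_mul, pow_orderOf_eq_one, one_pow]

private theorem cop_conj' {S : Subgroup G} {c : G} (hc : 0 < orderOf c)
    (hnorm : ∀ k ∈ S, c * k * c⁻¹ ∈ S) (j : ℕ) : ∀ k ∈ S, (c ^ j)⁻¹ * k * c ^ j ∈ S := by
  intro k hk
  have h := cop_conj hnorm (j * (orderOf c - 1)) k hk
  rw [cop_inv hc, inv_inv] at h
  exact h

private theorem cop_st {S : Subgroup G} {g : G} (h1 : ∀ k ∈ S, g * k * g⁻¹ ∈ S)
    (h2 : ∀ k ∈ S, g⁻¹ * k * g ∈ S) (x : X) :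
    Nat.card {k : S // (k : G) • (g • x) = g • x} = Nat.card {k : S // (k : G) • x = x} := by
  refine Nat.card_congr ?_
  refine
    { toFun := fun k => ⟨⟨g⁻¹ * (k.1 : G) * g, h2 _ k.1.2⟩, ?_⟩
      invFun := fun k => ⟨⟨g * (k.1 : G) * g⁻¹, h1 _ k.1.2⟩, ?_⟩
      left_inv := ?_
      right_inv := ?_ }
  · show (g⁻¹ * (k.1 : G) * g) • x = x
    rw [mul_smul, mul_smul, k.2, inv_smul_smul]
  · show (g * (k.1 : G) * g⁻¹) • (g • x) = g • x
    rw [mul_smul, mul_smul, inv_smul_smul, k.2]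
  · intro k
    apply Subtype.ext
    apply Subtype.ext
    show g * (g⁻¹ * (k.1 : G) * g) * g⁻¹ = (k.1 : G)
    group
  · intro k
    apply Subtype.ext
    apply Subtype.ext
    show g⁻¹ * (g * (k.1 : G) * g⁻¹) * g = (k.1 : G)
    group

private theorem cop_orb [Finite G] (S : Subgroup G) (x : X) :
    Nat.card {k : S // (k : G) • x = x} * (MulAction.orbit S x).ncard = Nat.card S := by
  have h := Subgroup.card_mul_index (MulAction.stabilizer S x)
  rw [MulAction.index_stabilizer] at h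
  exact h

private theorem cop_free [Finite G] [Finite X] {S : Subgroup G} {c : G} {r s u : ℕ}
    (hr : r.Prime) (hc : orderOf c = r) (hs : s.Prime) (hsr : s ≠ r) (hS : Nat.card S = s ^ u)
    (hnorm : ∀ k ∈ S, c * k * c⁻¹ ∈ S) (hfree : ∀ (j : ℕ) (x : X), c ^ j • x = x → r ∣ j)
    (x : X) (j : ℕ) (k : G) (hk : k ∈ S) (h : c ^ j • x = k • x) : r ∣ j := by
  by_contra hj
  obtain ⟨g, hg⟩ : ∃ g : Equiv.Perm X, g = MulAction.toPermHom G X (c ^ j) := ⟨_, rfl⟩
  have hgx : ∀ y, g y = c ^ j • y := fun y => by rw [hg]; rfl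
  have hgr : g ^ r = 1 := by
    rw [hg, ← map_pow, ← pow_mul, mul_comm, pow_mul, ← hc, pow_orderOf_eq_one, one_pow, map_one]
  have hinv : ∀ y ∈ MulAction.orbit S x, g y ∈ MulAction.orbit S x := by
    intro y hy
    obtain ⟨κ, rfl⟩ := hy
    rw [hgx]
    refine ⟨⟨(c ^ j * (κ : G) * (c ^ j)⁻¹) * k, S.mul_mem (cop_conj hnorm j κ κ.2) hk⟩, ?_⟩
    show ((c ^ j * (κ : G) * (c ^ j)⁻¹) * k) • x = c ^ j • (κ : G) • x
    rw [mul_smul, ← h, ← mul_smul, ← mul_smul, inv_mul_cancel_right]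
  have h1 := card_mod g hr hgr (MulAction.orbit S x) hinv
  have h2 : {y | y ∈ MulAction.orbit S x ∧ g y = y} = ∅ := by
    ext y
    simp only [Set.mem_ofPred_eq, Set.mem_empty_iff_false, iff_false]
    rintro ⟨_, hy⟩
    rw [hgx] at hy
    exact hj (hfree j y hy)
  rw [h2, Set.ncard_empty, Nat.modEq_zero_iff_dvd] at h1
  have h3 : (MulAction.orbit S x).ncard ∣ s ^ u := by
    rw [← hS, ← cop_orb S x]
    exact dvd_mul_left _ _
  have h4 := hr.dvd_of_dvd_pow (h1.trans h3)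
  exact hsr ((Nat.prime_dvd_prime_iff_eq hr hs).1 h4).symm

private def copSetoid [Finite G] (X : Type*) [MulAction G X] (S : Subgroup G) (c : G)
    (hnorm : ∀ k ∈ S, c * k * c⁻¹ ∈ S) : Setoid X where
  r x y := ∃ k ∈ S, ∃ j : ℕ, y = k • c ^ j • x
  iseqv :=
    { refl := fun x => ⟨1, S.one_mem, 0, by rw [pow_zero, one_smul, one_smul]⟩
      symm := by
        rintro x y ⟨k, hk, j, rfl⟩
        have hc : 0 < orderOf c := orderOf_pos c
        refine ⟨(c ^ j)⁻¹ * k⁻¹ * c ^ j, cop_conj' hc hnorm j _ (S.inv_mem hk),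
          j * (orderOf c - 1), ?_⟩
        rw [cop_inv hc, ← mul_smul, ← mul_smul, ← mul_smul]
        have h : (c ^ j)⁻¹ * k⁻¹ * c ^ j * (c ^ j)⁻¹ * k * c ^ j = 1 := by group
        rw [h, one_smul]
      trans := by
        rintro x y z ⟨k, hk, j, rfl⟩ ⟨k', hk', j', rfl⟩
        refine ⟨k' * (c ^ j' * k * (c ^ j')⁻¹), S.mul_mem hk' (cop_conj hnorm j' k hk), j' + j, ?_⟩
        rw [pow_add]
        simp only [← mul_smul]
        congr 1
        simp only [mul_assoc, inv_mul_cancel_left] }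

private theorem cop_fiber [Finite G] [Finite X] {S : Subgroup G} {c : G} {r s u : ℕ}
    (hr : r.Prime) (hc : orderOf c = r) (hs : s.Prime) (hsr : s ≠ r) (hS : Nat.card S = s ^ u)
    (hnorm : ∀ k ∈ S, c * k * c⁻¹ ∈ S) (hfree : ∀ (j : ℕ) (x : X), c ^ j • x = x → r ∣ j)
    (x0 : X) : Nat.card {x : X // ∃ k ∈ S, ∃ j : ℕ, x = k • c ^ j • x0} =
      r * (MulAction.orbit S x0).ncard := by
  have hc0 : 0 < orderOf c := orderOf_pos c
  have h1 : r * (MulAction.orbit S x0).ncard = Nat.card (Fin r × MulAction.orbit S x0) := by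
    rw [Nat.card_prod, Nat.card_eq_fintype_card, Fintype.card_fin, Nat.card_coe_set_eq]
  rw [h1]
  symm
  refine Nat.card_eq_of_bijective (fun p => ⟨c ^ (p.1 : ℕ) • (p.2 : X), ?_⟩) ⟨?_, ?_⟩
  · obtain ⟨κ, hκ⟩ := p.2.2
    refine ⟨c ^ (p.1 : ℕ) * (κ : G) * (c ^ (p.1 : ℕ))⁻¹, cop_conj hnorm _ κ κ.2, p.1, ?_⟩
    rw [← hκ]
    show c ^ (p.1 : ℕ) • (κ : G) • x0 = _
    rw [← mul_smul, ← mul_smul, inv_mul_cancel_right]
  · have key : ∀ (j j' : ℕ) (y y' : X), y ∈ MulAction.orbit S x0 → y' ∈ MulAction.orbit S x0 →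
        j < r → j' < r → j ≤ j' → c ^ j • y = c ^ j' • y' → j = j' ∧ y = y' := by
      intro j j' y y' hy hy' hj hj' hle h
      obtain ⟨d, rfl⟩ := Nat.exists_eq_add_of_le hle
      rw [pow_add, mul_smul] at h
      have h2 : y = c ^ d • y' := MulAction.injective (c ^ j) h
      obtain ⟨κ, hκ⟩ := hy
      obtain ⟨κ', hκ'⟩ := hy'
      have h3 : c ^ d • y' = ((κ : G) * (κ' : G)⁻¹) • y' := by
        rw [← h2, ← hκ, mul_smul, ← hκ']
        show (κ : G) • x0 = (κ : G) • (κ' : G)⁻¹ • (κ' : G) • x0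
        rw [inv_smul_smul]
      have h4 := cop_free hr hc hs hsr hS hnorm hfree y' d _
        (S.mul_mem κ.2 (S.inv_mem κ'.2)) h3
      have h5 : d = 0 := Nat.eq_zero_of_dvd_of_lt h4 (by omega)
      subst h5
      rw [pow_zero, one_smul] at h2
      exact ⟨rfl, h2⟩
    rintro ⟨j, y⟩ ⟨j', y'⟩ h
    have h' : c ^ (j : ℕ) • (y : X) = c ^ (j' : ℕ) • (y' : X) := congrArg Subtype.val h
    rcases le_total (j : ℕ) (j' : ℕ) with hle | hle
    · obtain ⟨h1, h2⟩ := key j j' y y' y.2 y'.2 j.2 j'.2 hle h'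
      exact Prod.ext (Fin.ext h1) (Subtype.ext h2)
    · obtain ⟨h1, h2⟩ := key j' j y' y y'.2 y.2 j'.2 j.2 hle h'.symm
      exact Prod.ext (Fin.ext h1.symm) (Subtype.ext h2.symm)
  · rintro ⟨x, k, hk, j, rfl⟩
    refine ⟨⟨⟨j % r, Nat.mod_lt _ hr.pos⟩, ⟨((c ^ (j % r))⁻¹ * k * c ^ (j % r)) • x0,
      ⟨⟨_, cop_conj' hc0 hnorm (j % r) k hk⟩, rfl⟩⟩⟩, ?_⟩
    apply Subtype.ext
    show c ^ (j % r) • ((c ^ (j % r))⁻¹ * k * c ^ (j % r)) • x0 = k • c ^ j • x0
    have h2 : c ^ (j % r) = c ^ j := by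
      rw [← hc]
      exact pow_mod_orderOf c j
    rw [h2]
    simp only [← mul_smul]
    congr 1
    group

private theorem cop_main [Finite G] [Finite X] {S : Subgroup G} {c : G} {r s u : ℕ}
    (hr : r.Prime) (hc : orderOf c = r) (hs : s.Prime) (hsr : s ≠ r) (hS : Nat.card S = s ^ u)
    (hnorm : ∀ k ∈ S, c * k * c⁻¹ ∈ S) (hfree : ∀ (j : ℕ) (x : X), c ^ j • x = x → r ∣ j) :
    ∃ (Y : ℕ) (rep : Fin Y → X) (e : Fin Y → ℕ),
      (∀ i, Nat.card {k : S // (k : G) • rep i = rep i} * s ^ (e i) = s ^ u) ∧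
      (∀ x : X, ∃ (i : Fin Y) (k : G) (j : ℕ), k ∈ S ∧ x = k • c ^ j • rep i) ∧
      (r * ∑ i, s ^ (e i) = Nat.card X) ∧
      Nat.card {p : S × X // (p.1 : G) • p.2 = p.2} = Y * (r * s ^ u) := by
  classical
  have : Fintype X := Fintype.ofFinite X
  have hc0 : 0 < orderOf c := orderOf_pos c
  obtain ⟨st, hst⟩ : ∃ st : Setoid X, ∀ x y, st x y ↔ ∃ k ∈ S, ∃ j : ℕ, y = k • c ^ j • x :=
    ⟨copSetoid X S c hnorm, fun x y => Iff.rfl⟩
  obtain ⟨Y, ⟨E⟩⟩ : ∃ Y, Nonempty (Quotient st ≃ Fin Y) := ⟨_, ⟨Finite.equivFin _⟩⟩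
  obtain ⟨rep, hrep⟩ : ∃ rep : Fin Y → X, ∀ i, Quotient.mk st (rep i) = E.symm i :=
    ⟨fun i => (E.symm i).out, fun i => Quotient.out_eq _⟩
  obtain ⟨cls, hcls0⟩ : ∃ cls : X → Fin Y, ∀ x, cls x = E (Quotient.mk st x) := ⟨_, fun x => rfl⟩
  have hcls : ∀ x i, cls x = i ↔ ∃ k ∈ S, ∃ j : ℕ, x = k • c ^ j • rep i := by
    intro x i
    rw [hcls0, ← Equiv.eq_symm_apply, ← hrep i, eq_comm, Quotient.eq]
    exact hst _ _
  have he : ∀ i, ∃ e, (MulAction.orbit S (rep i)).ncard = s ^ e := by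
    intro i
    have h3 : (MulAction.orbit S (rep i)).ncard ∣ s ^ u := by
      rw [← hS, ← cop_orb S (rep i)]
      exact dvd_mul_left _ _
    obtain ⟨k, _, hk⟩ := (Nat.dvd_prime_pow hs).1 h3
    exact ⟨k, hk⟩
  choose e he using he
  have hfib : ∀ i, Nat.card {x : X // cls x = i} = r * s ^ e i := by
    intro i
    rw [← he i, ← cop_fiber hr hc hs hsr hS hnorm hfree (rep i)]
    exact Nat.card_congr (Equiv.subtypeEquivRight fun x => hcls x i)
  have hstab : ∀ i, Nat.card {k : S // (k : G) • rep i = rep i} * s ^ (e i) = s ^ u := by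
    intro i
    rw [← he i, cop_orb, hS]
  have hconst : ∀ x, Nat.card {k : S // (k : G) • x = x} =
      Nat.card {k : S // (k : G) • rep (cls x) = rep (cls x)} := by
    intro x
    obtain ⟨k, hk, j, hx⟩ := (hcls x (cls x)).1 rfl
    have h1 := cop_st (S := S) (g := k * c ^ j) (x := rep (cls x)) ?_ ?_
    · rw [← h1]
      rw [mul_smul, ← hx]
    · intro κ hκ
      have h2 := S.mul_mem (S.mul_mem hk (cop_conj hnorm j κ hκ)) (S.inv_mem hk)
      have h3 : k * c ^ j * κ * (k * c ^ j)⁻¹ = k * (c ^ j * κ * (c ^ j)⁻¹) * k⁻¹ := by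
        rw [mul_inv_rev]
        simp only [mul_assoc]
      rw [h3]
      exact h2
    · intro κ hκ
      have h2 := cop_conj' hc0 hnorm j _ (S.mul_mem (S.mul_mem (S.inv_mem hk) hκ) hk)
      have h3 : (k * c ^ j)⁻¹ * κ * (k * c ^ j) = (c ^ j)⁻¹ * (k⁻¹ * κ * k) * c ^ j := by
        rw [mul_inv_rev]
        simp only [mul_assoc]
      rw [h3]
      exact h2
  refine ⟨Y, rep, e, hstab, ?_, ?_, ?_⟩
  · intro x
    obtain ⟨k, hk, j, hx⟩ := (hcls x (cls x)).1 rfl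
    exact ⟨cls x, k, j, hk, hx⟩
  · rw [Nat.card_congr (Equiv.sigmaFiberEquiv cls).symm, Nat.card_sigma, Finset.mul_sum]
    exact Finset.sum_congr rfl fun i _ => (hfib i).symm
  · have h1 : Nat.card {p : S × X // (p.1 : G) • p.2 = p.2} =
        Nat.card (Σ x : X, {k : S // (k : G) • x = x}) := by
      refine Nat.card_congr ?_
      exact
        { toFun := fun p => ⟨p.1.2, ⟨p.1.1, p.2⟩⟩
          invFun := fun p => ⟨⟨p.2.1, p.1⟩, p.2.2⟩
          left_inv := fun p => rfl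
          right_inv := fun p => rfl }
    rw [h1, Nat.card_sigma, ← Finset.sum_fiberwise (s := Finset.univ) (g := cls)]
    have h2 : ∀ i : Fin Y, ∑ x : X with cls x = i, Nat.card {k : S // (k : G) • x = x} =
        r * s ^ u := by
      intro i
      have h3 : ∑ x : X with cls x = i, Nat.card {k : S // (k : G) • x = x} =
          ∑ x : X with cls x = i, Nat.card {k : S // (k : G) • rep i = rep i} := by
        refine Finset.sum_congr rfl fun x hx => ?_
        rw [Finset.mem_filter] at hx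
        rw [hconst x, hx.2]
      rw [h3, Finset.sum_const, smul_eq_mul, ← Fintype.card_subtype, ← Nat.card_eq_fintype_card,
        hfib i, ← hstab i]
      ring
    rw [Finset.sum_congr rfl fun i _ => h2 i, Finset.sum_const, Finset.card_univ,
      Fintype.card_fin, smul_eq_mul]

end abs

/-- `H = S ⟨c⟩`, `rep i` are representatives of the orbits of `H` on the vertices, and
`s ^ (e i)` is the size of the `S`-orbit of `rep i`. The group `⟨c⟩` permutes the `S`-orbits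
(`hnorm`), and freely: if `c ^ j ≠ 1` maps `S x` to itself, then `⟨c⟩` acts freely on `S x`
(`zpowers_semiregular`), so `r` divides `|S x|`, a power of `s ≠ r`. So an `H`-orbit consists of `r`
orbits of `S` of equal size, `r ∑ s ^ (e i) = n = q^2 r` (`card_nat`), and `S` has `r Y` orbits.
Burnside: `r Y |S| = ∑_{k ∈ S} #fixed k ≤ n + (|S| - 1) max`, where by `few_fixed`
`(q-2) max ≤ q r`. -/
theorem orbit_count {V : Type*} [Finite V] {Γ : SimpleGraph V} {q : ℕ} (hq : 3 ≤ q)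
    (hA : HasArray Γ q) (hr : (q ^ 2 - q + 1).Prime) (c : Γ ≃g Γ)
    (hc : orderOf c = q ^ 2 - q + 1) (S : Subgroup (Γ ≃g Γ)) {s u : ℕ} (hs : s.Prime)
    (hsr : s ≠ q ^ 2 - q + 1) (hS : Nat.card S = s ^ u) (hnorm : ∀ k ∈ S, c * k * c⁻¹ ∈ S) :
    ∃ (Y : ℕ) (rep : Fin Y → V) (e : Fin Y → ℕ),
      (∀ i, Nat.card {k : S // (k : Γ ≃g Γ) (rep i) = rep i} * s ^ (e i) = s ^ u) ∧
      (∀ x : V, ∃ (i : Fin Y) (k : Γ ≃g Γ) (j : ℕ), k ∈ S ∧ x = k ((c ^ j) (rep i))) ∧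
      (∑ i, s ^ (e i) = q ^ 2) ∧
      (q - 2) * (Y * s ^ u) ≤ (q - 2) * q ^ 2 + (s ^ u - 1) * q := by
  classical
  have : Finite (Γ ≃g Γ) := DFunLike.finite _
  have : Fintype V := Fintype.ofFinite V
  have : Fintype S := Fintype.ofFinite S
  have hsemi := zpowers_semiregular hq hA hr c hc
  have hfree : ∀ (j : ℕ) (x : V), c ^ j • x = x → (q ^ 2 - q + 1) ∣ j := by
    intro j x h
    rw [← hc]
    exact orderOf_dvd_of_pow_eq_one
      (hsemi (c ^ j) (Subgroup.pow_mem _ (Subgroup.mem_zpowers c) j) x h)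
  obtain ⟨Y, rep, e, h1, h2, h3, h4⟩ := cop_main (X := V) hr hc hs hsr hS hnorm hfree
  refine ⟨Y, rep, e, h1, h2, ?_, ?_⟩
  · rw [card_nat hq hA, mul_comm (q ^ 2)] at h3
    exact Nat.eq_of_mul_eq_mul_left hr.pos h3
  · have h5 : Nat.card {p : S × V // (p.1 : Γ ≃g Γ) • p.2 = p.2} =
        ∑ k : S, Nat.card {x : V // (k : Γ ≃g Γ) x = x} := by
      rw [← Nat.card_sigma]
      refine Nat.card_congr ?_
      exact
        { toFun := fun p => ⟨p.1.1, ⟨p.1.2, p.2⟩⟩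
          invFun := fun p => ⟨⟨p.1, p.2.1⟩, p.2.2⟩
          left_inv := fun p => rfl
          right_inv := fun p => rfl }
    have h6 : (q - 2) * ∑ k : S, Nat.card {x : V // (k : Γ ≃g Γ) x = x} ≤
        (q - 2) * (q ^ 2 * (q ^ 2 - q + 1)) + (s ^ u - 1) * (q * (q ^ 2 - q + 1)) := by
      rw [← Finset.add_sum_erase Finset.univ _ (Finset.mem_univ (1 : S)), mul_add]
      refine Nat.add_le_add ?_ ?_
      · refine Nat.mul_le_mul_left _ ?_
        rw [← card_nat hq hA]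
        exact Nat.card_le_card_of_injective (fun x : {x : V // ((1 : S) : Γ ≃g Γ) x = x} => x.1)
          Subtype.val_injective
      · rw [Finset.mul_sum]
        have h7 : ∀ k ∈ Finset.univ.erase (1 : S),
            (q - 2) * Nat.card {x : V // (k : Γ ≃g Γ) x = x} ≤ q * (q ^ 2 - q + 1) := by
          intro k hk
          refine few_fixed hq hA (k : Γ ≃g Γ) ?_
          intro h
          exact (Finset.mem_erase.1 hk).1 (Subtype.ext h)
        refine (Finset.sum_le_card_nsmul _ _ _ h7).trans ?_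
        rw [smul_eq_mul, Finset.card_erase_of_mem (Finset.mem_univ _), Finset.card_univ,
          ← Nat.card_eq_fintype_card, hS]
    rw [← h5, h4] at h6
    have h8 : (q ^ 2 - q + 1) * ((q - 2) * (Y * s ^ u)) ≤
        (q ^ 2 - q + 1) * ((q - 2) * q ^ 2 + (s ^ u - 1) * q) := by
      calc (q ^ 2 - q + 1) * ((q - 2) * (Y * s ^ u))
          = (q - 2) * (Y * ((q ^ 2 - q + 1) * s ^ u)) := by ring
        _ ≤ _ := h6
        _ = (q ^ 2 - q + 1) * ((q - 2) * q ^ 2 + (s ^ u - 1) * q) := by ring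
    exact Nat.le_of_mul_le_mul_left h8 hr.pos

end Pool.Agent.Lib.MP_eb4ae8_co
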