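import Mathlib

/-! Arithmetic for the orbit sizes. -/

namespace Pool.Agent.Lib.MP_eb4ae8_co

private theorem pp_of_sq {q s k : ℕ} (hq : 6 ≤ q) (hs : s.Prime) (h : s ^ k = q ^ 2) :
    IsPrimePow q := by
  have h1 : q ∣ s ^ k := by rw [h]; exact dvd_pow_self q two_ne_zero
  obtain ⟨j, hj, rfl⟩ := (Nat.dvd_prime_pow hs).1 h1
  have hj0 : 0 < j := by
    rcases Nat.eq_zero_or_pos j with rfl | h0
    · simp at hq
    · exact h0
  exact (isPrimePow_nat_iff _).2 ⟨s, j, hs, hj0, rfl⟩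

private theorem consec {s d y : ℕ} (hs : s.Prime) (hd : 1 ≤ d) (h : s ^ d + 1 = y ^ 2) :
    (s = 3 ∧ d = 1 ∧ y = 2) ∨ (s = 2 ∧ d = 3 ∧ y = 3) := by
  have hsd : 2 ≤ s ^ d := by
    calc 2 ≤ s := hs.two_le
      _ = s ^ 1 := (pow_one s).symm
      _ ≤ s ^ d := Nat.pow_le_pow_right hs.pos hd
  have hy2 : 2 ≤ y := by
    by_contra hlt
    have : y ^ 2 ≤ 1 ^ 2 := Nat.pow_le_pow_left (by omega) 2
    omega
  obtain ⟨z, rfl⟩ : ∃ z, y = z + 1 := ⟨y - 1, by omega⟩
  have hz : z * (z + 2) = s ^ d := by nlinarith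
  obtain ⟨i, -, hi⟩ := (Nat.dvd_prime_pow hs).1 (Dvd.intro _ hz)
  obtain ⟨k, -, hk⟩ := (Nat.dvd_prime_pow hs).1 (Dvd.intro_left _ hz)
  rcases Nat.eq_zero_or_pos i with rfl | hi0
  · rw [pow_zero] at hi
    subst hi
    have hs3 : s ∣ 3 := by
      have hk0 : k ≠ 0 := by
        rintro rfl
        norm_num at hk
      have : s ∣ s ^ k := dvd_pow_self s hk0
      rw [← hk] at this
      simpa using this
    have hs3' : s = 3 := (Nat.prime_dvd_prime_iff_eq hs Nat.prime_three).1 hs3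
    subst hs3'
    left
    refine ⟨rfl, ?_, rfl⟩
    have : 3 ^ d = 3 ^ 1 := by rw [← hz]; norm_num
    exact Nat.pow_right_injective (le_refl 2 |>.trans (by norm_num)) this
  · have hk0 : k ≠ 0 := by
      rintro rfl
      rw [pow_zero] at hk
      omega
    have h1 : s ∣ z := by rw [hi]; exact dvd_pow_self s (by omega)
    have h2 : s ∣ z + 2 := by rw [hk]; exact dvd_pow_self s hk0
    have h3 : s ∣ 2 := (Nat.dvd_add_right h1).1 h2
    have hs2 : s = 2 := (Nat.prime_dvd_prime_iff_eq hs Nat.prime_two).1 h3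
    subst hs2
    -- z = 2^i, z + 2 = 2^k
    have hz2 : z = 2 := by
      rcases Nat.lt_or_ge i 2 with hlt | hge
      · have : i = 1 := by omega
        rw [this] at hi
        omega
      · exfalso
        have h4 : 4 ∣ z := by
          rw [hi, show (4 : ℕ) = 2 ^ 2 by norm_num]
          exact pow_dvd_pow 2 hge
        have hk2 : 2 ≤ k := by
          by_contra hk2
          have : k = 1 := by omega
          rw [this] at hk
          omega
        have h5 : 4 ∣ z + 2 := by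
          rw [hk, show (4 : ℕ) = 2 ^ 2 by norm_num]
          exact pow_dvd_pow 2 hk2
        omega
    subst hz2
    right
    refine ⟨rfl, ?_, rfl⟩
    have : 2 ^ d = 2 ^ 3 := by rw [← hz]; norm_num
    exact Nat.pow_right_injective (le_refl 2) this

private theorem sq_of_cop {a b c : ℕ} (h : Nat.Coprime a b) (heq : a * b = c ^ 2) :
    ∃ d, a = d ^ 2 := by
  have hu : IsUnit (gcd a b) := by
    have : gcd a b = 1 := h
    rw [this]
    exact isUnit_one
  exact exists_eq_pow_of_mul_eq_pow hu heq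

/-- the case of two summands -/
private theorem two_case {q s a b : ℕ} (hq : 6 ≤ q) (hpp : ¬ IsPrimePow q) (hs : s.Prime)
    (hab : b ≤ a) (h : s ^ a + s ^ b = q ^ 2) :
    ∃ j, 1 ≤ j ∧ ((s = 3 ∧ q = 2 * 3 ^ j) ∨ (s = 2 ∧ q = 3 * 2 ^ j)) := by
  obtain ⟨d, rfl⟩ := Nat.exists_eq_add_of_le hab
  have hfac : s ^ b * (s ^ d + 1) = q ^ 2 := by rw [← h, pow_add]; ring
  rcases Nat.eq_zero_or_pos d with rfl | hd
  · exfalso
    rw [pow_zero] at hfac
    -- 2 * s^b = q^2
    have h2 : 2 ∣ q := by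
      have : 2 ∣ q ^ 2 := by rw [← hfac]; exact dvd_mul_left _ _
      exact Nat.prime_two.dvd_of_dvd_pow this
    obtain ⟨c, rfl⟩ := h2
    have h3 : s ^ b = 2 * c ^ 2 := by nlinarith
    have h4 : 2 ∣ s ^ b := by rw [h3]; exact dvd_mul_right _ _
    have hs2 : s = 2 := by
      have := Nat.prime_two.dvd_of_dvd_pow h4
      exact ((Nat.prime_dvd_prime_iff_eq Nat.prime_two hs).1 this).symm
    subst hs2
    apply hpp
    have h5 : 2 ^ (b + 1) = (2 * c) ^ 2 := by rw [pow_succ, ← hfac]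
    exact pp_of_sq hq Nat.prime_two h5
  · have hcop : Nat.Coprime (s ^ b) (s ^ d + 1) := by
      apply Nat.Coprime.pow_left
      rw [Nat.Prime.coprime_iff_not_dvd hs]
      intro hdv
      have h1 : s ∣ s ^ d := dvd_pow_self s (by omega)
      have h2 : s ∣ 1 := (Nat.dvd_add_right h1).1 hdv
      exact hs.one_lt.ne' (Nat.dvd_one.1 h2)
    obtain ⟨β, hβ⟩ := sq_of_cop hcop hfac
    obtain ⟨y, hy⟩ := sq_of_cop hcop.symm (by rw [mul_comm]; exact hfac)
    have hqβ : q = β * y := by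
      have : q ^ 2 = (β * y) ^ 2 := by rw [← hfac, hβ, hy]; ring
      exact Nat.pow_left_injective (show (2 : ℕ) ≠ 0 by norm_num) this
    obtain ⟨j, -, hj⟩ := (Nat.dvd_prime_pow hs).1
      (show β ∣ s ^ b by rw [hβ]; exact dvd_pow_self β two_ne_zero)
    rcases consec hs hd hy with ⟨rfl, -, rfl⟩ | ⟨rfl, -, rfl⟩
    · refine ⟨j, ?_, Or.inl ⟨rfl, by rw [hqβ, hj, mul_comm]⟩⟩
      rcases Nat.eq_zero_or_pos j with rfl | h0
      · rw [hj] at hqβ; omega
      · exact h0
    · refine ⟨j, ?_, Or.inr ⟨rfl, by rw [hqβ, hj, mul_comm]⟩⟩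
      rcases Nat.eq_zero_or_pos j with rfl | h0
      · rw [hj] at hqβ; omega
      · exact h0

theorem cop_arith (q s u Y : ℕ) (e : Fin Y → ℕ) (hq : 6 ≤ q) (hpp : ¬ IsPrimePow q)
    (hs : s.Prime) (hu : 1 ≤ u) (hmod : s ^ u % (q ^ 2 - q + 1) = 1)
    (hsum : ∑ i, s ^ (e i) = q ^ 2)
    (hle : (q - 2) * (Y * s ^ u) ≤ (q - 2) * q ^ 2 + (s ^ u - 1) * q) :
    q = 6 ∧ s = 2 ∧ u = 5 ∧ Y = 2 := by
  have hW2 : 2 ≤ s ^ u := by
    calc 2 ≤ s := hs.two_le
      _ = s ^ 1 := (pow_one s).symm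
      _ ≤ s ^ u := Nat.pow_le_pow_right hs.pos hu
  have hqq : q ≤ q ^ 2 := by nlinarith
  have hWr : q ^ 2 - q + 2 ≤ s ^ u := by
    by_contra hlt
    rcases Nat.lt_or_ge (s ^ u) (q ^ 2 - q + 1) with h1 | h1
    · rw [Nat.mod_eq_of_lt h1] at hmod
      omega
    · have : s ^ u = q ^ 2 - q + 1 := by omega
      rw [this, Nat.mod_self] at hmod
      omega
  set W := s ^ u with hW
  have hY3 : Y < 3 := by
    by_contra hY
    have hY' : 3 ≤ Y := by omega
    have h1 : (q - 2) * (3 * W) ≤ (q - 2) * (Y * W) :=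
      Nat.mul_le_mul_left _ (Nat.mul_le_mul_right _ hY')
    have h2 := h1.trans hle
    obtain ⟨t, rfl⟩ : ∃ t, q = t + 6 := ⟨q - 6, by omega⟩
    obtain ⟨w, hw⟩ : ∃ w, W = w + 1 := ⟨W - 1, by omega⟩
    have e1 : t + 6 - 2 = t + 4 := by omega
    have e2 : (t + 6) ^ 2 - (t + 6) + 2 = t ^ 2 + 11 * t + 32 := by
      have : (t + 6) ^ 2 = t ^ 2 + 12 * t + 36 := by ring
      omega
    rw [e2] at hWr
    rw [e1, hw] at h2
    have e3 : w + 1 - 1 = w := by omega
    rw [e3] at h2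
    rw [hw] at hWr
    nlinarith
  have hYc : Y = 0 ∨ Y = 1 ∨ Y = 2 := by omega
  rcases hYc with rfl | rfl | rfl
  · exfalso
    rw [Fin.sum_univ_zero] at hsum
    have : 0 < q ^ 2 := by positivity
    omega
  · exfalso
    rw [Fin.sum_univ_one] at hsum
    exact hpp (pp_of_sq hq hs hsum)
  · rw [Fin.sum_univ_two] at hsum
    have hcase : ∃ j, 1 ≤ j ∧ ((s = 3 ∧ q = 2 * 3 ^ j) ∨ (s = 2 ∧ q = 3 * 2 ^ j)) := by
      rcases Nat.le_total (e 1) (e 0) with h | h
      · exact two_case hq hpp hs h hsum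
      · exact two_case hq hpp hs h (by rw [add_comm]; exact hsum)
    obtain ⟨j, hj, ⟨rfl, hqj⟩ | ⟨rfl, hqj⟩⟩ := hcase
    · exfalso
      have hx3 : 3 ≤ 3 ^ j := by
        calc 3 = 3 ^ 1 := (pow_one 3).symm
          _ ≤ 3 ^ j := Nat.pow_le_pow_right (by norm_num) hj
      set x := 3 ^ j with hx
      subst hqj
      have e1 : (2 * x) ^ 2 - 2 * x + 2 + 2 * x = 4 * x ^ 2 + 2 := by
        have : (2 * x) ^ 2 = 4 * x ^ 2 := by ring
        omega
      have h3 : 3 ^ (2 * j + 1) < 3 ^ u := by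
        have e4 : 3 ^ (2 * j + 1) = 3 * x ^ 2 := by rw [hx]; ring
        rw [e4]
        have : 3 * x ^ 2 < (2 * x) ^ 2 - 2 * x + 2 := by nlinarith
        omega
      have h4 : 2 * j + 1 < u := (Nat.pow_lt_pow_iff_right (by norm_num)).1 h3
      have h5 : 9 * x ^ 2 ≤ W := by
        have e5 : 9 * x ^ 2 = 3 ^ (2 * j + 2) := by rw [hx]; ring
        rw [e5, hW]
        exact Nat.pow_le_pow_right (by norm_num) (by omega)
      obtain ⟨y, hy⟩ : ∃ y, x = y + 3 := ⟨x - 3, by omega⟩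
      obtain ⟨w, hw⟩ : ∃ w, W = w + 1 := ⟨W - 1, by omega⟩
      rw [hy, hw] at hle
      rw [hy, hw] at h5
      have e6 : 2 * (y + 3) - 2 = 2 * y + 4 := by omega
      have e7 : w + 1 - 1 = w := by omega
      rw [e6, e7] at hle
      nlinarith
    · have hx2 : 2 ≤ 2 ^ j := by
        calc 2 = 2 ^ 1 := (pow_one 2).symm
          _ ≤ 2 ^ j := Nat.pow_le_pow_right (by norm_num) hj
      rcases Nat.lt_or_ge j 2 with hj2 | hj2
      · have hj1 : j = 1 := by omega
        subst hj1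
        have hq6 : q = 6 := by rw [hqj]; norm_num
        subst hq6
        refine ⟨rfl, rfl, ?_, rfl⟩
        have h1 : W ≤ 69 := by omega
        have h2 : 32 ≤ W := by omega
        have hu7 : u < 7 := by
          by_contra h7
          have : 2 ^ 7 ≤ 2 ^ u := Nat.pow_le_pow_right (by norm_num) (by omega)
          rw [← hW] at this
          norm_num at this
          omega
        have hu4 : 4 < u := by
          by_contra h4
          have : 2 ^ u ≤ 2 ^ 4 := Nat.pow_le_pow_right (by norm_num) (by omega)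
          rw [← hW] at this
          norm_num at this
          omega
        have : u = 5 ∨ u = 6 := by omega
        rcases this with rfl | rfl
        · rfl
        · exfalso
          norm_num [hW] at hmod
      · exfalso
        have hx4 : 4 ≤ 2 ^ j := by
          calc 4 = 2 ^ 2 := by norm_num
            _ ≤ 2 ^ j := Nat.pow_le_pow_right (by norm_num) hj2
        set x := 2 ^ j with hx
        subst hqj
        have h3 : 2 ^ (2 * j + 3) < 2 ^ u := by
          have e4 : 2 ^ (2 * j + 3) = 8 * x ^ 2 := by rw [hx]; ring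
          rw [e4]
          have : 8 * x ^ 2 < (3 * x) ^ 2 - 3 * x + 2 := by
            have : (3 * x) ^ 2 = 9 * x ^ 2 := by ring
            have h6 : 4 * x ≤ x ^ 2 := by nlinarith
            omega
          omega
        have h4 : 2 * j + 3 < u := (Nat.pow_lt_pow_iff_right (by norm_num)).1 h3
        have h5 : 16 * x ^ 2 ≤ W := by
          have e5 : 16 * x ^ 2 = 2 ^ (2 * j + 4) := by rw [hx]; ring
          rw [e5, hW]
          exact Nat.pow_le_pow_right (by norm_num) (by omega)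
        obtain ⟨y, hy⟩ : ∃ y, x = y + 4 := ⟨x - 4, by omega⟩
        obtain ⟨w, hw⟩ : ∃ w, W = w + 1 := ⟨W - 1, by omega⟩
        rw [hy, hw] at hle
        rw [hy, hw] at h5
        have e6 : 3 * (y + 4) - 2 = 3 * y + 10 := by omega
        have e7 : w + 1 - 1 = w := by omega
        rw [e6, e7] at hle
        nlinarith

end Pool.Agent.Lib.MP_eb4ae8_co
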