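import Pool.Agent.Lib.MP_eb4ae8_co.Basic

/-! The remaining case `q = 6`, `|S| = 32`. -/

/-! The remaining case `q = 6`, `|S| = 32`. -/

namespace Pool.Agent.Lib.MP_eb4ae8_co

private theorem qsix_comm {G : Type*} [Group G] (c : G) (hc : orderOf c = 31)
    (hcc : ∀ g : G, g * c = c * g → g ∈ Subgroup.zpowers c) {s : G} (hs : s ^ 32 = 1) (hs1 : s ≠ 1)
    {m : ℕ} (h : c ^ m * s = s * c ^ m) : 31 ∣ m := by
  by_contra hm
  have hcop : Nat.Coprime m (orderOf c) := by
    rw [hc]
    exact ((Nat.Prime.coprime_iff_not_dvd (by norm_num)).2 hm).symm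
  obtain ⟨t, ht⟩ := exists_pow_eq_self_of_coprime hcop
  have h1 : Commute (c ^ m) s := h
  have h2 : Commute ((c ^ m) ^ t) s := h1.pow_left t
  rw [ht] at h2
  obtain ⟨i, hi⟩ := Subgroup.mem_zpowers_iff.1 (hcc s h2.symm.eq)
  have h31 : s ^ 31 = 1 := by
    have h3 : c ^ 31 = 1 := by rw [← hc]; exact pow_orderOf_eq_one c
    rw [← hi, ← zpow_natCast, ← zpow_mul, mul_comm, zpow_mul, zpow_natCast, h3, one_zpow]
  apply hs1
  have : s ^ 32 = s ^ 31 * s := pow_succ s 31
  rw [h31, one_mul, hs] at this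
  exact this.symm

private theorem qsix_inj {G : Type*} [Group G] (c : G) (hc : orderOf c = 31)
    (hcc : ∀ g : G, g * c = c * g → g ∈ Subgroup.zpowers c) {s : G} (hs : s ^ 32 = 1) (hs1 : s ≠ 1)
    {a b : ℕ} (hab : a ≤ b) (h : c ^ a * s * (c ^ a)⁻¹ = c ^ b * s * (c ^ b)⁻¹) : 31 ∣ b - a := by
  refine qsix_comm c hc hcc hs hs1 ?_
  obtain ⟨d, rfl⟩ := Nat.exists_eq_add_of_le hab
  rw [Nat.add_sub_cancel_left]
  rw [pow_add] at h
  have h1 : s = c ^ d * s * (c ^ d)⁻¹ := by
    have h2 : c ^ a * s * (c ^ a)⁻¹ = c ^ a * (c ^ d * s * (c ^ d)⁻¹) * (c ^ a)⁻¹ := by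
      rw [h]; group
    exact mul_left_cancel (mul_right_cancel h2)
  have h3 : c ^ d * s = c ^ d * s * (c ^ d)⁻¹ * c ^ d := by group
  rw [h3, ← h1]

/-- Write `S_x` for the stabiliser of `x` in `S`. All `31` elements `≠ 1` of `S` are conjugate under
`⟨c⟩` (no element `≠ 1` of `S` commutes with a power `≠ 1` of `c`, by `hcc` and orders), so all have
order two (Cauchy) and `S` is commutative of exponent two. Let `|S_x| = 8` (`x = x₀`). `S_x` acts on
the `30` neighbours of `x`; as `4 ∤ 30` some neighbour `y` has `S_x`-orbit of size at most two, so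
`|S_x ∩ S_y| ≥ 4` and `|S_y| = 8` by `hst`.
* `S_y = S_x`: by `htr`, `y = k (c ^ j x)`, `k ∈ S`, so `S_y = c ^ j S_x c ^ (-j)`: `c ^ j`
  normalises `S_x`. If `c ^ j ≠ 1` (order `31`), it permutes the seven elements `≠ 1` of `S_x`, so it
  centralises `S_x`, and so does `c`, against `hcc`. So `y = k x`, `k ∉ S_x`, `k^2 = 1`; the common
  neighbour `w` of the adjacent vertices `x`, `k x` is fixed by `k` and by `S_x` (`common_exists`,
  `common_unique`), so `|S_w| > 8`, against `hst`.
* `S_y ≠ S_x`: some `v ∈ S_x` has `v y ≠ y`. The set of `t ∈ S` with `t y ~ x` contains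
  `S_y ∪ v S_y`, of size `16`, so it is not contained in `S_x`: there is `t` with `t y ~ x` and
  `t⁻¹ x ≠ x`. Then `y` is a common neighbour of `x` and `t⁻¹ x`, both fixed by `v`, so `v y = y`
  by `common_unique`, a contradiction. -/
theorem q6_absurd {V : Type*} [Finite V] {Γ : SimpleGraph V} (hA : HasArray Γ 6) (c : Γ ≃g Γ)
    (hc : orderOf c = 31) (hcc : ∀ g : Γ ≃g Γ, g * c = c * g → g ∈ Subgroup.zpowers c)
    (S : Subgroup (Γ ≃g Γ)) (hS : Nat.card S = 32) (hnorm : ∀ k ∈ S, c * k * c⁻¹ ∈ S)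
    (x₀ : V) (hx₀ : Nat.card {k : S // (k : Γ ≃g Γ) x₀ = x₀} = 8)
    (hst : ∀ x : V, Nat.card {k : S // (k : Γ ≃g Γ) x = x} = 8 ∨
      Nat.card {k : S // (k : Γ ≃g Γ) x = x} = 1)
    (htr : ∀ x y : V, Nat.card {k : S // (k : Γ ≃g Γ) x = x} = 8 →
      Nat.card {k : S // (k : Γ ≃g Γ) y = y} = 8 → ∃ k ∈ S, ∃ j : ℕ, y = k ((c ^ j) x)) :
    False := by
  classical
  have hfinS : Finite S := Nat.finite_of_card_ne_zero (by rw [hS]; norm_num)
  have : Fintype S := Fintype.ofFinite S
  have hpow : ∀ s ∈ S, s ^ 32 = 1 := by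
    intro s hs
    have h1 : (⟨s, hs⟩ : S) ^ Nat.card S = 1 := pow_card_eq_one'
    rw [hS] at h1
    exact congrArg Subtype.val h1
  have hconj : ∀ s ∈ S, ∀ j : ℕ, c ^ j * s * (c ^ j)⁻¹ ∈ S := by
    intro s hs j
    induction j with
    | zero => simpa using hs
    | succ j ih =>
      have h1 := hnorm _ ih
      have h2 : c ^ (j + 1) * s * (c ^ (j + 1))⁻¹ = c * (c ^ j * s * (c ^ j)⁻¹) * c⁻¹ := by
        rw [pow_succ']; group
      rw [h2]; exact h1
  -- all elements are involutions
  have hinv : ∀ s ∈ S, s * s = 1 := by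
    obtain ⟨u, hu⟩ := exists_prime_orderOf_dvd_card' (G := S) 2 (hp := ⟨Nat.prime_two⟩)
      (by rw [hS]; norm_num)
    have hu1 : (u : Γ ≃g Γ) ≠ 1 := by
      intro h
      have h2 : u = 1 := Subtype.ext h
      rw [h2, orderOf_one] at hu
      norm_num at hu
    have hu2 : (u : Γ ≃g Γ) * u = 1 := by
      have h1 : u ^ 2 = 1 := by rw [← hu]; exact pow_orderOf_eq_one u
      rw [pow_two] at h1
      exact congrArg Subtype.val h1
    have hcard : Nat.card {k : S // k ≠ 1} = 31 := by
      rw [Nat.card_eq_fintype_card, Fintype.card_subtype, Finset.filter_ne',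
        Finset.card_erase_of_mem (Finset.mem_univ _), Finset.card_univ, ← Nat.card_eq_fintype_card, hS]
    let f : Fin 31 → {k : S // k ≠ 1} := fun j => ⟨⟨c ^ (j : ℕ) * u * (c ^ (j : ℕ))⁻¹, hconj u u.2 j⟩, by
      intro h
      have h1 : c ^ (j : ℕ) * u * (c ^ (j : ℕ))⁻¹ = 1 := congrArg Subtype.val h
      apply hu1
      have h2 : (u : Γ ≃g Γ) = (c ^ (j : ℕ))⁻¹ * (c ^ (j : ℕ) * u * (c ^ (j : ℕ))⁻¹) * c ^ (j : ℕ) := by group
      rw [h2, h1]; group⟩
    have hf : Function.Injective f := by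
      intro a b hab
      have h1 : c ^ (a : ℕ) * u * (c ^ (a : ℕ))⁻¹ = c ^ (b : ℕ) * u * (c ^ (b : ℕ))⁻¹ :=
        congrArg (fun z : {k : S // k ≠ 1} => ((z : S) : Γ ≃g Γ)) hab
      have ha := a.2
      have hb := b.2
      rcases le_total (a : ℕ) (b : ℕ) with h | h
      · have h2 := qsix_inj c hc hcc (hpow u u.2) hu1 h h1
        apply Fin.ext
        omega
      · have h2 := qsix_inj c hc hcc (hpow u u.2) hu1 h h1.symm
        apply Fin.ext
        omega
    have hbij : Function.Bijective f := by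
      rw [Nat.bijective_iff_injective_and_card]
      exact ⟨hf, by rw [hcard]; simp⟩
    intro s hs
    by_cases hs1 : s = 1
    · rw [hs1, one_mul]
    · obtain ⟨j, hj⟩ := hbij.2 ⟨⟨s, hs⟩, fun h => hs1 (congrArg Subtype.val h)⟩
      have h1 : c ^ (j : ℕ) * u * (c ^ (j : ℕ))⁻¹ = s :=
        congrArg (fun z : {k : S // k ≠ 1} => ((z : S) : Γ ≃g Γ)) hj
      rw [← h1]
      calc c ^ (j : ℕ) * u * (c ^ (j : ℕ))⁻¹ * (c ^ (j : ℕ) * u * (c ^ (j : ℕ))⁻¹)
          = c ^ (j : ℕ) * ((u : Γ ≃g Γ) * u) * (c ^ (j : ℕ))⁻¹ := by group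
        _ = 1 := by rw [hu2]; group
  have hcomm : ∀ s ∈ S, ∀ t ∈ S, s * t = t * s := by
    intro s hs t ht
    have h1 := hinv s hs
    have h2 := hinv t ht
    have h3 := hinv (s * t) (S.mul_mem hs ht)
    have hsi : s⁻¹ = s := inv_eq_of_mul_eq_one_right h1
    have hti : t⁻¹ = t := inv_eq_of_mul_eq_one_right h2
    have hsti : (s * t)⁻¹ = s * t := inv_eq_of_mul_eq_one_right h3
    rw [mul_inv_rev, hsi, hti] at hsti
    exact hsti.symm
  -- stabilisers as sets
  have hset : ∀ x : V, Nat.card {k : S // (k : Γ ≃g Γ) x = x} = {k : S | (k : Γ ≃g Γ) x = x}.ncard :=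
    fun x => rfl
  set x := x₀ with hxdef
  -- a neighbour fixed by an element of the stabiliser
  have hnb : ∃ y, Γ.Adj x y ∧ ∃ s ∈ S, s ≠ 1 ∧ s x = x ∧ s y = y := by
    by_contra hno
    push Not at hno
    let G : Subgroup (Γ ≃g Γ) :=
      { carrier := {k | k ∈ S ∧ k x = x}
        mul_mem' := by
          rintro a b ⟨ha, ha'⟩ ⟨hb, hb'⟩
          refine ⟨S.mul_mem ha hb, ?_⟩
          change a (b x) = x
          rw [hb', ha']
        one_mem' := ⟨S.one_mem, rfl⟩
        inv_mem' := by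
          rintro a ⟨ha, ha'⟩
          refine ⟨S.inv_mem ha, ?_⟩
          have h1 : a⁻¹ (a x) = x := by
            change (a⁻¹ * a) x = x
            rw [inv_mul_cancel]; rfl
          rw [ha'] at h1
          exact h1 }
    have hG : Nat.card G = 8 := by
      rw [← hx₀]
      exact Nat.card_congr
        { toFun := fun g => ⟨⟨g.1, g.2.1⟩, g.2.2⟩
          invFun := fun k => ⟨k.1.1, k.1.2, k.2⟩
          left_inv := fun g => rfl
          right_inv := fun k => rfl }
    have : Finite G := Nat.finite_of_card_ne_zero (by rw [hG]; norm_num)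
    have : Fintype G := Fintype.ofFinite G
    let act : MulAction G {z : V // Γ.Adj x z} :=
      { smul := fun g z => ⟨(g : Γ ≃g Γ) z.1, by
          have h1 : Γ.Adj ((g : Γ ≃g Γ) x) ((g : Γ ≃g Γ) z.1) := (g : Γ ≃g Γ).map_rel_iff.2 z.2
          rw [g.2.2] at h1
          exact h1⟩
        one_smul := fun z => rfl
        mul_smul := fun a b z => rfl }
    have : Fintype V := Fintype.ofFinite V
    have : Fintype {z : V // Γ.Adj x z} := Fintype.ofFinite _
    have : Fintype (Quotient (MulAction.orbitRel G {z : V // Γ.Adj x z})) := Fintype.ofFinite _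
    have : ∀ b : {z : V // Γ.Adj x z}, Fintype (MulAction.stabilizer G b) := fun b => Fintype.ofFinite _
    have hcl := MulAction.card_eq_sum_card_group_div_card_stabilizer G {z : V // Γ.Adj x z}
    have hstab : ∀ b : {z : V // Γ.Adj x z}, Fintype.card (MulAction.stabilizer G b) = 1 := by
      intro b
      rw [Fintype.card_eq_one_iff]
      refine ⟨1, ?_⟩
      intro g
      by_contra hg
      have hg1 : (g.1 : Γ ≃g Γ) ≠ 1 := by
        intro h
        exact hg (Subtype.ext (Subtype.ext h))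
      have hgb : (g.1 : Γ ≃g Γ) b.1 = b.1 := by
        have h1 : g.1 • b = b := g.2
        exact congrArg Subtype.val h1
      exact hno b.1 b.2 g.1.1 g.1.2.1 hg1 g.1.2.2 hgb
    simp only [hstab, Nat.div_one, Finset.sum_const, smul_eq_mul] at hcl
    rw [← Nat.card_eq_fintype_card, ← Nat.card_eq_fintype_card, card_nbr hA x, hG] at hcl
    omega
  obtain ⟨y, hxy, s, hs, hs1, hsx, hsy⟩ := hnb
  have hxy' : x ≠ y := hxy.ne
  have hy8 : Nat.card {k : S // (k : Γ ≃g Γ) y = y} = 8 := by
    rcases hst y with h | h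
    · exact h
    · exfalso
      rw [Nat.card_eq_one_iff_unique] at h
      obtain ⟨hsub, -⟩ := h
      have h1 := hsub.elim ⟨⟨s, hs⟩, hsy⟩ ⟨1, rfl⟩
      exact hs1 (congrArg (fun z : {k : S // (k : Γ ≃g Γ) y = y} => ((z : S) : Γ ≃g Γ)) h1)
  have hadj : ∀ g : Γ ≃g Γ, ∀ a b : V, Γ.Adj a b → Γ.Adj (g a) (g b) := fun g a b h => g.map_rel_iff.2 h
  by_cases hsub : ∀ k ∈ S, k x = x → k y = y
  · -- `S_x = S_y`
    have heq : {k : S | (k : Γ ≃g Γ) x = x} = {k : S | (k : Γ ≃g Γ) y = y} := by
      refine Set.eq_of_subset_of_ncard_le ?_ ?_ (Set.toFinite _)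
      · intro k hk
        exact hsub k k.2 hk
      · rw [← hset, ← hset, hy8, hx₀]
    obtain ⟨k, hk, j, hj⟩ := htr x y hx₀ hy8
    by_cases h31 : 31 ∣ j
    · have hcj : c ^ j = 1 := by
        rw [← hc] at h31
        exact orderOf_dvd_iff_pow_eq_one.1 h31
      rw [hcj] at hj
      have hj' : y = k x := hj
      have hkx : k x ≠ x := by rw [← hj']; exact hxy'.symm
      obtain ⟨w, hxw, hyw⟩ := common_exists (by norm_num) hA (x := x) (y := y)
        (Or.inl (SimpleGraph.dist_eq_one_iff_adj.mpr hxy))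
      have hky : k y = x := by
        rw [hj']
        change (k * k) x = x
        rw [hinv k hk]; rfl
      have hkw : k w = w := by
        have h1 := hadj k _ _ hxw
        rw [← hj'] at h1
        have h2 := hadj k _ _ hyw
        rw [hky] at h2
        exact common_unique (by norm_num) hA hxy' h2 h1 hxw hyw
      have hsw : ∀ t ∈ S, t x = x → t w = w := by
        intro t ht htx
        have hty := hsub t ht htx
        have h1 := hadj t _ _ hxw
        rw [htx] at h1
        have h2 := hadj t _ _ hyw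
        rw [hty] at h2
        exact common_unique (by norm_num) hA hxy' h1 h2 hxw hyw
      have hlt : {k : S | (k : Γ ≃g Γ) x = x}.ncard < {k : S | (k : Γ ≃g Γ) w = w}.ncard := by
        refine Set.ncard_lt_ncard ?_ (Set.toFinite _)
        · refine ⟨fun t ht => hsw t t.2 ht, ?_⟩
          intro hle
          have h1 : (⟨k, hk⟩ : S) ∈ {k : S | (k : Γ ≃g Γ) w = w} := hkw
          exact hkx (hle h1)
      rw [← hset, ← hset, hx₀] at hlt
      rcases hst w with h | h <;> omega
    · -- `c ^ j` normalises `S_x`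
      have hcl : ∀ t ∈ S, t x = x → (c ^ j * t * (c ^ j)⁻¹) x = x := by
        intro t ht htx
        have hmem := hconj t ht j
        have h1 : (c ^ j * t * (c ^ j)⁻¹) y = y := by
          have h2 : (c ^ j * t * (c ^ j)⁻¹) (k ((c ^ j) x)) = k ((c ^ j) x) := by
            change ((c ^ j * t * (c ^ j)⁻¹) * k * c ^ j) x = (k * c ^ j) x
            rw [hcomm _ hmem k hk]
            have h3 : k * (c ^ j * t * (c ^ j)⁻¹) * c ^ j = k * c ^ j * t := by group
            rw [h3]
            change (k * c ^ j) (t x) = (k * c ^ j) x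
            rw [htx]
          rw [← hj] at h2
          exact h2
        have h4 : (⟨_, hmem⟩ : S) ∈ {k : S | (k : Γ ≃g Γ) y = y} := h1
        rw [← heq] at h4
        exact h4
      have hcl' : ∀ i : ℕ, (c ^ (j * i) * s * (c ^ (j * i))⁻¹) ∈ S ∧
          (c ^ (j * i) * s * (c ^ (j * i))⁻¹) x = x := by
        intro i
        induction i with
        | zero =>
          refine ⟨hconj s hs _, ?_⟩
          have h1 : c ^ (j * 0) * s * (c ^ (j * 0))⁻¹ = s := by simp
          rw [h1]; exact hsx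
        | succ i ih =>
          refine ⟨hconj s hs _, ?_⟩
          have h1 := hcl _ ih.1 ih.2
          have h2 : c ^ (j * (i + 1)) * s * (c ^ (j * (i + 1)))⁻¹ =
              c ^ j * (c ^ (j * i) * s * (c ^ (j * i))⁻¹) * (c ^ j)⁻¹ := by
            have h3 : c ^ (j * (i + 1)) = c ^ j * c ^ (j * i) := by rw [← pow_add]; congr 1; ring
            rw [h3]; group
          rw [h2]; exact h1
      let f : Fin 31 → {k : S // (k : Γ ≃g Γ) x = x} := fun i =>
        ⟨⟨_, (hcl' i).1⟩, (hcl' i).2⟩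
      have key : ∀ a b : ℕ, a ≤ b → b < 31 →
          c ^ (j * a) * s * (c ^ (j * a))⁻¹ = c ^ (j * b) * s * (c ^ (j * b))⁻¹ → a = b := by
        intro a b hab hb h1
        have h2 := qsix_inj c hc hcc (hpow s hs) hs1 (Nat.mul_le_mul_left j hab) h1
        rw [← Nat.mul_sub] at h2
        rcases (Nat.Prime.dvd_mul (by norm_num : Nat.Prime 31)).1 h2 with h | h
        · exact absurd h h31
        · omega
      have hf : Function.Injective f := by
        intro a b hab
        have h1 : c ^ (j * (a : ℕ)) * s * (c ^ (j * (a : ℕ)))⁻¹ =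
            c ^ (j * (b : ℕ)) * s * (c ^ (j * (b : ℕ)))⁻¹ :=
          congrArg (fun z : {k : S // (k : Γ ≃g Γ) x = x} => ((z : S) : Γ ≃g Γ)) hab
        rcases le_total (a : ℕ) (b : ℕ) with h | h
        · exact Fin.ext (key _ _ h b.2 h1)
        · exact Fin.ext (key _ _ h a.2 h1.symm).symm
      have h8 := Nat.card_le_card_of_injective f hf
      rw [hx₀] at h8
      simp at h8
  · -- some `v` fixes `x` and moves `y`
    push Not at hsub
    obtain ⟨v, hv, hvx, hvy⟩ := hsub
    have ht : ∃ t ∈ S, Γ.Adj (t y) x ∧ t x ≠ x := by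
      by_contra hno
      push Not at hno
      have heq : {k : S | (k : Γ ≃g Γ) y = y} = {k : S | (k : Γ ≃g Γ) x = x} := by
        refine Set.eq_of_subset_of_ncard_le ?_ ?_ (Set.toFinite _)
        · intro k hk
          have hk' : (k : Γ ≃g Γ) y = y := hk
          refine hno k k.2 ?_
          rw [hk']
          exact hxy.symm
        · rw [← hset, ← hset, hy8, hx₀]
      have h1 : (⟨v, hv⟩ : S) ∈ {k : S | (k : Γ ≃g Γ) x = x} := hvx
      rw [← heq] at h1
      exact hvy h1
    obtain ⟨t, ht, hadjt, htx⟩ := ht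
    have h1 : Γ.Adj y (t x) := by
      have h2 := hadj t _ _ hadjt
      have h3 : t (t y) = y := by
        change (t * t) y = y
        rw [hinv t ht]; rfl
      rw [h3] at h2
      exact h2
    have hvt : v (t x) = t x := by
      change (v * t) x = t x
      rw [hcomm v hv t ht]
      change t (v x) = t x
      rw [hvx]
    have h2 : Γ.Adj x (v y) := by
      have := hadj v _ _ hxy
      rw [hvx] at this
      exact this
    have h3 : Γ.Adj (t x) (v y) := by
      have := hadj v _ _ h1.symm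
      rw [hvt] at this
      exact this
    exact hvy (common_unique (by norm_num) hA htx.symm h2 h3 hxy h1.symm)

end Pool.Agent.Lib.MP_eb4ae8_co
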