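import Pool.Agent.Lib.MP_eb4ae8_co.SCc
import Pool.Agent.Lib.MP_eb4ae8_co.CopA
import Pool.Agent.Lib.MP_eb4ae8_co.CopB
import Pool.Agent.Lib.MP_eb4ae8_co.CopN
import Pool.Agent.Lib.MP_eb4ae8_co.QSix

/-! A group of order prime to `r` normalised by an automorphism of order `r` is trivial. -/

namespace Pool.Agent.Lib.MP_eb4ae8_co

private theorem copC_norm {G : Type*} [Group G] (S : Subgroup G) (c : G)
    (hS : ∀ k ∈ S, c * k * c⁻¹ ∈ S) (m : ℕ) : ∀ k ∈ S, c ^ m * k * (c ^ m)⁻¹ ∈ S := by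
  induction m with
  | zero => intro k hk; simpa using hk
  | succ m ih =>
    intro k hk
    have h1 := hS _ (ih k hk)
    have h2 : c ^ (m + 1) * k * (c ^ (m + 1))⁻¹ = c * (c ^ m * k * (c ^ m)⁻¹) * c⁻¹ := by
      rw [pow_succ']
      group
    rwa [h2]

private theorem copC_stab {V : Type*} {Γ : SimpleGraph V} (S : Subgroup (Γ ≃g Γ)) (h : Γ ≃g Γ)
    (h1 : ∀ t ∈ S, h * t * h⁻¹ ∈ S) (h2 : ∀ t ∈ S, h⁻¹ * t * h ∈ S) (x : V) :
    Nat.card {k : S // (k : Γ ≃g Γ) (h x) = h x} = Nat.card {k : S // (k : Γ ≃g Γ) x = x} := by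
  symm
  refine Nat.card_congr
    { toFun := fun k => ⟨⟨h * k.1.1 * h⁻¹, h1 _ k.1.2⟩, ?_⟩
      invFun := fun k => ⟨⟨h⁻¹ * k.1.1 * h, h2 _ k.1.2⟩, ?_⟩
      left_inv := ?_
      right_inv := ?_ }
  · change (h * k.1.1 * h⁻¹) (h x) = h x
    rw [RelIso.mul_apply, RelIso.mul_apply, RelIso.inv_apply_self, k.2]
  · change (h⁻¹ * k.1.1 * h) x = x
    rw [RelIso.mul_apply, RelIso.mul_apply, k.2, RelIso.inv_apply_self]
  · intro k
    apply Subtype.ext
    apply Subtype.ext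
    change h⁻¹ * (h * k.1.1 * h⁻¹) * h = k.1.1
    group
  · intro k
    apply Subtype.ext
    apply Subtype.ext
    change h * (h⁻¹ * k.1.1 * h) * h⁻¹ = k.1.1
    group

private theorem copC_exp {a b : ℕ} (h : 2 ^ a + 2 ^ b = 36) :
    (a = 5 ∧ b = 2) ∨ (a = 2 ∧ b = 5) := by
  have pa : 0 < 2 ^ a := Nat.two_pow_pos a
  have pb : 0 < 2 ^ b := Nat.two_pow_pos b
  have ha : a < 6 := by
    by_contra hn
    have : 2 ^ 6 ≤ 2 ^ a := Nat.pow_le_pow_right (by norm_num) (not_lt.mp hn)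
    norm_num at this
    linarith
  have hb : b < 6 := by
    by_contra hn
    have : 2 ^ 6 ≤ 2 ^ b := Nat.pow_le_pow_right (by norm_num) (not_lt.mp hn)
    norm_num at this
    linarith
  interval_cases a <;> interval_cases b <;> simp_all

/-- the case `q = 6`, `|S| = 32` -/
private theorem copC_six {V : Type*} [Finite V] {Γ : SimpleGraph V} (hA : HasArray Γ 6)
    (c : Γ ≃g Γ) (hc : orderOf c = 31)
    (hcc : ∀ g : Γ ≃g Γ, g * c = c * g → g ∈ Subgroup.zpowers c)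
    (S : Subgroup (Γ ≃g Γ)) (hS : Nat.card S = 32) (hnorm : ∀ k ∈ S, c * k * c⁻¹ ∈ S)
    (rep : Fin 2 → V) (e : Fin 2 → ℕ)
    (hstab : ∀ i, Nat.card {k : S // (k : Γ ≃g Γ) (rep i) = rep i} * 2 ^ (e i) = 2 ^ 5)
    (hcov : ∀ x : V, ∃ (i : Fin 2) (k : Γ ≃g Γ) (j : ℕ), k ∈ S ∧ x = k ((c ^ j) (rep i)))
    (hsum : ∑ i, 2 ^ (e i) = 36) : False := by
  have hc31 : c ^ 31 = 1 := by rw [← hc]; exact pow_orderOf_eq_one c
  -- stabilisers of the points of one orbit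
  have hinv : ∀ j : ℕ, (c ^ j)⁻¹ = c ^ (30 * j) := by
    intro j
    rw [inv_eq_iff_mul_eq_one, ← pow_add]
    have : j + 30 * j = 31 * j := by ring
    rw [this, pow_mul, hc31, one_pow]
  have hconj : ∀ (k : Γ ≃g Γ) (j : ℕ), k ∈ S → ∀ x : V,
      Nat.card {t : S // (t : Γ ≃g Γ) (k ((c ^ j) x)) = k ((c ^ j) x)} =
        Nat.card {t : S // (t : Γ ≃g Γ) x = x} := by
    intro k j hk x
    have h := copC_stab S (k * c ^ j) ?_ ?_ x
    · exact h
    · intro t ht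
      have h1 : k * c ^ j * t * (k * c ^ j)⁻¹ = k * (c ^ j * t * (c ^ j)⁻¹) * k⁻¹ := by group
      rw [h1]
      exact S.mul_mem (S.mul_mem hk (copC_norm S c hnorm j t ht)) (S.inv_mem hk)
    · intro t ht
      have h1 : (k * c ^ j)⁻¹ * t * (k * c ^ j) =
          (c ^ j)⁻¹ * (k⁻¹ * t * k) * ((c ^ j)⁻¹)⁻¹ := by group
      rw [h1, hinv j]
      exact copC_norm S c hnorm (30 * j) _ (S.mul_mem (S.mul_mem (S.inv_mem hk) ht) hk)
  -- the exponents
  obtain ⟨i2, i5, h2, h5, hall⟩ : ∃ i2 i5 : Fin 2, e i2 = 2 ∧ e i5 = 5 ∧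
      ∀ i : Fin 2, i = i2 ∨ i = i5 := by
    rw [Fin.sum_univ_two] at hsum
    rcases copC_exp hsum with ⟨h0, h1⟩ | ⟨h0, h1⟩
    · exact ⟨1, 0, h1, h0, by decide⟩
    · exact ⟨0, 1, h0, h1, by decide⟩
  have s2 : Nat.card {k : S // (k : Γ ≃g Γ) (rep i2) = rep i2} = 8 := by
    have h := hstab i2
    rw [h2] at h
    omega
  have s5 : Nat.card {k : S // (k : Γ ≃g Γ) (rep i5) = rep i5} = 1 := by
    have h := hstab i5
    rw [h5] at h
    omega
  refine q6_absurd hA c hc hcc S hS hnorm (rep i2) s2 ?_ ?_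
  · intro x
    obtain ⟨i, k, j, hk, rfl⟩ := hcov x
    rw [hconj k j hk]
    rcases hall i with rfl | rfl
    · exact Or.inl s2
    · exact Or.inr s5
  · intro x y hx hy
    obtain ⟨i, k, j, hk, rfl⟩ := hcov x
    obtain ⟨i', k', j', hk', rfl⟩ := hcov y
    rw [hconj k j hk] at hx
    rw [hconj k' j' hk'] at hy
    have hi : i = i2 := by
      rcases hall i with h | h
      · exact h
      · rw [h, s5] at hx
        omega
    have hi' : i' = i2 := by
      rcases hall i' with h | h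
      · exact h
      · rw [h, s5] at hy
        omega
    rw [hi, hi']
    refine ⟨k' * (c ^ (j' + 30 * j) * k⁻¹ * (c ^ (j' + 30 * j))⁻¹),
      S.mul_mem hk' (copC_norm S c hnorm _ _ (S.inv_mem hk)), j' + 30 * j, ?_⟩
    have h1 : k' * (c ^ (j' + 30 * j) * k⁻¹ * (c ^ (j' + 30 * j))⁻¹) * c ^ (j' + 30 * j) *
        (k * c ^ j) = k' * c ^ j' := by
      have h3 : k' * (c ^ (j' + 30 * j) * k⁻¹ * (c ^ (j' + 30 * j))⁻¹) * c ^ (j' + 30 * j) *
        (k * c ^ j) = k' * (c ^ (j' + 30 * j) * c ^ j) := by group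
      rw [h3, ← pow_add]
      have h4 : j' + 30 * j + j = j' + 31 * j := by ring
      rw [h4, pow_add, pow_mul, hc31, one_pow, mul_one]
    have h2' := congrArg (fun g : Γ ≃g Γ => g (rep i2)) h1
    simp only [RelIso.mul_apply] at h2' ⊢
    exact h2'.symm

/-- Assembly. If `K ≠ ⊥`, take a prime `s` dividing `|K|` and `S` from `exists_invariant_sylow`
(`s ≠ r`). An element of `S` commuting with `c` is in `⟨c⟩` (`self_centralizing`), so it is `1`:
`|S| ≡ 1 (mod r)` by `card_mod_one`. `orbit_count` and `cop_arith` give `q = 6`, `|S| = 32`,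
`Y = 2` and `2 ^ e₀ + 2 ^ e₁ = 36`, so `{e₀, e₁} = {5, 2}`; stabilisers of points in the same orbit
of `S ⟨c⟩` have equal order, so `q6_absurd` applies. -/
theorem coprime_trivial {V : Type*} [Finite V] {Γ : SimpleGraph V} {q : ℕ}
    (hA : HasArray Γ q) (hq : 6 ≤ q) (hpp : ¬ IsPrimePow q) (hr : (q ^ 2 - q + 1).Prime)
    (c : Γ ≃g Γ) (hc : orderOf c = q ^ 2 - q + 1) (K : Subgroup (Γ ≃g Γ))
    (hK : ∀ k ∈ K, c * k * c⁻¹ ∈ K) (hrK : ¬ (q ^ 2 - q + 1) ∣ Nat.card K) : K = ⊥ := by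
  have : Finite (Γ ≃g Γ) := DFunLike.finite _
  by_contra hne
  have hcard : Nat.card K ≠ 1 := fun h => hne (Subgroup.card_eq_one.mp h)
  obtain ⟨s, hs, hsK⟩ := Nat.exists_prime_and_dvd hcard
  obtain ⟨S, u, hSK, hu, hS, hnorm⟩ := exists_invariant_sylow K c (by rw [hc]; exact hr) hK
    (by rw [hc]; exact hrK) hs hsK
  have hsr : s ≠ q ^ 2 - q + 1 := fun h => hrK (h ▸ hsK)
  have hfix : ∀ k ∈ S, c * k = k * c → k = 1 := by
    intro k hk hck
    have h1 := self_centralizing (by omega) hA hr c hc k hck.symm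
    have h2 : orderOf k ∣ q ^ 2 - q + 1 := by
      rw [← hc]
      exact orderOf_dvd_of_mem_zpowers h1
    have h3 : orderOf k ∣ s ^ u := by
      rw [← hS]
      exact Subgroup.orderOf_dvd_natCard S hk
    rcases (Nat.dvd_prime hr).mp h2 with h | h
    · exact orderOf_eq_one_iff.mp h
    · exfalso
      rw [h] at h3
      have h4 := hr.dvd_of_dvd_pow h3
      exact hsr ((Nat.prime_dvd_prime_iff_eq hr hs).mp h4).symm
  have hmod := card_mod_one S c (by rw [hc]; exact hr) hnorm hfix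
  rw [hS, hc] at hmod
  obtain ⟨Y, rep, e, hstab, hcov, hsum, hle⟩ := orbit_count (by omega) hA hr c hc S hs hsr hS hnorm
  obtain ⟨rfl, rfl, rfl, rfl⟩ := cop_arith q s u Y e hq hpp hs hu hmod hsum hle
  exact copC_six hA c hc (fun g hg => self_centralizing (by norm_num) hA hr c hc g hg) S hS hnorm
    rep e hstab hcov hsum

end Pool.Agent.Lib.MP_eb4ae8_co
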