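import Mathlib

namespace Pool.Agent.Lib.MP_eb4ae8_co

/-- `nb Γ x y j`: the number of neighbours `z` of `y` at path distance `j` from `x`. -/
noncomputable def nb {V : Type*} (Γ : SimpleGraph V) (x y : V) (j : ℕ) : ℕ :=
  Nat.card {z : V // Γ.Adj y z ∧ Γ.dist x z = j}

/-- `HasArray Γ q`: the connected graph `Γ` of diameter three is distance-regular with
intersection array `{q(q-1), (q+1)(q-2), q+1; 1, 1, q(q-2)}`. -/
structure HasArray {V : Type*} (Γ : SimpleGraph V) (q : ℕ) : Prop where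
  conn : Γ.Connected
  diam_le : ∀ x y, Γ.dist x y ≤ 3
  diam_eq : ∃ x y, Γ.dist x y = 3
  b0 : ∀ x, nb Γ x x 1 = q * (q - 1)
  b1 : ∀ x y, Γ.dist x y = 1 → nb Γ x y 2 = (q + 1) * (q - 2)
  b2 : ∀ x y, Γ.dist x y = 2 → nb Γ x y 3 = q + 1
  c1 : ∀ x y, Γ.dist x y = 1 → nb Γ x y 0 = 1
  c2 : ∀ x y, Γ.dist x y = 2 → nb Γ x y 1 = 1
  c3 : ∀ x y, Γ.dist x y = 3 → nb Γ x y 2 = q * (q - 2)

/-- the number of vertices which the automorphism `g` moves to distance exactly `i`. -/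
noncomputable def moved {V : Type*} (Γ : SimpleGraph V) (g : Γ ≃g Γ) (i : ℕ) : ℕ :=
  Nat.card {x : V // Γ.dist x (g x) = i}

/-- `G` is transitive on the vertices of `Γ`. -/
def VertexTransitive {V : Type*} {Γ : SimpleGraph V} (G : Subgroup (Γ ≃g Γ)) : Prop :=
  ∀ x y : V, ∃ g ∈ G, g x = y

/-- `R` is semiregular: only its identity fixes a vertex. -/
def Semiregular {V : Type*} {Γ : SimpleGraph V} (R : Subgroup (Γ ≃g Γ)) : Prop :=
  ∀ g ∈ R, ∀ x : V, g x = x → g = 1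

end Pool.Agent.Lib.MP_eb4ae8_co
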