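import Mathlib

/-! Group theory: a nontrivial soluble normal subgroup of a finite group contains a nontrivial
abelian normal subgroup of prime power order. -/

namespace Pool.Agent.Lib.MP_eb4ae8_co

open scoped commutatorElement

private theorem Sol_abelian {G : Type*} [Group G] (N : Subgroup G) (hN : N.Normal)
    (hs : Group.IsSolvable N) (hne : N ≠ ⊥) :
    ∃ A : Subgroup G, A.Normal ∧ A ≠ ⊥ ∧ (∀ a ∈ A, ∀ b ∈ A, a * b = b * a) := by
  classical
  have hex : ∃ n : ℕ, derivedSeries N n = ⊥ := hs.solvable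
  obtain ⟨n, hn⟩ : ∃ n, n = Nat.find hex := ⟨_, rfl⟩
  have hn1 : derivedSeries N n = ⊥ := by rw [hn]; exact Nat.find_spec hex
  have hn2 : ∀ m < n, derivedSeries N m ≠ ⊥ := by
    intro m hm; rw [hn] at hm; exact Nat.find_min hex hm
  cases n with
  | zero =>
    exfalso
    rw [derivedSeries_zero] at hn1
    apply hne
    rw [Subgroup.eq_bot_iff_forall]
    intro x hx
    have : (⟨x, hx⟩ : N) ∈ (⊤ : Subgroup N) := Subgroup.mem_top _
    rw [hn1, Subgroup.mem_bot] at this
    exact congrArg Subtype.val this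
  | succ k =>
    have hk := hn2 k (Nat.lt_succ_self k)
    rw [derivedSeries_succ] at hn1
    have : (derivedSeries N k).Characteristic := derivedSeries_characteristic N k
    refine ⟨(derivedSeries N k).map N.subtype, ConjAct.normal_of_characteristic_of_normal, ?_, ?_⟩
    · intro h
      apply hk
      rwa [Subgroup.map_eq_bot_iff_of_injective _ N.subtype_injective] at h
    · rintro a ⟨a', ha', rfl⟩ b ⟨b', hb', rfl⟩
      have h1 : ⁅a', b'⁆ ∈ ⁅derivedSeries N k, derivedSeries N k⁆ :=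
        Subgroup.commutator_mem_commutator ha' hb'
      rw [hn1, Subgroup.mem_bot, commutatorElement_eq_one_iff_mul_comm] at h1
      simpa using congrArg N.subtype h1

/-- Take the last nontrivial term `A` of the derived series of `N` (characteristic in `N`, so normal
in `G`; commutative), a prime `p` dividing its order, and `M` the set of elements of `A` whose
order is a power of `p` (or the Sylow `p`-subgroup of `A`, characteristic in `A`). -/
theorem exists_abelian_pgroup {G : Type*} [Group G] [Finite G] (N : Subgroup G) (hN : N.Normal)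
    (hs : Group.IsSolvable N) (hne : N ≠ ⊥) :
    ∃ (p w : ℕ) (M : Subgroup G), p.Prime ∧ 1 ≤ w ∧ M.Normal ∧
      (∀ a ∈ M, ∀ b ∈ M, a * b = b * a) ∧ Nat.card M = p ^ w := by
  obtain ⟨A, hA, hAne, hcomm⟩ := Sol_abelian N hN hs hne
  have hcard : Nat.card A ≠ 1 := by
    intro h
    exact hAne (Subgroup.eq_bot_of_card_eq A h)
  obtain ⟨p, hp, hpd⟩ := Nat.exists_prime_and_dvd hcard
  have : Fact p.Prime := ⟨hp⟩
  let M : Subgroup G :=
    { carrier := {a | a ∈ A ∧ ∃ k : ℕ, a ^ (p ^ k) = 1}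
      mul_mem' := by
        rintro a b ⟨ha, k, hk⟩ ⟨hb, l, hl⟩
        refine ⟨A.mul_mem ha hb, k + l, ?_⟩
        have hc : Commute a b := hcomm a ha b hb
        rw [hc.mul_pow, pow_add, pow_mul, hk, one_pow, one_mul, mul_comm (p ^ k), pow_mul, hl,
          one_pow]
      one_mem' := ⟨A.one_mem, 0, one_pow _⟩
      inv_mem' := by
        rintro a ⟨ha, k, hk⟩
        exact ⟨A.inv_mem ha, k, by rw [inv_pow, hk, inv_one]⟩ }
  have hMmem : ∀ a, a ∈ M ↔ a ∈ A ∧ ∃ k : ℕ, a ^ (p ^ k) = 1 := fun a => Iff.rfl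
  have hMp : IsPGroup p M := by
    rintro ⟨a, ha⟩
    obtain ⟨-, k, hk⟩ := (hMmem a).1 ha
    exact ⟨k, Subtype.ext hk⟩
  obtain ⟨w, hw⟩ := IsPGroup.iff_card.1 hMp
  refine ⟨p, w, M, hp, ?_, ?_, ?_, hw⟩
  · by_contra h0
    have hw0 : w = 0 := by omega
    rw [hw0, pow_zero] at hw
    have hMbot : M = ⊥ := Subgroup.eq_bot_of_card_eq M hw
    obtain ⟨x, hx⟩ := exists_prime_orderOf_dvd_card' p hpd
    have hxM : (x : G) ∈ M := by
      rw [hMmem]
      refine ⟨x.2, 1, ?_⟩
      have h1 := pow_orderOf_eq_one x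
      rw [hx] at h1
      rw [pow_one]
      exact_mod_cast congrArg Subtype.val h1
    rw [hMbot, Subgroup.mem_bot] at hxM
    have : x = 1 := Subtype.ext hxM
    rw [this, orderOf_one] at hx
    exact hp.one_lt.ne hx
  · constructor
    intro a ha g
    obtain ⟨ha1, k, hk⟩ := (hMmem a).1 ha
    rw [hMmem]
    refine ⟨hA.conj_mem a ha1 g, k, ?_⟩
    rw [conj_pow, hk, mul_one, mul_inv_cancel]
  · intro a ha b hb
    exact hcomm a ((hMmem a).1 ha).1 b ((hMmem b).1 hb).1

end Pool.Agent.Lib.MP_eb4ae8_co
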