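import Pool.Agent.Lib.MP_eb4ae8_co.Cong
import Pool.Agent.Lib.MP_eb4ae8_co.Sol
import Pool.Agent.Lib.MP_eb4ae8_co.ArA
import Pool.Agent.Lib.MP_eb4ae8_co.ArB
import Pool.Agent.Lib.MP_eb4ae8_co.ArC
import Pool.Agent.Lib.MP_eb4ae8_co.ArD
import Pool.Agent.Lib.MP_eb4ae8_co.ArE

/-! The soluble radical of a vertex-transitive group is trivial when `q` is not a prime power. -/

namespace Pool.Agent.Lib.MP_eb4ae8_co

/-- Assembly: `exists_abelian_pgroup`, `numbers`, then `ar_start`, `ar_eg`; if `p ∣ q` use `ar_pq`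
and `ar_twoP`, otherwise `m ∣ q^2-q+1` and use `ar_mr`, then `ar_full` or `ar_third`. -/
theorem soluble_radical {V : Type*} [Finite V] {Γ : SimpleGraph V} {q : ℕ} (hq : 3 ≤ q)
    (hA : HasArray Γ q) (hpp : ¬ IsPrimePow q) (G : Subgroup (Γ ≃g Γ)) (hG : VertexTransitive G)
    (N : Subgroup G) (hN : N.Normal) (hs : Group.IsSolvable N) : N = ⊥ := by
  classical
  by_contra hne
  haveI hfin : Finite (Γ ≃g Γ) :=
    Finite.of_injective (fun g : Γ ≃g Γ => (g : V → V)) DFunLike.coe_injective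
  obtain ⟨p, w, M, hp, hw, hMn, hMab, hMc⟩ := exists_abelian_pgroup N hN hs hne
  have hcard : Nat.card (M.map G.subtype) = p ^ w := by
    rw [← hMc]
    exact Nat.card_congr (M.equivMapOfInjective G.subtype G.subtype_injective).toEquiv.symm
  have hpw : 2 ≤ p ^ w := by
    calc 2 ≤ p := hp.two_le
      _ = p ^ 1 := (pow_one p).symm
      _ ≤ p ^ w := Nat.pow_le_pow_right hp.pos hw
  have hM1 : ∀ g ∈ G, ∀ c ∈ M.map G.subtype, g * c * g⁻¹ ∈ M.map G.subtype := by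
    rintro g hg c ⟨c', hc', rfl⟩
    exact ⟨⟨g, hg⟩ * c' * ⟨g, hg⟩⁻¹, hMn.conj_mem c' hc' ⟨g, hg⟩, rfl⟩
  have hM2 : ∀ a ∈ M.map G.subtype, ∀ b ∈ M.map G.subtype, a * b = b * a := by
    rintro a ⟨a', ha', rfl⟩ b ⟨b', hb', rfl⟩
    rw [← map_mul, ← map_mul, hMab a' ha' b' hb']
  have hM3 : M.map G.subtype ≠ ⊥ := by
    intro h
    rw [h, Subgroup.card_bot] at hcard
    omega
  obtain ⟨m, O, h, e, k, z, hm, hm2, hodd, hO, hh, he2, hk, hz, ht, ⟨c, hc, hc1, hcle⟩, hh0⟩ :=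
    numbers hq hA G hG (M.map G.subtype) hM1 hM2 hM3
  rw [hcard] at hm
  obtain ⟨t, htm, htO, htd⟩ := ht c hc hc1
  have hp2 : p ≠ 2 := by
    rintro rfl
    rw [hm] at hodd
    exact (Nat.not_odd_iff_even.2 ((even_two).pow_of_ne_zero (by omega))) hodd
  have hq6 : 6 ≤ q := by
    by_contra hlt
    have h345 : q = 3 ∨ q = 4 ∨ q = 5 := by omega
    rcases h345 with rfl | rfl | rfl
    · exact hpp Nat.prime_three.isPrimePow
    · exact hpp ((isPrimePow_nat_iff 4).2 ⟨2, 2, Nat.prime_two, by norm_num, by norm_num⟩)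
    · exact hpp Nat.prime_five.isPrimePow
  obtain ⟨D, hD, h1⟩ := ar_start q m O h k hq hm2 hO hh hk
  obtain ⟨g, e', hg, heg, he', h3, h4⟩ := ar_eg q m h D hq hm2 hh hD h1
  have hqq : q ≤ q ^ 2 := Nat.le_self_pow (by norm_num) q
  by_cases hpq : p ∣ q
  · obtain ⟨v, r, hpr, hqv⟩ := Nat.exists_eq_pow_mul_and_not_dvd (n := q) (by omega) p hp.ne_one
    have hv : 1 ≤ v := by
      by_contra h0
      have hv0 : v = 0 := by omega
      rw [hv0, pow_zero, one_mul] at hqv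
      exact hpr (hqv ▸ hpq)
    have hr : 2 ≤ r := by
      by_contra h0
      have : r = 0 ∨ r = 1 := by omega
      rcases this with rfl | rfl
      · rw [mul_zero] at hqv
        omega
      · rw [mul_one] at hqv
        exact hpp ((isPrimePow_nat_iff q).2 ⟨p, v, hp, by omega, hqv.symm⟩)
    have hw2 : w ≤ 2 * v := by
      have hd1 : p ^ w ∣ q ^ 2 * (q ^ 2 - q + 1) := ⟨O, by rw [← hO, hm, mul_comm]⟩
      have hcop : Nat.Coprime (p ^ w) (q ^ 2 - q + 1) := by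
        refine Nat.Coprime.pow_left w ((Nat.Prime.coprime_iff_not_dvd hp).2 fun hd => ?_)
        have h5 : p ∣ q ^ 2 - q := by
          rw [sq, ← Nat.mul_sub_one]
          exact Dvd.dvd.mul_right hpq _
        exact hp.one_lt.ne' (Nat.dvd_one.1 ((Nat.dvd_add_right h5).1 hd))
      have hd2 : p ^ w ∣ q ^ 2 := hcop.dvd_of_dvd_mul_right hd1
      have hq2 : q ^ 2 = p ^ (2 * v) * r ^ 2 := by
        rw [hqv, mul_pow, ← pow_mul, mul_comm v 2]
      rw [hq2] at hd2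
      by_contra hlt
      have h6 : p ^ (2 * v) * p ∣ p ^ (2 * v) * r ^ 2 := by
        rw [← pow_succ]
        exact (pow_dvd_pow p (by omega)).trans hd2
      have h7 : p ∣ r ^ 2 := Nat.dvd_of_mul_dvd_mul_left (pow_pos hp.pos _) h6
      exact hpr (hp.dvd_of_dvd_pow h7)
    obtain ⟨a1, a2, a3⟩ := ar_pq q m g e' D p v r w hq hp hp2 hv hqv hr hpr hm hw hw2 he' heg h3 h4
    have hP : Odd (p ^ v) := (hp.odd_of_ne_two hp2).pow
    have hP3 : 3 ≤ p ^ v := by
      have h8 : 3 ≤ p := by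
        have := hp.two_le
        omega
      calc 3 ≤ p := h8
        _ = p ^ 1 := (pow_one p).symm
        _ ≤ p ^ v := Nat.pow_le_pow_right hp.pos hv
    exact ar_twoP q m O h k (p ^ v) g e z hP hP3 a1 (by rw [a2, mul_comm 2 v, pow_mul]) hO a3 hg
      he2 hk hz
  · have hd : m ∣ q ^ 2 - q + 1 := by
      have hcop : Nat.Coprime m (q ^ 2) := by
        rw [hm]
        exact Nat.Coprime.pow w 2 ((Nat.Prime.coprime_iff_not_dvd hp).2 hpq)
      exact hcop.dvd_of_dvd_mul_left ⟨O, by rw [← hO, mul_comm]⟩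
    obtain ⟨r, hr⟩ := hd
    rcases ar_mr q m h g e' D p w r hq6 hp hm hw hm2 hr.symm hg he' heg h3 h4 with
      ⟨_, h0⟩ | ⟨hm3, hh3⟩
    · have h9 : m * t = 0 := by rw [← htm, hh0 h0 c hc]
      have h10 : (m : ℤ) * t = 0 := by exact_mod_cast h9
      rw [h10] at htd
      exact ar_full q hq htd
    · rw [htm] at hcle
      exact ar_third q m O h t hq6 hO hm3 hh3 htO htd hcle

end Pool.Agent.Lib.MP_eb4ae8_co
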