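import Pool.Agent.Lib.MP_eb4ae8_co.TrNat

/-! A spectral condition. -/

namespace Pool.Agent.Lib.MP_eb4ae8_co

private lemma spec_nat (t a z : ℕ) (ha : 0 < a) (h : z ^ 2 * t = a ^ 2) : ∃ s : ℕ, t = s ^ 2 := by
  have h1 : z ^ 2 ∣ a ^ 2 := ⟨t, h.symm⟩
  have h2 : z ∣ a := (Nat.pow_dvd_pow_iff two_ne_zero).1 h1
  obtain ⟨s, rfl⟩ := h2
  refine ⟨s, ?_⟩
  have hz : 0 < z := Nat.pos_of_ne_zero fun h0 => by simp [h0] at ha
  have h3 : z ^ 2 * t = z ^ 2 * s ^ 2 := by rw [h]; ring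
  exact Nat.eq_of_mul_eq_mul_left (by positivity) h3

/-- Put `ν = card n`, `t = q + f`, `C = B^2 - t`, `ρ = (f^2 - t)/ν`. Multiplying `h` by `J`:
`(f+1)(f^2-t) = (f-q) ν`, so `ρ (f+1) = f - q`. `C^2 = (f-1)(f-q) J + (1-t) C`. Hence
`P = (C - ρ J)/(1-t)` is idempotent, `B P = -P`; its trace `m` is a natural number
(`trace_nat`) with `m (t-1) = q (ν-1) + f (f-1) > f (t-1)`, so `m > f`. `Q = 1 - J/ν - P` is
idempotent, commutes with `B`, `B^2 Q = t Q`, so `(Q + (1/√t) B Q)/2` is idempotent with trace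
`((ν - 1 - m) + (m - f)/√t)/2`, a natural number. So `√t` is rational and `t` is a square. -/
theorem spec_square {n : Type*} [Fintype n] [DecidableEq n] (B : Matrix n n ℝ) (f q : ℕ)
    (hq : 1 ≤ q) (hf : 2 ≤ f) (htr : B.trace = 0) (htr2 : (B * B).trace = f * Fintype.card n)
    (hrow : B * (Matrix.of fun _ _ => (1 : ℝ)) = (f : ℝ) • (Matrix.of fun _ _ => (1 : ℝ)))
    (hcol : (Matrix.of fun _ _ => (1 : ℝ)) * B = (f : ℝ) • (Matrix.of fun _ _ => (1 : ℝ)))
    (h : (B + 1) * (B * B - ((q : ℝ) + f) • 1) =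
      ((f : ℝ) - q) • (Matrix.of fun _ _ => (1 : ℝ)))
    (hcard : f + 1 < Fintype.card n) : ∃ s : ℕ, q + f = s ^ 2 := by
  obtain ⟨J, hJ⟩ : ∃ J : Matrix n n ℝ, J = Matrix.of fun _ _ => (1 : ℝ) := ⟨_, rfl⟩
  obtain ⟨ν, hν⟩ : ∃ ν : ℝ, ν = (Fintype.card n : ℝ) := ⟨_, rfl⟩
  have hν0 : 0 < ν := by
    rw [hν]
    have : 0 < Fintype.card n := by omega
    exact_mod_cast this
  have hne : Nonempty n := Fintype.card_pos_iff.1 (by omega)
  have hJJ : J * J = ν • J := by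
    ext i j
    rw [hJ, hν]
    simp [Matrix.mul_apply]
  have hJtr : J.trace = ν := by
    rw [hJ, hν]
    simp [Matrix.trace]
  have hJne : ∀ a b : ℝ, a • J = b • J → a = b := by
    intro a b hab
    obtain ⟨i⟩ := hne
    have := congrFun (congrFun hab i) i
    rw [hJ] at this
    simpa using this
  rw [← hJ] at hrow hcol h
  rw [← hν] at htr2
  obtain ⟨F, hF⟩ : ∃ F : ℝ, F = (f : ℝ) := ⟨_, rfl⟩
  obtain ⟨q', hq'⟩ : ∃ q' : ℝ, q' = (q : ℝ) := ⟨_, rfl⟩
  obtain ⟨t, ht⟩ : ∃ t : ℝ, t = q' + F := ⟨_, rfl⟩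
  rw [← hF] at hrow hcol h htr2
  rw [← hq', ← ht] at h
  have hF2 : 2 ≤ F := by rw [hF]; exact_mod_cast hf
  have hq1 : 1 ≤ q' := by rw [hq']; exact_mod_cast hq
  have ht3 : 3 ≤ t := by rw [ht]; linarith
  obtain ⟨C, hC⟩ : ∃ C : Matrix n n ℝ, C = B * B - t • 1 := ⟨_, rfl⟩
  rw [← hC] at h
  have hBC : B * C = (F - q') • J - C := by
    rw [← h, add_mul, one_mul]; abel
  have hCJ : C * J = (F ^ 2 - t) • J := by
    rw [hC, sub_mul, mul_assoc, hrow, Matrix.mul_smul, hrow, smul_mul_assoc, one_mul]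
    module
  have hJC : J * C = (F ^ 2 - t) • J := by
    rw [hC, mul_sub, ← mul_assoc, hcol, smul_mul_assoc, hcol, mul_smul_comm, mul_one]
    module
  have hCB : C * B = B * C := by
    rw [hC, sub_mul, mul_sub, mul_assoc, smul_mul_assoc, mul_smul_comm, one_mul, mul_one]
  have hCC : C * C = (1 - t) • C + ((F - 1) * (F - q')) • J := by
    have : ∀ X : Matrix n n ℝ, C * X = B * (B * X) - t • X := by
      intro X
      rw [hC, sub_mul, mul_assoc, smul_mul_assoc, one_mul]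
    rw [this, hBC, mul_sub, mul_smul_comm, hrow, hBC]
    module
  have hsc : (F ^ 2 - t) * (F + 1) = (F - q') * ν := by
    apply hJne
    have h1 : ((B + 1) * C) * J = ((F - q') • J) * J := by rw [h]
    rw [mul_assoc, hCJ, mul_smul_comm, add_mul, one_mul, hrow, smul_mul_assoc, hJJ] at h1
    calc ((F ^ 2 - t) * (F + 1)) • J = (F ^ 2 - t) • (F • J + J) := by module
      _ = (F - q') • ν • J := h1
      _ = ((F - q') * ν) • J := by rw [smul_smul]
  obtain ⟨ρ, hρ⟩ : ∃ ρ : ℝ, ρ = (F ^ 2 - t) / ν := ⟨_, rfl⟩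
  have hρν : ρ * ν = F ^ 2 - t := by rw [hρ]; field_simp
  have hρF : ρ * (F + 1) = F - q' := by
    have : ρ * (F + 1) * ν = (F - q') * ν := by rw [← hsc, ← hρν]; ring
    exact mul_right_cancel₀ hν0.ne' this
  obtain ⟨D, hD⟩ : ∃ D : Matrix n n ℝ, D = C - ρ • J := ⟨_, rfl⟩
  have hDD : D * D = (1 - t) • D := by
    have e : (F - 1) * (F - q') - 2 * ρ * (F ^ 2 - t) + ρ * ρ * ν = -(1 - t) * ρ := by
      have e1 : ρ * ρ * ν = ρ * (F ^ 2 - t) := by rw [mul_assoc, hρν]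
      rw [e1, ← hρF]
      ring
    have e2 : D * D = C * C - ρ • (C * J) - ρ • (J * C) + (ρ * ρ) • (J * J) := by
      rw [hD, sub_mul, mul_sub, mul_sub, smul_mul_assoc, mul_smul_comm, smul_mul_assoc,
        mul_smul_comm, smul_smul]
      abel
    rw [e2, hCC, hCJ, hJC, hJJ, hD]
    match_scalars
    · ring
    · linear_combination e
  have hBD : B * D = -D := by
    rw [hD, mul_sub, mul_smul_comm, hBC, hrow, ← hρF]
    module
  have hDB : D * B = -D := by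
    rw [← hBD, hD, mul_sub, sub_mul, hCB, mul_smul_comm, smul_mul_assoc, hrow, hcol]
  have hDJ : D * J = 0 := by
    rw [hD, sub_mul, smul_mul_assoc, hCJ, hJJ, ← hρν]
    module
  have hJD : J * D = 0 := by
    rw [hD, mul_sub, mul_smul_comm, hJC, hJJ, ← hρν]
    module
  have hDtr : D.trace = -(q' * (ν - 1) + F * (F - 1)) := by
    rw [hD, hC, Matrix.trace_sub, Matrix.trace_sub, Matrix.trace_smul, Matrix.trace_smul,
      Matrix.trace_one, htr2, hJtr, ← hν, smul_eq_mul, smul_eq_mul, hρν, ht]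
    ring
  have h1t : (1 - t) ≠ 0 := by linarith
  obtain ⟨P, hP⟩ : ∃ P : Matrix n n ℝ, P = (1 - t)⁻¹ • D := ⟨_, rfl⟩
  have hPP : P * P = P := by
    rw [hP, smul_mul_assoc, mul_smul_comm, hDD, smul_smul, smul_smul]
    congr 1
    field_simp
  have hBP : B * P = -P := by rw [hP, mul_smul_comm, hBD, smul_neg]
  have hPB : P * B = -P := by rw [hP, smul_mul_assoc, hDB, smul_neg]
  have hPJ : P * J = 0 := by rw [hP, smul_mul_assoc, hDJ, smul_zero]
  have hJP : J * P = 0 := by rw [hP, mul_smul_comm, hJD, smul_zero]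
  obtain ⟨m, hm⟩ := trace_nat P hPP
  have hm2 : (m : ℝ) * (t - 1) = q' * (ν - 1) + F * (F - 1) := by
    rw [← hm, hP, Matrix.trace_smul, hDtr, smul_eq_mul]
    field_simp
    ring
  have hmf : F < m := by
    have hc : F + 1 < ν := by rw [hF, hν]; exact_mod_cast hcard
    have h1 : F * (t - 1) < m * (t - 1) := by
      rw [hm2, ht]
      nlinarith
    exact lt_of_mul_lt_mul_right h1 (by linarith)
  obtain ⟨E, hE⟩ : ∃ E : Matrix n n ℝ, E = ν⁻¹ • J := ⟨_, rfl⟩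
  have hEE : E * E = E := by
    rw [hE, smul_mul_assoc, mul_smul_comm, hJJ, smul_smul, smul_smul]
    congr 1
    field_simp
  have hBE : B * E = F • E := by rw [hE, mul_smul_comm, hrow, smul_comm]
  have hEB : E * B = F • E := by rw [hE, smul_mul_assoc, hcol, smul_comm]
  have hPE : P * E = 0 := by rw [hE, mul_smul_comm, hPJ, smul_zero]
  have hEP : E * P = 0 := by rw [hE, smul_mul_assoc, hJP, smul_zero]
  have hEtr : E.trace = 1 := by
    rw [hE, Matrix.trace_smul, hJtr, smul_eq_mul]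
    field_simp
  obtain ⟨Q, hQ⟩ : ∃ Q : Matrix n n ℝ, Q = 1 - E - P := ⟨_, rfl⟩
  have hQQ : Q * Q = Q := by
    rw [hQ]
    simp only [sub_mul, mul_sub, one_mul, mul_one, hEE, hPP, hPE, hEP]
    abel
  have hQB : Q * B = B * Q := by
    rw [hQ]
    simp only [sub_mul, mul_sub, one_mul, mul_one, hEB, hBE, hPB, hBP]
  have hCQ : C * Q = 0 := by
    have hCE : C = (1 - t) • P + (ρ * ν) • E := by
      rw [hP, hE, smul_smul, smul_smul, mul_inv_cancel₀ h1t, mul_assoc, mul_inv_cancel₀ hν0.ne',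
        hD]
      module
    rw [hCE, hQ]
    simp only [add_mul, mul_sub, mul_one, smul_mul_assoc, hEE, hPP, hPE, hEP]
    module
  have hBBQ : B * (B * Q) = t • Q := by
    have h1 : C * Q = B * (B * Q) - t • Q := by
      rw [hC, sub_mul, mul_assoc, smul_mul_assoc, one_mul]
    rw [hCQ] at h1
    exact (sub_eq_zero.1 h1.symm)
  obtain ⟨r, hr⟩ : ∃ r : ℝ, r = (Real.sqrt t)⁻¹ := ⟨_, rfl⟩
  have hst : 0 < Real.sqrt t := Real.sqrt_pos.2 (by linarith)
  have hrt : r * r * t = 1 := by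
    have hrs : r * Real.sqrt t = 1 := by rw [hr]; exact inv_mul_cancel₀ hst.ne'
    calc r * r * t = r * r * (Real.sqrt t * Real.sqrt t) := by
          rw [Real.mul_self_sqrt (by linarith)]
      _ = (r * Real.sqrt t) * (r * Real.sqrt t) := by ring
      _ = 1 := by rw [hrs, one_mul]
  obtain ⟨R, hR⟩ : ∃ R : Matrix n n ℝ, R = (1 / 2 : ℝ) • (Q + r • (B * Q)) := ⟨_, rfl⟩
  have hRR : R * R = R := by
    have e1 : Q * (B * Q) = B * Q := by rw [← mul_assoc, hQB, mul_assoc, hQQ]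
    have e2 : (B * Q) * Q = B * Q := by rw [mul_assoc, hQQ]
    have e3 : (B * Q) * (B * Q) = t • Q := by
      rw [mul_assoc, e1, hBBQ]
    rw [hR]
    simp only [smul_mul_assoc, mul_smul_comm, add_mul, mul_add, hQQ, e1, e2, e3]
    match_scalars
    · have := hrt
      linarith
    · ring
  obtain ⟨k, hk⟩ := trace_nat R hRR
  have hQtr : Q.trace = ν - 1 - m := by
    rw [hQ, Matrix.trace_sub, Matrix.trace_sub, Matrix.trace_one, hEtr, hm, hν]
  have hBQtr : (B * Q).trace = m - F := by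
    rw [hQ, mul_sub, mul_sub, mul_one, hBE, hBP, Matrix.trace_sub, Matrix.trace_sub,
      Matrix.trace_neg, Matrix.trace_smul, hEtr, hm, htr, smul_eq_mul]
    ring
  have hktr : (k : ℝ) = (1 / 2) * ((ν - 1 - m) + r * (m - F)) := by
    rw [← hk, hR, Matrix.trace_smul, Matrix.trace_add, Matrix.trace_smul, hQtr, hBQtr,
      smul_eq_mul, smul_eq_mul]
  obtain ⟨z, hz⟩ : ∃ z : ℤ, z = 2 * (k : ℤ) - Fintype.card n + 1 + m := ⟨_, rfl⟩
  have hzr : (z : ℝ) = r * (m - F) := by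
    rw [hz]
    push_cast
    rw [← hν]
    linarith
  have hz2 : (z : ℝ) ^ 2 * t = (m - F) ^ 2 := by
    rw [hzr]
    calc (r * (↑m - F)) ^ 2 * t = (r * r * t) * (↑m - F) ^ 2 := by ring
      _ = (↑m - F) ^ 2 := by rw [hrt, one_mul]
  have hmf' : f < m := by
    rw [hF] at hmf
    exact_mod_cast hmf
  have hfin : (z.natAbs) ^ 2 * (q + f) = (m - f) ^ 2 := by
    have e : ((z.natAbs ^ 2 * (q + f) : ℕ) : ℤ) = (((m - f) ^ 2 : ℕ) : ℤ) := by
      push_cast [Nat.cast_sub hmf'.le]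
      rw [sq_abs]
      have : ((z ^ 2 * ((q : ℤ) + f) : ℤ) : ℝ) = ((((m : ℤ) - f) ^ 2 : ℤ) : ℝ) := by
        push_cast
        rw [← hq', ← hF, ← ht]
        exact hz2
      exact_mod_cast this
    exact_mod_cast e
  exact spec_nat _ _ _ (Nat.sub_pos_of_lt hmf') hfin

end Pool.Agent.Lib.MP_eb4ae8_co
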