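import Pool.Agent.Lib.MP_eb4ae8_co.FixC
import Pool.Agent.Lib.MP_eb4ae8_co.Spec
import Pool.Agent.Lib.MP_eb4ae8_co.Inv

/-! Automorphisms of prime order larger than `q + 1`. -/

namespace Pool.Agent.Lib.MP_eb4ae8_co

variable {V : Type*} {Γ : SimpleGraph V} {q : ℕ}

/-- If `g x = x` for some `x`, put `f = fc g x`. By `spec_square` applied to `FA g`, `q + f = s^2`
(`h` comes from `fix_AN`, `fix_sq`, `fix_const`). -/
theorem fix_square [Finite V] (hq : 3 ≤ q) (hA : HasArray Γ q) (g : Γ ≃g Γ) {p : ℕ}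
    (hp : p.Prime) (hg : g ^ p = 1) (hlt : q + 1 < p) (x : V) (hx : g x = x) :
    ∃ s : ℕ, q + fc g x = s ^ 2 := by
  classical
  have : Fintype {x : V // g x = x} := Fintype.ofFinite _
  have hconst : ∀ z : {x : V // g x = x}, fc g (z : V) = fc g x := fun z =>
    (fix_const hq hA g hp hg hlt x z hx z.2).symm
  have hAN := fix_AN hq hA g hp hg hlt
  have hsq := fix_sq hq hA g
  have hdiag : Matrix.diagonal (fun z : {x : V // g x = x} => (fc g (z : V) : ℝ)) =
      ((fc g x : ℕ) : ℝ) • (1 : Matrix {x : V // g x = x} {x : V // g x = x} ℝ) := by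
    ext i j
    rw [Matrix.smul_apply, Matrix.one_apply, Matrix.diagonal_apply, hconst i]
    split_ifs <;> simp
  have hsymm : ∀ i j, FA g i j = FA g j i := fun i j => by
    conv_lhs => rw [← FA_symm g]
    rfl
  have hrow : FA g * (Matrix.of fun _ _ => (1 : ℝ)) =
      ((fc g x : ℕ) : ℝ) • (Matrix.of fun _ _ => (1 : ℝ)) := by
    ext i j
    rw [Matrix.mul_apply, Matrix.smul_apply]
    simp only [Matrix.of_apply, mul_one, smul_eq_mul]
    rw [fix_row g i, hconst i]
  have hcol : (Matrix.of fun _ _ => (1 : ℝ)) * FA g =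
      ((fc g x : ℕ) : ℝ) • (Matrix.of fun _ _ => (1 : ℝ)) := by
    ext i j
    rw [Matrix.mul_apply, Matrix.smul_apply]
    simp only [Matrix.of_apply, mul_one, one_mul, smul_eq_mul]
    rw [Finset.sum_congr rfl fun k _ => hsymm k j, fix_row g j, hconst j]
  have htr : (FA g).trace = 0 := by
    rw [Matrix.trace]
    refine Finset.sum_eq_zero fun i _ => ?_
    simp [FA, Matrix.diag]
  have htr2 : (FA g * FA g).trace = ((fc g x : ℕ) : ℝ) * Fintype.card {x : V // g x = x} := by
    rw [Matrix.trace]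
    have h1 : ∀ i : {x : V // g x = x}, (FA g * FA g).diag i = ((fc g x : ℕ) : ℝ) := by
      intro i
      rw [Matrix.diag_apply, Matrix.mul_apply, ← hconst i, ← fix_row g i]
      refine Finset.sum_congr rfl fun k _ => ?_
      rw [hsymm k i]
      simp only [FA, Matrix.of_apply]
      split_ifs <;> simp
    rw [Finset.sum_congr rfl fun i _ => h1 i, Finset.sum_const, Finset.card_univ, nsmul_eq_mul,
      mul_comm]
  have h : (FA g + 1) * (FA g * FA g - ((q : ℝ) + ((fc g x : ℕ) : ℝ)) • 1) =
      (((fc g x : ℕ) : ℝ) - q) • (Matrix.of fun _ _ => (1 : ℝ)) := by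
    have e1 : FA g * FA g - ((q : ℝ) + ((fc g x : ℕ) : ℝ)) • 1 =
        (Matrix.of fun _ _ => (1 : ℝ)) - FN g q := by
      rw [hsq, hdiag, add_smul]
      abel
    rw [e1, mul_sub, hAN, add_mul, one_mul, hrow]
    module
  refine spec_square (FA g) (fc g x) q (by omega) ?_ htr htr2 hrow hcol h ?_
  · have := fix_ge_four hq hA g hp hg hlt x hx
    omega
  · have := fix_card hq hA g hp hg hlt x hx
    rwa [Nat.card_eq_fintype_card] at this

/-- `f < q^2-q`, so `s < q`; `p ∣ q^2 - q - f = (q-s)(q+s)`, so `p = q + s`; `f = s^2 - q` is even,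
so `p` is even, a contradiction. So `g` has no fixed vertex, `p` divides
`n = q^2 (q^2-q+1)` and not `q`. -/
theorem large_prime [Finite V] (hq : 3 ≤ q) (hA : HasArray Γ q) (g : Γ ≃g Γ)
    (hp : (orderOf g).Prime) (hlt : q + 1 < orderOf g) :
    (∀ x, g x ≠ x) ∧ orderOf g ∣ q ^ 2 - q + 1 := by
  have hg : g ^ orderOf g = 1 := pow_orderOf_eq_one g
  have h1 : g ≠ 1 := by
    intro h
    rw [h, orderOf_one] at hp
    exact Nat.not_prime_one hp
  generalize orderOf g = p at hp hlt hg
  have hfree : ∀ x, g x ≠ x := by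
    intro x hx
    obtain ⟨s, hs⟩ := fix_square hq hA g hp hg hlt x hx
    have h2 := fix_lt hq hA g hp hg hlt h1 x hx
    have h3 := fix_even hq hA g x hx
    have h4 := fix_mod hq hA g hp hg x hx
    have hqq : q * (q - 1) + q = q ^ 2 := by
      obtain ⟨r, rfl⟩ : ∃ r, q = r + 1 := ⟨q - 1, by omega⟩
      rw [Nat.add_sub_cancel]
      ring
    have hsq : s < q := by
      have : s ^ 2 < q ^ 2 := by omega
      exact lt_of_pow_lt_pow_left₀ 2 (Nat.zero_le _) this
    have h5 : p ∣ q * (q - 1) - fc g x := (Nat.modEq_iff_dvd' h2.le).mp h4.symm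
    have h6 : q * (q - 1) - fc g x = (q + s) * (q - s) := by
      rw [← Nat.sq_sub_sq]
      omega
    rw [h6, hp.dvd_mul] at h5
    rcases h5 with h5 | h5
    · have h7 : q + s = p := by
        obtain ⟨k, hk⟩ := h5
        rcases k with _ | _ | k
        · omega
        · omega
        · exfalso
          have : p * 2 ≤ p * (k + 1 + 1) := Nat.mul_le_mul_left _ (by omega)
          omega
      have h8 : Even p := by
        rw [← h7]
        have h9 : Even (q + s ^ 2) := by
          rw [← hs]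
          have : q + (q + fc g x) = 2 * q + fc g x := by ring
          rw [this]
          exact (even_two_mul q).add h3
        rw [Nat.even_add] at h9 ⊢
        rw [h9, Nat.even_pow' (by norm_num)]
      have := (Nat.Prime.even_iff hp).mp h8
      omega
    · exact absurd (Nat.le_of_dvd (by omega) h5) (by omega)
  refine ⟨hfree, ?_⟩
  have hpow : ∀ n : ℕ, (g.toEquiv : Equiv.Perm V) ^ n = (g ^ n).toEquiv := by
    intro n
    induction n with
    | zero => rfl
    | succ n ih =>
      rw [pow_succ, pow_succ, ih]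
      rfl
  have hc := card_mod (g.toEquiv : Equiv.Perm V) hp (by rw [hpow, hg]; rfl) Set.univ
    (fun _ _ => Set.mem_univ _)
  have hempty : {x | x ∈ (Set.univ : Set V) ∧ (g.toEquiv : Equiv.Perm V) x = x} = ∅ := by
    ext x
    simp only [Set.mem_univ, true_and, Set.mem_ofPred_eq, Set.mem_empty_iff_false, iff_false]
    exact hfree x
  rw [hempty, Set.ncard_empty, Set.ncard_univ, card_nat hq hA, Nat.modEq_zero_iff_dvd,
    hp.dvd_mul] at hc
  rcases hc with hc | hc
  · exact absurd (Nat.le_of_dvd (by omega) (hp.dvd_of_dvd_pow hc)) (by omega)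
  · exact hc

end Pool.Agent.Lib.MP_eb4ae8_co
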