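import Mathlib

/-! A permutation of prime order on an invariant set. -/

namespace Pool.Agent.Lib.MP_eb4ae8_co

/-- The orbits of `g` have one or `p` elements. -/
theorem card_mod {V : Type*} [Finite V] (g : Equiv.Perm V) {p : ℕ} (hp : p.Prime)
    (hg : g ^ p = 1) (S : Set V) (hS : ∀ x ∈ S, g x ∈ S) :
    S.ncard ≡ {x | x ∈ S ∧ g x = x}.ncard [MOD p] := by
  classical
  have : Fact p.Prime := ⟨hp⟩
  have : Fintype V := Fintype.ofFinite V
  have : Fintype S := Fintype.ofFinite S
  let f : Function.End S := fun x => ⟨g x, hS x x.2⟩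
  have hpow : ∀ (n : ℕ) (x : S), (((f ^ n : Function.End S) x : S) : V) = (g ^ n) x := by
    intro n
    induction n with
    | zero => intro x; rfl
    | succ n ih =>
      intro x
      rw [pow_succ, pow_succ]
      change (((f ^ n : Function.End S) (f x) : S) : V) = (g ^ n) (g x)
      rw [ih]
  have hf : f ^ p ^ 1 = 1 := by
    rw [pow_one]
    funext x
    apply Subtype.ext
    rw [hpow, hg]
    rfl
  have h := Equiv.Perm.card_fixedPoints_modEq hf
  have h1 : Fintype.card S = S.ncard := by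
    rw [← Nat.card_eq_fintype_card, Nat.card_coe_set_eq]
  have h2 : Fintype.card f.fixedPoints = {x | x ∈ S ∧ g x = x}.ncard := by
    rw [← Nat.card_eq_fintype_card, ← Nat.card_coe_set_eq]
    refine Nat.card_congr ⟨fun x => ⟨x.1.1, x.1.2, ?_⟩, fun x => ⟨⟨x.1, x.2.1⟩, ?_⟩, ?_, ?_⟩
    · exact congrArg Subtype.val x.2
    · exact Subtype.ext x.2.2
    · intro x; rfl
    · intro x; rfl
  rw [h1, h2] at h
  exact h

/-- An invariant set with fewer than `p` elements is fixed elementwise. -/
theorem fixed_of_small {V : Type*} [Finite V] (g : Equiv.Perm V) {p : ℕ} (hp : p.Prime)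
    (hg : g ^ p = 1) (S : Set V) (hS : ∀ x ∈ S, g x ∈ S) (hc : S.ncard < p) :
    ∀ x ∈ S, g x = x := by
  have h := card_mod g hp hg S hS
  have hsub : {x | x ∈ S ∧ g x = x} ⊆ S := fun x hx => hx.1
  have hle := Set.ncard_le_ncard hsub (Set.toFinite S)
  have heq : S.ncard = {x | x ∈ S ∧ g x = x}.ncard :=
    Nat.ModEq.eq_of_lt_of_lt h hc (hle.trans_lt hc)
  have hS' : {x | x ∈ S ∧ g x = x} = S := Set.eq_of_subset_of_ncard_le hsub heq.le (Set.toFinite S)
  intro x hx
  rw [← hS'] at hx
  exact hx.2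

end Pool.Agent.Lib.MP_eb4ae8_co
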