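import Pool.Agent.Lib.MP_eb4ae8_co.Basic
import Pool.Agent.Lib.MP_eb4ae8_co.FixA

/-! Matrix identities on the set of fixed vertices of an automorphism of large prime order. -/

namespace Pool.Agent.Lib.MP_eb4ae8_co

variable {V : Type*} {Γ : SimpleGraph V} {q p : ℕ}

/-- the number of fixed neighbours of `x`. -/
noncomputable def fc (g : Γ ≃g Γ) (x : V) : ℕ := Nat.card {z : V // Γ.Adj x z ∧ g z = z}

open Classical in
/-- adjacency matrix on the fixed vertices. -/
noncomputable def FA (g : Γ ≃g Γ) : Matrix {x : V // g x = x} {x : V // g x = x} ℝ :=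
  Matrix.of fun x y => if Γ.Adj (x : V) y then 1 else 0

open Classical in
/-- `(q+1) I + T` on the fixed vertices. -/
noncomputable def FN (g : Γ ≃g Γ) (q : ℕ) : Matrix {x : V // g x = x} {x : V // g x = x} ℝ :=
  Matrix.of fun x y => if x = y then (q : ℝ) + 1 else if Γ.dist (x : V) y = 3 then 1 else 0

private theorem fixB_sum_ind (g : Γ ≃g Γ) [Fintype {x : V // g x = x}] (P : V → Prop)
    [DecidablePred P] :
    ∑ y : {x : V // g x = x}, (if P (y : V) then (1 : ℝ) else 0) =
      (Nat.card {z : V // P z ∧ g z = z} : ℝ) := by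
  classical
  rw [Finset.sum_boole]
  congr 1
  rw [← Fintype.card_subtype, ← Nat.card_eq_fintype_card]
  apply Nat.card_congr
  exact
    { toFun := fun y => ⟨y.1.1, y.2, y.1.2⟩
      invFun := fun z => ⟨⟨z.1, z.2.2⟩, z.2.1⟩
      left_inv := fun y => rfl
      right_inv := fun z => rfl }

private theorem fixB_dist_le (hc : Γ.Connected) (g : Γ ≃g Γ) (x y : V) :
    Γ.dist (g x) (g y) ≤ Γ.dist x y := by
  obtain ⟨w, hw⟩ := hc.exists_walk_length_eq_dist x y
  have := SimpleGraph.dist_le (w.map g.toHom)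
  rw [SimpleGraph.Walk.length_map, hw] at this
  exact this

private theorem fixB_dist (hc : Γ.Connected) (g : Γ ≃g Γ) (x y : V) :
    Γ.dist (g x) (g y) = Γ.dist x y := by
  apply le_antisymm (fixB_dist_le hc g x y)
  have := fixB_dist_le hc g.symm (g x) (g y)
  simpa using this

private theorem fixB_pow (g : Γ ≃g Γ) (n : ℕ) :
    (g ^ n).toEquiv = (g.toEquiv : Equiv.Perm V) ^ n := by
  induction n with
  | zero => rfl
  | succ n ih =>
    rw [pow_succ, pow_succ, ← ih]
    rfl

/-- the vertices `y ~ z` at distance `3` from `x` are all fixed when there are fewer than `p`. -/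
private theorem fixB_card [Finite V] (hA : HasArray Γ q) (g : Γ ≃g Γ)
    (hp : p.Prime) (hg : g ^ p = 1) {x z : V} (hx : g x = x) (hz : g z = z)
    (hlt : nb Γ x z 3 < p) :
    Nat.card {y : V // (Γ.Adj z y ∧ Γ.dist x y = 3) ∧ g y = y} = nb Γ x z 3 := by
  have h1 : (g.toEquiv : Equiv.Perm V) ^ p = 1 := by
    rw [← fixB_pow, hg]
    rfl
  have h2 := fixed_of_small (g.toEquiv : Equiv.Perm V) hp h1
    {y : V | Γ.Adj z y ∧ Γ.dist x y = 3} (by
      rintro y ⟨h3, h4⟩
      refine ⟨?_, ?_⟩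
      · have h5 := g.map_rel_iff.mpr h3
        rwa [hz] at h5
      · have h5 := fixB_dist hA.conn g x y
        rw [hx, h4] at h5
        exact h5) (by
      rw [← Nat.card_coe_set_eq]
      exact hlt)
  unfold nb
  apply Nat.card_congr
  exact Equiv.subtypeEquivRight fun y => ⟨fun h => h.1, fun h => ⟨h, h2 y h⟩⟩

/-- entry `(z,x)`: `FN z x + ∑_{y ~ z} FN y x`. If `dist z x = 2` the `q + 1` neighbours of `z` at
distance `3` from `x` are permuted by `g`, so all are fixed (`fixed_of_small`, `q + 1 < p`); if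
`dist z x = 3` the same for the `q` neighbours of `z` at distance `3`. -/
theorem fix_AN [Finite V] (hq : 3 ≤ q) (hA : HasArray Γ q)
    (g : Γ ≃g Γ) [Fintype {x : V // g x = x}] [DecidableEq V]
    (hp : p.Prime) (hg : g ^ p = 1) (hlt : q + 1 < p) :
    (FA g + 1) * FN g q = ((q : ℝ) + 1) • (Matrix.of fun _ _ => (1 : ℝ)) := by
  classical
  ext z x
  obtain ⟨z, hz⟩ := z
  obtain ⟨x, hx⟩ := x
  rw [add_mul, one_mul, Matrix.add_apply, Matrix.mul_apply, Matrix.smul_apply, Matrix.of_apply,
    smul_eq_mul, mul_one]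
  have hterm : ∀ y : {x : V // g x = x}, FA g ⟨z, hz⟩ y * FN g q y ⟨x, hx⟩ =
      if Γ.Adj z y then (if (y : V) = x then (q : ℝ) + 1 else if Γ.dist x y = 3 then 1 else 0)
        else 0 := by
    intro y
    have e1 : (y = ⟨x, hx⟩) ↔ ((y : V) = x) := by
      rw [Subtype.ext_iff]
    have e2 : Γ.dist (y : V) x = Γ.dist x (y : V) := SimpleGraph.dist_comm
    simp only [FA, FN, Matrix.of_apply, e1, e2, ite_mul, one_mul, zero_mul]
  rw [Finset.sum_congr rfl fun y _ => hterm y]
  have hN : FN g q ⟨z, hz⟩ ⟨x, hx⟩ =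
      if z = x then (q : ℝ) + 1 else if Γ.dist x z = 3 then 1 else 0 := by
    have e2 : Γ.dist z x = Γ.dist x z := SimpleGraph.dist_comm
    simp only [FN, Matrix.of_apply, Subtype.mk.injEq, e2]
  rw [hN]
  by_cases h0 : z = x
  · subst h0
    rw [if_pos rfl, Finset.sum_eq_zero, zero_add]
    intro y _
    by_cases h1 : Γ.Adj z y
    · have h2 : Γ.dist z y = 1 := SimpleGraph.dist_eq_one_iff_adj.mpr h1
      rw [if_pos h1, if_neg (fun h => h1.ne h.symm), if_neg (by omega)]
    · rw [if_neg h1]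
  · rw [if_neg h0]
    have hpos : 0 < Γ.dist x z := hA.conn.pos_dist_of_ne (Ne.symm h0)
    have hle := hA.diam_le x z
    by_cases h1 : Γ.dist x z = 1
    · have hadj : Γ.Adj x z := SimpleGraph.dist_eq_one_iff_adj.mp h1
      rw [if_neg (by omega), add_zero, Finset.sum_eq_single (⟨x, hx⟩ : {x : V // g x = x})]
      · rw [if_pos hadj.symm, if_pos rfl]
      · intro y _ hy
        by_cases h2 : Γ.Adj z y
        · have h3 : Γ.dist x y ≤ Γ.dist x z + Γ.dist z y := hA.conn.dist_triangle
          have h4 : Γ.dist z y = 1 := SimpleGraph.dist_eq_one_iff_adj.mpr h2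
          rw [if_pos h2, if_neg (fun h => hy (Subtype.ext h)), if_neg (by omega)]
        · rw [if_neg h2]
      · intro h
        exact absurd (Finset.mem_univ _) h
    · have hsum : ∀ y : {x : V // g x = x},
          (if Γ.Adj z y then (if (y : V) = x then (q : ℝ) + 1 else
            if Γ.dist x y = 3 then 1 else 0) else 0) =
          if Γ.Adj z (y : V) ∧ Γ.dist x (y : V) = 3 then (1 : ℝ) else 0 := by
        intro y
        by_cases h2 : Γ.Adj z y
        · have h3 : (y : V) ≠ x := by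
            intro h
            rw [h] at h2
            exact h1 (SimpleGraph.dist_eq_one_iff_adj.mpr h2.symm)
          rw [if_pos h2, if_neg h3]
          by_cases h4 : Γ.dist x (y : V) = 3
          · rw [if_pos h4, if_pos ⟨h2, h4⟩]
          · rw [if_neg h4, if_neg (fun h => h4 h.2)]
        · rw [if_neg h2, if_neg (fun h => h2 h.1)]
      rw [Finset.sum_congr rfl fun y _ => hsum y,
        fixB_sum_ind g (fun y => Γ.Adj z y ∧ Γ.dist x y = 3)]
      rcases (by omega : Γ.dist x z = 2 ∨ Γ.dist x z = 3) with h2 | h2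
      · have h3 := hA.b2 x z h2
        rw [fixB_card hA g hp hg hx hz (by omega), h3, if_neg (by omega), add_zero]
        push_cast
        ring
      · have h3 := nb_three_three hq hA h2
        rw [fixB_card hA g hp hg hx hz (by omega), h3, if_pos h2]

/-- `FN = q I + diag f + J - FA^2` (the common neighbour of two fixed vertices is fixed). -/
theorem fix_sq [Finite V] (hq : 3 ≤ q) (hA : HasArray Γ q)
    (g : Γ ≃g Γ) [Fintype {x : V // g x = x}] [DecidableEq V] :
    FN g q = (q : ℝ) • (1 : Matrix {x : V // g x = x} {x : V // g x = x} ℝ)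
      + Matrix.diagonal (fun x : {x : V // g x = x} => (fc g (x : V) : ℝ)) + (Matrix.of fun _ _ => (1 : ℝ))
      - FA g * FA g := by
  classical
  ext x y
  obtain ⟨x, hx⟩ := x
  obtain ⟨y, hy⟩ := y
  rw [Matrix.sub_apply, Matrix.add_apply, Matrix.add_apply, Matrix.smul_apply, Matrix.of_apply,
    smul_eq_mul, Matrix.mul_apply]
  have hterm : ∀ z : {x : V // g x = x}, FA g ⟨x, hx⟩ z * FA g z ⟨y, hy⟩ =
      if Γ.Adj x (z : V) ∧ Γ.Adj y (z : V) then (1 : ℝ) else 0 := by
    intro z
    have e1 : Γ.Adj (z : V) y ↔ Γ.Adj y (z : V) := Γ.adj_comm _ _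
    simp only [FA, Matrix.of_apply, e1]
    by_cases h1 : Γ.Adj x (z : V) <;> by_cases h2 : Γ.Adj y (z : V) <;> simp [h1, h2]
  rw [Finset.sum_congr rfl fun z _ => hterm z,
    fixB_sum_ind g (fun z => Γ.Adj x z ∧ Γ.Adj y z)]
  by_cases h0 : x = y
  · subst h0
    rw [Matrix.one_apply_eq, Matrix.diagonal_apply_eq]
    have h1 : Nat.card {z : V // (Γ.Adj x z ∧ Γ.Adj x z) ∧ g z = z} = fc g x := by
      unfold fc
      apply Nat.card_congr
      exact Equiv.subtypeEquivRight fun z => by rw [and_self_iff]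
    rw [h1]
    simp only [FN, Matrix.of_apply, if_true]
    ring
  · have h1 : (⟨x, hx⟩ : {x : V // g x = x}) ≠ ⟨y, hy⟩ := fun h => h0 (congrArg Subtype.val h)
    rw [Matrix.one_apply_ne h1, Matrix.diagonal_apply_ne _ h1]
    simp only [FN, Matrix.of_apply, if_neg h1]
    have hpos : 0 < Γ.dist x y := hA.conn.pos_dist_of_ne h0
    have hle := hA.diam_le x y
    by_cases h3 : Γ.dist x y = 3
    · rw [if_pos h3]
      have h4 : Nat.card {z : V // (Γ.Adj x z ∧ Γ.Adj y z) ∧ g z = z} = 0 := by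
        rw [Nat.card_eq_zero]
        left
        refine ⟨fun z => ?_⟩
        obtain ⟨z, ⟨h5, h6⟩, -⟩ := z
        have h7 : Γ.dist x y ≤ Γ.dist x z + Γ.dist z y := hA.conn.dist_triangle
        have h8 : Γ.dist x z = 1 := SimpleGraph.dist_eq_one_iff_adj.mpr h5
        have h9 : Γ.dist z y = 1 := SimpleGraph.dist_eq_one_iff_adj.mpr h6.symm
        omega
      rw [h4]
      simp
    · rw [if_neg h3]
      have h4 : Nat.card {z : V // (Γ.Adj x z ∧ Γ.Adj y z) ∧ g z = z} = 1 := by
        rw [Nat.card_eq_one_iff_unique]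
        obtain ⟨z, h5, h6⟩ := common_exists hq hA (x := x) (y := y) (by omega)
        have h7 : Γ.Adj x (g z) := by
          have := g.map_rel_iff.mpr h5
          rwa [hx] at this
        have h8 : Γ.Adj y (g z) := by
          have := g.map_rel_iff.mpr h6
          rwa [hy] at this
        refine ⟨⟨fun a b => ?_⟩, ⟨⟨z, ⟨h5, h6⟩, common_unique hq hA h0 h7 h8 h5 h6⟩⟩⟩
        exact Subtype.ext (common_unique hq hA h0 a.2.1.1 a.2.1.2 b.2.1.1 b.2.1.2)
      rw [h4]
      simp

/-- row sums. -/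
theorem fix_row [Finite V] (g : Γ ≃g Γ) [Fintype {x : V // g x = x}] (x : {x : V // g x = x}) :
    ∑ y, FA g x y = (fc g (x : V) : ℝ) := by
  classical
  unfold fc
  rw [← fixB_sum_ind g (fun z => Γ.Adj (x : V) z)]
  apply Finset.sum_congr rfl
  intro y _
  simp only [FA, Matrix.of_apply]

theorem FA_symm (g : Γ ≃g Γ) : (FA g).transpose = FA g := by
  ext x y
  have h : Γ.Adj (y : V) x ↔ Γ.Adj (x : V) y := Γ.adj_comm _ _
  simp only [Matrix.transpose_apply, FA, Matrix.of_apply]
  by_cases hc : Γ.Adj (x : V) y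
  · rw [if_pos hc, if_pos (h.mpr hc)]
  · rw [if_neg hc, if_neg fun h1 => hc (h.mp h1)]

theorem FN_symm (g : Γ ≃g Γ) : (FN g q).transpose = FN g q := by
  ext x y
  have h : y = x ↔ x = y := eq_comm
  have h' : Γ.dist (y : V) x = Γ.dist (x : V) y := SimpleGraph.dist_comm
  simp only [Matrix.transpose_apply, FN, Matrix.of_apply, h']
  by_cases hc : x = y
  · rw [if_pos hc, if_pos (h.mpr hc)]
  · rw [if_neg hc, if_neg fun h1 => hc (h.mp h1)]

end Pool.Agent.Lib.MP_eb4ae8_co
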