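import Pool.Agent.Lib.MP_eb4ae8_co.FixB

/-! The number of fixed neighbours of a fixed vertex. -/

namespace Pool.Agent.Lib.MP_eb4ae8_co

variable {V : Type*} {Γ : SimpleGraph V} {q p : ℕ}

/-- From `(A+1) N = (q+1) J` and its transpose `N (A+1) = (q+1) J`:
`(q+1) J (A+1) = (A+1) N (A+1) = (q+1) (A+1) J`; compare entries. -/
theorem fix_const [Finite V] (hq : 3 ≤ q) (hA : HasArray Γ q) (g : Γ ≃g Γ)
    (hp : p.Prime) (hg : g ^ p = 1) (hlt : q + 1 < p) (x z : V) (hx : g x = x) (hz : g z = z) :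
    fc g x = fc g z := by
  classical
  haveI : Fintype {x : V // g x = x} := Fintype.ofFinite _
  have h1 := fix_AN hq hA g hp hg hlt
  set B : Matrix {x : V // g x = x} {x : V // g x = x} ℝ := FA g + 1 with hB
  set N : Matrix {x : V // g x = x} {x : V // g x = x} ℝ := FN g q with hN
  set J : Matrix {x : V // g x = x} {x : V // g x = x} ℝ := (Matrix.of fun _ _ => (1 : ℝ)) with hJ
  have hBt : B.transpose = B := by
    rw [hB, Matrix.transpose_add, FA_symm, Matrix.transpose_one]
  have hNt : N.transpose = N := FN_symm g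
  have hJt : J.transpose = J := by
    ext a b
    simp [hJ, Matrix.transpose_apply]
  have h2 : N * B = ((q : ℝ) + 1) • J := by
    have := congrArg Matrix.transpose h1
    rw [Matrix.transpose_mul, hBt, hNt, Matrix.transpose_smul, hJt] at this
    exact this
  have h3 : ((q : ℝ) + 1) • (J * B) = ((q : ℝ) + 1) • (B * J) := by
    rw [← Matrix.smul_mul, ← h1, Matrix.mul_assoc, h2, Matrix.mul_smul]
  have hq0 : ((q : ℝ) + 1) ≠ 0 := by positivity
  have h4 : J * B = B * J := by
    have := congrArg (fun M => ((q : ℝ) + 1)⁻¹ • M) h3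
    simpa [smul_smul, inv_mul_cancel₀ hq0] using this
  have h5 := congrFun (congrFun h4 ⟨x, hx⟩) ⟨z, hz⟩
  rw [Matrix.mul_apply, Matrix.mul_apply] at h5
  have e1 : ∑ j, J ⟨x, hx⟩ j * B j ⟨z, hz⟩ = (fc g z : ℝ) + 1 := by
    have hs : ∀ j, B j ⟨z, hz⟩ = B ⟨z, hz⟩ j := fun j => by
      conv_lhs => rw [← hBt]
      rfl
    have : ∀ j, J ⟨x, hx⟩ j * B j ⟨z, hz⟩ = FA g ⟨z, hz⟩ j + (1 : Matrix _ _ ℝ) (⟨z, hz⟩ : {x : V // g x = x}) j := by
      intro j
      rw [hs j]
      simp [hJ, hB, Matrix.add_apply]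
    rw [Finset.sum_congr rfl (fun j _ => this j), Finset.sum_add_distrib, fix_row g ⟨z, hz⟩]
    congr 1
    simp [Matrix.one_apply]
  have e2 : ∑ j, B ⟨x, hx⟩ j * J j ⟨z, hz⟩ = (fc g x : ℝ) + 1 := by
    have : ∀ j, B ⟨x, hx⟩ j * J j ⟨z, hz⟩ = FA g ⟨x, hx⟩ j + (1 : Matrix _ _ ℝ) (⟨x, hx⟩ : {x : V // g x = x}) j := by
      intro j
      simp [hJ, hB, Matrix.add_apply]
    rw [Finset.sum_congr rfl (fun j _ => this j), Finset.sum_add_distrib, fix_row g ⟨x, hx⟩]
    congr 1
    simp [Matrix.one_apply]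
  rw [e1, e2] at h5
  have h6 : (fc g x : ℝ) = fc g z := by linarith
  exact_mod_cast h6

private theorem fixed_common [Finite V] (hq : 3 ≤ q) (hA : HasArray Γ q) (g : Γ ≃g Γ) {x y z : V}
    (hx : g x = x) (hy : g y = y) (hne : x ≠ y) (hxz : Γ.Adj x z) (hyz : Γ.Adj y z) : g z = z := by
  have h1 : Γ.Adj x (g z) := by
    have := (g.map_rel_iff (a := x) (b := z)).2 hxz
    rwa [hx] at this
  have h2 : Γ.Adj y (g z) := by
    have := (g.map_rel_iff (a := y) (b := z)).2 hyz
    rwa [hy] at this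
  exact common_unique hq hA hne h1 h2 hxz hyz

private theorem dist_one {x y : V} (h : Γ.Adj x y) : Γ.dist x y = 1 :=
  SimpleGraph.dist_eq_one_iff_adj.2 h

/-- Fixed neighbours of `x` come in adjacent pairs: for a fixed neighbour `y`, the unique common
neighbour of `x` and `y` is fixed. -/
theorem fix_even [Finite V] (hq : 3 ≤ q) (hA : HasArray Γ q) (g : Γ ≃g Γ) (x : V)
    (hx : g x = x) : Even (fc g x) := by
  classical
  haveI : Fintype V := Fintype.ofFinite V
  have hex : ∀ y : {z : V // Γ.Adj x z ∧ g z = z}, ∃ w : {z : V // Γ.Adj x z ∧ g z = z},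
      Γ.Adj (y : V) w := by
    rintro ⟨y, hxy, hy⟩
    obtain ⟨w, hw1, hw2⟩ := common_exists hq hA (Or.inl (dist_one hxy))
    exact ⟨⟨w, hw1, fixed_common hq hA g hx hy hxy.ne hw1 hw2⟩, hw2⟩
  choose σ hσ using hex
  have hinv : ∀ y, σ (σ y) = y := by
    intro y
    have h1 := hσ y
    have h2 := hσ (σ y)
    have hne : x ≠ ((σ y : {z : V // Γ.Adj x z ∧ g z = z}) : V) := (σ y).2.1.ne
    exact Subtype.ext (common_unique hq hA hne (σ (σ y)).2.1 h2 y.2.1 h1.symm)
  have hne : ∀ y, σ y ≠ y := by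
    intro y h
    have := hσ y
    rw [h] at this
    exact Γ.irrefl this
  have hs : ∑ _y : {z : V // Γ.Adj x z ∧ g z = z}, (1 : ZMod 2) = 0 := by
    refine Finset.sum_involution (fun y _ => σ y) ?_ ?_ ?_ ?_
    · intro a _
      decide
    · intro a _ _
      exact hne a
    · intro a _
      exact Finset.mem_univ _
    · intro a _
      exact hinv a
  rw [Finset.sum_const, Finset.card_univ, nsmul_eq_mul, mul_one] at hs
  have : (fc g x : ZMod 2) = 0 := by
    rw [fc, Nat.card_eq_fintype_card]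
    exact hs
  exact (ZMod.natCast_eq_zero_iff_even).1 this

private theorem toEquiv_pow (g : Γ ≃g Γ) (n : ℕ) :
    (g ^ n).toEquiv = (g.toEquiv : Equiv.Perm V) ^ n := by
  induction n with
  | zero => rfl
  | succ n ih =>
    rw [pow_succ, pow_succ, ← ih]
    rfl

theorem fix_mod [Finite V] (hq : 3 ≤ q) (hA : HasArray Γ q) (g : Γ ≃g Γ)
    (hp : p.Prime) (hg : g ^ p = 1) (x : V) (hx : g x = x) :
    q * (q - 1) ≡ fc g x [MOD p] := by
  have h1 : (g.toEquiv : Equiv.Perm V) ^ p = 1 := by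
    rw [← toEquiv_pow, hg]
    rfl
  have h := card_mod (g.toEquiv : Equiv.Perm V) hp h1 {z | Γ.Adj x z} (by
    intro z hz
    have := (g.map_rel_iff (a := x) (b := z)).2 hz
    rw [hx] at this
    exact this)
  have e1 : {z | Γ.Adj x z}.ncard = q * (q - 1) := by
    rw [← card_nbr hA x]
    rfl
  rw [e1] at h
  exact h

/-- `fc` is even, not `0` (`p ∤ q (q-1)`) and not `2` (`p ∤ q (q-1) - 2 = (q-2)(q+1)`). -/
theorem fix_ge_four [Finite V] (hq : 3 ≤ q) (hA : HasArray Γ q) (g : Γ ≃g Γ)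
    (hp : p.Prime) (hg : g ^ p = 1) (hlt : q + 1 < p) (x : V) (hx : g x = x) : 4 ≤ fc g x := by
  have he := fix_even hq hA g x hx
  have hm := fix_mod hq hA g hp hg x hx
  by_contra hlt4
  push Not at hlt4
  have h02 : fc g x = 0 ∨ fc g x = 2 := by
    rcases he with ⟨r, hr⟩
    omega
  obtain ⟨m, rfl⟩ : ∃ m, q = m + 3 := ⟨q - 3, by omega⟩
  rcases h02 with h0 | h2
  · rw [h0] at hm
    have hd : p ∣ (m + 3) * (m + 3 - 1) := (Nat.modEq_zero_iff_dvd).1 hm
    rcases (Nat.Prime.dvd_mul hp).1 hd with h | h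
    · have := Nat.le_of_dvd (by omega) h
      omega
    · have := Nat.le_of_dvd (by omega) h
      omega
  · rw [h2] at hm
    have hd : p ∣ (m + 3) * (m + 3 - 1) - 2 := by
      have h2le : 2 ≤ (m + 3) * (m + 3 - 1) := by
        have : m + 3 - 1 = m + 2 := by omega
        rw [this]
        nlinarith
      exact (Nat.modEq_iff_dvd' h2le).1 hm.symm
    have he2 : (m + 3) * (m + 3 - 1) - 2 = (m + 1) * (m + 4) := by
      have : m + 3 - 1 = m + 2 := by omega
      rw [this]
      have : (m + 3) * (m + 2) = (m + 1) * (m + 4) + 2 := by ring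
      omega
    rw [he2] at hd
    rcases (Nat.Prime.dvd_mul hp).1 hd with h | h
    · have := Nat.le_of_dvd (by omega) h
      omega
    · have := Nat.le_of_dvd (by omega) h
      omega

/-- If all neighbours of every fixed vertex were fixed, connectedness would give `g = 1`. -/
theorem fix_lt [Finite V] (hq : 3 ≤ q) (hA : HasArray Γ q) (g : Γ ≃g Γ)
    (hp : p.Prime) (hg : g ^ p = 1) (hlt : q + 1 < p) (h1 : g ≠ 1) (x : V) (hx : g x = x) :
    fc g x < q * (q - 1) := by
  by_contra hge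
  push Not at hge
  have hall : ∀ z : V, g z = z → ∀ w, Γ.Adj z w → g w = w := by
    intro z hz w hzw
    have hz' : q * (q - 1) ≤ fc g z := by
      rw [← fix_const hq hA g hp hg hlt x z hx hz]
      exact hge
    have hsub : {w | Γ.Adj z w ∧ g w = w} ⊆ {w | Γ.Adj z w} := fun w hw => hw.1
    have hc1 : {w | Γ.Adj z w}.ncard = q * (q - 1) := by
      rw [← card_nbr hA z]
      rfl
    have hc2 : {w | Γ.Adj z w ∧ g w = w}.ncard = fc g z := rfl
    have heq : {w | Γ.Adj z w ∧ g w = w} = {w | Γ.Adj z w} := by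
      refine Set.eq_of_subset_of_ncard_le hsub ?_ (Set.toFinite _)
      rw [hc1, hc2]
      exact hz'
    have : w ∈ {w | Γ.Adj z w ∧ g w = w} := by
      rw [heq]
      exact hzw
    exact this.2
  apply h1
  ext v
  obtain ⟨P⟩ := hA.conn.preconnected x v
  have : ∀ (a b : V) (P : Γ.Walk a b), g a = a → g b = b := by
    intro a b P
    induction P with
    | nil => exact fun h => h
    | cons hadj _ ih => exact fun h => ih (hall _ h _ hadj)
  exact this x v P hx

/-- There are more than `f + 1` fixed vertices: a fixed neighbour `y` of `x` has at least four fixed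
neighbours, of which only `x` and one more are in the closed neighbourhood of `x`. -/
theorem fix_card [Finite V] (hq : 3 ≤ q) (hA : HasArray Γ q) (g : Γ ≃g Γ)
    (hp : p.Prime) (hg : g ^ p = 1) (hlt : q + 1 < p) (x : V) (hx : g x = x) :
    fc g x + 1 < Nat.card {y : V // g y = y} := by
  classical
  have h4 := fix_ge_four hq hA g hp hg hlt x hx
  have hc2 : {w | Γ.Adj x w ∧ g w = w}.ncard = fc g x := rfl
  obtain ⟨y, hxy, hy⟩ : {w | Γ.Adj x w ∧ g w = w}.Nonempty := by
    rw [← Set.ncard_pos (Set.toFinite _), hc2]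
    omega
  have h4y := fix_ge_four hq hA g hp hg hlt y hy
  obtain ⟨c, hc1, hc2'⟩ := common_exists hq hA (Or.inl (dist_one hxy))
  have hcy : {w | Γ.Adj y w ∧ g w = w}.ncard = fc g y := rfl
  obtain ⟨w, hw, hw'⟩ : ∃ w ∈ {w | Γ.Adj y w ∧ g w = w}, w ∉ ({x, c} : Set V) := by
    refine Set.exists_mem_notMem_of_ncard_lt_ncard ?_ (Set.toFinite _)
    have h2 : ({x, c} : Set V).ncard ≤ ({c} : Set V).ncard + 1 := Set.ncard_insert_le x {c}
    rw [Set.ncard_singleton] at h2
    omega
  have hwx : w ≠ x := fun h => hw' (by simp [h])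
  have hwc : w ≠ c := fun h => hw' (by simp [h])
  have hnadj : ¬ Γ.Adj x w := by
    intro h
    exact hwc (common_unique hq hA hxy.ne h hw.1 hc1 hc2')
  have hsub : insert w (insert x {w | Γ.Adj x w ∧ g w = w}) ⊆ {y : V | g y = y} := by
    intro v hv
    rcases hv with rfl | rfl | hv
    · exact hw.2
    · exact hx
    · exact hv.2
  have hle := Set.ncard_le_ncard hsub (Set.toFinite _)
  have hx' : x ∉ {w | Γ.Adj x w ∧ g w = w} := fun h => Γ.irrefl h.1
  have hw'' : w ∉ insert x {w | Γ.Adj x w ∧ g w = w} := by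
    rintro (h | h)
    · exact hwx h
    · exact hnadj h.1
  rw [Set.ncard_insert_of_notMem hw'' (Set.toFinite _),
    Set.ncard_insert_of_notMem hx' (Set.toFinite _), hc2] at hle
  have : {y : V | g y = y}.ncard = Nat.card {y : V // g y = y} := rfl
  omega

end Pool.Agent.Lib.MP_eb4ae8_co
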