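import Pool.Agent.Lib.MP_eb4ae8_co.Defs

/-! The array forces `q ≥ 3`. -/

namespace Pool.Agent.Lib.MP_eb4ae8_co

theorem three_le {V : Type*} [Finite V] {Γ : SimpleGraph V} {q : ℕ} (hA : HasArray Γ q) :
    3 ≤ q := by
  obtain ⟨x, y, hxy⟩ := hA.diam_eq
  obtain ⟨p, hp⟩ := (hA.conn x y).exists_walk_length_eq_dist
  rw [hxy] at hp
  -- the second vertex and the third vertex of a shortest path
  have h1 : Γ.Adj (p.getVert 0) (p.getVert 1) := p.adj_getVert_succ (by omega)
  have h2 : Γ.Adj (p.getVert 1) (p.getVert 2) := p.adj_getVert_succ (by omega)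
  rw [SimpleGraph.Walk.getVert_zero] at h1
  set a := p.getVert 1 with ha
  set b := p.getVert 2 with hb
  have hxa : Γ.dist x a = 1 := SimpleGraph.dist_eq_one_iff_adj.2 h1
  have h3 : Γ.Adj b y := by
    have := p.adj_getVert_succ (i := 2) (by omega)
    have hy : p.getVert (2 + 1) = y := by
      rw [show (2 + 1 : ℕ) = p.length by omega]
      exact p.getVert_length
    rwa [hy] at this
  have hxb : Γ.dist x b = 2 := by
    have hle : Γ.dist x b ≤ 2 := by
      have t := hA.conn.dist_triangle (u := x) (v := a) (w := b)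
      have t2 : Γ.dist a b = 1 := SimpleGraph.dist_eq_one_iff_adj.2 h2
      omega
    have hge : 3 ≤ Γ.dist x b + 1 := by
      have t := hA.conn.dist_triangle (u := x) (v := b) (w := y)
      have t2 : Γ.dist b y = 1 := SimpleGraph.dist_eq_one_iff_adj.2 h3
      omega
    omega
  have hb1 := hA.b1 x a hxa
  by_contra hlt
  have hz : (q + 1) * (q - 2) = 0 := by
    have : q - 2 = 0 := by omega
    rw [this, mul_zero]
  rw [hz] at hb1
  unfold nb at hb1
  have hne : Nonempty {z : V // Γ.Adj a z ∧ Γ.dist x z = 2} := ⟨⟨b, h2, hxb⟩⟩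
  have := Nat.card_pos (α := {z : V // Γ.Adj a z ∧ Γ.dist x z = 2})
  omega

end Pool.Agent.Lib.MP_eb4ae8_co
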