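import Mathlib

/-! Traces of matrices that are idempotent, or have roots of unity as nonzero eigenvalues. -/

namespace Pool.Agent.Lib.MP_eb4ae8_co

/-- The trace of a rational matrix `B` with `B ^ (m+1) = B`, `m > 0`, is an integer: the roots of
its characteristic polynomial over the complex numbers satisfy `z ^ (m+1) = z`, so they are
algebraic integers, and so is their sum, the trace, which is rational. -/
theorem trace_int {n : Type*} [Fintype n] [DecidableEq n] (B : Matrix n n ℚ) (m : ℕ)
    (hm : 0 < m) (h : B ^ (m + 1) = B) : ∃ z : ℤ, B.trace = (z : ℚ) := by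
  classical
  rcases isEmpty_or_nonempty n with hn | hn
  · exact ⟨0, by simp [Matrix.trace]⟩
  set A : Matrix n n ℂ := (algebraMap ℚ ℂ).mapMatrix B with hAdef
  have hA : A ^ (m + 1) = A := by rw [hAdef, ← map_pow, h]
  have htr : A.trace = algebraMap ℚ ℂ B.trace := by
    simp [hAdef, Matrix.trace, map_sum]
  have hroot : ∀ z ∈ A.charpoly.roots, IsIntegral ℤ z := by
    intro z hz
    have hz1 : A.charpoly.IsRoot z := (Polynomial.mem_roots'.mp hz).2
    have hz2 : z ∈ spectrum ℂ A := Matrix.mem_spectrum_of_isRoot_charpoly hz1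
    have hz3 : Polynomial.eval z (Polynomial.X ^ (m + 1) - Polynomial.X : Polynomial ℂ) ∈
        spectrum ℂ (Polynomial.aeval A (Polynomial.X ^ (m + 1) - Polynomial.X : Polynomial ℂ)) :=
      spectrum.subset_polynomial_aeval A _ ⟨z, hz2, rfl⟩
    have h0 : Polynomial.aeval A (Polynomial.X ^ (m + 1) - Polynomial.X : Polynomial ℂ) = 0 := by
      simp [hA]
    rw [h0, spectrum.zero_eq] at hz3
    have hz4 : z ^ (m + 1) - z = 0 := by simpa using hz3
    refine ⟨Polynomial.X ^ (m + 1) - Polynomial.X, ?_, ?_⟩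
    · apply Polynomial.monic_X_pow_sub
      rw [Polynomial.degree_X]
      exact_mod_cast Nat.succ_lt_succ hm
    · simpa using hz4
  have hint : IsIntegral ℤ (algebraMap ℚ ℂ B.trace) := by
    rw [← htr, Matrix.trace_eq_sum_roots_charpoly]
    exact IsIntegral.multiset_sum hroot
  have hint2 : IsIntegral ℤ B.trace :=
    (isIntegral_algebraMap_iff (algebraMap ℚ ℂ).injective).mp hint
  obtain ⟨y, hy⟩ := IsIntegrallyClosed.isIntegral_iff.mp hint2
  exact ⟨y, by rw [← hy]; simp⟩

end Pool.Agent.Lib.MP_eb4ae8_co
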