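import Pool.Agent.Lib.MP_eb4ae8_co.MatC
import Pool.Agent.Lib.MP_eb4ae8_co.Perm
import Pool.Agent.Lib.MP_eb4ae8_co.PermT
import Pool.Agent.Lib.MP_eb4ae8_co.TrInt

/-! The congruence satisfied by every automorphism. -/

namespace Pool.Agent.Lib.MP_eb4ae8_co

/-- Proof: `B = E R_g` satisfies `B ^ (m+1) = B` for `m` the order of `g` (`E` idempotent, commutes
with `R_g`, `R_g ^ m = 1`), so its trace
`((q+1) a_0 + a_3 - ((q+1)/(q^2-q+1)) n) / (q^2-1)`, `n = q^2 (q^2-q+1)`, is an integer. -/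
theorem higman {V : Type*} [Finite V] {Γ : SimpleGraph V} {q : ℕ} (hq : 3 ≤ q)
    (hA : HasArray Γ q) (g : Γ ≃g Γ) : ((q : ℤ) ^ 2 - 1) ∣
      ((q : ℤ) + 1) * (moved Γ g 0 : ℤ) + (moved Γ g 3 : ℤ) - (q : ℤ) ^ 2 * (q + 1) := by
  classical
  letI : Fintype V := Fintype.ofFinite V
  haveI : Finite (Γ ≃g Γ) :=
    Finite.of_injective (fun g : Γ ≃g Γ => (g : V → V)) DFunLike.coe_injective
  have hm : 0 < orderOf g := orderOf_pos g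
  have hR : RM g ^ orderOf g = 1 := by
    rw [← RM_pow, pow_orderOf_eq_one, RM_one]
  have hcomm : Commute (EM Γ q) (RM g) := (RM_EM g).symm
  have hE : ∀ n : ℕ, EM Γ q ^ (n + 1) = EM Γ q := by
    intro n
    induction n with
    | zero => simp
    | succ k ih => rw [pow_succ, ih, EM_idem hq hA]
  have hB : (EM Γ q * RM g) ^ (orderOf g + 1) = EM Γ q * RM g := by
    rw [hcomm.mul_pow, hE, pow_succ (RM g), hR, one_mul]
  obtain ⟨z, hz⟩ := trace_int (EM Γ q * RM g) (orderOf g) hm hB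
  have hq3 : (3 : ℚ) ≤ q := by exact_mod_cast hq
  have h1 : (q : ℚ) ^ 2 - q + 1 ≠ 0 := by nlinarith
  have h2 : (q : ℚ) ^ 2 - 1 ≠ 0 := by nlinarith
  have htr : (EM Γ q * RM g).trace = ((q : ℚ) ^ 2 - 1)⁻¹ *
      (((q : ℚ) + 1) * (moved Γ g 0 : ℚ) + (moved Γ g 3 : ℚ) -
        (((q : ℚ) + 1) / ((q : ℚ) ^ 2 - q + 1)) * ((q : ℚ) ^ 2 * ((q : ℚ) ^ 2 - q + 1))) := by
    unfold EM
    rw [Matrix.smul_mul, Matrix.sub_mul, Matrix.smul_mul, Matrix.trace_smul, Matrix.trace_sub,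
      Matrix.trace_smul, trace_NM_RM g hA.conn, trace_JM_RM, card_rat hq hA, smul_eq_mul,
      smul_eq_mul]
  have h3 : (((q : ℚ) + 1) / ((q : ℚ) ^ 2 - q + 1)) * ((q : ℚ) ^ 2 * ((q : ℚ) ^ 2 - q + 1)) =
      (q : ℚ) ^ 2 * (q + 1) := by
    rw [div_mul_eq_mul_div, div_eq_iff h1]
    ring
  rw [h3, hz] at htr
  have h4 : ((q : ℚ) ^ 2 - 1) * (z : ℚ) = ((q : ℚ) + 1) * (moved Γ g 0 : ℚ) +
      (moved Γ g 3 : ℚ) - (q : ℚ) ^ 2 * (q + 1) := by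
    rw [htr, mul_inv_cancel_left₀ h2]
  refine ⟨z, ?_⟩
  have h5 : (((((q : ℤ) + 1) * (moved Γ g 0 : ℤ) + (moved Γ g 3 : ℤ) -
      (q : ℤ) ^ 2 * (q + 1) : ℤ)) : ℚ) = ((((q : ℤ) ^ 2 - 1) * z : ℤ) : ℚ) := by
    push_cast
    exact h4.symm
  exact_mod_cast h5

end Pool.Agent.Lib.MP_eb4ae8_co
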