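import Pool.Agent.Lib.MP_eb4ae8_co.MatC
import Pool.Agent.Lib.MP_eb4ae8_co.Perm
import Pool.Agent.Lib.MP_eb4ae8_co.PermT
import Pool.Agent.Lib.MP_eb4ae8_co.TrInt

/-! The two congruences for a single automorphism. -/

namespace Pool.Agent.Lib.MP_eb4ae8_co

section aux

variable {V : Type*} [Fintype V] [DecidableEq V] {Γ : SimpleGraph V} {q : ℕ}

/-- the trace of `P R_g` for an idempotent `P` commuting with `R_g` is an integer -/
private theorem Hig1_int (g : Γ ≃g Γ) (P : Matrix V V ℚ) (h1 : P * P = P) (h2 : RM g * P = P * RM g) :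
    ∃ z : ℤ, (P * RM g).trace = (z : ℚ) := by
  haveI : Finite (Γ ≃g Γ) :=
    Finite.of_injective (fun g : Γ ≃g Γ => (g : V → V)) DFunLike.coe_injective
  have hm : 0 < orderOf g := orderOf_pos g
  have hR : RM g ^ orderOf g = 1 := by
    rw [← RM_pow, pow_orderOf_eq_one, RM_one]
  have hcomm : Commute P (RM g) := h2.symm
  have hE : ∀ n : ℕ, P ^ (n + 1) = P := by
    intro n
    induction n with
    | zero => simp
    | succ k ih => rw [pow_succ, ih, h1]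
  have hB : (P * RM g) ^ (orderOf g + 1) = P * RM g := by
    rw [hcomm.mul_pow, hE, pow_succ (RM g), hR, one_mul]
  exact trace_int (P * RM g) (orderOf g) hm hB

private theorem Hig1_RQ (g : Γ ≃g Γ) : RM g * QM Γ q = QM Γ q * RM g := by
  unfold QM
  rw [Matrix.mul_sub, Matrix.mul_sub, Matrix.sub_mul, Matrix.sub_mul, Matrix.mul_smul, Matrix.smul_mul,
    RM_JM, JM_RM, RM_EM, Matrix.mul_one, Matrix.one_mul]

end aux

/-- `π` is the trace of `E R_g`, an integer as in `higman` (file Hig). Put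
`E₊ = (1/2) (Q + (1/q) A Q)`, `E₋ = (1/2) (Q - (1/q) A Q)`: idempotents commuting with `R_g`, so the
traces `u`, `v` of `E₊ R_g`, `E₋ R_g` are integers (`trace_int`, `R_g ^ m = 1`). As
`A Q = q (E₊ - E₋)` and `A = A (1/n) J + A E + A Q = ((q^2-q)/n) J - E + A Q`,
`moved g 1 = trace (A R_g) = (q^2-q) - π + q (u - v)`. -/
theorem higman_one {V : Type*} [Finite V] {Γ : SimpleGraph V} {q : ℕ} (hq : 3 ≤ q)
    (hA : HasArray Γ q) (g : Γ ≃g Γ) : ∃ π z : ℤ,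
      ((q : ℤ) + 1) * (moved Γ g 0 : ℤ) + (moved Γ g 3 : ℤ) - (q : ℤ) ^ 2 * (q + 1)
        = ((q : ℤ) ^ 2 - 1) * π ∧
      (moved Γ g 1 : ℤ) = (q : ℤ) ^ 2 - q - π + q * z := by
  classical
  letI : Fintype V := Fintype.ofFinite V
  have hq3 : (3 : ℚ) ≤ q := by exact_mod_cast hq
  have h1 : (q : ℚ) ^ 2 - q + 1 ≠ 0 := by nlinarith
  have h2 : (q : ℚ) ^ 2 - 1 ≠ 0 := by nlinarith
  have h0 : (q : ℚ) ≠ 0 := by linarith
  obtain ⟨π, hπ⟩ := Hig1_int g (EM Γ q) (EM_idem hq hA) (RM_EM g)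
  have htr : (EM Γ q * RM g).trace = ((q : ℚ) ^ 2 - 1)⁻¹ *
      (((q : ℚ) + 1) * (moved Γ g 0 : ℚ) + (moved Γ g 3 : ℚ) -
        (((q : ℚ) + 1) / ((q : ℚ) ^ 2 - q + 1)) * ((q : ℚ) ^ 2 * ((q : ℚ) ^ 2 - q + 1))) := by
    unfold EM
    rw [Matrix.smul_mul, Matrix.sub_mul, Matrix.smul_mul, Matrix.trace_smul, Matrix.trace_sub,
      Matrix.trace_smul, trace_NM_RM g hA.conn, trace_JM_RM, card_rat hq hA, smul_eq_mul,
      smul_eq_mul]
  have h3 : (((q : ℚ) + 1) / ((q : ℚ) ^ 2 - q + 1)) * ((q : ℚ) ^ 2 * ((q : ℚ) ^ 2 - q + 1)) =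
      (q : ℚ) ^ 2 * (q + 1) := by
    rw [div_mul_eq_mul_div, div_eq_iff h1]
    ring
  rw [h3, hπ] at htr
  have h4 : ((q : ℚ) ^ 2 - 1) * (π : ℚ) = ((q : ℚ) + 1) * (moved Γ g 0 : ℚ) +
      (moved Γ g 3 : ℚ) - (q : ℚ) ^ 2 * (q + 1) := by
    rw [htr, mul_inv_cancel_left₀ h2]
  -- the products with `Q`
  have hQQ := QM_idem hq hA
  have hQA := QM_AM hq hA
  have hAAQ := AM_AM_QM hq hA
  have hKK : (AM Γ * QM Γ q) * (AM Γ * QM Γ q) = (q : ℚ) ^ 2 • QM Γ q := by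
    calc (AM Γ * QM Γ q) * (AM Γ * QM Γ q) = AM Γ * (QM Γ q * AM Γ) * QM Γ q := by
          simp only [Matrix.mul_assoc]
      _ = AM Γ * AM Γ * QM Γ q * QM Γ q := by
          rw [hQA]; simp only [Matrix.mul_assoc]
      _ = (q : ℚ) ^ 2 • QM Γ q := by
          rw [hAAQ, Matrix.smul_mul, hQQ]
  have hQK : QM Γ q * (AM Γ * QM Γ q) = AM Γ * QM Γ q := by
    rw [← Matrix.mul_assoc, hQA, Matrix.mul_assoc, hQQ]
  have hKQ : (AM Γ * QM Γ q) * QM Γ q = AM Γ * QM Γ q := by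
    rw [Matrix.mul_assoc, hQQ]
  have hRK : RM g * (AM Γ * QM Γ q) = (AM Γ * QM Γ q) * RM g := by
    rw [← Matrix.mul_assoc, RM_AM, Matrix.mul_assoc, Hig1_RQ, Matrix.mul_assoc]
  have hidem : ∀ s : ℚ, s * s * (q : ℚ) ^ 2 = 1 →
      ((1 / 2 : ℚ) • (QM Γ q + s • (AM Γ * QM Γ q))) * ((1 / 2 : ℚ) • (QM Γ q + s • (AM Γ * QM Γ q))) =
        (1 / 2 : ℚ) • (QM Γ q + s • (AM Γ * QM Γ q)) := by
    intro s hs
    rw [Matrix.smul_mul, Matrix.mul_smul, Matrix.add_mul, Matrix.mul_add, Matrix.mul_add, hQQ,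
      Matrix.mul_smul, hQK, Matrix.smul_mul, hKQ, Matrix.smul_mul, Matrix.mul_smul, hKK]
    have e1 : s • s • (q : ℚ) ^ 2 • QM Γ q = QM Γ q := by
      rw [smul_smul, smul_smul, hs, one_smul]
    rw [e1]
    match_scalars <;> ring
  have hcomm : ∀ s : ℚ, RM g * ((1 / 2 : ℚ) • (QM Γ q + s • (AM Γ * QM Γ q))) =
      ((1 / 2 : ℚ) • (QM Γ q + s • (AM Γ * QM Γ q))) * RM g := by
    intro s
    rw [Matrix.mul_smul, Matrix.smul_mul, Matrix.mul_add, Matrix.add_mul, Hig1_RQ, Matrix.mul_smul,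
      Matrix.smul_mul, hRK]
  obtain ⟨u, hu⟩ := Hig1_int g _ (hidem (q : ℚ)⁻¹ (by field_simp)) (hcomm _)
  obtain ⟨v, hv⟩ := Hig1_int g _ (hidem (-(q : ℚ)⁻¹) (by field_simp)) (hcomm _)
  have hK : ((AM Γ * QM Γ q) * RM g).trace = (q : ℚ) * (u - v) := by
    have e1 : (AM Γ * QM Γ q) * RM g =
        (q : ℚ) • (((1 / 2 : ℚ) • (QM Γ q + (q : ℚ)⁻¹ • (AM Γ * QM Γ q))) * RM g -
          ((1 / 2 : ℚ) • (QM Γ q + (-(q : ℚ)⁻¹) • (AM Γ * QM Γ q))) * RM g) := by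
      rw [← Matrix.sub_mul, ← Matrix.smul_mul]
      congr 1
      have h00 : (q : ℚ) * (q : ℚ)⁻¹ = 1 := mul_inv_cancel₀ h0
      match_scalars
      · linear_combination (-1 : ℚ) * h00
      · ring
    rw [e1, Matrix.trace_smul, Matrix.trace_sub, hu, hv, smul_eq_mul]
  have hAdec : AM Γ = (((q : ℚ) ^ 2 * ((q : ℚ) ^ 2 - q + 1))⁻¹ * ((q : ℚ) ^ 2 - q)) • JM V - EM Γ q +
      AM Γ * QM Γ q := by
    unfold QM
    rw [Matrix.mul_sub, Matrix.mul_sub, Matrix.mul_one, Matrix.mul_smul, AM_JM hq hA, AM_EM hq hA, smul_smul]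
    abel
  have h5 : (moved Γ g 1 : ℚ) = (q : ℚ) ^ 2 - q - π + q * (u - v) := by
    rw [← trace_AM_RM g, hAdec, Matrix.add_mul, Matrix.sub_mul, Matrix.trace_add, Matrix.trace_sub, hK, hπ,
      Matrix.smul_mul, Matrix.trace_smul, trace_JM_RM, card_rat hq hA, smul_eq_mul]
    have h6 : (q : ℚ) ^ 2 * ((q : ℚ) ^ 2 - q + 1) ≠ 0 := mul_ne_zero (pow_ne_zero 2 h0) h1
    rw [mul_right_comm, inv_mul_cancel₀ h6, one_mul]
  refine ⟨π, u - v, ?_, ?_⟩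
  · have h7 : (((((q : ℤ) + 1) * (moved Γ g 0 : ℤ) + (moved Γ g 3 : ℤ) -
        (q : ℤ) ^ 2 * (q + 1) : ℤ)) : ℚ) = ((((q : ℤ) ^ 2 - 1) * π : ℤ) : ℚ) := by
      push_cast
      exact h4.symm
    exact_mod_cast h7
  · have h7 : ((moved Γ g 1 : ℤ) : ℚ) = (((q : ℤ) ^ 2 - q - π + q * (u - v) : ℤ) : ℚ) := by
      push_cast
      exact h5
    exact_mod_cast h7

end Pool.Agent.Lib.MP_eb4ae8_co
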