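import Pool.Agent.Lib.MP_eb4ae8_co.FinP
import Pool.Agent.Lib.MP_eb4ae8_co.Tra
import Pool.Agent.Lib.MP_eb4ae8_co.Inv

/-! Primes larger than `q + 1` divide the order of the automorphism group at most once. -/

namespace Pool.Agent.Lib.MP_eb4ae8_co

theorem large_prime_once {V : Type*} [Finite V] {Γ : SimpleGraph V} {q : ℕ} (hq : 3 ≤ q)
    (hA : HasArray Γ q) (p : ℕ) (hp : p.Prime) (hlt : q + 1 < p)
    (hdvd : p ∣ Nat.card (Γ ≃g Γ)) :
    p ∣ q ^ 2 - q + 1 ∧ ¬ p ^ 2 ∣ Nat.card (Γ ≃g Γ) ∧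
      ∀ g : Γ ≃g Γ, orderOf g = p → ∀ x, g x ≠ x := by
  have hfin : Finite (Γ ≃g Γ) :=
    Finite.of_injective (fun e : Γ ≃g Γ => (e : V → V)) DFunLike.coe_injective
  have : Fact p.Prime := ⟨hp⟩
  have hfix : ∀ g : Γ ≃g Γ, orderOf g = p → (∀ x, g x ≠ x) ∧ p ∣ q ^ 2 - q + 1 := by
    intro g hg
    have h := large_prime hq hA g (by rw [hg]; exact hp) (by rw [hg]; exact hlt)
    rwa [hg] at h
  obtain ⟨g₀, hg₀⟩ := exists_prime_orderOf_dvd_card' p hdvd
  refine ⟨(hfix g₀ hg₀).2, ?_, fun g hg => (hfix g hg).1⟩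
  intro h2
  obtain ⟨P, hP⟩ := Sylow.exists_subgroup_card_pow_prime p h2
  have hs : Semiregular P := by
    intro h hhP x hx
    by_contra hne
    -- the order of `h` divides `p ^ 2`
    have hord : orderOf h ∣ p ^ 2 := by
      rw [← hP, ← Subgroup.orderOf_mk h hhP]
      exact orderOf_dvd_natCard _
    obtain ⟨k, hk, hk2⟩ := (Nat.dvd_prime_pow hp).1 hord
    have hk0 : k ≠ 0 := by
      rintro rfl
      rw [pow_zero, orderOf_eq_one_iff] at hk2
      exact hne hk2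
    -- a power of `h` has order `p`
    have hpow : orderOf (h ^ p ^ (k - 1)) = p := by
      have h3 : orderOf h = p ^ (k - 1) * p := by
        rw [hk2, ← pow_succ, Nat.sub_add_cancel (Nat.one_le_iff_ne_zero.2 hk0)]
      rw [orderOf_pow_of_dvd (pow_ne_zero _ hp.ne_zero) (by rw [h3]; exact dvd_mul_right _ _), h3,
        Nat.mul_div_cancel_left _ (pow_pos hp.pos _)]
    have hfx : ∀ n : ℕ, (h ^ n) x = x := by
      intro n
      induction n with
      | zero => rfl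
      | succ n ih =>
        rw [pow_succ]
        show (h ^ n) (h x) = x
        rw [hx, ih]
    exact (hfix _ hpow).1 x (hfx _)
  have h4 := card_dvd P hs
  rw [hP, card_nat hq hA] at h4
  have hpq : Nat.Coprime (p ^ 2) (q ^ 2) := by
    apply Nat.Coprime.pow
    rw [Nat.Prime.coprime_iff_not_dvd hp]
    intro h5
    have := Nat.le_of_dvd (by omega) h5
    omega
  have h5 : p ^ 2 ∣ q ^ 2 - q + 1 := hpq.dvd_of_dvd_mul_left h4
  have h6 : p ^ 2 ≤ q ^ 2 - q + 1 := Nat.le_of_dvd (by omega) h5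
  have h7 : q ≤ q ^ 2 := by nlinarith
  have h8 : (q + 2) ^ 2 ≤ p ^ 2 := Nat.pow_le_pow_left (by omega) 2
  have h9 : q ^ 2 - q + 1 ≤ q ^ 2 + 1 := by omega
  nlinarith

end Pool.Agent.Lib.MP_eb4ae8_co
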