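import Pool.Agent.Lib.MP_eb4ae8_co.Defs

/-! Matrices over the rationals attached to the graph (definitions only). -/

namespace Pool.Agent.Lib.MP_eb4ae8_co

variable {V : Type*}

open Classical in
/-- adjacency matrix. -/
noncomputable def AM (Γ : SimpleGraph V) : Matrix V V ℚ :=
  Matrix.of fun x y => if Γ.Adj x y then 1 else 0

open Classical in
/-- `(q+1) I + T` with `T` the distance-three matrix. -/
noncomputable def NM (Γ : SimpleGraph V) (q : ℕ) : Matrix V V ℚ :=
  Matrix.of fun x y => if x = y then (q : ℚ) + 1 else if Γ.dist x y = 3 then 1 else 0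

/-- all-one matrix. -/
def JM (V : Type*) : Matrix V V ℚ := Matrix.of fun _ _ => 1

open Classical in
/-- permutation matrix of an automorphism. -/
noncomputable def RM {Γ : SimpleGraph V} (g : Γ ≃g Γ) : Matrix V V ℚ :=
  Matrix.of fun x y => if g y = x then 1 else 0

/-- projection onto the eigenspace of the eigenvalue `-1`. -/
noncomputable def EM (Γ : SimpleGraph V) (q : ℕ) : Matrix V V ℚ :=
  ((q : ℚ) ^ 2 - 1)⁻¹ • (NM Γ q - (((q : ℚ) + 1) / ((q : ℚ) ^ 2 - q + 1)) • JM V)

/-- projection onto the sum of the eigenspaces of `q` and `-q`. -/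
noncomputable def QM [DecidableEq V] (Γ : SimpleGraph V) (q : ℕ) : Matrix V V ℚ :=
  1 - ((q : ℚ) ^ 2 * ((q : ℚ) ^ 2 - q + 1))⁻¹ • JM V - EM Γ q

end Pool.Agent.Lib.MP_eb4ae8_co
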