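import Pool.Agent.Lib.MP_eb4ae8_co.Mat
import Pool.Agent.Lib.MP_eb4ae8_co.Basic

/-! The two basic matrix identities. -/

namespace Pool.Agent.Lib.MP_eb4ae8_co

variable {V : Type*} [Fintype V] [DecidableEq V] {Γ : SimpleGraph V} {q : ℕ}

open Classical in
private theorem MatA_sum_nb (x y : V) (j : ℕ) :
    ∑ z, (if Γ.Adj y z ∧ Γ.dist x z = j then (1 : ℚ) else 0) = (nb Γ x y j : ℚ) := by
  rw [Finset.sum_boole]
  unfold nb
  rw [Nat.card_eq_fintype_card, Fintype.card_subtype]

private theorem MatA_cast (hq : 3 ≤ q) : ((q * (q - 1) : ℕ) : ℚ) = (q : ℚ) ^ 2 - q := by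
  rw [Nat.cast_mul, Nat.cast_sub (by omega)]
  push_cast
  ring

/-- every row sum of the adjacency matrix is `q^2 - q`. -/
theorem AM_JM (hq : 3 ≤ q) (hA : HasArray Γ q) :
    AM Γ * JM V = ((q : ℚ) ^ 2 - q) • JM V := by
  classical
  ext x y
  rw [Matrix.mul_apply, Matrix.smul_apply]
  simp only [AM, JM, Matrix.of_apply, mul_one, smul_eq_mul]
  have h1 : ∀ z, (if Γ.Adj x z then (1 : ℚ) else 0)
      = if Γ.Adj x z ∧ Γ.dist x z = 1 then (1 : ℚ) else 0 := by
    intro z
    by_cases h : Γ.Adj x z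
    · have := SimpleGraph.dist_eq_one_iff_adj.mpr h
      simp [h, this]
    · simp [h]
  rw [Finset.sum_congr rfl fun z _ => h1 z, MatA_sum_nb, hA.b0 x, MatA_cast hq]

/-- `N = q^2 I + J - A^2`; entrywise: `(A^2)_{xy}` is the number of common neighbours, i.e.
`q^2 - q` if `x = y`, `1` at distances one and two, `0` at distance three. -/
theorem NM_eq (hq : 3 ≤ q) (hA : HasArray Γ q) :
    NM Γ q = (q : ℚ) ^ 2 • (1 : Matrix V V ℚ) + JM V - AM Γ * AM Γ := by
  classical
  ext x y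
  rw [Matrix.sub_apply, Matrix.add_apply, Matrix.mul_apply, Matrix.smul_apply]
  simp only [AM, JM, NM, Matrix.of_apply, smul_eq_mul, Matrix.one_apply]
  have h1 : ∀ z, (if Γ.Adj x z then (1 : ℚ) else 0) * (if Γ.Adj z y then (1 : ℚ) else 0)
      = if Γ.Adj y z ∧ Γ.dist x z = 1 then (1 : ℚ) else 0 := by
    intro z
    have h0 : Γ.Adj z y ↔ Γ.Adj y z := SimpleGraph.adj_comm Γ z y
    have h1 : Γ.dist x z = 1 ↔ Γ.Adj x z := SimpleGraph.dist_eq_one_iff_adj
    by_cases h : Γ.Adj x z <;> by_cases h' : Γ.Adj y z <;> simp [h0, h1, h, h']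
  rw [Finset.sum_congr rfl fun z _ => h1 z, MatA_sum_nb]
  rcases eq_or_ne x y with rfl | hne
  · rw [hA.b0 x, MatA_cast hq]
    simp only [if_true]
    ring
  · have h0 : Γ.dist x y ≠ 0 := fun h0 => hne (hA.conn.dist_eq_zero_iff.mp h0)
    have h3 := hA.diam_le x y
    have hcase : Γ.dist x y = 1 ∨ Γ.dist x y = 2 ∨ Γ.dist x y = 3 := by omega
    rcases hcase with h | h | h
    · rw [nb_one_one hq hA h]
      simp [hne, h]
    · rw [hA.c2 x y h]
      simp [hne, h]
    · rw [nb_zero_of_far hA (Or.inr (by omega))]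
      simp [hne, h]

/-- `(A + I) N = (q+1) J`; entry `(x,y)`: `N x y + ∑_{z ~ x} N z y`. -/
theorem AM_NM (hq : 3 ≤ q) (hA : HasArray Γ q) :
    (AM Γ + 1) * NM Γ q = ((q : ℚ) + 1) • JM V := by
  classical
  rw [add_mul, one_mul]
  ext x y
  rw [Matrix.add_apply, Matrix.mul_apply, Matrix.smul_apply]
  have h1 : ∀ z, AM Γ x z * NM Γ q z y
      = (if z = y then (if Γ.Adj x y then (q : ℚ) + 1 else 0) else 0)
        + if Γ.Adj x z ∧ Γ.dist y z = 3 then (1 : ℚ) else 0 := by
    intro z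
    simp only [AM, NM, Matrix.of_apply]
    rw [SimpleGraph.dist_comm (u := z) (v := y)]
    rcases eq_or_ne z y with rfl | hne
    · simp
    · by_cases h : Γ.Adj x z <;> by_cases h' : Γ.dist y z = 3 <;> simp [h, h', hne]
  rw [Finset.sum_congr rfl fun z _ => h1 z, Finset.sum_add_distrib, Finset.sum_ite_eq',
    MatA_sum_nb]
  simp only [Finset.mem_univ, if_true, NM, JM, Matrix.of_apply, smul_eq_mul, mul_one]
  rcases eq_or_ne x y with rfl | hne
  · rw [nb_zero_of_far hA (Or.inl (by rw [SimpleGraph.dist_self]; norm_num))]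
    simp
  · have h0 : Γ.dist x y ≠ 0 := fun h0 => hne (hA.conn.dist_eq_zero_iff.mp h0)
    have h3 := hA.diam_le x y
    have hc : Γ.dist y x = Γ.dist x y := SimpleGraph.dist_comm
    have hcase : Γ.dist x y = 1 ∨ Γ.dist x y = 2 ∨ Γ.dist x y = 3 := by omega
    rcases hcase with h | h | h
    · rw [nb_zero_of_far hA (Or.inl (by omega))]
      have hadj := SimpleGraph.dist_eq_one_iff_adj.mp h
      simp [hne, h, hadj]
    · rw [hA.b2 y x (by omega)]
      have hadj : ¬ Γ.Adj x y := fun hh => by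
        have := SimpleGraph.dist_eq_one_iff_adj.mpr hh
        omega
      simp [hne, h, hadj]
    · rw [nb_three_three hq hA (by omega : Γ.dist y x = 3)]
      have hadj : ¬ Γ.Adj x y := fun hh => by
        have := SimpleGraph.dist_eq_one_iff_adj.mpr hh
        omega
      simp only [hne, h, hadj, if_false, if_true]
      ring

end Pool.Agent.Lib.MP_eb4ae8_co
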