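import Pool.Agent.Lib.MP_eb4ae8_co.MatA

/-! Matrix algebra derived from the two basic identities `NM_eq` and `AM_NM` (and `AM_JM`). -/

namespace Pool.Agent.Lib.MP_eb4ae8_co

variable {V : Type*} [Fintype V] [DecidableEq V] {Γ : SimpleGraph V} {q : ℕ}

omit [Fintype V] [DecidableEq V] in
private theorem matB_JM_transpose : (JM V).transpose = JM V := by
  ext x y
  simp [JM, Matrix.transpose_apply]

omit [DecidableEq V] in
private theorem matB_JM_JM : JM V * JM V = (Fintype.card V : ℚ) • JM V := by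
  ext x y
  simp [JM, Matrix.mul_apply, Matrix.smul_apply]

theorem AM_transpose : (AM Γ).transpose = AM Γ := by
  ext x y
  have h : Γ.Adj y x ↔ Γ.Adj x y := Γ.adj_comm y x
  rw [Matrix.transpose_apply, AM, Matrix.of_apply, Matrix.of_apply]
  by_cases hc : Γ.Adj x y
  · rw [if_pos hc, if_pos (h.mpr hc)]
  · rw [if_neg hc, if_neg fun h' => hc (h.mp h')]

theorem NM_transpose : (NM Γ q).transpose = NM Γ q := by
  ext x y
  have h : y = x ↔ x = y := eq_comm
  have h' : Γ.dist y x = Γ.dist x y := Γ.dist_comm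
  rw [Matrix.transpose_apply, NM, Matrix.of_apply, Matrix.of_apply, h']
  by_cases hc : x = y
  · rw [if_pos hc, if_pos (h.mpr hc)]
  · rw [if_neg hc, if_neg fun h' => hc (h.mp h')]

theorem JM_AM (hq : 3 ≤ q) (hA : HasArray Γ q) :
    JM V * AM Γ = ((q : ℚ) ^ 2 - q) • JM V := by
  have h := congrArg Matrix.transpose (AM_JM hq hA)
  rwa [Matrix.transpose_mul, Matrix.transpose_smul, AM_transpose, matB_JM_transpose] at h

private theorem matB_NM_JM (hq : 3 ≤ q) (hA : HasArray Γ q) :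
    NM Γ q * JM V =
      ((q : ℚ) ^ 2 + (Fintype.card V : ℚ) - ((q : ℚ) ^ 2 - q) ^ 2) • JM V := by
  rw [NM_eq hq hA, sub_mul, add_mul, smul_mul_assoc, one_mul, matB_JM_JM, mul_assoc, AM_JM hq hA,
    mul_smul_comm, AM_JM hq hA, smul_smul, ← add_smul, ← sub_smul]
  congr 1
  ring

/-- the number of vertices. From `NM_eq` times `J` and `AM_NM` times `J`. -/
theorem card_rat (hq : 3 ≤ q) (hA : HasArray Γ q) :
    (Fintype.card V : ℚ) = (q : ℚ) ^ 2 * ((q : ℚ) ^ 2 - q + 1) := by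
  obtain ⟨x, -, -⟩ := hA.diam_eq
  have h1 := matB_NM_JM hq hA
  have h2 : (AM Γ + 1) * (NM Γ q * JM V) = (((q : ℚ) + 1) • JM V) * JM V := by
    rw [← mul_assoc, AM_NM hq hA]
  rw [h1, mul_smul_comm, add_mul, one_mul, AM_JM hq hA, smul_mul_assoc, matB_JM_JM, smul_smul,
    smul_add, smul_smul, ← add_smul] at h2
  have h3 := congrFun (congrFun h2 x) x
  simp only [Matrix.smul_apply, JM, Matrix.of_apply, smul_eq_mul, mul_one] at h3
  have hq' : (3 : ℚ) ≤ q := by exact_mod_cast hq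
  have h4 : (q : ℚ) ^ 2 - 2 * q ≠ 0 := by
    have : 0 < (q : ℚ) * (q - 2) := by
      apply mul_pos <;> linarith
    intro h
    nlinarith
  have h5 : ((q : ℚ) ^ 2 - 2 * q) * (Fintype.card V : ℚ) =
      ((q : ℚ) ^ 2 - 2 * q) * ((q : ℚ) ^ 2 * ((q : ℚ) ^ 2 - q + 1)) := by
    linear_combination h3
  exact mul_left_cancel₀ h4 h5

theorem NM_JM (hq : 3 ≤ q) (hA : HasArray Γ q) :
    NM Γ q * JM V = ((q : ℚ) ^ 2 * (q + 1)) • JM V := by
  rw [matB_NM_JM hq hA, card_rat hq hA]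
  congr 1
  ring

theorem JM_NM (hq : 3 ≤ q) (hA : HasArray Γ q) :
    JM V * NM Γ q = ((q : ℚ) ^ 2 * (q + 1)) • JM V := by
  have h := congrArg Matrix.transpose (NM_JM hq hA)
  rwa [Matrix.transpose_mul, Matrix.transpose_smul, NM_transpose, matB_JM_transpose] at h

theorem NM_sq (hq : 3 ≤ q) (hA : HasArray Γ q) :
    NM Γ q * NM Γ q = ((q : ℚ) ^ 2 - 1) • NM Γ q + ((q : ℚ) + 1) ^ 2 • JM V := by
  have h1 : AM Γ * NM Γ q = ((q : ℚ) + 1) • JM V - NM Γ q := by
    have h := AM_NM hq hA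
    rw [add_mul, one_mul] at h
    exact eq_sub_of_add_eq h
  have h2 : AM Γ * AM Γ * NM Γ q =
      (((q : ℚ) + 1) * ((q : ℚ) ^ 2 - q)) • JM V - (((q : ℚ) + 1) • JM V - NM Γ q) := by
    rw [mul_assoc, h1, mul_sub, mul_smul_comm, AM_JM hq hA, smul_smul, h1]
  calc NM Γ q * NM Γ q
      = ((q : ℚ) ^ 2 • (1 : Matrix V V ℚ) + JM V - AM Γ * AM Γ) * NM Γ q := by
        rw [← NM_eq hq hA]
    _ = (q : ℚ) ^ 2 • NM Γ q + ((q : ℚ) ^ 2 * (q + 1)) • JM V -
        ((((q : ℚ) + 1) * ((q : ℚ) ^ 2 - q)) • JM V - (((q : ℚ) + 1) • JM V - NM Γ q)) := by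
        rw [sub_mul, add_mul, smul_mul_assoc, one_mul, JM_NM hq hA, h2]
    _ = _ := by
        ext x y
        simp only [Matrix.add_apply, Matrix.sub_apply, Matrix.smul_apply, smul_eq_mul]
        ring

end Pool.Agent.Lib.MP_eb4ae8_co
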