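import Pool.Agent.Lib.MP_eb4ae8_co.MatB

/-! The idempotents `EM` and `QM` (from the identities of `MatB`). -/

namespace Pool.Agent.Lib.MP_eb4ae8_co

variable {V : Type*} [Fintype V] [DecidableEq V] {Γ : SimpleGraph V} {q : ℕ}

private theorem MatC_JJ : JM V * JM V = (Fintype.card V : ℚ) • JM V := by
  ext x y
  simp [JM, Matrix.mul_apply]

private theorem MatC_JT : (JM V).transpose = JM V := by
  ext x y
  simp [JM]

private theorem MatC_q (hq : 3 ≤ q) : (3 : ℚ) ≤ q := by exact_mod_cast hq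

private theorem MatC_s (hq : 3 ≤ q) : (q : ℚ) ^ 2 - q + 1 ≠ 0 := by
  have := MatC_q hq
  nlinarith

private theorem MatC_s' (hq : 3 ≤ q) : (q : ℚ) * (q - 1) + 1 ≠ 0 := by
  have := MatC_q hq
  nlinarith

private theorem MatC_s2 (hq : 3 ≤ q) : (q : ℚ) ^ 2 - 1 ≠ 0 := by
  have := MatC_q hq
  nlinarith

private theorem MatC_q0 (hq : 3 ≤ q) : (q : ℚ) ≠ 0 := by
  have := MatC_q hq
  linarith

/-- `N = (q^2 - 1) E + c J` -/
private theorem MatC_NM (hq : 3 ≤ q) :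
    NM Γ q = ((q : ℚ) ^ 2 - 1) • EM Γ q + (((q : ℚ) + 1) / ((q : ℚ) ^ 2 - q + 1)) • JM V := by
  unfold EM
  rw [smul_smul, mul_inv_cancel₀ (MatC_s2 hq), one_smul]
  abel

theorem EM_JM (hq : 3 ≤ q) (hA : HasArray Γ q) : EM Γ q * JM V = 0 := by
  have h1 := MatC_s hq
  have h1' := MatC_s' hq
  unfold EM
  rw [Matrix.smul_mul, Matrix.sub_mul, Matrix.smul_mul, NM_JM hq hA, MatC_JJ, card_rat hq hA, smul_smul,
    ← sub_smul]
  have h2 : (q : ℚ) ^ 2 * (q + 1) - (q + 1) / ((q : ℚ) ^ 2 - q + 1) * ((q : ℚ) ^ 2 * ((q : ℚ) ^ 2 - q + 1)) = 0 := by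
    field_simp
    ring
  rw [h2, zero_smul, smul_zero]

private theorem MatC_ET : (EM Γ q).transpose = EM Γ q := by
  unfold EM
  rw [Matrix.transpose_smul, Matrix.transpose_sub, Matrix.transpose_smul, NM_transpose, MatC_JT]

theorem JM_EM (hq : 3 ≤ q) (hA : HasArray Γ q) : JM V * EM Γ q = 0 := by
  have h := congrArg Matrix.transpose (EM_JM hq hA)
  rw [Matrix.transpose_mul, MatC_JT, MatC_ET, Matrix.transpose_zero] at h
  exact h

theorem EM_idem (hq : 3 ≤ q) (hA : HasArray Γ q) : EM Γ q * EM Γ q = EM Γ q := by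
  have h1 := MatC_s hq
  have h1' := MatC_s' hq
  have h2 := MatC_s2 hq
  -- `N E = (q^2 - 1) E`
  have h3 : EM Γ q * EM Γ q = ((q : ℚ) ^ 2 - 1)⁻¹ • (NM Γ q * EM Γ q) := by
    conv_lhs => rw [show EM Γ q * EM Γ q = (((q : ℚ) ^ 2 - 1)⁻¹ •
      (NM Γ q - (((q : ℚ) + 1) / ((q : ℚ) ^ 2 - q + 1)) • JM V)) * EM Γ q from rfl]
    rw [Matrix.smul_mul, Matrix.sub_mul, Matrix.smul_mul, JM_EM hq hA, smul_zero, sub_zero]
  have h4 : NM Γ q * EM Γ q = ((q : ℚ) ^ 2 - 1) • EM Γ q := by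
    unfold EM
    rw [Matrix.mul_smul, Matrix.mul_sub, Matrix.mul_smul, NM_JM hq hA, NM_sq hq hA]
    match_scalars
    · field_simp
    · field_simp
      ring
  rw [h3, h4, smul_smul, inv_mul_cancel₀ h2, one_smul]

private theorem MatC_AN (hq : 3 ≤ q) (hA : HasArray Γ q) :
    AM Γ * NM Γ q = ((q : ℚ) + 1) • JM V - NM Γ q := by
  have h := AM_NM hq hA
  rw [Matrix.add_mul, Matrix.one_mul] at h
  rw [← h]
  abel

theorem AM_EM (hq : 3 ≤ q) (hA : HasArray Γ q) : AM Γ * EM Γ q = - EM Γ q := by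
  have h1 := MatC_s hq
  have h1' := MatC_s' hq
  have h2 := MatC_s2 hq
  unfold EM
  rw [Matrix.mul_smul, Matrix.mul_sub, Matrix.mul_smul, MatC_AN hq hA, AM_JM hq hA]
  match_scalars
  · field_simp
    ring
  · field_simp

theorem EM_AM (hq : 3 ≤ q) (hA : HasArray Γ q) : EM Γ q * AM Γ = - EM Γ q := by
  have h := congrArg Matrix.transpose (AM_EM hq hA)
  rw [Matrix.transpose_mul, AM_transpose, MatC_ET, Matrix.transpose_neg, MatC_ET] at h
  exact h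

theorem EM_trace (hq : 3 ≤ q) (hA : HasArray Γ q) : (EM Γ q).trace = (q : ℚ) ^ 3 := by
  have h1 := MatC_s hq
  have h1' := MatC_s' hq
  have h2 := MatC_s2 hq
  have h3 : (NM Γ q).trace = (Fintype.card V : ℚ) * (q + 1) := by
    simp [NM, Matrix.trace]
    ring
  have h4 : (JM V).trace = (Fintype.card V : ℚ) := by
    simp [JM, Matrix.trace]
  unfold EM
  rw [Matrix.trace_smul, Matrix.trace_sub, Matrix.trace_smul, h3, h4, card_rat hq hA, smul_eq_mul, smul_eq_mul]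
  field_simp
  ring

theorem QM_idem (hq : 3 ≤ q) (hA : HasArray Γ q) : QM Γ q * QM Γ q = QM Γ q := by
  have h1 := MatC_s hq
  have h1' := MatC_s' hq
  have h0 := MatC_q0 hq
  set t : ℚ := (q : ℚ) ^ 2 * ((q : ℚ) ^ 2 - q + 1) with ht
  have ht0 : t ≠ 0 := mul_ne_zero (pow_ne_zero 2 h0) h1
  have hJ : (t⁻¹ • JM V) * (t⁻¹ • JM V) = t⁻¹ • JM V := by
    rw [Matrix.smul_mul, Matrix.mul_smul, MatC_JJ, card_rat hq hA, ← ht, smul_smul, smul_smul]
    congr 1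
    field_simp
  have hJE : (t⁻¹ • JM V) * EM Γ q = 0 := by
    rw [Matrix.smul_mul, JM_EM hq hA, smul_zero]
  have hEJ : EM Γ q * (t⁻¹ • JM V) = 0 := by
    rw [Matrix.mul_smul, EM_JM hq hA, smul_zero]
  have hE := EM_idem hq hA
  have hQ : QM Γ q = 1 - t⁻¹ • JM V - EM Γ q := rfl
  rw [hQ]
  simp only [sub_mul, mul_sub, one_mul, mul_one, hJ, hJE, hEJ, hE]
  abel

theorem QM_AM (hq : 3 ≤ q) (hA : HasArray Γ q) : QM Γ q * AM Γ = AM Γ * QM Γ q := by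
  unfold QM
  simp only [sub_mul, mul_sub, one_mul, mul_one, Matrix.smul_mul, Matrix.mul_smul, JM_AM hq hA, AM_JM hq hA,
    AM_EM hq hA, EM_AM hq hA]

/-- `A^2 Q = q^2 Q`. -/
theorem AM_AM_QM (hq : 3 ≤ q) (hA : HasArray Γ q) :
    AM Γ * AM Γ * QM Γ q = (q : ℚ) ^ 2 • QM Γ q := by
  have h1 := MatC_s hq
  have h1' := MatC_s' hq
  have h0 := MatC_q0 hq
  have hAA : AM Γ * AM Γ = (q : ℚ) ^ 2 • (1 : Matrix V V ℚ) + JM V - NM Γ q := by
    rw [NM_eq hq hA]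
    abel
  have hJ : AM Γ * AM Γ * JM V = (((q : ℚ) ^ 2 - q) * ((q : ℚ) ^ 2 - q)) • JM V := by
    rw [Matrix.mul_assoc, AM_JM hq hA, Matrix.mul_smul, AM_JM hq hA, smul_smul]
  have hE : AM Γ * AM Γ * EM Γ q = EM Γ q := by
    rw [Matrix.mul_assoc, AM_EM hq hA, Matrix.mul_neg, AM_EM hq hA, neg_neg]
  have hQ : AM Γ * AM Γ * QM Γ q = AM Γ * AM Γ -
      ((q : ℚ) ^ 2 * ((q : ℚ) ^ 2 - q + 1))⁻¹ • (AM Γ * AM Γ * JM V) - AM Γ * AM Γ * EM Γ q := by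
    unfold QM
    rw [Matrix.mul_sub, Matrix.mul_sub, Matrix.mul_one, Matrix.mul_smul]
  rw [hQ, hJ, hE, hAA, MatC_NM hq]
  unfold QM
  match_scalars
  · ring
  · field_simp
    ring
  · ring

end Pool.Agent.Lib.MP_eb4ae8_co
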