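import Pool.Agent.Lib.MP_eb4ae8_co.MatC

/-! The eigenvalue bound for the number of edges inside a set of vertices. -/

namespace Pool.Agent.Lib.MP_eb4ae8_co

open Matrix

section
variable {V : Type*} [Fintype V] [DecidableEq V] {Γ : SimpleGraph V} {q : ℕ}

private theorem EM_tr : (EM Γ q).transpose = EM Γ q := by
  unfold EM
  rw [Matrix.transpose_smul, Matrix.transpose_sub, NM_transpose, Matrix.transpose_smul]
  have : (JM V).transpose = JM V := by
    ext i j; simp [JM]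
  rw [this]

private theorem JM_tr : (JM V).transpose = JM V := by
  ext i j; simp [JM]

private theorem QM_tr : (QM Γ q).transpose = QM Γ q := by
  unfold QM
  rw [Matrix.transpose_sub, Matrix.transpose_sub, Matrix.transpose_one, Matrix.transpose_smul,
    JM_tr, EM_tr]

/-- quadratic form. -/
private def qf (u : V → ℚ) (M : Matrix V V ℚ) : ℚ := u ⬝ᵥ (M *ᵥ u)

private theorem qf_add (u : V → ℚ) (M N : Matrix V V ℚ) : qf u (M + N) = qf u M + qf u N := by
  simp [qf, Matrix.add_mulVec, dotProduct_add]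

private theorem qf_sub (u : V → ℚ) (M N : Matrix V V ℚ) : qf u (M - N) = qf u M - qf u N := by
  simp [qf, Matrix.sub_mulVec, dotProduct_sub]

private theorem qf_smul (u : V → ℚ) (c : ℚ) (M : Matrix V V ℚ) : qf u (c • M) = c * qf u M := by
  simp [qf, Matrix.smul_mulVec, dotProduct_smul]

private theorem qf_sq_nonneg (u : V → ℚ) (M : Matrix V V ℚ) (h : M.transpose = M) :
    0 ≤ qf u (M * M) := by
  have h1 : qf u (M * M) = (M *ᵥ u) ⬝ᵥ (M *ᵥ u) := by
    unfold qf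
    rw [← Matrix.mulVec_mulVec, Matrix.dotProduct_mulVec u M, ← Matrix.mulVec_transpose, h]
  rw [h1]
  unfold dotProduct
  exact Finset.sum_nonneg fun i _ => mul_self_nonneg _

theorem ratio_general (hq : 3 ≤ q) (hA : HasArray Γ q) (F : Finset V) :
    (∑ y ∈ F, ∑ z ∈ F, AM Γ y z) * ((q : ℚ) ^ 2 * ((q : ℚ) ^ 2 - q + 1)) ≤
      (q : ℚ) * F.card * ((q : ℚ) ^ 2 * ((q : ℚ) ^ 2 - q + 1)) +
        ((q : ℚ) ^ 2 - 2 * q) * (F.card : ℚ) ^ 2 := by
  set n : ℚ := (q : ℚ) ^ 2 * ((q : ℚ) ^ 2 - q + 1) with hn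
  have hq0 : (3 : ℚ) ≤ q := by exact_mod_cast hq
  have hnpos : 0 < n := by
    have : (0 : ℚ) < (q : ℚ) ^ 2 - q + 1 := by nlinarith
    positivity
  set u : V → ℚ := fun y => if y ∈ F then 1 else 0 with hu
  have h1 : qf u 1 = F.card := by
    unfold qf
    rw [Matrix.one_mulVec]
    simp [dotProduct, hu]
  have hsum : ∀ M : Matrix V V ℚ, qf u M = ∑ y ∈ F, ∑ z ∈ F, M y z := by
    intro M
    unfold qf dotProduct Matrix.mulVec dotProduct
    simp only [hu, ite_mul, one_mul, zero_mul, mul_ite, mul_one, mul_zero]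
    rw [Finset.sum_ite_mem, Finset.univ_inter]
    refine Finset.sum_congr rfl fun y _ => ?_
    rw [Finset.sum_ite_mem, Finset.univ_inter]
  have hJ : qf u (JM V) = (F.card : ℚ) ^ 2 := by
    rw [hsum]
    simp [JM, pow_two]
  have hE : 0 ≤ qf u (EM Γ q) := by
    have := qf_sq_nonneg u (EM Γ q) EM_tr
    rwa [EM_idem hq hA] at this
  -- the matrix P = Q - (1/q) A Q
  have hAt : (AM Γ).transpose = AM Γ := AM_transpose
  have hAQ : AM Γ * QM Γ q = AM Γ - (((q : ℚ) ^ 2 - q) / n) • JM V + EM Γ q := by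
    unfold QM
    rw [Matrix.mul_sub, Matrix.mul_sub, Matrix.mul_one, Matrix.mul_smul, AM_JM hq hA,
      AM_EM hq hA, sub_neg_eq_add, smul_smul, ← hn, mul_comm, ← div_eq_mul_inv]
  have hP : 0 ≤ qf u (QM Γ q - (q : ℚ)⁻¹ • (AM Γ * QM Γ q)) := by
    set P := QM Γ q - (q : ℚ)⁻¹ • (AM Γ * QM Γ q) with hPdef
    have hPt : P.transpose = P := by
      rw [hPdef, Matrix.transpose_sub, Matrix.transpose_smul, Matrix.transpose_mul, QM_tr, hAt,
        QM_AM hq hA]
    have hPP : P * P = (2 : ℚ) • P := by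
      have e1 : AM Γ * QM Γ q * QM Γ q = AM Γ * QM Γ q := by
        rw [Matrix.mul_assoc, QM_idem hq hA]
      have e2 : QM Γ q * (AM Γ * QM Γ q) = AM Γ * QM Γ q := by
        rw [← Matrix.mul_assoc, QM_AM hq hA, Matrix.mul_assoc, QM_idem hq hA]
      have e3 : AM Γ * QM Γ q * (AM Γ * QM Γ q) = (q : ℚ) ^ 2 • QM Γ q := by
        rw [Matrix.mul_assoc, e2, ← Matrix.mul_assoc, AM_AM_QM hq hA]
      have hqne : (q : ℚ) ≠ 0 := by linarith
      rw [hPdef, Matrix.sub_mul, Matrix.mul_sub, Matrix.mul_sub, Matrix.smul_mul,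
        Matrix.mul_smul, Matrix.mul_smul, Matrix.smul_mul, e1, e2, e3, QM_idem hq hA,
        smul_smul, smul_smul]
      have e4 : (q : ℚ)⁻¹ * (q : ℚ)⁻¹ * (q : ℚ) ^ 2 = 1 := by
        field_simp
      first
        | rw [e4]
        | rw [show (q : ℚ)⁻¹ * ((q : ℚ)⁻¹ * (q : ℚ) ^ 2) = 1 by field_simp]
      rw [one_smul, two_smul]
      abel
    have h2 := qf_sq_nonneg u P hPt
    rw [hPP, qf_smul] at h2
    linarith
  rw [qf_sub, qf_smul, hAQ, qf_add, qf_sub, qf_smul] at hP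
  have hQ : qf u (QM Γ q) = F.card - n⁻¹ * (F.card : ℚ) ^ 2 - qf u (EM Γ q) := by
    unfold QM
    rw [qf_sub, qf_sub, qf_smul, h1, hJ, hn]
  rw [hQ, hJ, hsum (AM Γ)] at hP
  set e := qf u (EM Γ q)
  set S := ∑ y ∈ F, ∑ z ∈ F, AM Γ y z
  set ν : ℚ := (F.card : ℚ)
  have hqpos : (0 : ℚ) < q := by linarith
  have h3 : 0 ≤ (q : ℚ) * n * (ν - n⁻¹ * ν ^ 2 - e - (q : ℚ)⁻¹ *
      (S - ((q : ℚ) ^ 2 - q) / n * ν ^ 2 + e)) := by
    have : 0 ≤ (q : ℚ) * n := by positivity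
    exact mul_nonneg this hP
  have h4 : (q : ℚ) * n * (ν - n⁻¹ * ν ^ 2 - e - (q : ℚ)⁻¹ *
      (S - ((q : ℚ) ^ 2 - q) / n * ν ^ 2 + e)) =
      q * ν * n - q * ν ^ 2 - q * n * e - n * S + ((q : ℚ) ^ 2 - q) * ν ^ 2 - n * e := by
    field_simp
    ring
  rw [h4] at h3
  have h5 : 0 ≤ (q : ℚ) * n * e := by positivity
  have h6 : 0 ≤ n * e := by positivity
  nlinarith

end

end Pool.Agent.Lib.MP_eb4ae8_co
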