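import Pool.Agent.Lib.MP_eb4ae8_co.Hig1
import Pool.Agent.Lib.MP_eb4ae8_co.FinP
import Pool.Agent.Lib.MP_eb4ae8_co.Tra

/-! Automorphisms of prime order `r = q^2 - q + 1`. -/

namespace Pool.Agent.Lib.MP_eb4ae8_co

variable {V : Type*} {Γ : SimpleGraph V} {q : ℕ}

private theorem sca_lt (hq : 3 ≤ q) : q + 1 < q ^ 2 - q + 1 := by
  obtain ⟨k, rfl⟩ : ∃ k, q = k + 3 := ⟨q - 3, by omega⟩
  have h : (k + 3) ^ 2 = k * k + 6 * k + 9 := by ring
  omega

/-- every element `≠ 1` of `⟨c⟩` has order `r > q + 1`, so it fixes no vertex (`large_prime`). -/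
theorem zpowers_semiregular [Finite V] (hq : 3 ≤ q) (hA : HasArray Γ q)
    (hr : (q ^ 2 - q + 1).Prime) (c : Γ ≃g Γ) (hc : orderOf c = q ^ 2 - q + 1) :
    Semiregular (Subgroup.zpowers c) := by
  intro g hg x hx
  have h1 : orderOf g ∣ orderOf c := orderOf_dvd_of_mem_zpowers hg
  rw [hc, Nat.dvd_prime hr] at h1
  rcases h1 with h1 | h1
  · exact orderOf_eq_one_iff.mp h1
  · exact absurd hx ((large_prime hq hA g (by rw [h1]; exact hr) (by rw [h1]; exact sca_lt hq)).1 x)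

/-- `moved c 0 = 0`, `moved c 3 = r t` with `t ≤ q^2` (`card_dvd_moved`, `card_nat`); by `higman`
`(q^2-1) ∣ r t - q^2 (q+1)`, and `r (q+1) - q^2 (q+1) = 1 - q^2`, so `(q^2-1) ∣ r (t - (q+1))`; `r`
is a prime `> q + 1`, so `(q^2-1) ∣ t - (q+1)` and `t = q + 1`. Then `π = -1` in `higman_one` and
`moved c 1 = r + q z = r a`, so `a ≡ 1 (mod q)` as `r ≡ 1 (mod q)`. -/
theorem order_facts [Finite V] (hq : 3 ≤ q) (hA : HasArray Γ q)
    (hr : (q ^ 2 - q + 1).Prime) (c : Γ ≃g Γ) (hc : orderOf c = q ^ 2 - q + 1) :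
    moved Γ c 3 = (q ^ 2 - q + 1) * (q + 1) ∧
      ∃ a : ℕ, moved Γ c 1 = (q ^ 2 - q + 1) * a ∧ a % q = 1 := by
  have hs := zpowers_semiregular hq hA hr c hc
  have hmem : c ∈ Subgroup.zpowers c := Subgroup.mem_zpowers c
  have hc1 : c ≠ 1 := by
    intro h
    rw [h, orderOf_one] at hc
    rw [← hc] at hr
    exact Nat.not_prime_one hr
  have hab : ∀ a ∈ Subgroup.zpowers c, ∀ b ∈ Subgroup.zpowers c, a * b = b * a := by
    rintro _ ⟨m, rfl⟩ _ ⟨n, rfl⟩
    exact (Commute.refl c).zpow_zpow m n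
  have h0 : moved Γ c 0 = 0 := moved_zero hA.conn _ hs c hmem hc1
  have hcard : Nat.card (Subgroup.zpowers c) = q ^ 2 - q + 1 := by rw [Nat.card_zpowers, hc]
  have h3 := card_dvd_moved _ hs hab c hmem 3
  have h4 := card_dvd_moved _ hs hab c hmem 1
  rw [hcard] at h3 h4
  obtain ⟨t, ht⟩ := h3
  obtain ⟨a, ha⟩ := h4
  have hle : moved Γ c 3 ≤ q ^ 2 * (q ^ 2 - q + 1) := by
    rw [← card_nat hq hA]
    exact Finite.card_subtype_le _
  have hpos : 0 < q ^ 2 - q + 1 := Nat.succ_pos _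
  have htle : t ≤ q ^ 2 := by
    rw [ht, mul_comm] at hle
    exact Nat.le_of_mul_le_mul_right hle hpos
  have hlt := sca_lt hq
  have hqq : q ≤ q ^ 2 := by nlinarith
  have hcast : ((q ^ 2 - q + 1 : ℕ) : ℤ) = (q : ℤ) ^ 2 - q + 1 := by
    push_cast [Nat.cast_sub hqq]
    ring
  obtain ⟨π, z, e1, e2⟩ := higman_one hq hA c
  rw [h0, ht] at e1
  rw [ha] at e2
  push_cast [Nat.cast_sub hqq] at e1 e2
  have hq3 : (3 : ℤ) ≤ q := by exact_mod_cast hq
  have htz : (t : ℤ) ≤ (q : ℤ) ^ 2 := by exact_mod_cast htle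
  have key : ((q : ℤ) ^ 2 - q + 1) * ((t : ℤ) - (q + 1)) = ((q : ℤ) ^ 2 - 1) * (π + 1) := by
    linear_combination e1
  have hprime : Prime ((q : ℤ) ^ 2 - q + 1) := by
    rw [← hcast]
    exact Nat.prime_iff_prime_int.mp hr
  have hnd : ¬ ((q : ℤ) ^ 2 - q + 1) ∣ ((q : ℤ) ^ 2 - 1) := by
    intro h
    have e : ((q : ℤ) ^ 2 - 1) = (q - 1) * (q + 1) := by ring
    rw [e] at h
    rcases hprime.dvd_or_dvd h with h | h
    · have := Int.le_of_dvd (by linarith) h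
      nlinarith
    · have := Int.le_of_dvd (by linarith) h
      nlinarith
  have hcop : IsCoprime ((q : ℤ) ^ 2 - 1) ((q : ℤ) ^ 2 - q + 1) :=
    ((Prime.coprime_iff_not_dvd hprime).mpr hnd).symm
  have hdvd : ((q : ℤ) ^ 2 - 1) ∣ ((t : ℤ) - (q + 1)) :=
    hcop.dvd_of_dvd_mul_left (Dvd.intro _ key.symm)
  have ht0 : (0 : ℤ) ≤ t := Int.natCast_nonneg t
  have htq : (t : ℤ) = q + 1 := by
    obtain ⟨m, hm⟩ := hdvd
    have hm0 : m = 0 := by
      have hp : 0 < (q : ℤ) ^ 2 - 1 := by nlinarith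
      rcases lt_trichotomy m 0 with h | h | h
      · exfalso
        have : ((q : ℤ) ^ 2 - 1) * m ≤ ((q : ℤ) ^ 2 - 1) * (-1) :=
          mul_le_mul_of_nonneg_left (by omega) hp.le
        nlinarith
      · exact h
      · exfalso
        have : ((q : ℤ) ^ 2 - 1) * 1 ≤ ((q : ℤ) ^ 2 - 1) * m :=
          mul_le_mul_of_nonneg_left (by omega) hp.le
        nlinarith
    rw [hm0, mul_zero] at hm
    linarith
  have htn : t = q + 1 := by exact_mod_cast htq
  have hπ : π = -1 := by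
    rw [htq, sub_self, mul_zero] at key
    have hp : (q : ℤ) ^ 2 - 1 ≠ 0 := by nlinarith
    rcases mul_eq_zero.mp key.symm with h | h
    · exact absurd h hp
    · linarith
  refine ⟨by rw [ht, htn], a, ha, ?_⟩
  have e3 : ((a : ℤ) - 1) = q * (z - (q - 1) * (a - 1)) := by
    rw [hπ] at e2
    linear_combination e2
  have e4 : (a : ℤ) % q = 1 := by
    have e5 : (a : ℤ) = 1 + q * (z - (q - 1) * (a - 1)) := by linarith
    rw [e5, Int.add_mul_emod_self_left]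
    exact Int.emod_eq_of_lt (by norm_num) (by linarith)
  exact_mod_cast e4

end Pool.Agent.Lib.MP_eb4ae8_co
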