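import Pool.Agent.Lib.MP_eb4ae8_co.SCa
import Pool.Agent.Lib.MP_eb4ae8_co.Eps

/-! Most elements of `⟨c⟩` move exactly `r` vertices to a neighbour. -/

namespace Pool.Agent.Lib.MP_eb4ae8_co

variable {V : Type*} {Γ : SimpleGraph V} {q : ℕ}

/-- Let `M = ⟨c⟩`. By `eps_le_two` and double counting, `∑_{c' ∈ M} moved c' 1 ≤ 2 n = 2 q^2 r`. For
`c' ∈ M`, `c' ≠ 1` (order `r`), `order_facts` gives `moved c' 1 = r a` with `a = 1` or
`a ≥ q + 1`. If `k` of the `r - 1 = q^2 - q` elements have `a = 1`, then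
`k + (q^2-q-k)(q+1) ≤ 2 q^2`, i.e. `q^3 - 2 q^2 - q ≤ q k`. -/
theorem many_one [Finite V] (hq : 3 ≤ q) (hA : HasArray Γ q)
    (hr : (q ^ 2 - q + 1).Prime) (c : Γ ≃g Γ) (hc : orderOf c = q ^ 2 - q + 1) :
    q ^ 2 ≤ Nat.card {c' : Subgroup.zpowers c // moved Γ (c' : Γ ≃g Γ) 1 = q ^ 2 - q + 1}
      + 2 * q + 1 := by
  classical
  have : Fintype V := Fintype.ofFinite V
  have hq2 : q ≤ q ^ 2 := by nlinarith
  set r := q ^ 2 - q + 1 with hrdef
  have hrq : r + q = q ^ 2 + 1 := by omega
  have hrpos : 0 < r := by omega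
  have hcardM : Nat.card (Subgroup.zpowers c) = r := by rw [Nat.card_zpowers, hc]
  have hfinM : Finite (Subgroup.zpowers c) := Nat.finite_of_card_ne_zero (by omega)
  have : Fintype (Subgroup.zpowers c) := Fintype.ofFinite _
  have hcM : Fintype.card (Subgroup.zpowers c) = r := by rw [← Nat.card_eq_fintype_card, hcardM]
  have hcV : Fintype.card V = q ^ 2 * r := by rw [← Nat.card_eq_fintype_card, card_nat hq hA]
  have hs : Semiregular (Subgroup.zpowers c) := zpowers_semiregular hq hA hr c hc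
  have hab : ∀ a ∈ Subgroup.zpowers c, ∀ b ∈ Subgroup.zpowers c, a * b = b * a := by
    rintro a ⟨m, rfl⟩ b ⟨n, rfl⟩
    show c ^ m * c ^ n = c ^ n * c ^ m
    rw [← zpow_add, ← zpow_add, add_comm]
  have hmoved : ∀ m : Subgroup.zpowers c, moved Γ (m : Γ ≃g Γ) 1
      = ((Finset.univ : Finset V).filter (fun x => Γ.dist x ((m : Γ ≃g Γ) x) = 1)).card := by
    intro m
    unfold moved
    rw [Nat.card_eq_fintype_card, Fintype.card_subtype]
  have heps : ∀ x : V, ((Finset.univ : Finset (Subgroup.zpowers c)).filter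
      (fun m : Subgroup.zpowers c => Γ.dist x ((m : Γ ≃g Γ) x) = 1)).card ≤ 2 := by
    intro x
    have h := eps_le_two hq hA (Subgroup.zpowers c) hs hab x
    rwa [Nat.card_eq_fintype_card, Fintype.card_subtype] at h
  have hdc := Finset.sum_card_bipartiteAbove_eq_sum_card_bipartiteBelow
    (s := (Finset.univ : Finset (Subgroup.zpowers c))) (t := (Finset.univ : Finset V))
    (r := fun (m : Subgroup.zpowers c) (x : V) => Γ.dist x ((m : Γ ≃g Γ) x) = 1)
  have hS : ∑ m : Subgroup.zpowers c, moved Γ (m : Γ ≃g Γ) 1 ≤ 2 * (q ^ 2 * r) := by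
    have h1 : ∑ m : Subgroup.zpowers c, moved Γ (m : Γ ≃g Γ) 1
        = ∑ x : V, ((Finset.univ : Finset (Subgroup.zpowers c)).filter
          (fun m : Subgroup.zpowers c => Γ.dist x ((m : Γ ≃g Γ) x) = 1)).card := by
      rw [Finset.sum_congr rfl (fun m _ => hmoved m)]
      exact hdc
    rw [h1]
    refine le_trans (Finset.sum_le_sum (fun x _ => heps x)) ?_
    rw [Finset.sum_const, Finset.card_univ, hcV, smul_eq_mul, mul_comm]
  have hpt : ∀ m : Subgroup.zpowers c, r * (q + 1) ≤ moved Γ (m : Γ ≃g Γ) 1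
      + (if moved Γ (m : Γ ≃g Γ) 1 = r then r * q else 0)
      + (if m = 1 then r * (q + 1) else 0) := by
    intro m
    by_cases h1 : m = 1
    · rw [if_pos h1]
      omega
    · rw [if_neg h1]
      have hord : orderOf (m : Γ ≃g Γ) = r := by
        have hd : orderOf m ∣ r := by
          rw [← hcardM]
          exact orderOf_dvd_natCard m
        rcases (Nat.dvd_prime hr).mp hd with h | h
        · exact absurd (orderOf_eq_one_iff.mp h) h1
        · rw [Subgroup.orderOf_coe]
          exact h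
      obtain ⟨_, a, ha, ha1⟩ := order_facts hq hA hr (m : Γ ≃g Γ) hord
      have hdm := Nat.div_add_mod a q
      rw [ha1] at hdm
      rcases Nat.eq_zero_or_pos (a / q) with h0 | hpos
      · rw [h0] at hdm
        have ha' : a = 1 := by omega
        rw [ha, ha', mul_one, if_pos hrdef.symm]
        have : r * (q + 1) = r + r * q := by ring
        rw [← hrdef]
        omega
      · have ha' : q + 1 ≤ a := by nlinarith
        have h2 : r * (q + 1) ≤ moved Γ (m : Γ ≃g Γ) 1 := by
          rw [ha]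
          exact Nat.mul_le_mul_left _ ha'
        omega
  have hsum := Finset.sum_le_sum (s := (Finset.univ : Finset (Subgroup.zpowers c))) (fun m _ => hpt m)
  rw [Finset.sum_const, Finset.card_univ, hcM, Finset.sum_add_distrib, Finset.sum_add_distrib,
    Finset.sum_ite_eq' Finset.univ (1 : Subgroup.zpowers c), if_pos (Finset.mem_univ _),
    ← Finset.sum_filter, Finset.sum_const, smul_eq_mul, smul_eq_mul] at hsum
  have hk : Nat.card {c' : Subgroup.zpowers c // moved Γ (c' : Γ ≃g Γ) 1 = r}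
      = ((Finset.univ : Finset (Subgroup.zpowers c)).filter
        (fun m : Subgroup.zpowers c => moved Γ (m : Γ ≃g Γ) 1 = r)).card := by
    rw [Nat.card_eq_fintype_card, Fintype.card_subtype]
  rw [hk]
  set k := ((Finset.univ : Finset (Subgroup.zpowers c)).filter
        (fun m : Subgroup.zpowers c => moved Γ (m : Γ ≃g Γ) 1 = r)).card with hkdef
  -- divide by `r`
  have h3 : r * (r * (q + 1)) ≤ r * (2 * q ^ 2 + k * q + (q + 1)) := by
    calc r * (r * (q + 1)) ≤ _ := hsum
      _ ≤ 2 * (q ^ 2 * r) + k * (r * q) + r * (q + 1) := by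
          gcongr
      _ = r * (2 * q ^ 2 + k * q + (q + 1)) := by ring
  have h4 : r * (q + 1) ≤ 2 * q ^ 2 + k * q + (q + 1) := Nat.le_of_mul_le_mul_left h3 hrpos
  have h5 : q * q ^ 2 ≤ q * (k + 2 * q + 1) := by
    have h6 : r * (q + 1) + q * (q + 1) = (q ^ 2 + 1) * (q + 1) := by rw [← hrq]; ring
    nlinarith
  exact Nat.le_of_mul_le_mul_left h5 (by omega)

end Pool.Agent.Lib.MP_eb4ae8_co
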