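import Pool.Agent.Lib.MP_eb4ae8_co.SCb
import Pool.Agent.Lib.MP_eb4ae8_co.Few

/-! An element of prime order `r = q^2 - q + 1` generates its centraliser. -/

namespace Pool.Agent.Lib.MP_eb4ae8_co

variable {V : Type*} {Γ : SimpleGraph V} {q : ℕ}

private theorem scc_zpow_comm {c h m : Γ ≃g Γ} (hh : h * c = c * h)
    (hm : m ∈ Subgroup.zpowers c) : h * m = m * h := by
  obtain ⟨k, rfl⟩ := Subgroup.mem_zpowers_iff.1 hm
  exact (Commute.zpow_right (show Commute h c from hh) k).eq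

private theorem scc_adj {c h c' : Γ ≃g Γ} (hh : h * c = c * h)
    (hc' : c' ∈ Subgroup.zpowers c) {x : V} (hx : Γ.dist x (c' x) = 1) :
    Γ.dist (h x) (c' (h x)) = 1 := by
  rw [SimpleGraph.dist_eq_one_iff_adj] at hx ⊢
  have h1 : c' (h x) = h (c' x) := by
    have h2 := congrArg (fun t : Γ ≃g Γ => t x) (scc_zpow_comm hh hc')
    exact h2.symm
  rw [h1]
  exact h.map_adj_iff.2 hx

/-- the `r` vertices moved by `c'` to a neighbour form one orbit of `⟨c⟩`. -/
private theorem scc_orbit [Finite V] {c : Γ ≃g Γ} {r : ℕ}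
    (hs : Semiregular (Subgroup.zpowers c)) (hcard : Nat.card (Subgroup.zpowers c) = r)
    {c' : Γ ≃g Γ} (hc' : c' ∈ Subgroup.zpowers c) (hmov : moved Γ c' 1 = r)
    {h : Γ ≃g Γ} (hh : h * c = c * h) {x : V} (hx : Γ.dist x (c' x) = 1) :
    ∃ m ∈ Subgroup.zpowers c, h x = m x := by
  classical
  let φ : Subgroup.zpowers c → {y : V // Γ.dist y (c' y) = 1} := fun m =>
    ⟨(m : Γ ≃g Γ) x, scc_adj (scc_zpow_comm rfl m.2).symm hc' hx⟩
  have hinj : Function.Injective φ := by
    intro m n hmn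
    have h1 : (m : Γ ≃g Γ) x = (n : Γ ≃g Γ) x := congrArg Subtype.val hmn
    have h2 : ((n : Γ ≃g Γ)⁻¹ * (m : Γ ≃g Γ)) x = x := by
      change (n : Γ ≃g Γ)⁻¹ ((m : Γ ≃g Γ) x) = x
      rw [h1]
      change ((n : Γ ≃g Γ)⁻¹ * (n : Γ ≃g Γ)) x = x
      rw [inv_mul_cancel]
      rfl
    have h3 := hs _ ((Subgroup.zpowers c).mul_mem ((Subgroup.zpowers c).inv_mem n.2) m.2) x h2
    exact Subtype.ext (inv_mul_eq_one.1 h3).symm
  have hbij : Function.Bijective φ := by
    refine (Nat.bijective_iff_injective_and_card φ).2 ⟨hinj, ?_⟩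
    rw [hcard, ← hmov]
    rfl
  obtain ⟨m, hm⟩ := hbij.2 ⟨h x, scc_adj hh hc' hx⟩
  exact ⟨m, m.2, (congrArg Subtype.val hm).symm⟩

private theorem scc_pow {c h m : Γ ≃g Γ} (hh : h * c = c * h) (hm : m ∈ Subgroup.zpowers c)
    {x : V} (hx : h x = m x) (k : ℕ) : (h ^ k) x = (m ^ k) x := by
  induction k with
  | zero => rfl
  | succ k ih =>
    have h1 : (h ^ (k + 1)) x = h ((h ^ k) x) := by
      rw [pow_succ']
      rfl
    have h2 : h ((m ^ k) x) = (m ^ k) (h x) := by
      have h3 := congrArg (fun t : Γ ≃g Γ => t x)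
        (scc_zpow_comm hh ((Subgroup.zpowers c).pow_mem hm k))
      exact h3
    rw [h1, ih, h2, hx, pow_succ]
    rfl

/-- Let `g c = c g`, and let `c' ∈ ⟨c⟩` with `moved c' 1 = r`. The set `D` of the `r` vertices `x`
with `dist x (c' x) = 1` is invariant under `g` and under `⟨c⟩`, which acts freely, so it is one orbit
of `⟨c⟩`: for `x ∈ D` there is `j` with `g x = c ^ j x`. Fix one such `c'₀`, `x₀ ∈ D₀` and `j₀`, and
put `g₀ = g c^{-j₀}`, which commutes with `c` and fixes `x₀`. For each `c'` as above and `x ∈ D` we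
still have `g₀ x = c ^ j x` for some `j`, so `g₀ ^ r x = x`. A vertex lies in at most two of the sets
`D` (`eps_le_two` for `⟨c⟩`), so `g₀ ^ r` fixes at least `r k / 2` vertices, `k ≥ q^2 - 2 q - 1`
(`many_one`). If `g₀ ^ r ≠ 1`, `few_fixed` gives `(q-2) r k / 2 ≤ q r`, so
`(q-2)(q^2-2q-1) ≤ 2 q`, false for `q ≥ 4`. So `g₀ ^ r = 1`; if `g₀ ≠ 1` it has order `r` and fixes
`x₀`, against `zpowers_semiregular` for `g₀`. So `g₀ = 1`. -/
theorem self_centralizing [Finite V] (hq : 4 ≤ q) (hA : HasArray Γ q)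
    (hr : (q ^ 2 - q + 1).Prime) (c : Γ ≃g Γ) (hc : orderOf c = q ^ 2 - q + 1)
    (g : Γ ≃g Γ) (hg : g * c = c * g) : g ∈ Subgroup.zpowers c := by
  classical
  have hq3 : 3 ≤ q := by omega
  haveI : Finite (Γ ≃g Γ) :=
    Finite.of_injective (fun g : Γ ≃g Γ => (g : V → V)) DFunLike.coe_injective
  letI : Fintype V := Fintype.ofFinite V
  letI : Fintype (Subgroup.zpowers c) := Fintype.ofFinite _
  have hs := zpowers_semiregular hq3 hA hr c hc
  have hmany := many_one hq3 hA hr c hc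
  have hcard : Nat.card (Subgroup.zpowers c) = q ^ 2 - q + 1 := by
    rw [Nat.card_zpowers, hc]
  have hab : ∀ a ∈ Subgroup.zpowers c, ∀ b ∈ Subgroup.zpowers c, a * b = b * a := by
    intro a ha b hb
    exact scc_zpow_comm (scc_zpow_comm rfl ha).symm hb
  have heps := eps_le_two hq3 hA (Subgroup.zpowers c) hs hab
  generalize hrdef : q ^ 2 - q + 1 = r at hr hc hmany hcard
  have hr0 : 0 < r := hr.pos
  set K : Finset (Subgroup.zpowers c) :=
    Finset.univ.filter fun c' => moved Γ (c' : Γ ≃g Γ) 1 = r with hK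
  have hKcard : Nat.card {c' : Subgroup.zpowers c // moved Γ (c' : Γ ≃g Γ) 1 = r} = K.card := by
    rw [Nat.card_eq_fintype_card, Fintype.card_subtype]
  rw [hKcard] at hmany
  have hqq : 4 * q ≤ q ^ 2 := by nlinarith
  have hKpos : 0 < K.card := by omega
  obtain ⟨c0, hc0⟩ := Finset.card_pos.1 hKpos
  have hc0m : moved Γ (c0 : Γ ≃g Γ) 1 = r := by
    rw [hK, Finset.mem_filter] at hc0
    exact hc0.2
  obtain ⟨x0, hx0⟩ : ∃ x0, Γ.dist x0 ((c0 : Γ ≃g Γ) x0) = 1 := by
    by_contra hno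
    push Not at hno
    have : moved Γ (c0 : Γ ≃g Γ) 1 = 0 := by
      unfold moved
      rw [Nat.card_eq_zero]
      left
      exact ⟨fun z => hno z.1 z.2⟩
    omega
  obtain ⟨m0, hm0, hgx0⟩ := scc_orbit hs hcard c0.2 hc0m hg hx0
  set g0 : Γ ≃g Γ := m0⁻¹ * g with hg0
  have hg0c : g0 * c = c * g0 := by
    have h1 : m0⁻¹ * c = c * m0⁻¹ :=
      hab _ ((Subgroup.zpowers c).inv_mem hm0) _ (Subgroup.mem_zpowers c)
    rw [hg0, mul_assoc, hg, ← mul_assoc, h1, mul_assoc]
  have hg0x : g0 x0 = x0 := by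
    change m0⁻¹ (g x0) = x0
    rw [hgx0]
    change (m0⁻¹ * m0) x0 = x0
    rw [inv_mul_cancel]
    rfl
  have hfix : ∀ c' ∈ K, ∀ x : V, Γ.dist x ((c' : Γ ≃g Γ) x) = 1 → (g0 ^ r) x = x := by
    intro c' hc' x hx
    rw [hK, Finset.mem_filter] at hc'
    obtain ⟨m, hm, hgx⟩ := scc_orbit hs hcard c'.2 hc'.2 hg0c hx
    rw [scc_pow hg0c hm hgx r]
    have h1 : m ^ r = 1 := by
      obtain ⟨k, rfl⟩ := Subgroup.mem_zpowers_iff.1 hm
      rw [← zpow_natCast, ← zpow_mul, mul_comm, zpow_mul, zpow_natCast, ← hc, pow_orderOf_eq_one,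
        one_zpow]
    rw [h1]
    rfl
  have hpow : g0 ^ r = 1 := by
    by_contra hne
    have hfew := few_fixed hq3 hA (g0 ^ r) hne
    rw [hrdef] at hfew
    set F : Finset V := Finset.univ.filter fun x => (g0 ^ r) x = x with hF
    have hFc : Nat.card {x : V // (g0 ^ r) x = x} = F.card := by
      rw [Nat.card_eq_fintype_card, Fintype.card_subtype]
    rw [hFc] at hfew
    have hdc := Finset.sum_card_bipartiteAbove_eq_sum_card_bipartiteBelow (s := K)
      (t := (Finset.univ : Finset V)) (fun (c' : Subgroup.zpowers c) (x : V) =>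
        Γ.dist x ((c' : Γ ≃g Γ) x) = 1)
    have hleft : ∀ c' ∈ K, ((Finset.univ : Finset V).bipartiteAbove
        (fun (c' : Subgroup.zpowers c) (x : V) => Γ.dist x ((c' : Γ ≃g Γ) x) = 1) c').card = r := by
      intro c' hc'
      rw [hK, Finset.mem_filter] at hc'
      rw [← hc'.2, moved, Nat.card_eq_fintype_card, Fintype.card_subtype]
      rfl
    rw [Finset.sum_congr rfl hleft, Finset.sum_const, smul_eq_mul] at hdc
    have hright : ∑ x : V, (K.bipartiteBelow
        (fun (c' : Subgroup.zpowers c) (x : V) => Γ.dist x ((c' : Γ ≃g Γ) x) = 1) x).card ≤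
        ∑ x : V, if x ∈ F then 2 else 0 := by
      refine Finset.sum_le_sum fun x _ => ?_
      split_ifs with hxF
      · have h1 := heps x
        rw [Nat.card_eq_fintype_card, Fintype.card_subtype] at h1
        refine le_trans (Finset.card_le_card ?_) h1
        intro c' hc'
        rw [Finset.mem_bipartiteBelow] at hc'
        rw [Finset.mem_filter]
        exact ⟨Finset.mem_univ _, hc'.2⟩
      · rw [Nat.le_zero, Finset.card_eq_zero, Finset.eq_empty_iff_forall_notMem]
        intro c' hc'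
        rw [Finset.mem_bipartiteBelow] at hc'
        apply hxF
        rw [hF, Finset.mem_filter]
        exact ⟨Finset.mem_univ _, hfix c' hc'.1 x hc'.2⟩
    rw [← hdc, ← Finset.sum_filter, Finset.sum_const, smul_eq_mul, Finset.filter_mem_eq_inter,
      Finset.univ_inter] at hright
    have h1 : (q - 2) * (K.card * r) ≤ (q - 2) * (F.card * 2) := Nat.mul_le_mul_left _ hright
    have h2 : (q - 2) * K.card * r ≤ 2 * q * r := by
      calc (q - 2) * K.card * r = (q - 2) * (K.card * r) := by ring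
        _ ≤ (q - 2) * (F.card * 2) := h1
        _ = 2 * ((q - 2) * F.card) := by ring
        _ ≤ 2 * (q * r) := Nat.mul_le_mul_left _ hfew
        _ = 2 * q * r := by ring
    have h3 : (q - 2) * K.card ≤ 2 * q := Nat.le_of_mul_le_mul_right h2 hr0
    have h4 : 2 * (2 * q - 1) ≤ (q - 2) * K.card := Nat.mul_le_mul (by omega) (by omega)
    omega
  have hg01 : g0 = 1 := by
    by_contra hne
    haveI : Fact r.Prime := ⟨hr⟩
    have hord : orderOf g0 = r := orderOf_eq_prime hpow hne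
    rw [← hrdef] at hord hr
    exact hne (zpowers_semiregular hq3 hA hr g0 hord g0 (Subgroup.mem_zpowers g0) x0 hg0x)
  have hgm : g = m0 := by
    have h1 : m0⁻¹ * g = 1 := hg01
    exact (inv_mul_eq_one.1 h1).symm
  rw [hgm]
  exact hm0

end Pool.Agent.Lib.MP_eb4ae8_co
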